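import Pool.Agent.Lib_MP_644907_f.MB

/-!
# Piece ACT: the action of the group
-/

set_option autoImplicit false

open Complex MeasureTheory Metric
open scoped ContDiff

namespace Pool.Agent.DimDropF

namespace FG

variable {Γ : Type} [Group Γ] (G : FG Γ)

theorem m_lt (γ : Γ) {z : ℂ} (hz : ‖z‖ < 1) : ‖G.m γ z‖ < 1 := by
  exact norm_mb_lt (G.nrm γ) hz

theorem m_one {z : ℂ} (hz : ‖z‖ < 1) : G.m 1 z = z := by
  exact G.one' z hz

theorem m_mul (γ δ : Γ) {z : ℂ} (hz : ‖z‖ < 1) : G.m (γ * δ) z = G.m γ (G.m δ z) := by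
  exact G.mul' γ δ z hz

theorem m_inv (γ : Γ) {z : ℂ} (hz : ‖z‖ < 1) : G.m γ⁻¹ (G.m γ z) = z := by
  rw [← G.m_mul γ⁻¹ γ hz, inv_mul_cancel, G.m_one hz]

theorem m_inv' (γ : Γ) {z : ℂ} (hz : ‖z‖ < 1) : G.m γ (G.m γ⁻¹ z) = z := by
  rw [← G.m_mul γ γ⁻¹ hz, mul_inv_cancel, G.m_one hz]

theorem hasDerivAt_m (γ : Γ) {z : ℂ} (hz : ‖z‖ < 1) : HasDerivAt (G.m γ) (G.d γ z) z := by
  exact hasDerivAt_mb (G.nrm γ) hz.le

/-- chain rule and uniqueness of the derivative (the two functions agree on the open disc) -/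
theorem d_mul (γ δ : Γ) {z : ℂ} (hz : ‖z‖ < 1) : G.d (γ * δ) z = G.d γ (G.m δ z) * G.d δ z := by
  have h1 : HasDerivAt (G.m (γ * δ)) (G.d (γ * δ) z) z := G.hasDerivAt_m (γ * δ) hz
  have h2 : HasDerivAt (fun w => G.m γ (G.m δ w)) (G.d γ (G.m δ z) * G.d δ z) z :=
    HasDerivAt.comp z (G.hasDerivAt_m γ (G.m_lt δ hz)) (G.hasDerivAt_m δ hz)
  have h3 : G.m (γ * δ) =ᶠ[nhds z] (fun w => G.m γ (G.m δ w)) := by
    filter_upwards [isOpen_ball.mem_nhds (show z ∈ ball (0:ℂ) 1 by simpa using hz)] with w hw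
    exact G.m_mul γ δ (by simpa using hw)
  exact h1.unique (h2.congr_of_eventuallyEq h3)

theorem d_one {z : ℂ} (hz : ‖z‖ < 1) : G.d 1 z = 1 := by
  have h1 : HasDerivAt (G.m 1) (G.d 1 z) z := G.hasDerivAt_m 1 hz
  have h3 : G.m 1 =ᶠ[nhds z] (fun w => w) := by
    filter_upwards [isOpen_ball.mem_nhds (show z ∈ ball (0:ℂ) 1 by simpa using hz)] with w hw
    exact G.m_one (by simpa using hw)
  exact h1.unique ((hasDerivAt_id' z).congr_of_eventuallyEq h3)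

theorem d_ne (γ : Γ) {z : ℂ} (hz : ‖z‖ < 1) : G.d γ z ≠ 0 := by
  exact dmb_ne (G.nrm γ) hz.le

theorem one_sub (γ : Γ) {z : ℂ} (hz : ‖z‖ < 1) : 1 - ‖G.m γ z‖ ^ 2 = (1 - ‖z‖ ^ 2) * ‖G.d γ z‖ := by
  exact one_sub_mb (G.nrm γ) hz.le

/-- `mb_zero_of` and `fin'` -/
theorem finite2 (r R : ℝ) (hr : r < 1) (hR : R < 1) : {γ | ∃ z : ℂ, ‖z‖ ≤ R ∧ ‖G.m γ z‖ ≤ r}.Finite := by
  by_cases h0 : 0 ≤ r
  · have e1 : (0:ℝ) < 1 - r ^ 2 := by nlinarith
    have e2 : (0:ℝ) < (1 - R) ^ 2 := by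
      have : (0:ℝ) < 1 - R := by linarith
      positivity
    have e3 : 0 < (1 - r ^ 2) * (1 - R) ^ 2 := mul_pos e1 e2
    refine (G.fin' (Real.sqrt (1 - (1 - r ^ 2) * (1 - R) ^ 2)) ?_).subset ?_
    · rw [Real.sqrt_lt' one_pos]
      linarith
    · rintro γ ⟨z, hz, hm⟩
      exact Real.le_sqrt_of_sq_le (mb_zero_of (G.nrm γ) hr hR hz hm)
  · convert Set.finite_empty (α := Γ)
    rw [Set.eq_empty_iff_forall_notMem]
    rintro γ ⟨z, hz, hm⟩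
    exact h0 ((norm_nonneg _).trans hm)

include G in
/-- union over `n` of the finite sets `{γ | |γ 0| ≤ 1 - 1/(n+1)}` -/
theorem countable : Countable Γ := by
  rw [← Set.countable_univ_iff]
  have h : (Set.univ : Set Γ) ⊆ ⋃ n : ℕ, {γ | ‖mb (G.a γ) (G.b γ) 0‖ ≤ 1 - 1 / ((n : ℝ) + 1)} := by
    intro γ _
    have h1 : ‖mb (G.a γ) (G.b γ) 0‖ < 1 := norm_mb_lt (G.nrm γ) (by simp)
    obtain ⟨n, hn⟩ := exists_nat_one_div_lt (sub_pos.2 h1)
    refine Set.mem_iUnion.2 ⟨n, ?_⟩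
    show ‖mb (G.a γ) (G.b γ) 0‖ ≤ 1 - 1 / ((n : ℝ) + 1)
    linarith
  refine Set.Countable.mono h (Set.countable_iUnion fun n => (G.fin' _ ?_).countable)
  have : (0:ℝ) < 1 / ((n : ℝ) + 1) := by positivity
  linarith

theorem m_measurable (γ : Γ) : Measurable (G.m γ) := by
  exact measurable_mb _ _

theorem d_measurable (γ : Γ) : Measurable (G.d γ) := by
  exact measurable_dmb _ _

theorem d_contOn (γ : Γ) : ContinuousOn (G.d γ) (ball 0 1) := by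
  have h1 : ContinuousOn (fun z : ℂ => (1:ℂ) / (starRingEnd ℂ (G.b γ) * z + starRingEnd ℂ (G.a γ)) ^ 2)
      (ball 0 1) := by
    refine continuousOn_const.div (by fun_prop) ?_
    intro z hz
    have hz' : ‖z‖ ≤ 1 := (by simpa using hz : ‖z‖ < 1).le
    exact pow_ne_zero 2 (den_ne (G.nrm γ) hz')
  exact h1

theorem m_diffOn (γ : Γ) : DifferentiableOn ℂ (G.m γ) (ball 0 1) := by
  intro z hz
  exact (G.hasDerivAt_m γ (by simpa using hz)).differentiableAt.differentiableWithinAt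

theorem injOn (γ : Γ) : Set.InjOn (G.m γ) (ball 0 1) := by
  exact (mb_injOn (G.nrm γ)).mono ball_subset_closedBall

/-- the preimage in the disc is the image of `N ∩ disc` under the differentiable map `m γ⁻¹`
(`MeasureTheory.addHaar_image_eq_zero_of_differentiableOn_of_addHaar_eq_zero`) -/
theorem null (γ : Γ) (N : Set ℂ) (hN : volume N = 0) : volume {z : ℂ | ‖z‖ < 1 ∧ G.m γ z ∈ N} = 0 := by
  have h1 : {z : ℂ | ‖z‖ < 1 ∧ G.m γ z ∈ N} ⊆ G.m γ⁻¹ '' (N ∩ ball 0 1) := by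
    rintro z ⟨hz, hzN⟩
    exact ⟨G.m γ z, ⟨hzN, by simpa using G.m_lt γ hz⟩, G.m_inv γ hz⟩
  refine measure_mono_null h1 ?_
  refine addHaar_image_eq_zero_of_differentiableOn_of_addHaar_eq_zero volume
    (((G.m_diffOn γ⁻¹).restrictScalars ℝ).mono Set.inter_subset_right) ?_
  exact measure_mono_null Set.inter_subset_left hN

theorem ae_comp (γ : Γ) (P : ℂ → Prop) (h : ∀ᵐ z ∂(volume.restrict (ball (0:ℂ) 1)), P z) :
    ∀ᵐ z ∂(volume.restrict (ball (0:ℂ) 1)), P (G.m γ z) := by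
  rw [ae_restrict_iff' measurableSet_ball] at h ⊢
  have h2 := G.null γ {z | ¬ (z ∈ ball (0:ℂ) 1 → P z)} h
  refine measure_mono_null ?_ h2
  intro z hz
  have hz' : ¬ (z ∈ ball (0:ℂ) 1 → P (G.m γ z)) := hz
  rw [Classical.not_imp] at hz'
  have hz1 : ‖z‖ < 1 := by simpa using hz'.1
  refine ⟨hz1, ?_⟩
  show ¬ (G.m γ z ∈ ball (0:ℂ) 1 → P (G.m γ z))
  rw [Classical.not_imp]
  exact ⟨by simpa using G.m_lt γ hz1, hz'.2⟩

/-- the functions `d γ z` are comparable for `z` in a smaller disc: `dmb_le` -/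
theorem d_le (γ : Γ) {z w : ℂ} {R : ℝ} (hR : R < 1) (hz : ‖z‖ ≤ R) (hw : ‖w‖ ≤ 1) :
    ‖G.d γ z‖ ≤ 4 / (1 - R) ^ 2 * ‖G.d γ w‖ := by
  exact dmb_le (G.nrm γ) hR hz hw

end FG

end Pool.Agent.DimDropF
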