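import Pool.Agent.Lib_MP_644907_f.Defs

/-!
# Piece AREA: area mean value inequality
-/

set_option autoImplicit false

open Complex MeasureTheory Metric
open scoped ContDiff

namespace Pool.Agent.DimDropF

private theorem area_circ (f : ℂ → ℂ) (z : ℂ) (ε r : ℝ) (hr : 0 < r) (hrε : r < ε)
    (hf : DifferentiableOn ℂ f (ball z ε)) :
    ENNReal.ofReal (2 * Real.pi) * ‖f z‖ₑ ≤
      ∫⁻ θ in Set.Ioo (-Real.pi) Real.pi, ‖f (circleMap z r θ)‖ₑ := by
  have habs : |r| = r := abs_of_pos hr
  have hcl : DiffContOnCl ℂ f (ball z |r|) := by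
    rw [habs]
    refine ⟨hf.mono (ball_subset_ball hrε.le), ?_⟩
    refine hf.continuousOn.mono ?_
    refine closure_ball_subset_closedBall.trans ?_
    exact closedBall_subset_ball hrε
  have h1 := hcl.circleAverage
  have hpi : (0:ℝ) < 2 * Real.pi := by positivity
  have h2 : ∫ θ in (-Real.pi)..Real.pi, f (circleMap z r θ) = (2 * Real.pi) • f z := by
    have hper : Function.Periodic (fun θ => f (circleMap z r θ)) (2 * Real.pi) := by
      intro θ
      show f (circleMap z r (θ + 2 * Real.pi)) = f (circleMap z r θ)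
      rw [periodic_circleMap z r θ]
    have h3 := hper.intervalIntegral_add_eq (-Real.pi) 0
    rw [show -Real.pi + 2 * Real.pi = Real.pi by ring, zero_add] at h3
    rw [h3, ← h1, Real.circleAverage_def, smul_smul, mul_inv_cancel₀ hpi.ne', one_smul]
  have h4 : ENNReal.ofReal (2 * Real.pi) * ‖f z‖ₑ = ‖∫ θ in (-Real.pi)..Real.pi, f (circleMap z r θ)‖ₑ := by
    rw [h2, enorm_smul, Real.enorm_of_nonneg hpi.le]
  rw [h4, intervalIntegral.integral_of_le (by linarith [Real.pi_pos]), setLIntegral_congr Ioo_ae_eq_Ioc]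
  exact enorm_integral_le_lintegral_enorm _

/-- For `0 < ρ < ε`: `f z` is the circle average of `f` over the circle of radius `ρ` (`DiffContOnCl.circleAverage`), so
`|f z| ≤ (1/2π) ∫ |f (z + ρ e^{iθ})| dθ`. Multiply by `2 ρ / ε^2` and integrate over `ρ ∈ (0, ε)`: polar coordinates
(`Complex.integral_comp_polarCoord_symm` or `Complex.lintegral_comp_polarCoord_symm`). -/
theorem area_mean (f : ℂ → ℂ) (z : ℂ) (ε : ℝ) (hε : 0 < ε) (hf : DifferentiableOn ℂ f (ball z ε))
    (hi : IntegrableOn f (ball z ε)) :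
    ‖f z‖ ≤ (Real.pi * ε ^ 2)⁻¹ * ∫ w in ball z ε, ‖f w‖ := by
  classical
  set g : ℂ → ENNReal := (ball z ε).indicator (fun w => ‖f w‖ₑ) with hg
  have hgm : Measurable g := by
    have h1 : Measurable ((ball z ε).piecewise f (fun _ => (0:ℂ))) :=
      hf.continuousOn.measurable_piecewise continuousOn_const measurableSet_ball
    have h2 : g = fun w => ‖(ball z ε).piecewise f (fun _ => (0:ℂ)) w‖ₑ := by
      funext w
      rw [hg]
      by_cases hw : w ∈ ball z ε
      · rw [Set.indicator_of_mem hw, Set.piecewise_eq_of_mem _ _ _ hw]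
      · rw [Set.indicator_of_notMem hw, Set.piecewise_eq_of_notMem _ _ _ hw]
        simp
    rw [h2]
    exact h1.enorm
  have e1 : ∫⁻ w in ball z ε, ‖f w‖ₑ = ∫⁻ w, g (z + w) := by
    rw [lintegral_add_left_eq_self g z, hg, lintegral_indicator measurableSet_ball]
  have e2 : ∫⁻ w, g (z + w) = ∫⁻ p in polarCoord.target, ENNReal.ofReal p.1 • g (z + Complex.polarCoord.symm p) :=
    (Complex.lintegral_comp_polarCoord_symm (fun w => g (z + w))).symm
  have hsm : Measurable (fun p : ℝ × ℝ => ENNReal.ofReal p.1 • g (z + Complex.polarCoord.symm p)) := by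
    have h1 : Measurable (fun p : ℝ × ℝ => z + Complex.polarCoord.symm p) := by
      have : (fun p : ℝ × ℝ => z + Complex.polarCoord.symm p)
          = fun p : ℝ × ℝ => z + (p.1 : ℂ) * (Real.cos p.2 + Real.sin p.2 * Complex.I) := by
        funext p
        rw [Complex.polarCoord_symm_apply]
      rw [this]
      fun_prop
    exact (measurable_fst.ennreal_ofReal).smul (hgm.comp h1)
  have e3 : ∫⁻ p in polarCoord.target, ENNReal.ofReal p.1 • g (z + Complex.polarCoord.symm p)
      = ∫⁻ r in Set.Ioi (0:ℝ), ∫⁻ θ in Set.Ioo (-Real.pi) Real.pi,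
          ENNReal.ofReal r • g (z + Complex.polarCoord.symm (r, θ)) := by
    rw [show polarCoord.target = Set.Ioi (0:ℝ) ×ˢ Set.Ioo (-Real.pi) Real.pi from rfl,
      Measure.volume_eq_prod, ← Measure.prod_restrict, lintegral_prod _ hsm.aemeasurable]
  have e4 : ∫⁻ r in Set.Ioo (0:ℝ) ε, ENNReal.ofReal r * (ENNReal.ofReal (2 * Real.pi) * ‖f z‖ₑ)
      ≤ ∫⁻ r in Set.Ioi (0:ℝ), ∫⁻ θ in Set.Ioo (-Real.pi) Real.pi,
          ENNReal.ofReal r • g (z + Complex.polarCoord.symm (r, θ)) := by
    refine le_trans (setLIntegral_mono_ae' measurableSet_Ioo (Filter.Eventually.of_forall ?_))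
      (lintegral_mono_set (Set.Ioo_subset_Ioi_self))
    intro r hr
    have h1 := area_circ f z ε r hr.1 hr.2 hf
    have h2 : ∀ θ : ℝ, g (z + Complex.polarCoord.symm (r, θ)) = ‖f (circleMap z r θ)‖ₑ := by
      intro θ
      have h3 : z + Complex.polarCoord.symm (r, θ) = circleMap z r θ := by
        rw [Complex.polarCoord_symm_apply, circleMap, Complex.exp_mul_I]
        push_cast
        ring
      have h4 : circleMap z r θ ∈ ball z ε := by
        have : circleMap z r θ ∈ sphere z |r| := circleMap_mem_sphere' z r θ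
        rw [abs_of_pos hr.1] at this
        exact sphere_subset_ball hr.2 this
      rw [h3, hg, Set.indicator_of_mem h4]
    calc ENNReal.ofReal r * (ENNReal.ofReal (2 * Real.pi) * ‖f z‖ₑ)
        ≤ ENNReal.ofReal r * ∫⁻ θ in Set.Ioo (-Real.pi) Real.pi, ‖f (circleMap z r θ)‖ₑ := by gcongr
      _ ≤ ∫⁻ θ in Set.Ioo (-Real.pi) Real.pi, ENNReal.ofReal r * ‖f (circleMap z r θ)‖ₑ :=
          lintegral_const_mul_le _ _
      _ = _ := by
          apply lintegral_congr
          intro θ
          rw [h2 θ, smul_eq_mul]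
  have e5 : ∫⁻ r in Set.Ioo (0:ℝ) ε, ENNReal.ofReal r * (ENNReal.ofReal (2 * Real.pi) * ‖f z‖ₑ)
      = ENNReal.ofReal (Real.pi * ε ^ 2) * ‖f z‖ₑ := by
    rw [lintegral_mul_const _ (by fun_prop)]
    have h1 : ∫⁻ r in Set.Ioo (0:ℝ) ε, ENNReal.ofReal r = ENNReal.ofReal (ε ^ 2 / 2) := by
      rw [← ofReal_integral_eq_lintegral_ofReal]
      · rw [← integral_Ioc_eq_integral_Ioo, ← intervalIntegral.integral_of_le hε.le, integral_id]
        congr 1
        ring
      · have : IntegrableOn (fun r : ℝ => r) (Set.Icc (0:ℝ) ε) := continuous_id.continuousOn.integrableOn_Icc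
        exact this.mono_set Set.Ioo_subset_Icc_self
      · filter_upwards [ae_restrict_mem measurableSet_Ioo] with r hr using hr.1.le
    rw [h1, ← mul_assoc, ← ENNReal.ofReal_mul (by positivity)]
    congr 2
    ring
  have e6 : ENNReal.ofReal (Real.pi * ε ^ 2) * ‖f z‖ₑ ≤ ∫⁻ w in ball z ε, ‖f w‖ₑ := by
    rw [← e5, e1, e2, e3]
    exact e4
  have hpos : 0 < Real.pi * ε ^ 2 := by positivity
  rw [← ofReal_integral_norm_eq_lintegral_enorm hi, ← ofReal_norm_eq_enorm, ← ENNReal.ofReal_mul hpos.le,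
    ENNReal.ofReal_le_ofReal_iff (integral_nonneg (fun _ => norm_nonneg _))] at e6
  rw [inv_mul_eq_div, le_div_iff₀ hpos]
  linarith

end Pool.Agent.DimDropF
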