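import Pool.Agent.Lib_MP_644907_f.DIL

/-!
# Piece EXPG: the functions `exp (t F)`
-/

set_option autoImplicit false

open Complex MeasureTheory Metric Filter
open scoped ContDiff Topology

namespace Pool.Agent.DimDropF

open Pool.Agent.DimDrop (IsoD)

private theorem expg_norm (w : ℂ) : ‖Complex.exp w - 1‖ ≤ ‖w‖ * Real.exp ‖w‖ := by
  have h := Complex.norm_exp_sub_sum_le_norm_mul_exp w 1
  simpa using h

/-- `X z = 1 - log (1 - |z|) ≥ 1`; by `isoD_ge` `|F (h z)| ≤ C' X z`. `|exp w - 1| ≤ |w| exp |w|`, `exp (x X z) = e^x (1 - |z|)^(-x)` and `X z ≤ (2/a) e^(a/2) (1 - |z|)^(-a/2)`; take `t₀ C' ≤ a / 2`. -/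
theorem expg (F : ℂ → ℂ) (C : ℝ) (hC : 0 < C) (hg : ∀ z : ℂ, ‖z‖ < 1 → ‖F z‖ ≤ C * (1 - Real.log (1 - ‖z‖)))
    (h : ℂ → ℂ) (hh : IsoD h) (a : ℝ) (ha : 0 < a) :
    ∃ t₀ B : ℝ, 0 < t₀ ∧ 0 ≤ B ∧ ∀ t : ℂ, ‖t‖ < t₀ → Gr (fun z => Complex.exp (t * F (h z)) - 1) (B * ‖t‖) a := by
  obtain ⟨D, hD1, hD⟩ := isoD_ge hh
  have hD0 : 0 < D := by linarith
  have hlD : 0 ≤ Real.log D := Real.log_nonneg hD1
  set C' : ℝ := C * (1 + Real.log D) with hC'
  have hC'0 : 0 < C' := by positivity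
  refine ⟨a / (2 * C'), C' * (2 / a) * Real.exp a, by positivity, by positivity, ?_⟩
  intro t ht z hz
  have hz1 : 0 < 1 - ‖z‖ := by linarith
  have hhz : ‖h z‖ < 1 := isoD_lt hh hz
  have hhz1 : 0 < 1 - ‖h z‖ := by linarith
  set X : ℝ := 1 - Real.log (1 - ‖z‖) with hX
  have hlog : Real.log (1 - ‖z‖) ≤ 0 := Real.log_nonpos hz1.le (by linarith [norm_nonneg z])
  have hX1 : 1 ≤ X := by rw [hX]; linarith
  have h1 : Real.log (1 - ‖z‖) - Real.log D ≤ Real.log (1 - ‖h z‖) := by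
    rw [← Real.log_div hz1.ne' hD0.ne']
    exact Real.log_le_log (by positivity) (hD z hz)
  have h2 : ‖F (h z)‖ ≤ C' * X := by
    refine (hg (h z) hhz).trans ?_
    rw [hC', mul_assoc]
    refine mul_le_mul_of_nonneg_left ?_ hC.le
    have h3 : Real.log D ≤ Real.log D * X := le_mul_of_one_le_right hlD hX1
    have h4 : (1 + Real.log D) * X = X + Real.log D * X := by ring
    rw [h4, hX]
    rw [hX] at h3
    linarith
  have h3 : ‖t * F (h z)‖ ≤ ‖t‖ * (C' * X) := by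
    rw [norm_mul]
    exact mul_le_mul_of_nonneg_left h2 (norm_nonneg _)
  have h4 : ‖t‖ * (C' * X) ≤ a / 2 * X := by
    have h5 : ‖t‖ * C' ≤ a / 2 := by
      have h6 : a / (2 * C') * C' = a / 2 := by
        field_simp
      rw [← h6]
      exact mul_le_mul_of_nonneg_right ht.le hC'0.le
    rw [← mul_assoc]
    exact mul_le_mul_of_nonneg_right h5 (by linarith)
  have h5 : X ≤ 2 / a * Real.exp (a / 2 * X) := by
    have h6 : a / 2 * X ≤ Real.exp (a / 2 * X) := by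
      have := Real.add_one_le_exp (a / 2 * X)
      linarith
    have h7 : X = 2 / a * (a / 2 * X) := by
      field_simp
    calc X = 2 / a * (a / 2 * X) := h7
      _ ≤ 2 / a * Real.exp (a / 2 * X) := mul_le_mul_of_nonneg_left h6 (by positivity)
  have h6 : Real.exp (a / 2 * X) * Real.exp (a / 2 * X) = Real.exp a * (1 - ‖z‖) ^ (-a) := by
    rw [← Real.exp_add, Real.rpow_def_of_pos hz1, ← Real.exp_add, hX]
    congr 1
    ring
  show ‖Complex.exp (t * F (h z)) - 1‖ ≤ C' * (2 / a) * Real.exp a * ‖t‖ * (1 - ‖z‖) ^ (-a)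
  calc ‖Complex.exp (t * F (h z)) - 1‖ ≤ ‖t * F (h z)‖ * Real.exp ‖t * F (h z)‖ := expg_norm _
    _ ≤ (‖t‖ * (C' * X)) * Real.exp (a / 2 * X) := by
        refine mul_le_mul h3 (Real.exp_le_exp.2 (h3.trans h4)) (Real.exp_pos _).le (by positivity)
    _ ≤ (‖t‖ * (C' * (2 / a * Real.exp (a / 2 * X)))) * Real.exp (a / 2 * X) := by
        gcongr
    _ = C' * (2 / a) * ‖t‖ * (Real.exp (a / 2 * X) * Real.exp (a / 2 * X)) := by ring
    _ = C' * (2 / a) * Real.exp a * ‖t‖ * (1 - ‖z‖) ^ (-a) := by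
        rw [h6]
        ring

theorem hm_exp (F : ℂ → ℂ) (hF : DifferentiableOn ℂ F (ball 0 1)) (h : ℂ → ℂ) (hh : IsoD h) (t : ℂ) :
    Hm (fun z => Complex.exp (t * F (h z))) := by
  rcases Hm.comp (Or.inl hF) hh with h1 | h1
  · left
    exact (h1.const_mul t).cexp
  · right
    have h2 : (fun z => starRingEnd ℂ (Complex.exp (t * F (h z)))) =
        fun z => Complex.exp (starRingEnd ℂ t * starRingEnd ℂ (F (h z))) := by
      funext z
      rw [← Complex.exp_conj, map_mul]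
    rw [h2]
    exact (h1.const_mul _).cexp

/-- subtracting a constant -/
theorem Hm.sub_const {k : ℂ → ℂ} (hk : Hm k) (c : ℂ) : Hm (fun z => k z - c) := by
  rcases hk with h1 | h1
  · left
    exact h1.sub_const c
  · right
    have h2 : (fun z => starRingEnd ℂ (k z - c)) = fun z => starRingEnd ℂ (k z) - starRingEnd ℂ c := by
      funext z
      rw [map_sub]
    rw [h2]
    exact h1.sub_const _

/-- `Gr` of the function itself from `Gr` of `k - 1` -/
theorem Gr.of_sub_one {k : ℂ → ℂ} {B a : ℝ} (ha : 0 < a) (h : Gr (fun z => k z - 1) B a) : Gr k (B + 1) a := by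
  intro z hz
  have h1 := h z hz
  have h2 : (1 : ℝ) ≤ (1 - ‖z‖) ^ (-a) :=
    Real.one_le_rpow_of_pos_of_le_one_of_nonpos (by linarith) (by linarith [norm_nonneg z]) (by linarith)
  have h3 : ‖k z‖ ≤ ‖k z - 1‖ + 1 := by
    have := norm_add_le (k z - 1) 1
    rwa [sub_add_cancel, norm_one] at this
  have h4 : ‖k z - 1‖ ≤ B * (1 - ‖z‖) ^ (-a) := h1
  linarith

end Pool.Agent.DimDropF
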