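import Pool.Agent.Lib_MP_644907_f.STAT
import Pool.Agent.Lib_MP_644907_f.EXPG

/-!
# Piece ASM: properties of the pairing
-/

set_option autoImplicit false

open Complex MeasureTheory Metric Filter
open scoped ContDiff Topology

namespace Pool.Agent.DimDropF

open Pool.Agent.DimDrop (IsoD)

/-- the pairing only sees the open disc (`rho j < 1`) -/
theorem LL_congr (φ : ℂ → ℝ) {k k' : ℂ → ℂ} (h : ∀ z : ℂ, ‖z‖ < 1 → k z = k' z) : LL φ k = LL φ k' := by
  have h1 : (fun j => II φ (rho j) k) = fun j => II φ (rho j) k' := by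
    funext j
    unfold II
    refine intervalIntegral.integral_congr fun θ _ => ?_
    have h2 : ‖circleMap 0 (rho j) θ‖ < 1 := by
      rw [norm_circleMap_zero, abs_of_pos (rho_pos j)]
      exact rho_lt j
    simp only [h _ h2]
  unfold LL
  rw [h1]

/-- `Tendsto.const_mul`, `LL_tendsto`-like: if the limit exists then `LL φ (c k) = c LL φ k` -/
theorem LL_const_mul (φ : ℂ → ℝ) (al C : ℝ) (hal : 0 < al) (hal2 : al ≤ 2) (hC : 0 ≤ C) (hφ : Hol φ al C) (a : ℝ) (ha : 0 < a) (ha2 : a < al / 2)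
    (k : ℂ → ℂ) (B : ℝ) (hk : Hm k) (hB : 0 ≤ B) (hg : Gr k B a) (c : ℂ) : LL φ (fun z => c * k z) = c * LL φ k := by
  have h1 := (LL_tendsto φ al C hal hal2 hC hφ a ha ha2 k B hk hB hg).const_mul c
  have h2 : (fun j => c * II φ (rho j) k) = fun j => II φ (rho j) (fun z => c * k z) := by
    funext j
    unfold II
    rw [← intervalIntegral.integral_const_mul]
    refine intervalIntegral.integral_congr fun θ _ => ?_
    simp only [mul_assoc]
  rw [h2] at h1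
  exact h1.limUnder_eq

theorem asm_phi_cont (φ : ℂ → ℝ) (al C : ℝ) (hal : 0 < al) (hφ : Hol φ al C) :
    Continuous (fun θ : ℝ => φ (circleMap 0 1 θ)) := by
  have hn : ∀ θ : ℝ, ‖circleMap 0 1 θ‖ = 1 := fun θ => by
    rw [norm_circleMap_zero, abs_one]
  rw [continuous_iff_continuousAt]
  intro θ₀
  unfold ContinuousAt
  rw [tendsto_iff_norm_sub_tendsto_zero]
  have h1 : Tendsto (fun θ : ℝ => C * ‖circleMap 0 1 θ - circleMap 0 1 θ₀‖ ^ al) (𝓝 θ₀) (𝓝 0) := by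
    have h2 : Continuous (fun θ : ℝ => C * ‖circleMap 0 1 θ - circleMap 0 1 θ₀‖ ^ al) := by
      apply continuous_const.mul
      apply Continuous.rpow_const
      · exact ((continuous_circleMap 0 1).sub continuous_const).norm
      · intro x
        right
        exact hal.le
    have h3 := h2.tendsto θ₀
    simp only [sub_self, norm_zero] at h3
    rw [Real.zero_rpow hal.ne', mul_zero] at h3
    exact h3
  refine squeeze_zero (fun θ => norm_nonneg _) (fun θ => ?_) h1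
  exact hφ _ _ (hn θ) (hn θ₀)

/-- splitting off the constant -/
theorem LL_split (φ : ℂ → ℝ) (al C : ℝ) (hal : 0 < al) (hal2 : al ≤ 2) (hC : 0 ≤ C) (hφ : Hol φ al C) (a : ℝ) (ha : 0 < a) (ha2 : a < al / 2)
    (k : ℂ → ℂ) (B B' : ℝ) (hk : Hm k) (hB : 0 ≤ B) (hB' : 0 ≤ B') (hg : Gr k B a)
    (hg' : Gr (fun z => k z - 1) B' a) :
    LL φ k = LL φ (fun z => k z - 1) + ((∫ θ in (0:ℝ)..(2 * Real.pi), φ (circleMap 0 1 θ) : ℝ) : ℂ) := by
  have h1 := LL_tendsto φ al C hal hal2 hC hφ a ha ha2 k B hk hB hg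
  have h2 := LL_tendsto φ al C hal hal2 hC hφ a ha ha2 (fun z => k z - 1) B' (hk.sub_const 1) hB' hg'
  have h3 := h2.add_const ((∫ θ in (0:ℝ)..(2 * Real.pi), φ (circleMap 0 1 θ) : ℝ) : ℂ)
  refine tendsto_nhds_unique h1 (h3.congr fun j => ?_)
  have hmem : ∀ θ : ℝ, circleMap 0 (rho j) θ ∈ ball (0 : ℂ) 1 := by
    intro θ
    rw [mem_ball_zero_iff, norm_circleMap_zero, abs_of_pos (rho_pos j)]
    exact rho_lt j
  have hφc : Continuous (fun θ : ℝ => (φ (circleMap 0 1 θ) : ℂ)) :=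
    Complex.continuous_ofReal.comp (asm_phi_cont φ al C hal hφ)
  have hkc : Continuous (fun θ : ℝ => (k (circleMap 0 (rho j) θ) - 1) * (φ (circleMap 0 1 θ) : ℂ)) := by
    apply Continuous.mul _ hφc
    exact (hk.continuousOn.comp_continuous (continuous_circleMap 0 _) hmem).sub continuous_const
  have h4 : ((∫ θ in (0:ℝ)..(2 * Real.pi), φ (circleMap 0 1 θ) : ℝ) : ℂ)
      = ∫ θ in (0:ℝ)..(2 * Real.pi), (φ (circleMap 0 1 θ) : ℂ) := by
    rw [intervalIntegral.integral_ofReal]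
  rw [h4]
  unfold II
  rw [← intervalIntegral.integral_add (hkc.intervalIntegrable _ _) (hφc.intervalIntegrable _ _)]
  refine intervalIntegral.integral_congr fun θ _ => ?_
  ring

/-- With `a = al / 4`: `|LL φ k - mass| = |LL φ (k - 1)| ≤ K B |t|` (`expg`, `LL_bound`, `II` is linear, `LL_cont` for the constant 1), `mass = II φ 1 1 ≠ 0`. -/
theorem LL_exp_ne (φ : ℂ → ℝ) (al C : ℝ) (hal : 0 < al) (hal2 : al ≤ 2) (hC : 0 ≤ C) (hφ : Hol φ al C)
    (hmass : ∫ θ in (0:ℝ)..(2 * Real.pi), φ (circleMap 0 1 θ) ≠ 0)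
    (F : ℂ → ℂ) (C' : ℝ) (hC' : 0 < C') (hF : DifferentiableOn ℂ F (ball 0 1))
    (hFg : ∀ z : ℂ, ‖z‖ < 1 → ‖F z‖ ≤ C' * (1 - Real.log (1 - ‖z‖))) (h : ℂ → ℂ) (hh : IsoD h) :
    ∃ t₀ : ℝ, 0 < t₀ ∧ ∀ t : ℂ, ‖t‖ < t₀ → LL φ (fun z => Complex.exp (t * F (h z))) ≠ 0 := by
  have ha : 0 < al / 4 := by positivity
  have ha2 : al / 4 < al / 2 := by linarith
  obtain ⟨t₀, B, ht₀, hB, hexp⟩ := expg F C' hC' hFg h hh (al / 4) ha
  obtain ⟨K, hK, hbd⟩ := LL_bound φ al C hal hal2 hC hφ (al / 4) ha ha2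
  obtain ⟨m, hm⟩ : ∃ m : ℝ, m = ∫ θ in (0:ℝ)..(2 * Real.pi), φ (circleMap 0 1 θ) := ⟨_, rfl⟩
  rw [← hm] at hmass
  have hm0 : 0 < |m| := abs_pos.mpr hmass
  have hKB : 0 < K * B + 1 := by positivity
  refine ⟨min t₀ (|m| / (K * B + 1)), lt_min ht₀ (by positivity), fun t ht => ?_⟩
  have ht1 : ‖t‖ < t₀ := lt_of_lt_of_le ht (min_le_left _ _)
  have ht2 : ‖t‖ < |m| / (K * B + 1) := lt_of_lt_of_le ht (min_le_right _ _)
  have hk := hm_exp F hF h hh t
  have hg' := hexp t ht1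
  have hBt : 0 ≤ B * ‖t‖ := by positivity
  have hg := Gr.of_sub_one ha hg'
  have h1 := LL_split φ al C hal hal2 hC hφ (al / 4) ha ha2 _ _ _ hk (by positivity) hBt hg hg'
  have h2 := hbd _ _ (hk.sub_const 1) hBt hg'
  rw [← hm] at h1
  intro h0
  rw [h0] at h1
  have h3 : LL φ (fun z => Complex.exp (t * F (h z)) - 1) = -(m : ℂ) := by
    linear_combination -h1
  rw [h3, norm_neg, Complex.norm_real, Real.norm_eq_abs] at h2
  rw [lt_div_iff₀ hKB] at ht2
  nlinarith [norm_nonneg t]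

end Pool.Agent.DimDropF
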