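import Pool.Agent.Lib_MP_644907_f.ACT
import Pool.Agent.Lib_MP_644907.IsoA

/-!
# IGdef: groups of isometries of the disc (conformal or anticonformal)
-/

set_option autoImplicit false

open Complex MeasureTheory Metric
open scoped ContDiff

namespace Pool.Agent.DimDropF

open Pool.Agent.DimDrop (IsoD)

/-- a discrete cocompact group of isometries of the disc -/
structure IG (Γ : Type) [Group Γ] where
  f : Γ → ℂ → ℂ
  iso : ∀ γ, IsoD (f γ)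
  one' : ∀ z : ℂ, ‖z‖ ≤ 1 → f 1 z = z
  mul' : ∀ γ δ, ∀ z : ℂ, ‖z‖ ≤ 1 → f (γ * δ) z = f γ (f δ z)
  faith : ∀ γ, (∀ z : ℂ, ‖z‖ ≤ 1 → f γ z = z) → γ = 1
  fin' : ∀ r : ℝ, r < 1 → {γ | ‖f γ 0‖ ≤ r}.Finite
  r : ℝ
  r0 : 0 < r
  r1 : r < 1
  coc' : ∀ z : ℂ, ‖z‖ < 1 → ∃ γ, ‖f γ z‖ ≤ r

/-- `h` is represented by `α, β ∈ R` (`α', β'` are the conjugates), conformal if `s = false`, anticonformal if `s = true` -/
structure Rep (R : Subalgebra ℤ ℂ) (h : ℂ → ℂ) (α β α' β' : R) (s : Bool) : Prop where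
  ca : (α' : ℂ) = starRingEnd ℂ (α : ℂ)
  cb : (β' : ℂ) = starRingEnd ℂ (β : ℂ)
  nrm : ‖(α : ℂ)‖ ^ 2 - ‖(β : ℂ)‖ ^ 2 = 1
  eq : ∀ z : ℂ, ‖z‖ ≤ 1 → h z = mb α β (if s then starRingEnd ℂ z else z)

end Pool.Agent.DimDropF
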