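import Pool.Agent.Lib_MP_644907_f.ASM
import Pool.Agent.Lib_MP_644907_f.IGdef

/-!
# Piece ASMA: the vector of the pairings
-/

set_option autoImplicit false

open Complex MeasureTheory Metric Filter
open scoped ContDiff Topology

namespace Pool.Agent.DimDropF

open Pool.Agent.DimDrop (IsoD)

/-- `v i = LL φ (fun z => exp (t F (f (T i) z)))`, `t₀` = minimum over `i` of the radii of `LL_exp_ne` and of `expg` (for `a = al/4`). By `stat` (`g l = f (e l)`) and, for `‖z‖ < 1`,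
`F (f (T i) (f (e l) z)) = F (f (T i * e l) z) = F (f (la _) (f (T j) z)) = F (f (T j) z) + c (la _)`, `j = cl (T i * e l)`; `LL_congr`, `LL_const_mul`. -/
theorem v_eq {Γ : Type} [Group Γ] (A : IG Γ) {n : ℕ} (p : Fin n → ℝ) (e : Fin n → Γ)
    (Λ : Subgroup Γ) (F : ℂ → ℂ) (c : Λ → ℂ) (C' : ℝ) (hC' : 0 < C') (hF : DifferentiableOn ℂ F (ball 0 1))
    (hFc : ∀ (γ : Λ) (z : ℂ), ‖z‖ < 1 → F (A.f γ z) = F z + c γ)
    (hFg : ∀ z : ℂ, ‖z‖ < 1 → ‖F z‖ ≤ C' * (1 - Real.log (1 - ‖z‖)))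
    (φ : ℂ → ℝ) (al C : ℝ) (hal : 0 < al) (hal2 : al ≤ 2) (hC : 0 ≤ C) (hφ : Hol φ al C)
    (hmass : ∫ θ in (0:ℝ)..(2 * Real.pi), φ (circleMap 0 1 θ) ≠ 0)
    (hstat : ∀ h : ℂ → ℂ, ContinuousOn h (sphere 0 1) →
      ∫ θ in (0:ℝ)..(2 * Real.pi), h (circleMap 0 1 θ) * (φ (circleMap 0 1 θ) : ℂ) =
        ∑ i, (p i : ℂ) * ∫ θ in (0:ℝ)..(2 * Real.pi), h (A.f (e i) (circleMap 0 1 θ)) * (φ (circleMap 0 1 θ) : ℂ))
    {ι : Type} [Fintype ι] (cl : Γ → ι) (T : ι → Γ) (la : Γ → Λ) (h1 : ∀ g, g = la g * T (cl g)) :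
    ∃ t₀ : ℝ, 0 < t₀ ∧ ∀ t : ℂ, ‖t‖ < t₀ → ∃ v : ι → ℂ, v ≠ 0 ∧
      ∀ i, v i = ∑ l, (p l : ℂ) * Complex.exp (t * c (la (T i * e l))) * v (cl (T i * e l)) := by
  have ha : 0 < al / 4 := by linarith
  have ha2 : al / 4 < al / 2 := by linarith
  choose r1 hr1 hr1' using fun i => LL_exp_ne φ al C hal hal2 hC hφ hmass F C' hC' hF hFg
    (A.f (T i)) (A.iso (T i))
  choose r2 B hr2 hB hr2' using fun i => expg F C' hC' hFg (A.f (T i)) (A.iso (T i)) (al / 4) ha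
  obtain ⟨i₀, -, hi₀⟩ := (Finset.univ : Finset ι).exists_min_image (fun i => min (r1 i) (r2 i))
    ⟨cl 1, Finset.mem_univ _⟩
  refine ⟨min (r1 i₀) (r2 i₀), lt_min (hr1 i₀) (hr2 i₀), fun t ht => ?_⟩
  have ht1 : ∀ i, ‖t‖ < r1 i := fun i =>
    lt_of_lt_of_le ht ((hi₀ i (Finset.mem_univ _)).trans (min_le_left _ _))
  have ht2 : ∀ i, ‖t‖ < r2 i := fun i =>
    lt_of_lt_of_le ht ((hi₀ i (Finset.mem_univ _)).trans (min_le_right _ _))
  have hgr : ∀ i, Gr (fun z => Complex.exp (t * F (A.f (T i) z))) (B i * ‖t‖ + 1) (al / 4) :=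
    fun i => Gr.of_sub_one ha (hr2' i t (ht2 i))
  have hBB : ∀ i, 0 ≤ B i * ‖t‖ + 1 := fun i =>
    add_nonneg (mul_nonneg (hB i) (norm_nonneg _)) zero_le_one
  have hhm : ∀ i, Hm (fun z => Complex.exp (t * F (A.f (T i) z))) := fun i =>
    hm_exp F hF (A.f (T i)) (A.iso (T i)) t
  refine ⟨fun i => LL φ (fun z => Complex.exp (t * F (A.f (T i) z))), ?_, ?_⟩
  · intro h0
    exact hr1' (cl 1) t (ht1 _) (congrFun h0 (cl 1))
  · intro i
    show LL φ (fun z => Complex.exp (t * F (A.f (T i) z))) = _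
    rw [stat p (fun l => A.f (e l)) (fun l => A.iso (e l)) φ al C hal hal2 hC hφ hstat (al / 4) ha
      ha2 _ _ (hhm i) (hBB i) (hgr i)]
    refine Finset.sum_congr rfl fun l _ => ?_
    rw [mul_assoc]
    refine congrArg (fun y => (p l : ℂ) * y) ?_
    rw [← LL_const_mul φ al C hal hal2 hC hφ (al / 4) ha ha2 _ _ (hhm (cl (T i * e l)))
      (hBB (cl (T i * e l))) (hgr (cl (T i * e l)))]
    refine LL_congr φ fun z hz => ?_
    have hw : ‖A.f (T (cl (T i * e l))) z‖ < 1 := isoD_lt (A.iso _) hz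
    have e1 : A.f (T i) (A.f (e l) z) =
        A.f (la (T i * e l)) (A.f (T (cl (T i * e l))) z) := by
      rw [← A.mul' _ _ z hz.le, ← A.mul' _ _ z hz.le, ← h1]
    rw [e1, hFc _ _ hw, mul_add, Complex.exp_add]
    ring

end Pool.Agent.DimDropF
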