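import Mathlib

/-!
# Piece DET: the determinant argument
-/

set_option autoImplicit false

open Complex

namespace Pool.Agent.DimDropF

/-- the evaluation at a character -/
private noncomputable def det_ev (χ : ℂ → ℂ) (hχ0 : χ 0 = 1) (hχ : ∀ x y, χ (x + y) = χ x * χ y) :
    AddMonoidAlgebra ℂ ℂ →ₐ[ℂ] ℂ :=
  AddMonoidAlgebra.lift ℂ ℂ ℂ
    { toFun := fun x => χ (Multiplicative.toAdd x)
      map_one' := hχ0
      map_mul' := fun x y => hχ _ _ }

private theorem det_ev_single (χ : ℂ → ℂ) (hχ0 : χ 0 = 1) (hχ : ∀ x y, χ (x + y) = χ x * χ y) (a b : ℂ) :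
    det_ev χ hχ0 hχ (AddMonoidAlgebra.single a b) = b * χ a := by
  unfold det_ev
  rw [AddMonoidAlgebra.lift_single]
  rfl

private theorem det_ev_apply (χ : ℂ → ℂ) (hχ0 : χ 0 = 1) (hχ : ∀ x y, χ (x + y) = χ x * χ y)
    (d : AddMonoidAlgebra ℂ ℂ) :
    det_ev χ hχ0 hχ d = ∑ a ∈ d.coeff.support, d.coeff a * χ a := by
  unfold det_ev
  rw [AddMonoidAlgebra.lift_apply]
  rfl

/-- the matrix -/
private noncomputable def det_mat {ι : Type} [Fintype ι] [DecidableEq ι] {n : ℕ} (p : Fin n → ℝ)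
    (lam : ι → Fin n → ℂ) (sg : ι → Fin n → ι) : Matrix ι ι (AddMonoidAlgebra ℂ ℂ) :=
  fun i j => (if i = j then 1 else 0) -
    ∑ l, if sg i l = j then AddMonoidAlgebra.single (lam i l) (p l : ℂ) else 0

private theorem det_mulVec {ι : Type} [Fintype ι] [DecidableEq ι] {n : ℕ} (p : Fin n → ℝ)
    (lam : ι → Fin n → ℂ) (sg : ι → Fin n → ι) (χ : ℂ → ℂ) (hχ0 : χ 0 = 1)
    (hχ : ∀ x y, χ (x + y) = χ x * χ y) (v : ι → ℂ) (i : ι) :
    ((det_ev χ hχ0 hχ).mapMatrix (det_mat p lam sg)).mulVec v i =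
      v i - ∑ l, (p l : ℂ) * χ (lam i l) * v (sg i l) := by
  have h1 : ∀ j, ((det_ev χ hχ0 hχ).mapMatrix (det_mat p lam sg)) i j =
      (if i = j then 1 else 0) - ∑ l, if sg i l = j then (p l : ℂ) * χ (lam i l) else 0 := by
    intro j
    rw [AlgHom.mapMatrix_apply, Matrix.map_apply]
    unfold det_mat
    rw [map_sub, map_sum]
    congr 1
    · split_ifs
      · exact map_one _
      · exact map_zero _
    · apply Finset.sum_congr rfl
      intro l _
      split_ifs
      · exact det_ev_single χ hχ0 hχ _ _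
      · exact map_zero _
  simp only [Matrix.mulVec, dotProduct]
  rw [Finset.sum_congr rfl (fun j _ => by rw [h1 j])]
  simp only [sub_mul, Finset.sum_sub_distrib, Finset.sum_mul, ite_mul, one_mul, zero_mul]
  rw [Finset.sum_comm]
  simp

private theorem det_iff {ι : Type} [Fintype ι] [DecidableEq ι] {n : ℕ} (p : Fin n → ℝ)
    (lam : ι → Fin n → ℂ) (sg : ι → Fin n → ι) (χ : ℂ → ℂ) (hχ0 : χ 0 = 1)
    (hχ : ∀ x y, χ (x + y) = χ x * χ y) :
    (∃ w : ι → ℂ, w ≠ 0 ∧ ∀ i, w i = ∑ l, (p l : ℂ) * χ (lam i l) * w (sg i l)) ↔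
      det_ev χ hχ0 hχ (det_mat p lam sg).det = 0 := by
  rw [AlgHom.map_det, ← Matrix.exists_mulVec_eq_zero_iff]
  constructor
  · rintro ⟨w, hw, h⟩
    refine ⟨w, hw, funext fun i => ?_⟩
    rw [det_mulVec, ← h i, sub_self]
    rfl
  · rintro ⟨w, hw, h⟩
    refine ⟨w, hw, fun i => ?_⟩
    have := congrFun h i
    rw [det_mulVec] at this
    exact sub_eq_zero.1 this

private theorem det_inj : Function.Injective (fun x : ℂ =>
    ({ toFun := fun t => Complex.exp (Multiplicative.toAdd t * x)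
       map_one' := by simp
       map_mul' := fun s t => by
        rw [← Complex.exp_add, toAdd_mul]
        ring_nf } : Multiplicative ℂ →* ℂ)) := by
  intro x y hxy
  have h : ∀ t : ℂ, Complex.exp (t * x) = Complex.exp (t * y) := fun t =>
    DFunLike.congr_fun hxy (Multiplicative.ofAdd t)
  have h1 : ∀ z : ℂ, HasDerivAt (fun t : ℂ => Complex.exp (t * z)) z 0 := by
    intro z
    have := ((hasDerivAt_id (0 : ℂ)).mul_const z).cexp
    simpa using this
  have h2 := h1 x
  rw [funext h] at h2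
  exact h2.unique (h1 y)

/-- Let `D : Matrix ι ι (AddMonoidAlgebra ℂ ℂ)`, `D i j = (if i = j then 1 else 0) - ∑ l with sg i l = j, single (lam i l) (p l)`. For `χ` as in the statement there is a ring homomorphism
`ev χ : AddMonoidAlgebra ℂ ℂ → ℂ`, `single x c ↦ c χ x` (`AddMonoidAlgebra.lift`), and `det (D mapped by ev χ) = ev χ (det D)` (`RingHom.map_det`). For `χ = exp (t ·)`, `‖t‖ < t₀`, the vector `v` is in the kernel, so
`ev_t (det D) = ∑ x ∈ supp, d x * exp (t x) = 0` for `‖t‖ < t₀`, hence for all `t` (identity theorem for the entire function of `t`), hence `det D = 0` by the linear independence of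
the distinct characters `t ↦ exp (t x)` (`linearIndependent_monoidHom` for the monoid `Multiplicative ℂ`). So for every `χ` the determinant is 0 and there is a nonzero vector in the kernel
(`Matrix.exists_mulVec_eq_zero_iff`). -/
theorem det_chars {ι : Type} [Fintype ι] [DecidableEq ι] {n : ℕ} (p : Fin n → ℝ) (lam : ι → Fin n → ℂ) (sg : ι → Fin n → ι)
    (t₀ : ℝ) (ht₀ : 0 < t₀)
    (hv : ∀ t : ℂ, ‖t‖ < t₀ → ∃ v : ι → ℂ, v ≠ 0 ∧ ∀ i, v i = ∑ l, (p l : ℂ) * Complex.exp (t * lam i l) * v (sg i l))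
    (χ : ℂ → ℂ) (hχ0 : χ 0 = 1) (hχ : ∀ x y, χ (x + y) = χ x * χ y) :
    ∃ w : ι → ℂ, w ≠ 0 ∧ ∀ i, w i = ∑ l, (p l : ℂ) * χ (lam i l) * w (sg i l) := by
  rw [det_iff p lam sg χ hχ0 hχ, det_ev_apply]
  obtain ⟨d, hd⟩ : ∃ d, d = (det_mat p lam sg).det := ⟨_, rfl⟩
  rw [← hd]
  -- the entire function
  have hF : (fun t : ℂ => ∑ a ∈ d.coeff.support, d.coeff a * Complex.exp (t * a)) = fun _ => 0 := by
    refine AnalyticOnNhd.eq_of_eventuallyEq (𝕜 := ℂ) (z₀ := (0 : ℂ)) ?_ analyticOnNhd_const ?_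
    · have hdiff : Differentiable ℂ (fun t : ℂ => ∑ a ∈ d.coeff.support, d.coeff a * Complex.exp (t * a)) := by
        fun_prop
      exact fun z _ => hdiff.analyticAt z
    · filter_upwards [Metric.ball_mem_nhds (0 : ℂ) ht₀] with t ht
      have ht' : ‖t‖ < t₀ := by simpa using ht
      have h1 := (det_iff p lam sg (fun x => Complex.exp (t * x)) (by simp)
        (fun x y => by rw [mul_add, Complex.exp_add])).1 (hv t ht')
      rw [← hd, det_ev_apply] at h1
      exact h1
  have hli := (linearIndependent_monoidHom (Multiplicative ℂ) ℂ).comp _ det_inj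
  rw [linearIndependent_iff'] at hli
  have hz := hli d.coeff.support (fun a => d.coeff a) (by
    ext t
    rw [Finset.sum_apply]
    have := congrFun hF (Multiplicative.toAdd t)
    simpa using this)
  apply Finset.sum_eq_zero
  intro a ha
  rw [hz a ha, zero_mul]

end Pool.Agent.DimDropF
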