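import Mathlib

/-!
# Piece MAXU: unitary characters
-/

set_option autoImplicit false

open Complex

namespace Pool.Agent.DimDropF

private theorem maxu_eq {n : ℕ} (p : Fin n → ℝ) (hp : ∀ i, 0 < p i) (hp1 : ∑ i, p i = 1) (z : ℂ)
    (y : Fin n → ℂ) (hy : ∀ l, ‖y l‖ ≤ ‖z‖) (hz : z = ∑ l, (p l : ℂ) * y l) (l : Fin n) : y l = z := by
  have h0 : ∀ w : ℂ, ‖w - z‖ ^ 2 = ‖w‖ ^ 2 - 2 * (w.re * z.re + w.im * z.im) + ‖z‖ ^ 2 := by
    intro w
    rw [← Complex.normSq_eq_norm_sq, ← Complex.normSq_eq_norm_sq, ← Complex.normSq_eq_norm_sq,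
      Complex.normSq_apply, Complex.normSq_apply, Complex.normSq_apply, Complex.sub_re, Complex.sub_im]
    ring
  have hzz : ‖z‖ ^ 2 = z.re * z.re + z.im * z.im := by
    rw [← Complex.normSq_eq_norm_sq, Complex.normSq_apply]
  have hre : z.re = ∑ l, p l * (y l).re := by
    conv_lhs => rw [hz]
    rw [Complex.re_sum]
    apply Finset.sum_congr rfl
    intro i _
    simp
  have him : z.im = ∑ l, p l * (y l).im := by
    conv_lhs => rw [hz]
    rw [Complex.im_sum]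
    apply Finset.sum_congr rfl
    intro i _
    simp
  have h1 : ∑ l, p l * ‖y l - z‖ ^ 2 ≤ 0 := by
    have h2 : ∑ l, p l * ‖y l - z‖ ^ 2 = ∑ l, p l * ‖y l‖ ^ 2 -
        2 * ((∑ l, p l * (y l).re) * z.re + (∑ l, p l * (y l).im) * z.im) + (∑ l, p l) * ‖z‖ ^ 2 := by
      rw [Finset.sum_mul, Finset.sum_mul, Finset.sum_mul, ← Finset.sum_add_distrib, Finset.mul_sum,
        ← Finset.sum_sub_distrib, ← Finset.sum_add_distrib]
      apply Finset.sum_congr rfl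
      intro i _
      rw [h0]
      ring
    have h3 : ∑ l, p l * ‖y l‖ ^ 2 ≤ ∑ l, p l * ‖z‖ ^ 2 := by
      apply Finset.sum_le_sum
      intro i _
      apply mul_le_mul_of_nonneg_left _ (hp i).le
      have := hy i
      gcongr
    rw [← Finset.sum_mul, hp1, one_mul] at h3
    rw [h2, ← hre, ← him, hp1, one_mul]
    nlinarith
  have h4 : ∀ i ∈ (Finset.univ : Finset (Fin n)), 0 ≤ p i * ‖y i - z‖ ^ 2 := fun i _ =>
    mul_nonneg (hp i).le (sq_nonneg _)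
  have h5 := (Finset.sum_eq_zero_iff_of_nonneg h4).1 (le_antisymm h1 (Finset.sum_nonneg h4)) l (Finset.mem_univ l)
  have h6 : ‖y l - z‖ ^ 2 = 0 := by
    rcases mul_eq_zero.1 h5 with h | h
    · exact absurd h (hp l).ne'
    · exact h
  have h7 : ‖y l - z‖ = 0 := by
    exact pow_eq_zero_iff (by norm_num) |>.1 h6
  exact sub_eq_zero.1 (norm_eq_zero.1 h7)

/-- `|W|` is constant on the finitely many right cosets `Λ g`, so it attains its maximum `M > 0`. If `‖W g‖ = M` then `W g = ∑ p l * W (g * e l)` with `‖W (g * e l)‖ ≤ M` forces `W (g * e l) = W g` for all `l`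
(`∑ p l * Re (conj (W g) * W (g * e l)) = M^2`, each term is at most `p l M^2`). The set `T` of the `x` with `∀ g, ‖W g‖ = M → W (g * x) = W g` contains the `e l` and is closed under
multiplication, so it is everything and `W` is a nonzero constant. -/
theorem maxu {Γ : Type} [Group Γ] (Λ : Subgroup Γ) (hΛ : Λ.FiniteIndex) {n : ℕ} (p : Fin n → ℝ) (hp : ∀ i, 0 < p i) (hp1 : ∑ i, p i = 1)
    (e : Fin n → Γ) (hgen : ∀ T : Set Γ, (∀ i, e i ∈ T) → (∀ x ∈ T, ∀ y ∈ T, x * y ∈ T) → ∀ γ, γ ∈ T)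
    (χ : Λ → ℂ) (hχ : ∀ γ, ‖χ γ‖ = 1) (W : Γ → ℂ) (hW0 : ∃ g, W g ≠ 0) (hW1 : ∀ (γ : Λ) (g : Γ), W (γ * g) = χ γ * W g)
    (hW2 : ∀ g, W g = ∑ l, (p l : ℂ) * W (g * e l)) : ∀ γ : Λ, χ γ = 1 := by
  -- the norm on left cosets of inverses
  obtain ⟨g0, hg0⟩ : ∃ g0, ∀ g, ‖W g‖ ≤ ‖W g0‖ := by
    have hw : ∀ a b : Γ, (QuotientGroup.leftRel Λ).r a b → ‖W a⁻¹‖ = ‖W b⁻¹‖ := by
      intro a b hab
      have h1 : a⁻¹ * b ∈ Λ := (QuotientGroup.leftRel_apply).1 hab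
      have h2 := hW1 ⟨a⁻¹ * b, h1⟩ b⁻¹
      have h3 : (((⟨a⁻¹ * b, h1⟩ : Λ) : Γ) * b⁻¹) = a⁻¹ := by
        simp
      rw [h3] at h2
      rw [h2, norm_mul, hχ, one_mul]
    haveI : Finite (Γ ⧸ Λ) := inferInstance
    let F : Γ ⧸ Λ → ℝ := fun x => Quotient.liftOn x (fun a : Γ => ‖W a⁻¹‖) hw
    haveI : Nonempty (Γ ⧸ Λ) := ⟨((1 : Γ) : Γ ⧸ Λ)⟩
    obtain ⟨x0, hx0⟩ := Finite.exists_max F
    obtain ⟨a, rfl⟩ := QuotientGroup.mk_surjective x0
    refine ⟨a⁻¹, fun g => ?_⟩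
    have h4 := hx0 ((g⁻¹ : Γ) : Γ ⧸ Λ)
    have h5 : F ((g⁻¹ : Γ) : Γ ⧸ Λ) = ‖W g⁻¹⁻¹‖ := rfl
    have h6 : F ((a : Γ) : Γ ⧸ Λ) = ‖W a⁻¹‖ := rfl
    rw [h5, h6, inv_inv] at h4
    exact h4
  have hM : W g0 ≠ 0 := by
    obtain ⟨g, hg⟩ := hW0
    intro h
    have := hg0 g
    rw [h, norm_zero] at this
    exact hg (norm_le_zero_iff.1 this)
  have hall := hgen {x | ∀ g, ‖W g‖ = ‖W g0‖ → W (g * x) = W g} (by
    intro i g hg
    exact maxu_eq p hp hp1 (W g) (fun l => W (g * e l)) (fun l => by rw [hg]; exact hg0 _) (hW2 g) i) (by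
    intro x hx y hy g hg
    have h1 := hx g hg
    rw [← mul_assoc, hy (g * x) (by rw [h1]; exact hg), h1])
  intro γ
  have h1 := hall (g0⁻¹ * γ * g0) g0 rfl
  have h2 := hW1 γ g0
  have h3 : g0 * (g0⁻¹ * γ * g0) = (γ : Γ) * g0 := by group
  rw [h3, h2] at h1
  exact mul_right_cancel₀ hM (h1.trans (one_mul _).symm)

/-- right cosets: `ι = Quotient (QuotientGroup.rightRel Λ)`, `T = Quotient.out`, `la g = g * (T (cl g))⁻¹` -/
theorem cosets {Γ : Type} [Group Γ] (Λ : Subgroup Γ) (hΛ : Λ.FiniteIndex) :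
    ∃ (ι : Type) (_ : Fintype ι) (_ : DecidableEq ι) (cl : Γ → ι) (T : ι → Γ) (la : Γ → Λ),
      (∀ g, g = la g * T (cl g)) ∧ (∀ (γ : Λ) (g : Γ), cl (γ * g) = cl g) ∧ ∀ i, cl (T i) = i := by
  classical
  haveI h1 : Finite (Γ ⧸ Λ) := inferInstance
  haveI h2 : Finite (Quotient (QuotientGroup.rightRel Λ)) :=
    Finite.of_equiv _ (QuotientGroup.quotientRightRelEquivQuotientLeftRel Λ).symm
  have hmem : ∀ g : Γ, g * (Quotient.out (Quotient.mk (QuotientGroup.rightRel Λ) g))⁻¹ ∈ Λ := by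
    intro g
    have h3 := Quotient.mk_out (s := QuotientGroup.rightRel Λ) g
    exact (QuotientGroup.rightRel_apply).1 h3
  refine ⟨Quotient (QuotientGroup.rightRel Λ), Fintype.ofFinite _, inferInstance,
    fun g => Quotient.mk (QuotientGroup.rightRel Λ) g, fun i => Quotient.out i,
    fun g => ⟨g * (Quotient.out (Quotient.mk (QuotientGroup.rightRel Λ) g))⁻¹, hmem g⟩, ?_, ?_, ?_⟩
  · intro g
    simp
  · intro γ g
    apply Quotient.sound
    refine (QuotientGroup.rightRel_apply).2 ?_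
    have h4 : g * ((γ : Γ) * g)⁻¹ = ((γ⁻¹ : Λ) : Γ) := by
      rw [mul_inv_rev, mul_inv_cancel_left]
      rfl
    rw [h4]
    exact (γ⁻¹).2
  · intro i
    exact Quotient.out_eq i

end Pool.Agent.DimDropF
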