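import Pool.Agent.Lib_MP_644907_f.ASMA
import Pool.Agent.Lib_MP_644907_f.DET
import Pool.Agent.Lib_MP_644907_f.MAXU

/-!
# Piece ASMB: the contradiction
-/

set_option autoImplicit false

open Complex MeasureTheory Metric Filter
open scoped ContDiff Topology

namespace Pool.Agent.DimDropF

open Pool.Agent.DimDrop (IsoD)

/-- `cosets`, `v_eq`, `det_chars` with `χ x = exp (I * Re (κ x))`, `κ = conj c₀ / |c₀|^2` for some `c₀ = c γ₀ ≠ 0`, so `χ (c γ₀) = exp I ≠ 1`. `c` is additive (`F (f (γ δ) 0)`), `la (γ g) = γ la g` by `h1, h2` .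
`W g = χ (c (la g)) * w (cl g)` satisfies the hypotheses of `maxu`, so `χ (c γ) = 1` for all `γ ∈ Λ`: contradiction. -/
theorem asm {Γ : Type} [Group Γ] (A : IG Γ) {n : ℕ} (p : Fin n → ℝ) (hp : ∀ i, 0 < p i) (hp1 : ∑ i, p i = 1) (e : Fin n → Γ)
    (hgen : ∀ T : Set Γ, (∀ i, e i ∈ T) → (∀ x ∈ T, ∀ y ∈ T, x * y ∈ T) → ∀ γ, γ ∈ T)
    (Λ : Subgroup Γ) (hΛ : Λ.FiniteIndex) (F : ℂ → ℂ) (c : Λ → ℂ) (C' : ℝ) (hC' : 0 < C') (hF : DifferentiableOn ℂ F (ball 0 1))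
    (hFc : ∀ (γ : Λ) (z : ℂ), ‖z‖ < 1 → F (A.f γ z) = F z + c γ) (hc : ∃ γ, c γ ≠ 0)
    (hFg : ∀ z : ℂ, ‖z‖ < 1 → ‖F z‖ ≤ C' * (1 - Real.log (1 - ‖z‖)))
    (φ : ℂ → ℝ) (al C : ℝ) (hal : 0 < al) (hal2 : al ≤ 2) (hC : 0 ≤ C) (hφ : Hol φ al C)
    (hmass : ∫ θ in (0:ℝ)..(2 * Real.pi), φ (circleMap 0 1 θ) ≠ 0)
    (hstat : ∀ h : ℂ → ℂ, ContinuousOn h (sphere 0 1) →
      ∫ θ in (0:ℝ)..(2 * Real.pi), h (circleMap 0 1 θ) * (φ (circleMap 0 1 θ) : ℂ) =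
        ∑ i, (p i : ℂ) * ∫ θ in (0:ℝ)..(2 * Real.pi), h (A.f (e i) (circleMap 0 1 θ)) * (φ (circleMap 0 1 θ) : ℂ)) :
    False := by
  obtain ⟨ι, hι, hdι, cl, T, la, h1, h2, h3⟩ := cosets Λ hΛ
  obtain ⟨t₀, ht₀, hv⟩ := v_eq A p e Λ F c C' hC' hF hFc hFg φ al C hal hal2 hC hφ hmass hstat cl T la h1
  obtain ⟨γ₀, hγ₀⟩ := hc
  -- additivity
  have hlt0 : ∀ γ : Γ, ‖A.f γ 0‖ < 1 := fun γ => isoD_lt (A.iso γ) (by simp)
  have hadd : ∀ γ δ : Λ, c (γ * δ) = c γ + c δ := by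
    intro γ δ
    have e1 := hFc (γ * δ) 0 (by simp)
    have e2 := hFc γ (A.f δ 0) (hlt0 δ)
    have e3 := hFc δ 0 (by simp)
    have e4 : A.f ((γ * δ : Λ) : Γ) 0 = A.f γ (A.f δ 0) := by
      rw [Subgroup.coe_mul]
      exact A.mul' γ δ 0 (by simp)
    rw [e4, e2, e3] at e1
    linear_combination -e1
  have hla : ∀ (γ : Λ) (g : Γ), la (γ * g) = γ * la g := by
    intro γ g
    have e1 := h1 (γ * g)
    rw [h2 γ g] at e1
    have e2 := h1 g
    apply Subtype.ext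
    rw [Subgroup.coe_mul]
    apply mul_right_cancel (b := T (cl g))
    rw [← e1, mul_assoc, ← e2]
  set κ : ℂ := (c γ₀)⁻¹ with hκ
  set χ : ℂ → ℂ := fun x => Complex.exp ((((κ * x).re : ℝ) : ℂ) * I) with hχ
  have hχ0 : χ 0 = 1 := by simp [hχ]
  have hχa : ∀ x y, χ (x + y) = χ x * χ y := by
    intro x y
    simp only [hχ]
    rw [← Complex.exp_add]
    congr 1
    rw [mul_add, Complex.add_re]
    push_cast
    ring
  have hχn : ∀ x, ‖χ x‖ = 1 := fun x => Complex.norm_exp_ofReal_mul_I _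
  obtain ⟨w, hw0, hw⟩ := det_chars p (fun i l => c (la (T i * e l))) (fun i l => cl (T i * e l)) t₀ ht₀ hv χ hχ0 hχa
  have hall := maxu Λ hΛ p hp hp1 e hgen (fun γ => χ (c γ)) (fun γ => hχn _) (fun g => χ (c (la g)) * w (cl g))
    (by
      obtain ⟨i, hi⟩ := Function.ne_iff.1 hw0
      refine ⟨T i, ?_⟩
      rw [h3]
      apply mul_ne_zero _ hi
      intro h0
      have := hχn (c (la (T i)))
      rw [h0, norm_zero] at this
      exact zero_ne_one this)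
    (by
      intro γ g
      rw [hla, hadd, hχa, h2]
      ring)
    (by
      intro g
      rw [hw (cl g), Finset.mul_sum]
      refine Finset.sum_congr rfl fun l _ => ?_
      have e1 : g * e l = la g * (T (cl g) * e l) := by
        rw [← mul_assoc, ← h1 g]
      rw [e1, hla, hadd, hχa, h2]
      ring)
  have h := hall γ₀
  simp only [hχ] at h
  rw [hκ, inv_mul_cancel₀ hγ₀] at h
  have h4 := congrArg Complex.im h
  rw [Complex.exp_ofReal_mul_I_im] at h4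
  simp only [Complex.one_re, Complex.one_im] at h4
  have h5 := Real.sin_pos_of_pos_of_lt_pi one_pos (by linarith [Real.pi_gt_three])
  linarith

end Pool.Agent.DimDropF
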