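import Pool.Agent.Lib_MP_644907_f.UNF

/-!
# Piece BR: comparison of integrals over balls and over the fundamental domain
-/

set_option autoImplicit false

open Complex MeasureTheory Metric
open scoped ContDiff

namespace Pool.Agent.DimDropF

namespace FG

variable {Γ : Type} [Group Γ] (G : FG Γ)

/-- The ball is covered by the `m γ '' FD` with `γ⁻¹` in the finite set of `finite2`; each of these integrals is
`∫⁻_FD |d γ z|^2 Φ (m γ z) = ∫⁻_FD Φ` (`lintegral_image`); `C` = number of the `γ` -/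
theorem br (R : ℝ) (hR : R < 1) : ∃ C : NNReal, ∀ Φ : ℂ → ENNReal,
    (∀ γ, ∀ z : ℂ, ‖z‖ < 1 → Φ (G.m γ z) * ENNReal.ofReal (‖G.d γ z‖ ^ 2) = Φ z) →
    ∫⁻ z in ball (0:ℂ) R, Φ z ≤ C * ∫⁻ z in G.FD, Φ z := by
  classical
  have hfin := G.finite2 R G.r hR G.r1
  set S : Finset Γ := hfin.toFinset with hS
  refine ⟨(S.card : NNReal), fun Φ hΦ => ?_⟩
  have hFDb : G.FD ⊆ ball (0:ℂ) 1 := fun z hz => mem_ball_zero_iff.2 (G.FD_lt hz)
  have hcov : ball (0:ℂ) R ⊆ ⋃ γ : ↥S, G.m (γ : Γ) '' G.FD := by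
    intro z hz
    have hzR : ‖z‖ < R := mem_ball_zero_iff.1 hz
    have hz1 : ‖z‖ < 1 := hzR.trans hR
    obtain ⟨δ, hδ⟩ := G.FD_ex hz1
    have h1 : G.m δ⁻¹ (G.m δ z) = z := G.m_inv δ hz1
    have h2 : δ⁻¹ ∈ S := by
      rw [hS, Set.Finite.mem_toFinset]
      refine ⟨G.m δ z, mem_closedBall_zero_iff.1 (G.FD_sub hδ), ?_⟩
      rw [h1]
      exact hzR.le
    exact Set.mem_iUnion.2 ⟨⟨δ⁻¹, h2⟩, ⟨G.m δ z, hδ, h1⟩⟩
  have hone : ∀ γ : Γ, ∫⁻ z in G.m γ '' G.FD, Φ z = ∫⁻ z in G.FD, Φ z := by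
    intro γ
    rw [G.lintegral_image γ G.FD G.FD_meas hFDb Φ]
    refine setLIntegral_congr_fun G.FD_meas fun z hz => ?_
    rw [mul_comm]
    exact hΦ γ z (G.FD_lt hz)
  calc ∫⁻ z in ball (0:ℂ) R, Φ z ≤ ∫⁻ z in ⋃ γ : ↥S, G.m (γ : Γ) '' G.FD, Φ z :=
        lintegral_mono_set hcov
    _ ≤ ∑' γ : ↥S, ∫⁻ z in G.m (γ : Γ) '' G.FD, Φ z := lintegral_iUnion_le _ _
    _ = ((S.card : NNReal) : ENNReal) * ∫⁻ z in G.FD, Φ z := by
        rw [tsum_fintype]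
        simp_rw [hone]
        rw [Finset.sum_const, Finset.card_univ, Fintype.card_coe, nsmul_eq_mul]
        simp

/-- `unfold` with `Φ = 1`: `∑ γ ∫⁻_FD |d γ z|^2 = π < ∞`, and `|d γ 0|^2 ≤ (4/(1-r)^2... )^2 |d γ z|^2` by `d_le`
(used with `z = 0`), `volume FD > 0` -/
theorem sum_d : ∑' γ, ENNReal.ofReal (‖G.d γ 0‖ ^ 2) < ⊤ := by
  have h1 := G.unfold (fun _ => 1)
  have hpos := G.FD_pos
  have hle : (∑' γ, ENNReal.ofReal (‖G.d γ 0‖ ^ 2)) * volume G.FD ≤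
      16 * ∫⁻ _z in ball (0:ℂ) 1, (1 : ENNReal) := by
    rw [h1, ← ENNReal.tsum_mul_right, ← ENNReal.tsum_mul_left]
    refine ENNReal.tsum_le_tsum fun γ => ?_
    rw [← setLIntegral_const, ← lintegral_const_mul' _ _ (by norm_num)]
    refine setLIntegral_mono' G.FD_meas fun z hz => ?_
    rw [mul_one]
    have h2 := G.d_le γ (z := 0) (w := z) (R := 0) zero_lt_one (by simp) (G.FD_lt hz).le
    have h3 : (4 / (1 - 0) ^ 2 : ℝ) = 4 := by norm_num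
    rw [h3] at h2
    have h4 : ‖G.d γ 0‖ ^ 2 ≤ 16 * ‖G.d γ z‖ ^ 2 := by
      have := pow_le_pow_left₀ (norm_nonneg _) h2 2
      nlinarith
    calc ENNReal.ofReal (‖G.d γ 0‖ ^ 2) ≤ ENNReal.ofReal (16 * ‖G.d γ z‖ ^ 2) :=
          ENNReal.ofReal_le_ofReal h4
      _ = 16 * ENNReal.ofReal (‖G.d γ z‖ ^ 2) := by
          rw [ENNReal.ofReal_mul (by norm_num)]
          norm_num
  have hfin : 16 * ∫⁻ _z in ball (0:ℂ) 1, (1 : ENNReal) < ⊤ := by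
    rw [setLIntegral_const, one_mul]
    exact ENNReal.mul_lt_top (by norm_num) measure_ball_lt_top
  by_contra hcon
  rw [not_lt, top_le_iff] at hcon
  rw [hcon, ENNReal.top_mul hpos.ne'] at hle
  exact absurd hfin (not_lt.2 hle)

/-- `unfold`, `Φ (m γ z) = Φ z`, `|d γ z|^2 ≤ C |d γ 0|^2` for `z ∈ FD` (`d_le` with `R = G.r`), `sum_d` -/
theorem l2d : ∃ C : NNReal, ∀ Φ : ℂ → ENNReal, (∀ γ, ∀ z : ℂ, ‖z‖ < 1 → Φ (G.m γ z) = Φ z) →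
    ∫⁻ z in ball (0:ℂ) 1, Φ z ≤ C * ∫⁻ z in G.FD, Φ z := by
  set c : ℝ := (4 / (1 - G.r) ^ 2) ^ 2 with hc
  have hc0 : 0 ≤ c := sq_nonneg _
  have hT : ENNReal.ofReal c * ∑' γ, ENNReal.ofReal (‖G.d γ 0‖ ^ 2) < ⊤ :=
    ENNReal.mul_lt_top ENNReal.ofReal_lt_top G.sum_d
  refine ⟨(ENNReal.ofReal c * ∑' γ, ENNReal.ofReal (‖G.d γ 0‖ ^ 2)).toNNReal, fun Φ hΦ => ?_⟩
  rw [ENNReal.coe_toNNReal hT.ne, G.unfold Φ, ← ENNReal.tsum_mul_left, ← ENNReal.tsum_mul_right]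
  refine ENNReal.tsum_le_tsum fun γ => ?_
  rw [← lintegral_const_mul' _ _ (ENNReal.mul_lt_top ENNReal.ofReal_lt_top
    ENNReal.ofReal_lt_top).ne]
  refine setLIntegral_mono' G.FD_meas fun z hz => ?_
  rw [hΦ γ z (G.FD_lt hz)]
  refine mul_le_mul' ?_ le_rfl
  rw [← ENNReal.ofReal_mul hc0]
  refine ENNReal.ofReal_le_ofReal ?_
  have h2 := G.d_le γ (z := z) (w := 0) (R := G.r) G.r1
    (mem_closedBall_zero_iff.1 (G.FD_sub hz)) (by simp)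
  have h3 := pow_le_pow_left₀ (norm_nonneg _) h2 2
  rw [mul_pow] at h3
  exact h3

end FG

end Pool.Agent.DimDropF
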