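import Pool.Agent.Lib_MP_644907_f.Defs

/-!
# Piece CALC: calculus of `dbar` and `dd`
-/

set_option autoImplicit false

open Complex MeasureTheory Metric
open scoped ContDiff

namespace Pool.Agent.DimDropF

theorem fderiv_eq (w : ℂ → ℂ) (z h : ℂ) : fderiv ℝ w z h = dd w z * h + dbar w z * starRingEnd ℂ h := by
  have e : fderiv ℝ w z h = (h.re : ℂ) * fderiv ℝ w z 1 + (h.im : ℂ) * fderiv ℝ w z I := by
    have h1 : h = h.re • (1 : ℂ) + h.im • I := by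
      apply Complex.ext <;> simp
    conv_lhs => rw [h1]
    rw [map_add, map_smul, map_smul, real_smul, real_smul]
  have hI : I * I = -1 := I_mul_I
  rw [e, dd, dbar]
  have h2 : h = (h.re : ℂ) + (h.im : ℂ) * I := (re_add_im h).symm
  have h3 : starRingEnd ℂ h = (h.re : ℂ) - (h.im : ℂ) * I := by
    apply Complex.ext <;> simp
  rw [h3]
  linear_combination (-(fderiv ℝ w z 1 - I * fderiv ℝ w z I) / 2) * h2 + (h.im : ℂ) * fderiv ℝ w z I * hI

theorem norm_fderiv_sq_le (w : ℂ → ℂ) (z : ℂ) : ‖fderiv ℝ w z‖ ^ 2 ≤ 2 * (‖dd w z‖ ^ 2 + ‖dbar w z‖ ^ 2) := by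
  have h1 : ‖fderiv ℝ w z‖ ≤ ‖dd w z‖ + ‖dbar w z‖ := by
    apply ContinuousLinearMap.opNorm_le_bound _ (by positivity)
    intro h
    rw [fderiv_eq]
    calc ‖dd w z * h + dbar w z * starRingEnd ℂ h‖ ≤ ‖dd w z * h‖ + ‖dbar w z * starRingEnd ℂ h‖ := norm_add_le _ _
      _ = (‖dd w z‖ + ‖dbar w z‖) * ‖h‖ := by rw [norm_mul, norm_mul, RCLike.norm_conj]; ring
  have h2 : ‖fderiv ℝ w z‖ ^ 2 ≤ (‖dd w z‖ + ‖dbar w z‖) ^ 2 := pow_le_pow_left₀ (norm_nonneg _) h1 2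
  nlinarith [sq_nonneg (‖dd w z‖ - ‖dbar w z‖)]

theorem norm_dbar_le (w : ℂ → ℂ) (z : ℂ) : ‖dbar w z‖ ≤ ‖fderiv ℝ w z‖ := by
  rw [dbar, norm_div]
  have h1 : ‖fderiv ℝ w z 1‖ ≤ ‖fderiv ℝ w z‖ := by
    simpa using (fderiv ℝ w z).le_opNorm 1
  have h2 : ‖fderiv ℝ w z I‖ ≤ ‖fderiv ℝ w z‖ := by
    simpa using (fderiv ℝ w z).le_opNorm I
  have h3 : ‖fderiv ℝ w z 1 + I * fderiv ℝ w z I‖ ≤ ‖fderiv ℝ w z 1‖ + ‖fderiv ℝ w z I‖ := by
    refine (norm_add_le _ _).trans ?_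
    rw [norm_mul, norm_I, one_mul]
  have h4 : ‖(2:ℂ)‖ = 2 := by simp
  rw [h4]
  linarith

theorem norm_dd_le (w : ℂ → ℂ) (z : ℂ) : ‖dd w z‖ ≤ ‖fderiv ℝ w z‖ := by
  rw [dd, norm_div]
  have h1 : ‖fderiv ℝ w z 1‖ ≤ ‖fderiv ℝ w z‖ := by
    simpa using (fderiv ℝ w z).le_opNorm 1
  have h2 : ‖fderiv ℝ w z I‖ ≤ ‖fderiv ℝ w z‖ := by
    simpa using (fderiv ℝ w z).le_opNorm I
  have h3 : ‖fderiv ℝ w z 1 - I * fderiv ℝ w z I‖ ≤ ‖fderiv ℝ w z 1‖ + ‖fderiv ℝ w z I‖ := by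
    refine (norm_sub_le _ _).trans ?_
    rw [norm_mul, norm_I, one_mul]
  have h4 : ‖(2:ℂ)‖ = 2 := by simp
  rw [h4]
  linarith

/-- derivative of the composition -/
theorem fderiv_comp_aux {w m : ℂ → ℂ} {z m' : ℂ} (hw : DifferentiableAt ℝ w (m z)) (hm : HasDerivAt m m' z) (h : ℂ) :
    fderiv ℝ (fun x => w (m x)) z h = fderiv ℝ w (m z) (m' * h) := by
  have h1 : HasFDerivAt m ((ContinuousLinearMap.toSpanSingleton ℂ m').restrictScalars ℝ) z :=
    hm.hasFDerivAt.restrictScalars ℝ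
  have h2 := hw.hasFDerivAt.comp z h1
  have h3 : fderiv ℝ (fun x => w (m x)) z = _ := h2.fderiv
  rw [h3]
  simp [mul_comm]

theorem dbar_comp {w m : ℂ → ℂ} {z m' : ℂ} (hw : DifferentiableAt ℝ w (m z)) (hm : HasDerivAt m m' z) :
    dbar (fun x => w (m x)) z = dbar w (m z) * starRingEnd ℂ m' := by
  have hI : I * I = -1 := I_mul_I
  have e1 : dbar (fun x => w (m x)) z = (fderiv ℝ (fun x => w (m x)) z 1 + I * fderiv ℝ (fun x => w (m x)) z I) / 2 := rfl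
  rw [e1, fderiv_comp_aux hw hm, fderiv_comp_aux hw hm, fderiv_eq, fderiv_eq]
  simp only [map_mul, map_one, conj_I]
  linear_combination ((dd w (m z) * m' - dbar w (m z) * starRingEnd ℂ m') / 2) * hI

theorem dd_comp {w m : ℂ → ℂ} {z m' : ℂ} (hw : DifferentiableAt ℝ w (m z)) (hm : HasDerivAt m m' z) :
    dd (fun x => w (m x)) z = dd w (m z) * m' := by
  have hI : I * I = -1 := I_mul_I
  have e1 : dd (fun x => w (m x)) z = (fderiv ℝ (fun x => w (m x)) z 1 - I * fderiv ℝ (fun x => w (m x)) z I) / 2 := rfl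
  rw [e1, fderiv_comp_aux hw hm, fderiv_comp_aux hw hm, fderiv_eq, fderiv_eq]
  simp only [map_mul, map_one, conj_I]
  linear_combination (-(dd w (m z) * m' - dbar w (m z) * starRingEnd ℂ m') / 2) * hI

theorem fderiv_of_holo {f : ℂ → ℂ} {z : ℂ} (hf : DifferentiableAt ℂ f z) (h : ℂ) : fderiv ℝ f z h = deriv f z * h := by
  have h1 : HasFDerivAt f ((fderiv ℂ f z).restrictScalars ℝ) z := hf.hasFDerivAt.restrictScalars ℝ
  rw [h1.fderiv]
  have : fderiv ℂ f z h = deriv f z * h := by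
    have e2 : deriv f z = fderiv ℂ f z 1 := rfl
    have : h = h • (1 : ℂ) := by simp
    conv_lhs => rw [this, map_smul]
    rw [smul_eq_mul, mul_comm, e2]
  simpa using this

theorem dbar_of_holo {f : ℂ → ℂ} {z : ℂ} (hf : DifferentiableAt ℂ f z) : dbar f z = 0 := by
  have hI : I * I = -1 := I_mul_I
  rw [dbar, fderiv_of_holo hf, fderiv_of_holo hf]
  linear_combination (deriv f z / 2) * hI

theorem dd_of_holo {f : ℂ → ℂ} {z : ℂ} (hf : DifferentiableAt ℂ f z) : dd f z = deriv f z := by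
  have hI : I * I = -1 := I_mul_I
  rw [dd, fderiv_of_holo hf, fderiv_of_holo hf]
  linear_combination (-deriv f z / 2) * hI

theorem holo_of_dbar {f : ℂ → ℂ} {z : ℂ} (hf : DifferentiableAt ℝ f z) (h : dbar f z = 0) : DifferentiableAt ℂ f z := by
  have h1 : HasFDerivAt f (fderiv ℝ f z) z := hf.hasFDerivAt
  have h2 : (ContinuousLinearMap.toSpanSingleton ℂ (dd f z)).restrictScalars ℝ = fderiv ℝ f z := by
    ext x
    simp [fderiv_eq, h, mul_comm]
  exact (hasFDerivAt_of_restrictScalars ℝ h1 h2).differentiableAt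

theorem dbar_add {f g : ℂ → ℂ} {z : ℂ} (hf : DifferentiableAt ℝ f z) (hg : DifferentiableAt ℝ g z) :
    dbar (fun x => f x + g x) z = dbar f z + dbar g z := by
  have e : fderiv ℝ (fun x => f x + g x) z = fderiv ℝ f z + fderiv ℝ g z := fderiv_add hf hg
  simp only [dbar, e, add_apply]
  ring

theorem dbar_sub {f g : ℂ → ℂ} {z : ℂ} (hf : DifferentiableAt ℝ f z) (hg : DifferentiableAt ℝ g z) :
    dbar (fun x => f x - g x) z = dbar f z - dbar g z := by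
  have e : fderiv ℝ (fun x => f x - g x) z = fderiv ℝ f z - fderiv ℝ g z := fderiv_sub hf hg
  simp only [dbar, e, sub_apply]
  ring

theorem dd_sub {f g : ℂ → ℂ} {z : ℂ} (hf : DifferentiableAt ℝ f z) (hg : DifferentiableAt ℝ g z) :
    dd (fun x => f x - g x) z = dd f z - dd g z := by
  have e : fderiv ℝ (fun x => f x - g x) z = fderiv ℝ f z - fderiv ℝ g z := fderiv_sub hf hg
  simp only [dd, e, sub_apply]
  ring

theorem fderiv_mul_aux {f g : ℂ → ℂ} {z : ℂ} (hf : DifferentiableAt ℝ f z) (hg : DifferentiableAt ℝ g z) (h : ℂ) :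
    fderiv ℝ (fun x => f x * g x) z h = f z * fderiv ℝ g z h + g z * fderiv ℝ f z h := by
  have e : fderiv ℝ (fun x => f x * g x) z = f z • fderiv ℝ g z + g z • fderiv ℝ f z := fderiv_mul hf hg
  rw [e]
  simp

theorem dbar_mul {f g : ℂ → ℂ} {z : ℂ} (hf : DifferentiableAt ℝ f z) (hg : DifferentiableAt ℝ g z) :
    dbar (fun x => f x * g x) z = dbar f z * g z + f z * dbar g z := by
  simp only [dbar, fderiv_mul_aux hf hg]
  ring

theorem dd_mul {f g : ℂ → ℂ} {z : ℂ} (hf : DifferentiableAt ℝ f z) (hg : DifferentiableAt ℝ g z) :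
    dd (fun x => f x * g x) z = dd f z * g z + f z * dd g z := by
  simp only [dd, fderiv_mul_aux hf hg]
  ring

theorem dbar_sum {ι : Type*} (s : Finset ι) (f : ι → ℂ → ℂ) {z : ℂ} (hf : ∀ i ∈ s, DifferentiableAt ℝ (f i) z) :
    dbar (fun x => ∑ i ∈ s, f i x) z = ∑ i ∈ s, dbar (f i) z := by
  have e : fderiv ℝ (fun x => ∑ i ∈ s, f i x) z = ∑ i ∈ s, fderiv ℝ (f i) z := fderiv_fun_sum hf
  simp only [dbar, e, sum_apply, ← Finset.sum_div, Finset.sum_add_distrib, Finset.mul_sum]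

theorem dd_sum {ι : Type*} (s : Finset ι) (f : ι → ℂ → ℂ) {z : ℂ} (hf : ∀ i ∈ s, DifferentiableAt ℝ (f i) z) :
    dd (fun x => ∑ i ∈ s, f i x) z = ∑ i ∈ s, dd (f i) z := by
  have e : fderiv ℝ (fun x => ∑ i ∈ s, f i x) z = ∑ i ∈ s, fderiv ℝ (f i) z := fderiv_fun_sum hf
  simp only [dd, e, sum_apply, ← Finset.sum_div, Finset.sum_sub_distrib, Finset.mul_sum]

theorem fderiv_conj_aux {f : ℂ → ℂ} {z : ℂ} (hf : DifferentiableAt ℝ f z) (h : ℂ) :
    fderiv ℝ (fun x => starRingEnd ℂ (f x)) z h = starRingEnd ℂ (fderiv ℝ f z h) := by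
  have h1 : HasFDerivAt (fun x => conjCLE (f x)) ((conjCLE : ℂ →L[ℝ] ℂ).comp (fderiv ℝ f z)) z :=
    (conjCLE : ℂ →L[ℝ] ℂ).hasFDerivAt.comp z hf.hasFDerivAt
  have h2 : fderiv ℝ (fun x => starRingEnd ℂ (f x)) z = (conjCLE : ℂ →L[ℝ] ℂ).comp (fderiv ℝ f z) := by
    have := h1.fderiv
    simpa using this
  rw [h2]
  simp

theorem dbar_conj {f : ℂ → ℂ} {z : ℂ} (hf : DifferentiableAt ℝ f z) :
    dbar (fun x => starRingEnd ℂ (f x)) z = starRingEnd ℂ (dd f z) := by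
  simp only [dbar, dd, fderiv_conj_aux hf]
  have h2 : starRingEnd ℂ (2:ℂ) = 2 := map_ofNat (starRingEnd ℂ) 2
  simp only [map_div₀, map_add, map_sub, map_mul, conj_I, h2]
  ring

theorem dd_conj {f : ℂ → ℂ} {z : ℂ} (hf : DifferentiableAt ℝ f z) :
    dd (fun x => starRingEnd ℂ (f x)) z = starRingEnd ℂ (dbar f z) := by
  simp only [dbar, dd, fderiv_conj_aux hf]
  have h2 : starRingEnd ℂ (2:ℂ) = 2 := map_ofNat (starRingEnd ℂ) 2
  simp only [map_div₀, map_add, map_sub, map_mul, conj_I, h2]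
  ring

theorem dbar_congr {f g : ℂ → ℂ} {z : ℂ} (h : f =ᶠ[nhds z] g) : dbar f z = dbar g z := by
  rw [dbar, dbar, h.fderiv_eq]

theorem dd_congr {f g : ℂ → ℂ} {z : ℂ} (h : f =ᶠ[nhds z] g) : dd f z = dd g z := by
  rw [dd, dd, h.fderiv_eq]

theorem contDiff_fderiv_apply_aux {f : ℂ → ℂ} (hf : ContDiff ℝ ∞ f) (v : ℂ) : ContDiff ℝ ∞ (fun z => fderiv ℝ f z v) :=
  (hf.fderiv_right (m := ∞) (by simp)).clm_apply contDiff_const

theorem contDiff_dbar {f : ℂ → ℂ} (hf : ContDiff ℝ ∞ f) : ContDiff ℝ ∞ (dbar f) := by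
  have h1 := contDiff_fderiv_apply_aux hf 1
  have h2 := contDiff_fderiv_apply_aux hf I
  exact (h1.add (contDiff_const.mul h2)).div_const 2

theorem contDiff_dd {f : ℂ → ℂ} (hf : ContDiff ℝ ∞ f) : ContDiff ℝ ∞ (dd f) := by
  have h1 := contDiff_fderiv_apply_aux hf 1
  have h2 := contDiff_fderiv_apply_aux hf I
  exact (h1.sub (contDiff_const.mul h2)).div_const 2

theorem contDiffOn_fderiv_apply_aux {f : ℂ → ℂ} {U : Set ℂ} (hU : IsOpen U) (hf : ContDiffOn ℝ ∞ f U) (v : ℂ) :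
    ContDiffOn ℝ ∞ (fun z => fderiv ℝ f z v) U :=
  (hf.fderiv_of_isOpen (m := ∞) hU (by simp)).clm_apply contDiffOn_const

theorem contDiffOn_dbar {f : ℂ → ℂ} {U : Set ℂ} (hU : IsOpen U) (hf : ContDiffOn ℝ ∞ f U) : ContDiffOn ℝ ∞ (dbar f) U := by
  have h1 := contDiffOn_fderiv_apply_aux hU hf 1
  have h2 := contDiffOn_fderiv_apply_aux hU hf I
  exact (h1.add (contDiffOn_const.mul h2)).div_const 2

theorem contDiffOn_dd {f : ℂ → ℂ} {U : Set ℂ} (hU : IsOpen U) (hf : ContDiffOn ℝ ∞ f U) : ContDiffOn ℝ ∞ (dd f) U := by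
  have h1 := contDiffOn_fderiv_apply_aux hU hf 1
  have h2 := contDiffOn_fderiv_apply_aux hU hf I
  exact (h1.sub (contDiffOn_const.mul h2)).div_const 2

theorem contOn_fderiv_aux {f : ℂ → ℂ} {U : Set ℂ} (hU : IsOpen U) (hf : ContDiffOn ℝ 1 f U) (v : ℂ) :
    ContinuousOn (fun z => fderiv ℝ f z v) U := by
  have h := hf.continuousOn_fderiv_of_isOpen hU le_rfl
  exact h.clm_apply continuousOn_const

theorem contOn_dbar {f : ℂ → ℂ} {U : Set ℂ} (hU : IsOpen U) (hf : ContDiffOn ℝ 1 f U) : ContinuousOn (dbar f) U := by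
  have h1 := contOn_fderiv_aux hU hf 1
  have h2 := contOn_fderiv_aux hU hf I
  exact (h1.add (continuousOn_const.mul h2)).div_const 2

theorem contOn_dd {f : ℂ → ℂ} {U : Set ℂ} (hU : IsOpen U) (hf : ContDiffOn ℝ 1 f U) : ContinuousOn (dd f) U := by
  have h1 := contOn_fderiv_aux hU hf 1
  have h2 := contOn_fderiv_aux hU hf I
  exact (h1.sub (continuousOn_const.mul h2)).div_const 2

end Pool.Agent.DimDropF
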