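import Pool.Agent.Lib_MP_644907_f.KEY

/-!
# Piece CAU: Cauchy sequences
-/

set_option autoImplicit false

open Complex MeasureTheory Metric Filter
open scoped ContDiff Topology

namespace Pool.Agent.DimDropF

namespace FG

variable {Γ : Type} [Group Γ] (G : FG Γ)

private theorem fin_disc : IsFiniteMeasure (volume.restrict (ball (0:ℂ) 1)) :=
  ⟨by rw [Measure.restrict_apply_univ]; exact measure_ball_lt_top⟩

private theorem ps_memLp {ψ : ℂ → ℂ} (h : Test ψ) (c : ℂ) :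
    MemLp (fun z => G.PS ψ z - c) 2 (volume.restrict (ball (0:ℂ) 1)) := by
  have := fin_disc
  obtain ⟨M, hM⟩ := G.PS_bdd h
  have hmeas : AEStronglyMeasurable (G.PS ψ) (volume.restrict (ball (0:ℂ) 1)) :=
    (G.PS_smooth h).continuousOn.aestronglyMeasurable measurableSet_ball
  apply MemLp.of_bound (hmeas.sub aestronglyMeasurable_const) (M + ‖c‖)
  filter_upwards [ae_restrict_mem measurableSet_ball] with z hz
  have h1 := hM z (by simpa using hz)
  calc ‖G.PS ψ z - c‖ ≤ ‖G.PS ψ z‖ + ‖c‖ := norm_sub_le _ _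
    _ ≤ M + ‖c‖ := by linarith

private theorem ps_int {ψ : ℂ → ℂ} (h : Test ψ) : IntegrableOn (G.PS ψ) (ball (0:ℂ) ((1 + G.r) / 2)) := by
  have := fin_disc
  have h1 : IntegrableOn (G.PS ψ) (ball (0:ℂ) 1) := by
    have h2 := (ps_memLp G h 0).integrable (by norm_num)
    simp only [sub_zero] at h2
    exact h2
  apply h1.mono_set
  apply ball_subset_ball
  have := G.r1
  linarith

private theorem avg_sub {ψ χ : ℂ → ℂ} (h : Test ψ) (h' : Test χ) :
    G.avg (fun x => ψ x - χ x) = G.avg ψ - G.avg χ := by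
  unfold avg
  rw [← smul_sub, ← integral_sub (ps_int G h) (ps_int G h')]
  congr 1
  apply setIntegral_congr_fun measurableSet_ball
  intro z hz
  apply G.PS_sub h h'
  have h1 : ‖z‖ < (1 + G.r) / 2 := by simpa using hz
  have := G.r1
  linarith

private theorem dbar_PS_sub {ψ χ : ℂ → ℂ} (h : Test ψ) (h' : Test χ) {z : ℂ} (hz : ‖z‖ < 1) :
    dbar (G.PS (fun x => ψ x - χ x)) z = dbar (G.PS ψ) z - dbar (G.PS χ) z := by
  have hn : ball (0:ℂ) 1 ∈ 𝓝 z := isOpen_ball.mem_nhds (by simpa using hz)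
  have h1 : G.PS (fun x => ψ x - χ x) =ᶠ[𝓝 z] fun x => G.PS ψ x - G.PS χ x := by
    filter_upwards [hn] with x hx
    exact G.PS_sub h h' (by simpa using hx)
  rw [dbar_congr h1]
  apply dbar_sub
  · exact ((G.PS_smooth h).contDiffAt hn).differentiableAt (by simp)
  · exact ((G.PS_smooth h').contDiffAt hn).differentiableAt (by simp)

/-- `c n = avg (ψ n)`. By `key` for `ψ n - ψ m` (`PS_sub`, `avg` is linear) the bounded continuous functions `PS (ψ n) - c n` are a Cauchy sequence in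
`Lp ℂ 2 (volume.restrict (ball 0 1))`; `v` is the limit. -/
theorem cau (ψ : ℕ → ℂ → ℂ) (hψ : ∀ n, Test (ψ n))
    (hC : ∀ ε : ℝ, 0 < ε → ∃ N : ℕ, ∀ n ≥ N, ∀ m ≥ N,
      ∫ z in G.FD, ‖dbar (G.PS (ψ n)) z - dbar (G.PS (ψ m)) z‖ ^ 2 < ε) :
    ∃ (c : ℕ → ℂ) (v : ℂ → ℂ), MemLp v 2 (volume.restrict (ball (0:ℂ) 1)) ∧
      Tendsto (fun n => eLpNorm (fun z => G.PS (ψ n) z - c n - v z) 2 (volume.restrict (ball (0:ℂ) 1))) atTop (𝓝 0) := by
  obtain ⟨C, hC0, hkey⟩ := G.key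
  have := fin_disc
  set μ := volume.restrict (ball (0:ℂ) 1) with hμ
  set F : ℕ → Lp ℂ 2 μ := fun n => (ps_memLp G (hψ n) (G.avg (ψ n))).toLp _ with hF
  have hdist : ∀ n m, ‖F n - F m‖ ^ 2 ≤ C * ∫ z in G.FD, ‖dbar (G.PS (ψ n)) z - dbar (G.PS (ψ m)) z‖ ^ 2 := by
    intro n m
    have h1 := hkey (fun x => ψ n x - ψ m x) ((hψ n).sub (hψ m))
    have h2 : ∫ z in G.FD, ‖dbar (G.PS (fun x => ψ n x - ψ m x)) z‖ ^ 2 =
        ∫ z in G.FD, ‖dbar (G.PS (ψ n)) z - dbar (G.PS (ψ m)) z‖ ^ 2 := by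
      apply setIntegral_congr_fun G.FD_meas
      intro z hz
      show ‖dbar (G.PS (fun x => ψ n x - ψ m x)) z‖ ^ 2 = ‖dbar (G.PS (ψ n)) z - dbar (G.PS (ψ m)) z‖ ^ 2
      rw [dbar_PS_sub G (hψ n) (hψ m) (G.FD_lt hz)]
    rw [h2] at h1
    refine le_trans (le_of_eq ?_) h1
    have h3 : F n - F m = ((ps_memLp G (hψ n) (G.avg (ψ n))).sub (ps_memLp G (hψ m) (G.avg (ψ m)))).toLp _ := rfl
    rw [h3, Lp.norm_toLp, ← ENNReal.toReal_pow]
    have h4 := ((ps_memLp G (hψ n) (G.avg (ψ n))).sub (ps_memLp G (hψ m) (G.avg (ψ m))))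
    rw [MeasureTheory.MemLp.eLpNorm_eq_integral_rpow_norm (by norm_num) (by norm_num) h4,
      ← ENNReal.ofReal_pow (by positivity), ENNReal.toReal_ofReal (by positivity)]
    have h5 : ((∫ a, ‖((fun z => G.PS (ψ n) z - G.avg (ψ n)) - fun z => G.PS (ψ m) z - G.avg (ψ m)) a‖ ^ (2 : ENNReal).toReal ∂μ) ^
        ((2 : ENNReal).toReal)⁻¹) ^ 2 = ∫ a, ‖((fun z => G.PS (ψ n) z - G.avg (ψ n)) - fun z => G.PS (ψ m) z - G.avg (ψ m)) a‖ ^ 2 ∂μ := by
      rw [← Real.rpow_natCast, ← Real.rpow_mul (by positivity)]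
      simp
    rw [h5]
    apply setIntegral_congr_fun measurableSet_ball
    intro z hz
    simp only [Pi.sub_apply]
    rw [avg_sub G (hψ n) (hψ m), G.PS_sub (hψ n) (hψ m) (by simpa using hz)]
    congr 2
    ring
  have hcs : CauchySeq F := by
    rw [Metric.cauchySeq_iff]
    intro ε hε
    obtain ⟨N, hN⟩ := hC (ε ^ 2 / (C + 1)) (by positivity)
    refine ⟨N, fun n hn m hm => ?_⟩
    rw [dist_eq_norm]
    have h1 := hdist n m
    have h2 := hN n hn m hm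
    have h3 : ‖F n - F m‖ ^ 2 < ε ^ 2 := by
      rw [lt_div_iff₀ (by linarith)] at h2
      have h4 : 0 ≤ ∫ z in G.FD, ‖dbar (G.PS (ψ n)) z - dbar (G.PS (ψ m)) z‖ ^ 2 := by positivity
      nlinarith
    exact lt_of_pow_lt_pow_left₀ 2 hε.le h3
  obtain ⟨v, hv⟩ := cauchySeq_tendsto_of_complete hcs
  refine ⟨fun n => G.avg (ψ n), v, Lp.memLp v, ?_⟩
  rw [Lp.tendsto_Lp_iff_tendsto_eLpNorm'] at hv
  refine hv.congr fun n => ?_
  apply eLpNorm_congr_ae
  filter_upwards [(ps_memLp G (hψ n) (G.avg (ψ n))).coeFn_toLp] with z hz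
  simp only [Pi.sub_apply]
  rw [hF]
  simp only
  rw [hz]

end FG

end Pool.Agent.DimDropF
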