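import Pool.Agent.Lib_MP_644907_f.SEP

/-!
# Piece CONST: invariant functions with removable singularities are constant
-/

set_option autoImplicit false

open Complex MeasureTheory Metric Filter
open scoped ContDiff Topology

namespace Pool.Agent.DimDropF

namespace FG

variable {Γ : Type} [Group Γ] (G : FG Γ)

/-- a holomorphic invariant function on the disc is constant: the norm attains its maximum over the disc at a point of `closedBall 0 r` (`coc'`);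
`Complex.eqOn_of_isPreconnected_of_isMaxOn_norm` -/
theorem const0 (k : ℂ → ℂ) (hk : DifferentiableOn ℂ k (ball 0 1))
    (hinv : ∀ γ, ∀ z : ℂ, ‖z‖ < 1 → k (G.m γ z) = k z) : ∃ κ : ℂ, ∀ z : ℂ, ‖z‖ < 1 → k z = κ := by
  have hsub : closedBall (0:ℂ) G.r ⊆ ball 0 1 := closedBall_subset_ball G.r1
  obtain ⟨z0, hz0, hmax⟩ := (isCompact_closedBall (0:ℂ) G.r).exists_isMaxOn
    ⟨0, mem_closedBall_self G.r0.le⟩ ((hk.continuousOn.mono hsub).norm)
  have hz0' : z0 ∈ ball (0:ℂ) 1 := hsub hz0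
  have hM : IsMaxOn (norm ∘ k) (ball 0 1) z0 := by
    intro z hz
    have hz1 : ‖z‖ < 1 := mem_ball_zero_iff.1 hz
    obtain ⟨γ, hγ⟩ := G.coc' z hz1
    have h1 : G.m γ z ∈ closedBall (0:ℂ) G.r := mem_closedBall_zero_iff.2 hγ
    have h2 := hmax h1
    have h3 : k (G.m γ z) = k z := hinv γ z hz1
    simp only [Set.mem_ofPred_eq, h3] at h2
    exact h2
  have hE := Complex.eqOn_of_isPreconnected_of_isMaxOn_norm (convex_ball (0:ℂ) 1).isPreconnected isOpen_ball hk hz0' hM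
  exact ⟨k z0, fun z hz => hE (mem_ball_zero_iff.2 hz)⟩

/-- Remove the singularities: `K z = k z` for `z ∉ E` and `K z = limUnder (𝓝[≠] z) k` for `z ∈ E`;
`Complex.differentiableOn_update_limUnder_of_bddAbove` near each point of `E`; `K` is invariant by continuity; `const0`. -/
theorem const1 (E : Set ℂ) (hE : ∀ z : ℂ, ‖z‖ < 1 → ∃ ε : ℝ, 0 < ε ∧ ball z ε ⊆ ball 0 1 ∧ ∀ w ∈ ball z ε, w ∈ E → w = z)
    (hEi : ∀ γ, ∀ z : ℂ, ‖z‖ < 1 → (G.m γ z ∈ E ↔ z ∈ E))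
    (k : ℂ → ℂ) (hk : DifferentiableOn ℂ k (ball 0 1 \ E))
    (hinv : ∀ γ, ∀ z : ℂ, ‖z‖ < 1 → z ∉ E → k (G.m γ z) = k z)
    (hb : ∀ z : ℂ, ‖z‖ < 1 → z ∈ E → ∃ ε : ℝ, 0 < ε ∧ ∃ M : ℝ, ∀ w ∈ ball z ε, ‖w‖ < 1 → w ∉ E → ‖k w‖ ≤ M) :
    ∃ κ : ℂ, ∀ z : ℂ, ‖z‖ < 1 → z ∉ E → k z = κ := by
  classical
  set K : ℂ → ℂ := fun z => if z ∈ E then limUnder (𝓝[≠] z) k else k z with hKdef
  have hK1 : ∀ z, z ∉ E → K z = k z := fun z hz => by simp [hKdef, hz]
  have hKd : ∀ z : ℂ, ‖z‖ < 1 → DifferentiableAt ℂ K z := by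
    intro z hz
    obtain ⟨ε, hε, hsub, hun⟩ := hE z hz
    by_cases hzE : z ∈ E
    · obtain ⟨ε', hε', M, hM⟩ := hb z hz hzE
      set s : Set ℂ := ball z (min ε ε') with hs
      have hsn : s ∈ 𝓝 z := ball_mem_nhds z (lt_min hε hε')
      have hs1 : s ⊆ ball z ε := ball_subset_ball (min_le_left _ _)
      have hs2 : s ⊆ ball z ε' := ball_subset_ball (min_le_right _ _)
      have hd : DifferentiableOn ℂ k (s \ {z}) := by
        apply hk.mono
        rintro w ⟨hw, hwz⟩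
        exact ⟨hsub (hs1 hw), fun hwE => hwz (hun w (hs1 hw) hwE)⟩
      have hbd : BddAbove (norm ∘ k '' (s \ {z})) := by
        refine ⟨M, ?_⟩
        rintro _ ⟨w, ⟨hw, hwz⟩, rfl⟩
        exact hM w (hs2 hw) (mem_ball_zero_iff.1 (hsub (hs1 hw))) (fun hwE => hwz (hun w (hs1 hw) hwE))
      have h1 := Complex.differentiableOn_update_limUnder_of_bddAbove hsn hd hbd
      have h2 : DifferentiableAt ℂ (Function.update k z (limUnder (𝓝[≠] z) k)) z := h1.differentiableAt hsn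
      apply h2.congr_of_eventuallyEq
      filter_upwards [hsn] with w hw
      by_cases hwz : w = z
      · subst hwz
        simp [hKdef, hzE]
      · rw [Function.update_of_ne hwz, hK1 w (fun hwE => hwz (hun w (hs1 hw) hwE))]
    · have hnb : ball z ε ⊆ ball 0 1 \ E := by
        intro w hw
        refine ⟨hsub hw, fun hwE => hzE ?_⟩
        rw [← hun w hw hwE]; exact hwE
      have h1 : DifferentiableAt ℂ k z := (hk.mono hnb).differentiableAt (ball_mem_nhds z hε)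
      apply h1.congr_of_eventuallyEq
      filter_upwards [ball_mem_nhds z hε] with w hw
      exact hK1 w (hnb hw).2
  have hKinv : ∀ γ, ∀ z : ℂ, ‖z‖ < 1 → K (G.m γ z) = K z := by
    intro γ z hz
    by_cases hzE : z ∈ E
    · obtain ⟨ε, hε, hsub, hun⟩ := hE z hz
      have hc1 : ContinuousAt (fun w => K (G.m γ w)) z :=
        ContinuousAt.comp (f := G.m γ) (g := K) (hKd (G.m γ z) (G.m_lt γ hz)).continuousAt
          (G.hasDerivAt_m γ hz).continuousAt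
      have hc2 : ContinuousAt K z := (hKd z hz).continuousAt
      have hev : (fun w => K (G.m γ w)) =ᶠ[𝓝[≠] z] K := by
        filter_upwards [self_mem_nhdsWithin, mem_nhdsWithin_of_mem_nhds (ball_mem_nhds z hε)] with w hw1 hw2
        have hw1' : w ≠ z := hw1
        have hwn : ‖w‖ < 1 := mem_ball_zero_iff.1 (hsub hw2)
        have hwE : w ∉ E := fun h => hw1' (hun w hw2 h)
        rw [hK1 w hwE, hK1 _ (fun h => hwE ((hEi γ w hwn).1 h)), hinv γ w hwn hwE]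
      have ht1 : Tendsto (fun w => K (G.m γ w)) (𝓝[≠] z) (𝓝 (K (G.m γ z))) := hc1.tendsto.mono_left nhdsWithin_le_nhds
      have ht2 : Tendsto K (𝓝[≠] z) (𝓝 (K z)) := hc2.tendsto.mono_left nhdsWithin_le_nhds
      exact tendsto_nhds_unique (ht1.congr' hev) ht2
    · rw [hK1 z hzE, hK1 _ (fun h => hzE ((hEi γ z hz).1 h)), hinv γ z hz hzE]
  obtain ⟨κ, hκ⟩ := G.const0 K (fun z hz => (hKd z (mem_ball_zero_iff.1 hz)).differentiableWithinAt) hKinv
  exact ⟨κ, fun z hz hzE => by rw [← hK1 z hzE]; exact hκ z hz⟩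

/-- `const1` with `E = orb p ∪ orb q`; boundedness near the other points of the orbits follows by invariance (`m γ⁻¹` maps a neighbourhood of `m γ p` into the
neighbourhood of `p`) -/
theorem const2 {p q : ℂ} (hp : ‖p‖ < 1) (hq : ‖q‖ < 1) (k : ℂ → ℂ)
    (hk : DifferentiableOn ℂ k (ball 0 1 \ (G.orb p ∪ G.orb q)))
    (hinv : ∀ γ, ∀ z : ℂ, ‖z‖ < 1 → z ∉ G.orb p → z ∉ G.orb q → k (G.m γ z) = k z)
    (hbp : ∃ ε : ℝ, 0 < ε ∧ ∃ M : ℝ, ∀ w ∈ ball p ε, ‖w‖ < 1 → w ∉ G.orb p → w ∉ G.orb q → ‖k w‖ ≤ M)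
    (hbq : ∃ ε : ℝ, 0 < ε ∧ ∃ M : ℝ, ∀ w ∈ ball q ε, ‖w‖ < 1 → w ∉ G.orb p → w ∉ G.orb q → ‖k w‖ ≤ M) :
    ∃ κ : ℂ, ∀ z : ℂ, ‖z‖ < 1 → z ∉ G.orb p → z ∉ G.orb q → k z = κ := by
  have hmem : ∀ γ, ∀ z : ℂ, ‖z‖ < 1 → (G.m γ z ∈ G.orb p ∪ G.orb q ↔ z ∈ G.orb p ∪ G.orb q) := by
    intro γ z hz
    rw [Set.mem_union, Set.mem_union, G.orb_m hp γ hz, G.orb_m hq γ hz]
  have hbd : ∀ o : ℂ, ‖o‖ < 1 →
      (∃ ε : ℝ, 0 < ε ∧ ∃ M : ℝ, ∀ w ∈ ball o ε, ‖w‖ < 1 → w ∉ G.orb p → w ∉ G.orb q → ‖k w‖ ≤ M) →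
      ∀ z : ℂ, ‖z‖ < 1 → z ∈ G.orb o →
      ∃ ε : ℝ, 0 < ε ∧ ∃ M : ℝ, ∀ w ∈ ball z ε, ‖w‖ < 1 → w ∉ G.orb p ∪ G.orb q → ‖k w‖ ≤ M := by
    rintro o ho ⟨ε, hε, M, hM⟩ z hz ⟨γ, hγ⟩
    have hinvz : G.m γ⁻¹ z = o := by rw [hγ]; exact G.m_inv γ ho
    have hc : ContinuousAt (G.m γ⁻¹) z := (G.hasDerivAt_m γ⁻¹ hz).continuousAt
    have hn : (G.m γ⁻¹) ⁻¹' ball o ε ∈ 𝓝 z := by
      apply hc
      rw [hinvz]
      exact ball_mem_nhds o hε
    obtain ⟨δ, hδ, hδs⟩ := Metric.mem_nhds_iff.1 hn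
    refine ⟨δ, hδ, M, fun w hw hw1 hwE => ?_⟩
    have hwp : w ∉ G.orb p := fun h => hwE (Or.inl h)
    have hwq : w ∉ G.orb q := fun h => hwE (Or.inr h)
    have h1 : G.m γ⁻¹ w ∈ ball o ε := hδs hw
    have h2 := hM (G.m γ⁻¹ w) h1 (G.m_lt γ⁻¹ hw1) (fun h => hwp ((G.orb_m hp γ⁻¹ hw1).1 h))
      (fun h => hwq ((G.orb_m hq γ⁻¹ hw1).1 h))
    rwa [hinv γ⁻¹ w hw1 hwp hwq] at h2
  obtain ⟨κ, hκ⟩ := G.const1 (G.orb p ∪ G.orb q) (by
      intro z hz
      obtain ⟨ε1, hε1, hs1, hu1⟩ := G.orb_disc hp hz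
      obtain ⟨ε2, hε2, hs2, hu2⟩ := G.orb_disc hq hz
      refine ⟨min ε1 ε2, lt_min hε1 hε2, (ball_subset_ball (min_le_left _ _)).trans hs1, ?_⟩
      rintro w hw (hwE | hwE)
      · exact hu1 w (ball_subset_ball (min_le_left _ _) hw) hwE
      · exact hu2 w (ball_subset_ball (min_le_right _ _) hw) hwE) hmem k hk
    (fun γ z hz hzE => hinv γ z hz (fun h => hzE (Or.inl h)) (fun h => hzE (Or.inr h)))
    (by
      rintro z hz (hzE | hzE)
      · exact hbd p hp hbp z hz hzE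
      · exact hbd q hq hbq z hz hzE)
  exact ⟨κ, fun z hz h1 h2 => hκ z hz (fun h => h.elim h1 h2)⟩

private theorem const_cnt {Γ : Type} [Group Γ] (G : FG Γ) : Countable Γ := by
  have hU : (Set.univ : Set Γ) = ⋃ n : ℕ, {γ | ‖mb (G.a γ) (G.b γ) 0‖ ≤ 1 - 1 / ((n:ℝ) + 1)} := by
    symm
    rw [Set.eq_univ_iff_forall]
    intro γ
    have h1 : ‖G.m γ 0‖ < 1 := G.m_lt γ (by simp)
    obtain ⟨n, hn⟩ := exists_nat_one_div_lt (sub_pos.2 h1)
    refine Set.mem_iUnion.2 ⟨n, ?_⟩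
    have h2 : ‖mb (G.a γ) (G.b γ) 0‖ ≤ 1 - 1 / ((n:ℝ) + 1) := by
      have h3 : ‖G.m γ 0‖ = ‖mb (G.a γ) (G.b γ) 0‖ := rfl
      linarith
    exact h2
  have hc : (Set.univ : Set Γ).Countable := by
    rw [hU]
    refine Set.countable_iUnion (fun n => (G.fin' _ ?_).countable)
    have : (0:ℝ) < 1 / ((n:ℝ) + 1) := by positivity
    linarith
  exact Set.countable_univ_iff.1 hc

/-- the disc minus a countable set is connected: `OpenPartialHomeomorph.univUnitBall` maps `ℂ` homeomorphically onto the disc, and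
`Set.Countable.isConnected_compl_of_one_lt_rank` -/
theorem orb_conn (p : ℂ) : IsPreconnected (ball (0:ℂ) 1 \ G.orb p) := by
  have hcΓ : Countable Γ := const_cnt G
  have hc : (G.orb p).Countable := by
    have : G.orb p = Set.range (fun γ => G.m γ p) := by
      ext z
      simp only [orb, Set.mem_ofPred_eq, Set.mem_range]
      exact ⟨fun ⟨γ, h⟩ => ⟨γ, h.symm⟩, fun ⟨γ, h⟩ => ⟨γ, h.symm⟩⟩
    rw [this]
    exact Set.countable_range _
  set U := (OpenPartialHomeomorph.univUnitBall : OpenPartialHomeomorph ℂ ℂ) with hU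
  have hsrc : U.source = Set.univ := rfl
  have htgt : U.target = ball (0:ℂ) 1 := rfl
  have hinj : Set.InjOn U Set.univ := by
    have := U.injOn
    rwa [hsrc] at this
  have hinj' : Function.Injective U := Set.injOn_univ.1 hinj
  have hcont : Continuous U := by
    have := U.continuousOn
    rw [hsrc] at this
    exact continuousOn_univ.1 this
  have hcp : (U ⁻¹' G.orb p).Countable := hc.preimage hinj'
  have hconn : IsConnected (U ⁻¹' G.orb p)ᶜ :=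
    Set.Countable.isConnected_compl_of_one_lt_rank (by simp) hcp
  have himg : U '' (U ⁻¹' G.orb p)ᶜ = ball (0:ℂ) 1 \ G.orb p := by
    ext z
    constructor
    · rintro ⟨w, hw, rfl⟩
      refine ⟨?_, hw⟩
      rw [← htgt]
      exact U.map_source (by rw [hsrc]; trivial)
    · rintro ⟨hz, hzo⟩
      rw [← htgt] at hz
      refine ⟨U.symm z, ?_, U.right_inv hz⟩
      intro h
      apply hzo
      have : U (U.symm z) ∈ G.orb p := h
      rwa [U.right_inv hz] at this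
  rw [← himg]
  exact (hconn.image U hcont.continuousOn).isPreconnected

end FG

end Pool.Agent.DimDropF
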