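import Pool.Agent.Lib_MP_644907_f.CALC

/-!
# Piece TEST: test functions
-/

set_option autoImplicit false

open Complex MeasureTheory Metric
open scoped ContDiff

namespace Pool.Agent.DimDropF

/-- the support of a test function is in a smaller closed ball -/
theorem tsupport_subset_aux {ψ : ℂ → ℂ} {r : ℝ} (h : ∀ z : ℂ, r < ‖z‖ → ψ z = 0) : tsupport ψ ⊆ closedBall 0 r := by
  apply closure_minimal _ isClosed_closedBall
  intro z hz
  rw [mem_closedBall, dist_zero_right]
  by_contra hn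
  exact hz (h z (not_le.mp hn))

theorem Test.hasCompactSupport {ψ : ℂ → ℂ} (h : Test ψ) : HasCompactSupport ψ := by
  obtain ⟨r, _, _, hr⟩ := h.supp
  exact (isCompact_closedBall (0:ℂ) r).of_isClosed_subset (isClosed_tsupport ψ) (tsupport_subset_aux hr)

theorem Test.tsupport_subset {ψ : ℂ → ℂ} (h : Test ψ) : tsupport ψ ⊆ ball 0 1 := by
  obtain ⟨r, _, h1, hr⟩ := h.supp
  exact (tsupport_subset_aux hr).trans (closedBall_subset_ball h1)

/-- compact support in the open disc gives a smaller radius -/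
theorem Test.of {ψ : ℂ → ℂ} (h : ContDiff ℝ ∞ ψ) (hc : HasCompactSupport ψ) (hs : tsupport ψ ⊆ ball 0 1) : Test ψ := by
  refine ⟨h, ?_⟩
  have hc' : IsCompact (tsupport ψ) := hc
  by_cases hne : (tsupport ψ).Nonempty
  · obtain ⟨x, hx, hmax⟩ := hc'.exists_isMaxOn hne (continuous_norm (E := ℂ)).continuousOn
    have hx1 : ‖x‖ < 1 := by
      have := hs hx
      rwa [mem_ball, dist_zero_right] at this
    refine ⟨max ‖x‖ (1/2), by positivity, max_lt hx1 (by norm_num), fun z hz => ?_⟩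
    by_contra hn
    have hz1 : z ∈ tsupport ψ := subset_tsupport ψ hn
    have := hmax hz1
    simp only [Set.mem_ofPred_eq] at this
    exact absurd (lt_of_le_of_lt (le_max_left _ _) hz) (not_lt.mpr this)
  · refine ⟨1/2, by norm_num, by norm_num, fun z _ => ?_⟩
    by_contra hn
    exact hne ⟨z, subset_tsupport ψ hn⟩

theorem Test.continuous {ψ : ℂ → ℂ} (h : Test ψ) : Continuous ψ := h.smooth.continuous

theorem Test.integrable {ψ : ℂ → ℂ} (h : Test ψ) : Integrable ψ :=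
  h.continuous.integrable_of_hasCompactSupport h.hasCompactSupport

/-- a function that vanishes for `r < ‖z‖` has zero derivative there -/
theorem fderiv_zero_aux {ψ : ℂ → ℂ} {r : ℝ} (h : ∀ z : ℂ, r < ‖z‖ → ψ z = 0) (z : ℂ) (hz : r < ‖z‖) : fderiv ℝ ψ z = 0 := by
  have h1 : ψ =ᶠ[nhds z] fun _ => 0 := by
    have : {w : ℂ | r < ‖w‖} ∈ nhds z := (isOpen_lt continuous_const continuous_norm).mem_nhds hz
    filter_upwards [this] with w hw
    exact h w hw
  rw [h1.fderiv_eq]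
  simp

theorem Test.dbar {ψ : ℂ → ℂ} (h : Test ψ) : Test (DimDropF.dbar ψ) := by
  refine ⟨contDiff_dbar h.smooth, ?_⟩
  obtain ⟨r, h0, h1, hr⟩ := h.supp
  refine ⟨r, h0, h1, fun z hz => ?_⟩
  rw [DimDropF.dbar, fderiv_zero_aux hr z hz]
  simp

theorem Test.dd {ψ : ℂ → ℂ} (h : Test ψ) : Test (DimDropF.dd ψ) := by
  refine ⟨contDiff_dd h.smooth, ?_⟩
  obtain ⟨r, h0, h1, hr⟩ := h.supp
  refine ⟨r, h0, h1, fun z hz => ?_⟩
  rw [DimDropF.dd, fderiv_zero_aux hr z hz]
  simp

theorem Test.sub {ψ χ : ℂ → ℂ} (h : Test ψ) (h' : Test χ) : Test (fun z => ψ z - χ z) := by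
  refine ⟨h.smooth.sub h'.smooth, ?_⟩
  obtain ⟨r, h0, h1, hr⟩ := h.supp
  obtain ⟨r', h0', h1', hr'⟩ := h'.supp
  refine ⟨max r r', lt_max_of_lt_left h0, max_lt h1 h1', fun z hz => ?_⟩
  show ψ z - χ z = 0
  rw [hr z (lt_of_le_of_lt (le_max_left _ _) hz), hr' z (lt_of_le_of_lt (le_max_right _ _) hz), sub_zero]

theorem Test.add {ψ χ : ℂ → ℂ} (h : Test ψ) (h' : Test χ) : Test (fun z => ψ z + χ z) := by
  refine ⟨h.smooth.add h'.smooth, ?_⟩
  obtain ⟨r, h0, h1, hr⟩ := h.supp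
  obtain ⟨r', h0', h1', hr'⟩ := h'.supp
  refine ⟨max r r', lt_max_of_lt_left h0, max_lt h1 h1', fun z hz => ?_⟩
  show ψ z + χ z = 0
  rw [hr z (lt_of_le_of_lt (le_max_left _ _) hz), hr' z (lt_of_le_of_lt (le_max_right _ _) hz), add_zero]

theorem Test.smul {ψ : ℂ → ℂ} (h : Test ψ) (c : ℂ) : Test (fun z => c * ψ z) := by
  refine ⟨contDiff_const.mul h.smooth, ?_⟩
  obtain ⟨r, h0, h1, hr⟩ := h.supp
  refine ⟨r, h0, h1, fun z hz => ?_⟩
  show c * ψ z = 0
  rw [hr z hz, mul_zero]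

theorem Test.conj {ψ : ℂ → ℂ} (h : Test ψ) : Test (fun z => starRingEnd ℂ (ψ z)) := by
  refine ⟨?_, ?_⟩
  · have : (fun z => starRingEnd ℂ (ψ z)) = fun z => conjCLE (ψ z) := by
      funext z; simp
    rw [this]
    exact conjCLE.contDiff.comp h.smooth
  obtain ⟨r, h0, h1, hr⟩ := h.supp
  refine ⟨r, h0, h1, fun z hz => ?_⟩
  show starRingEnd ℂ (ψ z) = 0
  rw [hr z hz, map_zero]

theorem Test.zero : Test (fun _ => 0) := ⟨contDiff_const, 1/2, by norm_num, by norm_num, fun _ _ => rfl⟩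

/-- product of a test function and a function which is smooth on the disc (zero outside of the disc) -/
theorem Test.mulOn {ψ w : ℂ → ℂ} (h : Test ψ) (hw : ContDiffOn ℝ ∞ w (ball 0 1)) :
    Test ((ball (0:ℂ) 1).indicator (fun z => w z * ψ z)) := by
  obtain ⟨r, h0, h1, hr⟩ := h.supp
  refine ⟨?_, r, h0, h1, fun z hz => ?_⟩
  · rw [contDiff_iff_contDiffAt]
    intro z
    by_cases hz : ‖z‖ < 1
    · have hb : ball (0:ℂ) 1 ∈ nhds z := isOpen_ball.mem_nhds (by rwa [mem_ball, dist_zero_right])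
      have e : (ball (0:ℂ) 1).indicator (fun z => w z * ψ z) =ᶠ[nhds z] fun z => w z * ψ z := by
        filter_upwards [hb] with x hx
        exact Set.indicator_of_mem hx _
      exact ((hw.contDiffAt hb).mul h.smooth.contDiffAt).congr_of_eventuallyEq e
    · have hb : {w : ℂ | r < ‖w‖} ∈ nhds z :=
        (isOpen_lt continuous_const continuous_norm).mem_nhds (lt_of_lt_of_le h1 (not_lt.mp hz))
      have e : (ball (0:ℂ) 1).indicator (fun z => w z * ψ z) =ᶠ[nhds z] fun _ => 0 := by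
        filter_upwards [hb] with x hx
        by_cases hx' : x ∈ ball (0:ℂ) 1
        · rw [Set.indicator_of_mem hx', hr x hx, mul_zero]
        · exact Set.indicator_of_notMem hx' _
      exact contDiffAt_const.congr_of_eventuallyEq e
  · by_cases hx' : z ∈ ball (0:ℂ) 1
    · rw [Set.indicator_of_mem hx', hr z hz, mul_zero]
    · exact Set.indicator_of_notMem hx' _

end Pool.Agent.DimDropF
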