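import Pool.Agent.Lib_MP_644907_f.AREA
import Pool.Agent.Lib_MP_644907_f.TEST

/-!
# Piece WEYL: Weyl's lemma
-/

set_option autoImplicit false

open Complex MeasureTheory Metric
open scoped ContDiff Topology

namespace Pool.Agent.DimDropF

/-- mollification -/
private noncomputable def weylH (φ : ℂ → ℝ) (g : ℂ → ℂ) : ℂ → ℂ :=
  convolution φ g (ContinuousLinearMap.lsmul ℝ ℝ) volume

private theorem weyl_kernel_hasFDerivAt {φ : ℂ → ℝ} (hφ : ContDiff ℝ ∞ φ) (z w : ℂ) :
    HasFDerivAt (fun w : ℂ => ((φ (z - w) : ℝ) : ℂ))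
      (-(ofRealCLM.comp (fderiv ℝ φ (z - w)))) w := by
  have h1 : HasFDerivAt φ (fderiv ℝ φ (z - w)) (z - w) :=
    (hφ.differentiable (by simp)).differentiableAt.hasFDerivAt
  have h2 : HasFDerivAt (fun w : ℂ => z - w) (-(ContinuousLinearMap.id ℝ ℂ)) w := by
    have := (hasFDerivAt_id (𝕜 := ℝ) w).const_sub z
    exact this
  have h3 := h1.comp w h2
  have h4 := ofRealCLM.hasFDerivAt.comp w h3
  have h5 : ofRealCLM.comp ((fderiv ℝ φ (z - w)).comp (-(ContinuousLinearMap.id ℝ ℂ))) =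
      -(ofRealCLM.comp (fderiv ℝ φ (z - w))) := by
    refine ContinuousLinearMap.ext fun v => ?_
    simp
  rw [h5] at h4
  exact h4

private theorem weyl_kernel_dbar {φ : ℂ → ℝ} (hφ : ContDiff ℝ ∞ φ) (z w : ℂ) :
    dbar (fun w : ℂ => ((φ (z - w) : ℝ) : ℂ)) w =
      -(((fderiv ℝ φ (z - w) 1 : ℝ) : ℂ) + I * ((fderiv ℝ φ (z - w) I : ℝ) : ℂ)) / 2 := by
  unfold dbar
  rw [(weyl_kernel_hasFDerivAt hφ z w).fderiv]
  simp only [neg_apply, ContinuousLinearMap.comp_apply, ofRealCLM_apply]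
  ring

private theorem weyl_int {φ : ℂ → ℝ} (hφ : ContDiff ℝ ∞ φ) (hc : HasCompactSupport φ) {g : ℂ → ℂ}
    (hg : Integrable g) (z v : ℂ) : Integrable fun w : ℂ => (fderiv ℝ φ (z - w) v) • g w := by
  have h1 : Continuous fun w : ℂ => fderiv ℝ φ w v :=
    (hφ.continuous_fderiv (by simp)).clm_apply continuous_const
  have h2 : HasCompactSupport fun w : ℂ => fderiv ℝ φ w v := hc.fderiv_apply (𝕜 := ℝ) v
  have h3 : HasCompactSupport fun w : ℂ => fderiv ℝ φ (z - w) v :=
    h2.comp_homeomorph (Homeomorph.subLeft z)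
  exact hg.locallyIntegrable.integrable_smul_left_of_hasCompactSupport
    (h1.comp (continuous_const.sub continuous_id)) h3

private theorem weyl_fderiv {φ : ℂ → ℝ} (hφ : ContDiff ℝ ∞ φ) (hc : HasCompactSupport φ) {g : ℂ → ℂ}
    (hg : Integrable g) (z v : ℂ) :
    fderiv ℝ (weylH φ g) z v = ∫ w, (fderiv ℝ φ (z - w) v) • g w := by
  have hφ1 : ContDiff ℝ 1 φ := hφ.of_le (by exact_mod_cast le_top)
  have h1 := hc.hasFDerivAt_convolution_left (ContinuousLinearMap.lsmul ℝ ℝ) hφ1
    (hg.locallyIntegrable) z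
  unfold weylH
  rw [h1.fderiv, convolution_def]
  have hex := (hc.fderiv (𝕜 := ℝ)).convolutionExists_left
    (ContinuousLinearMap.precompL ℂ (ContinuousLinearMap.lsmul ℝ ℝ : ℝ →L[ℝ] ℂ →L[ℝ] ℂ))
    (hφ1.continuous_fderiv one_ne_zero) hg.locallyIntegrable z
  rw [ContinuousLinearMap.integral_apply hex]
  simp only [ContinuousLinearMap.precompL_apply, ContinuousLinearMap.lsmul_apply]
  rw [← integral_sub_left_eq_self (fun w => (fderiv ℝ φ (z - w) v) • g w) volume z]
  simp only [sub_sub_cancel]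

private theorem weyl_dbar {φ : ℂ → ℝ} (hφ : ContDiff ℝ ∞ φ) (hc : HasCompactSupport φ) {g : ℂ → ℂ}
    (hg : Integrable g) (z : ℂ) :
    dbar (weylH φ g) z = -∫ w, g w * dbar (fun w : ℂ => ((φ (z - w) : ℝ) : ℂ)) w := by
  have h1 := weyl_int hφ hc hg z 1
  have h2 := weyl_int hφ hc hg z I
  unfold dbar
  rw [weyl_fderiv hφ hc hg, weyl_fderiv hφ hc hg, ← integral_const_mul, ← integral_add h1 (h2.const_mul I),
    ← integral_div, ← integral_neg]
  refine integral_congr_ae (Filter.Eventually.of_forall fun w => ?_)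
  have h3 := weyl_kernel_dbar hφ z w
  show ((fderiv ℝ φ (z - w)) 1 • g w + I * (fderiv ℝ φ (z - w)) I • g w) / 2 =
    -(g w * dbar (fun w : ℂ => ((φ (z - w) : ℝ) : ℂ)) w)
  rw [h3, Complex.real_smul, Complex.real_smul]
  ring

private theorem weyl_diff {φ : ℂ → ℝ} (hφ : ContDiff ℝ ∞ φ) (hc : HasCompactSupport φ) {g : ℂ → ℂ}
    (hg : Integrable g) (z : ℂ) : DifferentiableAt ℝ (weylH φ g) z := by
  have hφ1 : ContDiff ℝ 1 φ := hφ.of_le (by exact_mod_cast le_top)
  exact (hc.hasFDerivAt_convolution_left (ContinuousLinearMap.lsmul ℝ ℝ) hφ1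
    (hg.locallyIntegrable) z).differentiableAt

private theorem weyl_l1 {φ : ℂ → ℝ} (hφ : ContDiff ℝ ∞ φ) (hc : HasCompactSupport φ) (h0 : ∀ w, 0 ≤ φ w)
    (h1 : ∫ w, φ w = 1) {g : ℂ → ℂ} (hg : Integrable g) :
    Integrable (weylH φ g) ∧ ∫ z, ‖weylH φ g z‖ ≤ ∫ z, ‖g z‖ := by
  have hφi : Integrable φ := hφ.continuous.integrable_of_hasCompactSupport hc
  have hi := hφi.integrable_convolution (ContinuousLinearMap.lsmul ℝ ℝ) hg
  have hi2 := hφi.integrable_convolution (ContinuousLinearMap.lsmul ℝ ℝ) hg.norm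
  refine ⟨hi, ?_⟩
  have h2 := integral_convolution (ContinuousLinearMap.lsmul ℝ ℝ) hφi hg.norm
  rw [h1, ContinuousLinearMap.lsmul_apply, one_smul] at h2
  rw [← h2]
  refine integral_mono hi.norm hi2 fun z => ?_
  show ‖weylH φ g z‖ ≤ _
  unfold weylH
  rw [convolution_def, convolution_def]
  refine (norm_integral_le_integral_norm _).trans (le_of_eq ?_)
  refine integral_congr_ae (Filter.Eventually.of_forall fun w => ?_)
  show ‖(ContinuousLinearMap.lsmul ℝ ℝ) (φ w) (g (z - w))‖ = (ContinuousLinearMap.lsmul ℝ ℝ) (φ w) ‖g (z - w)‖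
  rw [ContinuousLinearMap.lsmul_apply, ContinuousLinearMap.lsmul_apply, norm_smul, Real.norm_eq_abs,
    abs_of_nonneg (h0 w), smul_eq_mul]

private theorem weyl_area {f : ℂ → ℂ} {z₀ z : ℂ} {ρ : ℝ} (hρ : 0 < ρ)
    (hf : DifferentiableOn ℂ f (ball z₀ (3 * ρ))) (hi : IntegrableOn f (ball z₀ (3 * ρ))) {k : ℝ} (hk : k ≤ 2)
    (hz : z ∈ ball z₀ (k * ρ)) :
    ‖f z‖ ≤ (Real.pi * ρ ^ 2)⁻¹ * ∫ w in ball z₀ ((k + 1) * ρ), ‖f w‖ := by
  have hs1 : ball z ρ ⊆ ball z₀ ((k + 1) * ρ) := by
    refine ball_subset_ball' ?_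
    rw [mem_ball] at hz
    linarith
  have hs2 : ball z₀ ((k + 1) * ρ) ⊆ ball z₀ (3 * ρ) := ball_subset_ball (by nlinarith)
  have h1 := area_mean f z ρ hρ (hf.mono (hs1.trans hs2)) (hi.mono_set (hs1.trans hs2))
  refine h1.trans (mul_le_mul_of_nonneg_left ?_ (by positivity))
  exact setIntegral_mono_set (hi.mono_set hs2).norm (Filter.Eventually.of_forall fun w => norm_nonneg _)
    (LE.le.eventuallyLE hs1)

private noncomputable def weylBump (ρ : ℝ) (hρ : 0 < ρ) (n : ℕ) : ContDiffBump (0 : ℂ) where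
  rIn := ρ / (n + 1) / 2
  rOut := ρ / (n + 1)
  rIn_pos := by positivity
  rIn_lt_rOut := half_lt_self (by positivity)

private theorem weyl_local (U : Set ℂ) (h : ℂ → ℂ) (hloc : LocallyIntegrableOn h U)
    (hw : ∀ ψ : ℂ → ℂ, ContDiff ℝ ∞ ψ → HasCompactSupport ψ → tsupport ψ ⊆ U → ∫ z in U, h z * dbar ψ z = 0)
    (hUm : MeasurableSet U) (z₀ : ℂ) (ρ : ℝ) (hρ : 0 < ρ) (hsub : closedBall z₀ (4 * ρ) ⊆ U) :
    ∃ f : ℂ → ℂ, DifferentiableOn ℂ f (ball z₀ ρ) ∧ ∀ᵐ z ∂(volume.restrict (ball z₀ ρ)), h z = f z := by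
  set g : ℂ → ℂ := (closedBall z₀ (4 * ρ)).indicator h with hg
  have hgi : Integrable g := by
    have := hloc.integrableOn_compact_subset hsub (isCompact_closedBall _ _)
    exact this.integrable_indicator isClosed_closedBall.measurableSet
  set φ : ℕ → ContDiffBump (0 : ℂ) := weylBump ρ hρ with hφ
  have hrOut : ∀ n, (φ n).rOut = ρ / (n + 1) := fun n => rfl
  have hrIn : ∀ n, (φ n).rIn = ρ / (n + 1) / 2 := fun n => rfl
  have hrle : ∀ n, (φ n).rOut ≤ ρ := fun n => by
    rw [hrOut]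
    exact div_le_self hρ.le (by linarith [Nat.cast_nonneg (α := ℝ) n])
  set k : ℕ → ℂ → ℝ := fun n => (φ n).normed volume with hk
  have hks : ∀ n, ContDiff ℝ ∞ (k n) := fun n => (φ n).contDiff_normed
  have hkc : ∀ n, HasCompactSupport (k n) := fun n => (φ n).hasCompactSupport_normed
  have hk0 : ∀ n w, 0 ≤ k n w := fun n w => (φ n).nonneg_normed w
  have hk1 : ∀ n, ∫ w, k n w = 1 := fun n => (φ n).integral_normed
  set H : ℕ → ℂ → ℂ := fun n => weylH (k n) g with hH
  -- a.e. convergence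
  have hae : ∀ᵐ z, Filter.Tendsto (fun n => H n z) Filter.atTop (𝓝 (g z)) := by
    refine ContDiffBump.ae_convolution_tendsto_right_of_locallyIntegrable (K := 2) ?_ ?_ hgi.locallyIntegrable
    · have h1 := (tendsto_one_div_add_atTop_nhds_zero_nat (𝕜 := ℝ)).const_mul ρ
      rw [mul_zero] at h1
      refine h1.congr fun n => ?_
      rw [hrOut, mul_one_div]
    · refine Filter.Eventually.of_forall fun n => ?_
      rw [hrOut, hrIn]
      linarith
  -- holomorphy
  have hhol : ∀ n, DifferentiableOn ℂ (H n) (ball z₀ (3 * ρ)) := by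
    intro n z hz
    refine (holo_of_dbar (weyl_diff (hks n) (hkc n) hgi z) ?_).differentiableWithinAt
    rw [weyl_dbar (hks n) (hkc n) hgi z, neg_eq_zero]
    set ψ : ℂ → ℂ := fun w => ((k n (z - w) : ℝ) : ℂ) with hψ
    have hψs : ContDiff ℝ ∞ ψ := by
      have h1 : ContDiff ℝ ∞ fun w : ℂ => k n (z - w) := (hks n).comp (contDiff_const.sub contDiff_id)
      exact ofRealCLM.contDiff.comp h1
    have hts : tsupport ψ ⊆ closedBall z ρ := by
      refine closure_minimal (fun w hw' => ?_) isClosed_closedBall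
      have h1 : k n (z - w) ≠ 0 := by
        intro h0
        exact hw' (by simp [hψ, h0])
      have h2 : z - w ∈ tsupport (k n) := subset_tsupport _ h1
      rw [hk, (φ n).tsupport_normed_eq, mem_closedBall, dist_zero_right] at h2
      rw [mem_closedBall, dist_comm, dist_eq_norm]
      exact h2.trans (hrle n)
    have hsub2 : closedBall z ρ ⊆ closedBall z₀ (4 * ρ) := by
      refine closedBall_subset_closedBall' ?_
      rw [mem_ball] at hz
      linarith
    have hψc : HasCompactSupport ψ :=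
      (isCompact_closedBall z ρ).of_isClosed_subset (isClosed_tsupport ψ) hts
    have h1 := hw ψ hψs hψc ((hts.trans hsub2).trans hsub)
    rw [← h1, ← integral_indicator hUm]
    refine integral_congr_ae (Filter.Eventually.of_forall fun w => ?_)
    show g w * dbar ψ w = U.indicator (fun z => h z * dbar ψ z) w
    by_cases hwb : w ∈ closedBall z₀ (4 * ρ)
    · rw [Set.indicator_of_mem (hsub hwb), hg, Set.indicator_of_mem hwb]
    · have h2 : dbar ψ w = 0 := by
        have h3 : w ∉ tsupport (fderiv ℝ ψ) := fun h4 =>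
          hwb (hsub2 (hts (tsupport_fderiv_subset ℝ h4)))
        have h5 : fderiv ℝ ψ w = 0 := image_eq_zero_of_notMem_tsupport h3
        unfold dbar
        rw [h5]
        simp
      by_cases hwU : w ∈ U
      · rw [Set.indicator_of_mem hwU, h2, mul_zero, mul_zero]
      · rw [Set.indicator_of_notMem hwU, h2, mul_zero]
  have hHi : ∀ n, Integrable (H n) := fun n => (weyl_l1 (hks n) (hkc n) (hk0 n) (hk1 n) hgi).1
  have hH1 : ∀ n, ∫ z, ‖H n z‖ ≤ ∫ z, ‖g z‖ := fun n => (weyl_l1 (hks n) (hkc n) (hk0 n) (hk1 n) hgi).2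
  -- uniform bound
  set C : ℝ := (Real.pi * ρ ^ 2)⁻¹ * ∫ z, ‖g z‖ with hC
  have hbd : ∀ n, ∀ z ∈ ball z₀ (2 * ρ), ‖H n z‖ ≤ C := by
    intro n z hz
    have h1 := weyl_area hρ (hhol n) (hHi n).integrableOn le_rfl hz
    refine h1.trans (mul_le_mul_of_nonneg_left ?_ (by positivity))
    exact (setIntegral_le_integral (hHi n).norm (Filter.Eventually.of_forall fun w => norm_nonneg _)).trans (hH1 n)
  have hbdg : ∀ᵐ z ∂(volume.restrict (ball z₀ (2 * ρ))), ‖g z‖ ≤ C := by
    filter_upwards [ae_restrict_of_ae hae, ae_restrict_mem measurableSet_ball] with z h1 h2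
    exact le_of_tendsto h1.norm (Filter.Eventually.of_forall fun n => hbd n z h2)
  set a : ℕ → ℝ := fun n => ∫ z in ball z₀ (2 * ρ), ‖H n z - g z‖ with ha
  have ha0 : Filter.Tendsto a Filter.atTop (𝓝 0) := by
    have h1 : Filter.Tendsto a Filter.atTop (𝓝 (∫ z in ball z₀ (2 * ρ), (0 : ℝ))) := by
      refine tendsto_integral_of_dominated_convergence (fun _ => C + C) (fun n => ?_) ?_ (fun n => ?_) ?_
      · exact ((hHi n).sub hgi).norm.aestronglyMeasurable.restrict
      · exact integrableOn_const (by exact measure_ball_lt_top.ne)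
      · filter_upwards [hbdg, ae_restrict_mem measurableSet_ball] with z h2 h3
        rw [norm_norm]
        exact (norm_sub_le _ _).trans (add_le_add (hbd n z h3) h2)
      · filter_upwards [ae_restrict_of_ae hae] with z h2
        have h3 := (h2.sub_const (g z)).norm
        rwa [sub_self, norm_zero] at h3
    simpa using h1
  have hdiff : ∀ m n, ∀ z ∈ ball z₀ ρ, ‖H m z - H n z‖ ≤ (Real.pi * ρ ^ 2)⁻¹ * (a m + a n) := by
    intro m n z hz
    have h1 := weyl_area (f := fun z => H m z - H n z) hρ ((hhol m).sub (hhol n))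
      ((hHi m).sub (hHi n)).integrableOn (k := 1) (by norm_num) (by rwa [one_mul])
    refine h1.trans (mul_le_mul_of_nonneg_left ?_ (by positivity))
    have hm : IntegrableOn (fun z => ‖H m z - g z‖) (ball z₀ (2 * ρ)) := ((hHi m).sub hgi).norm.integrableOn
    have hn : IntegrableOn (fun z => ‖H n z - g z‖) (ball z₀ (2 * ρ)) := ((hHi n).sub hgi).norm.integrableOn
    rw [ha, show ((1 : ℝ) + 1) * ρ = 2 * ρ by ring]
    show _ ≤ (∫ z in ball z₀ (2 * ρ), ‖H m z - g z‖) + ∫ z in ball z₀ (2 * ρ), ‖H n z - g z‖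
    rw [← integral_add hm hn]
    refine integral_mono ((hHi m).sub (hHi n)).norm.integrableOn (hm.add hn) fun w => ?_
    show ‖H m w - H n w‖ ≤ ‖H m w - g w‖ + ‖H n w - g w‖
    have h2 : H m w - H n w = (H m w - g w) - (H n w - g w) := by ring
    rw [h2]
    exact norm_sub_le _ _
  have huc : UniformCauchySeqOn H Filter.atTop (ball z₀ ρ) := by
    rw [Metric.uniformCauchySeqOn_iff]
    intro ε hε
    have h1 : ∀ᶠ n in Filter.atTop, a n < ε / 2 * (Real.pi * ρ ^ 2) :=
      ha0.eventually_lt_const (by positivity)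
    obtain ⟨N, hN⟩ := Filter.eventually_atTop.1 h1
    refine ⟨N, fun m hm n hn z hz => ?_⟩
    rw [dist_eq_norm]
    refine (hdiff m n z hz).trans_lt ?_
    have h2 := hN m hm
    have h3 := hN n hn
    have h4 : 0 < Real.pi * ρ ^ 2 := by positivity
    rw [inv_mul_lt_iff₀ h4]
    linarith
  have hlim : ∀ z ∈ ball z₀ ρ, ∃ l, Filter.Tendsto (fun n => H n z) Filter.atTop (𝓝 l) := fun z hz =>
    cauchySeq_tendsto_of_complete (huc.cauchySeq hz)
  choose! f hf using hlim
  have htu := huc.tendstoUniformlyOn_of_tendsto hf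
  refine ⟨f, htu.tendstoLocallyUniformlyOn.differentiableOn (Filter.Eventually.of_forall fun n =>
    (hhol n).mono (ball_subset_ball (by linarith))) isOpen_ball, ?_⟩
  filter_upwards [ae_restrict_of_ae hae, ae_restrict_mem measurableSet_ball] with z h1 h2
  have h3 := tendsto_nhds_unique h1 (hf z h2)
  rw [← h3, hg, Set.indicator_of_mem]
  exact ball_subset_closedBall (ball_subset_ball (by linarith) h2)

/-- Proof. It is enough to find `f` on every closed ball in `U` (small balls cover `U`, second countability; on overlaps two continuous functions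
which agree a.e. agree; or define `f` directly as the limit below, which does not depend on the ball). Let `ball z₀ (4 ρ) ⊆ U` have compact closure in `U`,
`g = h` on `ball z₀ (4ρ)`, 0 outside: `g` is integrable. Let `φ_n` be `ContDiffBump` functions at 0 with `rOut = 2 rIn → 0`, `h_n = φ_n.normed ⋆ g`
(convolution with respect to `volume`). (1) `h_n` is smooth (`HasCompactSupport.contDiff_convolution_left`) and for `z ∈ ball z₀ (3ρ)` and `n` large,
`dbar h_n z = 0`: it is `∫ g(w) (dbar of φ_n.normed)(z - w) dw = - ∫ h(w) dbar_w [φ_n.normed (z - w)] dw = 0` by `hw`, so `h_n` is holomorphic on `ball z₀ (3ρ)`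
(`holo_of_dbar`). (2) `h_n → g` a.e. (`ContDiffBump.ae_convolution_tendsto_right_of_locallyIntegrable`). (3) `area_mean`: `|h_n| ≤ C` on `ball z₀ (2ρ)`,
because `∫ |h_n| ≤ ∫ |g|`. (4) By dominated convergence `∫_{ball z₀ (2ρ)} |h_n - g| → 0`; so by `area_mean` for `h_n - h_m` on `ball z₀ ρ` the sequence is uniformly Cauchy there; the limit `f`
is holomorphic (`TendstoLocallyUniformlyOn.differentiableOn`) and equal to `g = h` a.e. on `ball z₀ ρ`. -/
theorem weyl (U : Set ℂ) (hU : IsOpen U) (h : ℂ → ℂ) (hloc : LocallyIntegrableOn h U)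
    (hw : ∀ ψ : ℂ → ℂ, ContDiff ℝ ∞ ψ → HasCompactSupport ψ → tsupport ψ ⊆ U → ∫ z in U, h z * dbar ψ z = 0) :
    ∃ f : ℂ → ℂ, DifferentiableOn ℂ f U ∧ ∀ᵐ z ∂(volume.restrict U), h z = f z := by
  have hex : ∀ x ∈ U, ∃ ρ : ℝ, 0 < ρ ∧ ∃ f : ℂ → ℂ, DifferentiableOn ℂ f (ball x ρ) ∧
      ∀ᵐ z ∂(volume.restrict (ball x ρ)), h z = f z := by
    intro x hx
    obtain ⟨ε, hε, hb⟩ := Metric.nhds_basis_closedBall.mem_iff.1 (hU.mem_nhds hx)
    refine ⟨ε / 4, by positivity, weyl_local U h hloc hw hU.measurableSet x (ε / 4) (by positivity) ?_⟩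
    rwa [show 4 * (ε / 4) = ε by ring]
  choose! ρ hρ F hF1 hF2 using hex
  have hglue : ∀ x ∈ U, ∀ z ∈ U, z ∈ ball x (ρ x) → F z z = F x z := by
    intro x hx z hz hzx
    have h1 : F z =ᵐ[volume.restrict (ball z (ρ z) ∩ ball x (ρ x))] F x := by
      have h2 := ae_restrict_of_ae_restrict_of_subset (Set.inter_subset_left : ball z (ρ z) ∩ ball x (ρ x) ⊆ _)
        (hF2 z hz)
      have h3 := ae_restrict_of_ae_restrict_of_subset (Set.inter_subset_right : ball z (ρ z) ∩ ball x (ρ x) ⊆ _)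
        (hF2 x hx)
      filter_upwards [h2, h3] with w h4 h5
      rw [← h4, ← h5]
    exact Measure.eqOn_open_of_ae_eq h1 (isOpen_ball.inter isOpen_ball)
      ((hF1 z hz).continuousOn.mono Set.inter_subset_left) ((hF1 x hx).continuousOn.mono Set.inter_subset_right)
      ⟨mem_ball_self (hρ z hz), hzx⟩
  refine ⟨fun z => F z z, fun x hx => ?_, ?_⟩
  · have h1 : DifferentiableAt ℂ (F x) x :=
      (hF1 x hx).differentiableAt (isOpen_ball.mem_nhds (mem_ball_self (hρ x hx)))
    refine (h1.congr_of_eventuallyEq ?_).differentiableWithinAt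
    filter_upwards [isOpen_ball.mem_nhds (mem_ball_self (hρ x hx)), hU.mem_nhds hx] with z h2 h3
    exact hglue x hx z h3 h2
  · rw [ae_restrict_iff' hU.measurableSet, ae_iff]
    refine measure_null_of_locally_null _ fun x hx => ?_
    have hxU : x ∈ U := by
      by_contra h0
      exact hx fun h1 => absurd h1 h0
    refine ⟨ball x (ρ x) ∩ {z | ¬(z ∈ U → h z = F z z)}, ?_, ?_⟩
    · exact Filter.inter_mem (nhdsWithin_le_nhds (isOpen_ball.mem_nhds (mem_ball_self (hρ x hxU)))) self_mem_nhdsWithin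
    · have h1 := hF2 x hxU
      rw [ae_restrict_iff' measurableSet_ball, ae_iff] at h1
      refine measure_mono_null (fun z hz => ?_) h1
      obtain ⟨h2, h3⟩ := hz
      intro h4
      refine h3 fun h5 => ?_
      rw [h4 h2, hglue x hxU z h5 h2]

end Pool.Agent.DimDropF
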