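import Pool.Agent.Lib_MP_644907_f.EXT
import Pool.Agent.Lib_MP_644907_f.WEYL

/-!
# Piece DENSE: density of the `∂bar` exact forms if there is no holomorphic form of weight 2
-/

set_option autoImplicit false

open Complex MeasureTheory Metric
open scoped ContDiff

namespace Pool.Agent.DimDropF

namespace FG

variable {Γ : Type} [Group Γ] (G : FG Γ)

/-- If `β` is orthogonal to all `dbar (PS ψ)` then `β = 0` a.e. on `FD`. Let `B = PA (indicator FD β)`. By `unfB` (`α = dbar ψ`, `κ = conj d`, second factor `conj B`;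
`hB` from `PA_inv`; `hint` from `ext_loc`) and `dbar_PS`, `ext_eq`:
`0 = ∫_FD dbar (PS ψ) * conj β = ∫_disc dbar ψ * conj B` for all test functions, so by `weyl` (`U = ball 0 1`, `Test.of`) `conj B = b` a.e. with `b` holomorphic on the disc;
`conj B (m γ z) * d γ z = conj B z` on the disc (`PA_inv`), so with `ae_comp` `b (m γ z) * d γ z = b z` a.e., hence everywhere on the disc by continuity
(`MeasureTheory.Measure.eqOn_open_of_ae_eq`); by `h0` `b = 0`, so `B = 0` a.e. on the disc and `β = 0` a.e. on `FD` (`ext_eq`). -/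
theorem orth (h0 : G.NoForm) (β : ℂ → ℂ) (hβ : Measurable β) (h2 : ∫⁻ z in G.FD, ‖β z‖ₑ ^ 2 < ⊤)
    (ho : ∀ ψ : ℂ → ℂ, Test ψ → ∫ z in G.FD, dbar (G.PS ψ) z * starRingEnd ℂ (β z) = 0) :
    ∀ᵐ z ∂(volume.restrict G.FD), β z = 0 := by
  set B : ℂ → ℂ := G.PA (G.FD.indicator β) with hB
  have hFDb : G.FD ⊆ ball (0:ℂ) 1 := fun z hz => mem_ball_zero_iff.2 (G.FD_lt hz)
  have hBint : LocallyIntegrableOn B (ball (0:ℂ) 1) := G.ext_loc β hβ h2
  have hconj : LocallyIntegrableOn (fun z => starRingEnd ℂ (B z)) (ball (0:ℂ) 1) := by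
    intro x hx
    obtain ⟨t, ht, hi⟩ := hBint x hx
    exact ⟨t, ht, Complex.conjCLE.toContinuousLinearMap.integrable_comp hi⟩
  have hBinv : ∀ γ, ∀ z : ℂ, ‖z‖ < 1 →
      starRingEnd ℂ (B (G.m γ z)) * G.d γ z = starRingEnd ℂ (B z) := by
    intro γ z hz
    have h1 := congrArg (starRingEnd ℂ) (G.PA_inv (G.FD.indicator β) γ hz)
    rw [map_mul, Complex.conj_conj] at h1
    exact h1
  have hmain : ∀ ψ : ℂ → ℂ, Test ψ →
      ∫ z in ball (0:ℂ) 1, DimDropF.dbar ψ z * starRingEnd ℂ (B z) = 0 := by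
    intro ψ hψ
    obtain ⟨r', -, hr'1, hsupp⟩ := hψ.dbar.supp
    have hsub : closedBall (0:ℂ) r' ⊆ ball 0 1 := closedBall_subset_ball hr'1
    have hI : IntegrableOn (fun z => DimDropF.dbar ψ z * starRingEnd ℂ (B z)) (ball (0:ℂ) 1) := by
      have h1 : IntegrableOn (fun z => starRingEnd ℂ (B z)) (closedBall (0:ℂ) r') :=
        hconj.integrableOn_compact_subset hsub (isCompact_closedBall _ _)
      have h3 : IntegrableOn (fun z => DimDropF.dbar ψ z * starRingEnd ℂ (B z))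
          (closedBall (0:ℂ) r') :=
        IntegrableOn.continuousOn_mul hψ.dbar.continuous.continuousOn h1
          (isCompact_closedBall _ _)
      refine h3.of_forall_sdiff_eq_zero measurableSet_ball fun z hz => ?_
      have h4 : r' < ‖z‖ := by
        by_contra h5
        exact hz.2 (mem_closedBall_zero_iff.2 (not_lt.1 h5))
      rw [hsupp z h4, zero_mul]
    have h5 := G.unfB r' hr'1 (fun γ z => starRingEnd ℂ (G.d γ z)) (DimDropF.dbar ψ)
      (fun z => starRingEnd ℂ (B z)) hsupp hI (fun γ z hz => by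
        have h6 := hBinv γ z hz
        have h7 : (((‖G.d γ z‖ ^ 2 : ℝ)) : ℂ) = G.d γ z * starRingEnd ℂ (G.d γ z) := by
          rw [Complex.mul_conj, Complex.normSq_eq_norm_sq]
        rw [h7, ← h6]
        ring)
    rw [← h5, ← ho ψ hψ]
    refine setIntegral_congr_fun G.FD_meas fun z hz => ?_
    have h8 : (∑' γ, DimDropF.dbar ψ (G.m γ z) * starRingEnd ℂ (G.d γ z)) =
        DimDropF.dbar (G.PS ψ) z := by
      rw [G.dbar_PS hψ (G.FD_lt hz)]
      rfl
    rw [h8, hB, G.ext_eq β hz]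
  obtain ⟨b, hb1, hb2⟩ := weyl (ball 0 1) isOpen_ball (fun z => starRingEnd ℂ (B z)) hconj
    (fun ψ h1 h2 h3 => by
      refine Eq.trans ?_ (hmain ψ (Test.of h1 h2 h3))
      refine setIntegral_congr_fun measurableSet_ball fun z _ => ?_
      ring)
  have hbinv : ∀ γ, ∀ z : ℂ, ‖z‖ < 1 → b (G.m γ z) * G.d γ z = b z := by
    intro γ
    have h1 : (fun z => b (G.m γ z) * G.d γ z) =ᵐ[volume.restrict (ball (0:ℂ) 1)] b := by
      filter_upwards [hb2, G.ae_comp γ _ hb2, ae_restrict_mem measurableSet_ball] with z h3 h4 hz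
      rw [← h3, ← h4]
      exact hBinv γ z (mem_ball_zero_iff.1 hz)
    have h2 : ContinuousOn (fun z => b (G.m γ z) * G.d γ z) (ball (0:ℂ) 1) := by
      refine ContinuousOn.mul (hb1.continuousOn.comp (G.m_diffOn γ).continuousOn ?_) (G.d_contOn γ)
      intro z hz
      exact mem_ball_zero_iff.2 (G.m_lt γ (mem_ball_zero_iff.1 hz))
    intro z hz
    exact Measure.eqOn_open_of_ae_eq h1 isOpen_ball h2 hb1.continuousOn (mem_ball_zero_iff.2 hz)
  have hb0 := h0 b hb1 hbinv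
  have h9 := ae_restrict_of_ae_restrict_of_subset hFDb hb2
  filter_upwards [h9, ae_restrict_mem G.FD_meas] with z h3 hz
  rw [hb0 z (G.FD_lt hz), hB, G.ext_eq β hz] at h3
  have h4 := congrArg (starRingEnd ℂ) h3
  rwa [Complex.conj_conj, map_zero] at h4

private theorem dense_dbar_add {ψ χ : ℂ → ℂ} (hψ : Test ψ) (hχ : Test χ) {z : ℂ} (hz : ‖z‖ < 1) :
    DimDropF.dbar (G.PS (fun x => ψ x + χ x)) z =
      DimDropF.dbar (G.PS ψ) z + DimDropF.dbar (G.PS χ) z := by
  have hn : ball (0:ℂ) 1 ∈ nhds z := isOpen_ball.mem_nhds (mem_ball_zero_iff.2 hz)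
  have h1 : G.PS (fun x => ψ x + χ x) =ᶠ[nhds z] fun x => G.PS ψ x + G.PS χ x := by
    filter_upwards [hn] with w hw
    exact G.PS_add hψ hχ (mem_ball_zero_iff.1 hw)
  rw [dbar_congr h1]
  have h2 : ∀ {φ : ℂ → ℂ}, Test φ → DifferentiableAt ℝ (G.PS φ) z := fun hφ =>
    ((G.PS_smooth hφ).contDiffAt hn).differentiableAt (by simp)
  exact dbar_add (h2 hψ) (h2 hχ)

private theorem dense_dbar_smul {ψ : ℂ → ℂ} (hψ : Test ψ) (c : ℂ) {z : ℂ} (hz : ‖z‖ < 1) :
    DimDropF.dbar (G.PS (fun x => c * ψ x)) z = c * DimDropF.dbar (G.PS ψ) z := by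
  have hn : ball (0:ℂ) 1 ∈ nhds z := isOpen_ball.mem_nhds (mem_ball_zero_iff.2 hz)
  have h1 : G.PS (fun x => c * ψ x) =ᶠ[nhds z] fun x => c * G.PS ψ x := by
    filter_upwards [hn] with w hw
    exact G.PS_smul hψ c (mem_ball_zero_iff.1 hw)
  rw [dbar_congr h1]
  have h2 : DifferentiableAt ℝ (G.PS ψ) z :=
    ((G.PS_smooth hψ).contDiffAt hn).differentiableAt (by simp)
  have h3 := dbar_mul (f := fun _ => c) (g := G.PS ψ) (z := z) (differentiableAt_const c) h2
  rw [h3]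
  have h4 : DimDropF.dbar (fun _ : ℂ => c) z = 0 := by
    simp [DimDropF.dbar]
  rw [h4, zero_mul, zero_add]

private theorem dense_memLp {ψ : ℂ → ℂ} (hψ : Test ψ) :
    MemLp (DimDropF.dbar (G.PS ψ)) 2 (volume.restrict G.FD) := by
  have hfin : IsFiniteMeasure (volume.restrict G.FD) :=
    ⟨by rw [Measure.restrict_apply_univ]; exact G.FD_finite⟩
  have hc : ContinuousOn (DimDropF.dbar (G.PS ψ)) (ball (0:ℂ) 1) :=
    contOn_dbar isOpen_ball ((G.PS_smooth hψ).of_le (by simp))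
  have hsub : closedBall (0:ℂ) G.r ⊆ ball 0 1 := closedBall_subset_ball G.r1
  obtain ⟨C, hC⟩ := (isCompact_closedBall (0:ℂ) G.r).exists_bound_of_continuousOn (hc.mono hsub)
  have hm : AEStronglyMeasurable (DimDropF.dbar (G.PS ψ)) (volume.restrict G.FD) :=
    (hc.aestronglyMeasurable measurableSet_ball).mono_set
      (fun z hz => mem_ball_zero_iff.2 (G.FD_lt hz))
  refine MemLp.of_bound hm C ?_
  filter_upwards [ae_restrict_mem G.FD_meas] with z hz
  exact hC z (G.FD_sub hz)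

/-- Hilbert space `E = Lp ℂ 2 (volume.restrict FD)`, `K` = submodule of the classes of the functions `dbar (PS ψ)` (bounded on `FD`); `Kᗮ = ⊥` by `orth`
(take a measurable representative), so `K` is dense (`Submodule.topologicalClosure_eq_top_iff`). -/
theorem dense (h0 : G.NoForm) (α : ℂ → ℂ) (hα : MemLp α 2 (volume.restrict G.FD)) (ε : ℝ) (hε : 0 < ε) :
    ∃ ψ : ℂ → ℂ, Test ψ ∧ ∫ z in G.FD, ‖α z - dbar (G.PS ψ) z‖ ^ 2 < ε := by
  have hzero : ∀ᵐ z ∂(volume.restrict G.FD), ‖z‖ < 1 := by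
    filter_upwards [ae_restrict_mem G.FD_meas] with z hz
    exact G.FD_lt hz
  let K : Submodule ℂ (Lp ℂ 2 (volume.restrict G.FD)) :=
    { carrier := {x | ∃ ψ : ℂ → ℂ, Test ψ ∧ x =ᵐ[volume.restrict G.FD] DimDropF.dbar (G.PS ψ)}
      add_mem' := by
        rintro x y ⟨ψ, hψ, hx⟩ ⟨χ, hχ, hy⟩
        refine ⟨fun z => ψ z + χ z, hψ.add hχ, ?_⟩
        filter_upwards [Lp.coeFn_add x y, hx, hy, hzero] with z h1 h2 h3 h4
        rw [h1, Pi.add_apply, h2, h3, G.dense_dbar_add hψ hχ h4]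
      zero_mem' := by
        refine ⟨fun _ => 0, Test.zero, ?_⟩
        filter_upwards [Lp.coeFn_zero ℂ 2 (volume.restrict G.FD), hzero] with z h1 h4
        have h5 := G.dense_dbar_smul Test.zero 0 h4
        simp only [zero_mul] at h5
        rw [h1, h5, Pi.zero_apply]
      smul_mem' := by
        rintro c x ⟨ψ, hψ, hx⟩
        refine ⟨fun z => c * ψ z, hψ.smul c, ?_⟩
        filter_upwards [Lp.coeFn_smul c x, hx, hzero] with z h1 h2 h4
        rw [h1, Pi.smul_apply, h2, G.dense_dbar_smul hψ c h4, smul_eq_mul] }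
  have hK : Kᗮ = ⊥ := by
    rw [Submodule.eq_bot_iff]
    intro x hx
    have hxm := Lp.memLp x
    set β : ℂ → ℂ := (Lp.aestronglyMeasurable x).mk x with hβ
    have hβm : Measurable β := (Lp.aestronglyMeasurable x).stronglyMeasurable_mk.measurable
    have hxβ : x =ᵐ[volume.restrict G.FD] β := (Lp.aestronglyMeasurable x).ae_eq_mk
    have h2 : ∫⁻ z in G.FD, ‖β z‖ₑ ^ 2 < ⊤ := by
      have h3 := (eLpNorm_lt_top_iff_lintegral_rpow_enorm_lt_top (p := 2) two_ne_zero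
        ENNReal.ofNat_ne_top).1 hxm.2
      have h4 : ∫⁻ z in G.FD, ‖β z‖ₑ ^ 2 = ∫⁻ z in G.FD, ‖x z‖ₑ ^ (2 : ENNReal).toReal := by
        refine lintegral_congr_ae ?_
        filter_upwards [hxβ] with z hz
        rw [hz, ENNReal.toReal_ofNat, ENNReal.rpow_ofNat]
      rw [h4]
      exact h3
    have h5 := G.orth h0 β hβm h2 (fun ψ hψ => by
      have hk : (G.dense_memLp hψ).toLp _ ∈ K := ⟨ψ, hψ, (G.dense_memLp hψ).coeFn_toLp⟩
      have h6 := (Submodule.mem_orthogonal' K x).1 hx _ hk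
      rw [L2.inner_def] at h6
      rw [← h6]
      refine integral_congr_ae ?_
      filter_upwards [(G.dense_memLp hψ).coeFn_toLp, hxβ] with z h7 h8
      rw [h7, h8, RCLike.inner_apply])
    rw [Lp.eq_zero_iff_ae_eq_zero]
    filter_upwards [h5, hxβ] with z h7 h8
    rw [h8, h7, Pi.zero_apply]
  have htop : K.topologicalClosure = ⊤ := Submodule.topologicalClosure_eq_top_iff.2 hK
  have hmem : hα.toLp α ∈ closure (K : Set (Lp ℂ 2 (volume.restrict G.FD))) := by
    have h1 : hα.toLp α ∈ K.topologicalClosure := by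
      rw [htop]
      exact Submodule.mem_top
    exact h1
  obtain ⟨k, ⟨ψ, hψ, hk⟩, hdist⟩ := Metric.mem_closure_iff.1 hmem (Real.sqrt ε)
    (Real.sqrt_pos.2 hε)
  refine ⟨ψ, hψ, ?_⟩
  rw [dist_eq_norm] at hdist
  set g := hα.toLp α - k with hg
  have h3 : ‖g‖ ^ 2 < ε := by
    have h4 := pow_lt_pow_left₀ hdist (norm_nonneg _) two_ne_zero
    rwa [Real.sq_sqrt hε.le] at h4
  have h4 : ((‖g‖ ^ 2 : ℝ) : ℂ) = ((∫ z in G.FD, ‖g z‖ ^ 2 : ℝ) : ℂ) := by
    have h5 := inner_self_eq_norm_sq_to_K (𝕜 := ℂ) g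
    rw [L2.inner_def] at h5
    rw [← integral_complex_ofReal]
    push_cast
    rw [← show ((RCLike.ofReal ‖g‖ : ℂ)) ^ 2 = ((‖g‖ : ℝ) : ℂ) ^ 2 from rfl, ← h5]
    refine integral_congr_ae (Filter.Eventually.of_forall fun z => ?_)
    simp only
    rw [inner_self_eq_norm_sq_to_K]
    rfl
  have h6 : ‖g‖ ^ 2 = ∫ z in G.FD, ‖g z‖ ^ 2 := Complex.ofReal_injective h4
  have h7 : ∫ z in G.FD, ‖α z - DimDropF.dbar (G.PS ψ) z‖ ^ 2 = ∫ z in G.FD, ‖g z‖ ^ 2 := by
    refine integral_congr_ae ?_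
    filter_upwards [Lp.coeFn_sub (hα.toLp α) k, hα.coeFn_toLp, hk] with z h8 h9 h10
    rw [hg, h8, Pi.sub_apply, h9, h10]
  rw [h7, ← h6]
  exact h3

end FG

end Pool.Agent.DimDropF
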