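import Pool.Agent.Lib_MP_644907_f.PAIR

/-!
# Piece DIL: dilations and compositions
-/

set_option autoImplicit false

open Complex MeasureTheory Metric Filter
open scoped ContDiff Topology

namespace Pool.Agent.DimDropF

open Pool.Agent.DimDrop (IsoD)

theorem Hm.continuousOn {k : ℂ → ℂ} (hk : Hm k) : ContinuousOn k (ball 0 1) := by
  rcases hk with h | h
  · exact h.continuousOn
  · have h1 : ContinuousOn (fun z => starRingEnd ℂ ((fun z => starRingEnd ℂ (k z)) z)) (ball 0 1) :=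
      Complex.continuous_conj.comp_continuousOn h.continuousOn
    refine h1.congr fun z _ => ?_
    simp

/-- `z ↦ k (ρ z)` -/
theorem Hm.dil {k : ℂ → ℂ} (hk : Hm k) (ρ : ℝ) (h0 : 0 < ρ) (h1 : ρ < 1) : Hm (fun z => k (ρ * z)) := by
  have hd : DifferentiableOn ℂ (fun z : ℂ => (ρ : ℂ) * z) (ball 0 1) :=
    (differentiable_id.const_mul (ρ : ℂ)).differentiableOn
  have hm : Set.MapsTo (fun z : ℂ => (ρ : ℂ) * z) (ball 0 1) (ball 0 1) := by
    intro z hz
    rw [mem_ball_zero_iff] at hz ⊢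
    rw [norm_mul, Complex.norm_real, Real.norm_eq_abs, abs_of_pos h0]
    have := norm_nonneg z
    nlinarith
  rcases hk with h | h
  · exact Or.inl (h.comp hd hm)
  · exact Or.inr (h.comp hd hm)

private theorem dil_cases {h : ℂ → ℂ} (hh : IsoD h) : ∃ a b : ℂ, ‖a‖ ^ 2 - ‖b‖ ^ 2 = 1 ∧
    ((∀ z : ℂ, ‖z‖ ≤ 1 → h z = mb a b z) ∨ (∀ z : ℂ, ‖z‖ ≤ 1 → h z = mb a b (starRingEnd ℂ z))) := hh

private theorem dil_mb_diff {a b : ℂ} (hab : ‖a‖ ^ 2 - ‖b‖ ^ 2 = 1) : DifferentiableOn ℂ (mb a b) (ball 0 1) := by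
  intro z hz
  rw [mem_ball_zero_iff] at hz
  exact (hasDerivAt_mb hab hz.le).differentiableAt.differentiableWithinAt

private theorem dil_mb_maps {a b : ℂ} (hab : ‖a‖ ^ 2 - ‖b‖ ^ 2 = 1) : Set.MapsTo (mb a b) (ball 0 1) (ball 0 1) := by
  intro z hz
  rw [mem_ball_zero_iff] at hz ⊢
  exact norm_mb_lt hab hz

private theorem dil_conj {F : ℂ → ℂ} (hF : DifferentiableOn ℂ F (ball 0 1)) :
    DifferentiableOn ℂ (fun z => starRingEnd ℂ (F (starRingEnd ℂ z))) (ball 0 1) := by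
  intro z hz
  have hz' : starRingEnd ℂ z ∈ ball (0 : ℂ) 1 := by
    rw [mem_ball_zero_iff] at hz ⊢
    rwa [Complex.norm_conj]
  have h1 : DifferentiableAt ℂ F (starRingEnd ℂ z) := (hF _ hz').differentiableAt (isOpen_ball.mem_nhds hz')
  have h2 := h1.conj_conj
  rw [Complex.conj_conj] at h2
  exact h2.differentiableWithinAt

/-- the four cases -/
theorem Hm.comp {k h : ℂ → ℂ} (hk : Hm k) (hh : IsoD h) : Hm (fun z => k (h z)) := by
  obtain ⟨a, b, hab, h1 | h1⟩ := dil_cases hh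
  · rcases hk with h2 | h2
    · left
      refine (h2.comp (dil_mb_diff hab) (dil_mb_maps hab)).congr fun z hz => ?_
      rw [mem_ball_zero_iff] at hz
      simp only [Function.comp]
      rw [h1 z hz.le]
    · right
      refine (h2.comp (dil_mb_diff hab) (dil_mb_maps hab)).congr fun z hz => ?_
      rw [mem_ball_zero_iff] at hz
      simp only [Function.comp]
      rw [h1 z hz.le]
  · rcases hk with h2 | h2
    · right
      refine (dil_conj (h2.comp (dil_mb_diff hab) (dil_mb_maps hab))).congr fun z hz => ?_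
      rw [mem_ball_zero_iff] at hz
      simp only [Function.comp]
      rw [h1 z hz.le]
    · left
      refine (dil_conj (h2.comp (dil_mb_diff hab) (dil_mb_maps hab))).congr fun z hz => ?_
      rw [mem_ball_zero_iff] at hz
      simp only [Function.comp]
      rw [h1 z hz.le, Complex.conj_conj]

theorem isoD_continuousOn {h : ℂ → ℂ} (hh : IsoD h) : ContinuousOn h (closedBall 0 1) := by
  obtain ⟨a, b, hab, h1 | h1⟩ := dil_cases hh
  · refine (continuousOn_mb hab).congr fun z hz => ?_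
    rw [mem_closedBall_zero_iff] at hz
    exact h1 z hz
  · have h2 : ContinuousOn (fun z => mb a b (starRingEnd ℂ z)) (closedBall 0 1) := by
      refine (continuousOn_mb hab).comp Complex.continuous_conj.continuousOn ?_
      intro z hz
      rw [mem_closedBall_zero_iff] at hz ⊢
      rwa [Complex.norm_conj]
    refine h2.congr fun z hz => ?_
    rw [mem_closedBall_zero_iff] at hz
    exact h1 z hz

/-- `IsoD.norm_lt`: the open disc is mapped to the open disc -/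
theorem isoD_lt {h : ℂ → ℂ} (hh : IsoD h) {z : ℂ} (hz : ‖z‖ < 1) : ‖h z‖ < 1 := by
  obtain ⟨a, b, hab, h1 | h1⟩ := dil_cases hh
  · rw [h1 z hz.le]
    exact norm_mb_lt hab hz
  · rw [h1 z hz.le]
    exact norm_mb_lt hab (by rwa [Complex.norm_conj])

/-- `one_sub_ge` -/
theorem isoD_ge {h : ℂ → ℂ} (hh : IsoD h) : ∃ D : ℝ, 1 ≤ D ∧ ∀ z : ℂ, ‖z‖ < 1 → (1 - ‖z‖) / D ≤ 1 - ‖h z‖ := by
  obtain ⟨a, b, hab, h1⟩ := dil_cases hh
  refine ⟨8 * ‖a‖ ^ 2, by nlinarith [sq_nonneg ‖b‖], fun z hz => ?_⟩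
  rcases h1 with h1 | h1
  · rw [h1 z hz.le]
    exact one_sub_ge hab hz
  · rw [h1 z hz.le]
    have h2 := one_sub_ge hab (z := starRingEnd ℂ z) (by rwa [Complex.norm_conj])
    rwa [Complex.norm_conj] at h2

/-- for a fixed isometry `h` the growth changes only by a factor -/
theorem Gr.comp {h : ℂ → ℂ} (hh : IsoD h) (a : ℝ) (ha : 0 < a) : ∃ D : ℝ, 0 ≤ D ∧ ∀ (k : ℂ → ℂ) (B : ℝ), 0 ≤ B → Gr k B a →
    Gr (fun z => k (h z)) (D * B) a := by
  obtain ⟨D, hD, hge⟩ := isoD_ge hh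
  refine ⟨D ^ a, by positivity, fun k B hB hg z hz => ?_⟩
  have h1 := hg (h z) (isoD_lt hh hz)
  have hz1 : 0 < 1 - ‖z‖ := by linarith
  have hD0 : 0 < D := by linarith
  have h2 : 0 < (1 - ‖z‖) / D := by positivity
  have h3 : (1 - ‖h z‖) ^ (-a) ≤ ((1 - ‖z‖) / D) ^ (-a) :=
    Real.rpow_le_rpow_of_nonpos h2 (hge z hz) (by linarith)
  refine h1.trans ((mul_le_mul_of_nonneg_left h3 hB).trans (le_of_eq ?_))
  rw [Real.div_rpow hz1.le hD0.le, Real.rpow_neg hD0.le]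
  field_simp

/-- Let `δ > 0` be small with `2 B δ^(a' - a) ≤ ε`. For `1 - |z| < δ`: `|k (ρ z)| + |k z| ≤ 2 B (1 - |z|)^(-a)`; for `|z| ≤ 1 - δ` uniform continuity of `k` on `closedBall 0 (1 - δ)` -/
theorem dil_approx (k : ℂ → ℂ) (B a a' : ℝ) (hk : Hm k) (hB : 0 ≤ B) (ha : 0 < a) (haa : a < a') (hg : Gr k B a) (ε : ℝ) (hε : 0 < ε) :
    ∃ N : ℕ, ∀ m ≥ N, Gr (fun z => k (rho m * z) - k z) ε a' := by
  have hda : 0 < a' - a := by linarith
  obtain ⟨δ, hδdef⟩ : ∃ δ : ℝ, δ = min (1 / 2) ((ε / (2 * B + 1)) ^ (1 / (a' - a))) := ⟨_, rfl⟩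
  have hb : 0 < ε / (2 * B + 1) := by positivity
  have hδ0 : 0 < δ := by rw [hδdef]; exact lt_min (by norm_num) (Real.rpow_pos_of_pos hb _)
  have hδ1 : 2 * B * δ ^ (a' - a) ≤ ε := by
    have h1 : δ ^ (a' - a) ≤ ε / (2 * B + 1) := by
      have h2 : δ ^ (a' - a) ≤ ((ε / (2 * B + 1)) ^ (1 / (a' - a))) ^ (a' - a) :=
        Real.rpow_le_rpow hδ0.le (by rw [hδdef]; exact min_le_right _ _) hda.le
      rwa [← Real.rpow_mul hb.le, one_div_mul_cancel hda.ne', Real.rpow_one] at h2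
    have h3 : 2 * B * δ ^ (a' - a) ≤ 2 * B * (ε / (2 * B + 1)) :=
      mul_le_mul_of_nonneg_left h1 (by positivity)
    refine h3.trans ?_
    rw [mul_div_assoc', div_le_iff₀ (by positivity)]
    nlinarith
  have hsub : closedBall (0 : ℂ) (1 - δ) ⊆ ball 0 1 := closedBall_subset_ball (by linarith)
  have huc := (isCompact_closedBall (0 : ℂ) (1 - δ)).uniformContinuousOn_of_continuous (hk.continuousOn.mono hsub)
  rw [Metric.uniformContinuousOn_iff] at huc
  obtain ⟨η, hη, huc⟩ := huc ε hε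
  have hev : ∀ᶠ m in atTop, 1 - η < rho m := rho_tendsto.eventually (lt_mem_nhds (by linarith))
  obtain ⟨N, hN⟩ := Filter.eventually_atTop.1 hev
  refine ⟨N, fun m hm z hz => ?_⟩
  have hρ := hN m hm
  have hρ0 := rho_pos m
  have hρ1 := rho_lt m
  have hz0 := norm_nonneg z
  have ht : 0 < 1 - ‖z‖ := by linarith
  have hnρ : ‖(rho m : ℂ) * z‖ = rho m * ‖z‖ := by
    rw [norm_mul, Complex.norm_real, Real.norm_eq_abs, abs_of_pos hρ0]
  have hle : rho m * ‖z‖ ≤ ‖z‖ := by nlinarith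
  rcases le_or_gt (1 - ‖z‖) δ with hc | hc
  · -- near the circle
    have h1 := hg (rho m * z) (by rw [hnρ]; linarith)
    rw [hnρ] at h1
    have h2 := hg z hz
    have h3 : (1 - rho m * ‖z‖) ^ (-a) ≤ (1 - ‖z‖) ^ (-a) :=
      Real.rpow_le_rpow_of_nonpos ht (by linarith) (by linarith)
    have h4 : ‖k (rho m * z) - k z‖ ≤ 2 * B * (1 - ‖z‖) ^ (-a) := by
      refine (norm_sub_le _ _).trans ?_
      have := mul_le_mul_of_nonneg_left h3 hB
      linarith
    refine h4.trans ?_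
    have h5 : (1 - ‖z‖) ^ (-a) = (1 - ‖z‖) ^ (a' - a) * (1 - ‖z‖) ^ (-a') := by
      rw [← Real.rpow_add ht]
      congr 1
      ring
    have h6 : (1 - ‖z‖) ^ (a' - a) ≤ δ ^ (a' - a) := Real.rpow_le_rpow ht.le hc hda.le
    have h7 : 0 ≤ (1 - ‖z‖) ^ (-a') := (Real.rpow_pos_of_pos ht _).le
    calc 2 * B * (1 - ‖z‖) ^ (-a) = 2 * B * (1 - ‖z‖) ^ (a' - a) * (1 - ‖z‖) ^ (-a') := by
          rw [h5]
          ring
      _ ≤ 2 * B * δ ^ (a' - a) * (1 - ‖z‖) ^ (-a') := by gcongr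
      _ ≤ ε * (1 - ‖z‖) ^ (-a') := mul_le_mul_of_nonneg_right hδ1 h7
  · -- inside
    have h1 : z ∈ closedBall (0 : ℂ) (1 - δ) := by
      rw [mem_closedBall_zero_iff]
      linarith
    have h2 : (rho m : ℂ) * z ∈ closedBall (0 : ℂ) (1 - δ) := by
      rw [mem_closedBall_zero_iff, hnρ]
      linarith
    have h3 : dist ((rho m : ℂ) * z) z < η := by
      rw [dist_eq_norm]
      have e : (rho m : ℂ) * z - z = ((rho m - 1 : ℝ) : ℂ) * z := by
        push_cast
        ring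
      rw [e, norm_mul, Complex.norm_real, Real.norm_eq_abs, abs_of_neg (by linarith)]
      nlinarith
    have h4 := huc _ h2 _ h1 h3
    rw [dist_eq_norm] at h4
    have h5 : (1 : ℝ) ≤ (1 - ‖z‖) ^ (-a') :=
      Real.one_le_rpow_of_pos_of_le_one_of_nonpos ht (by linarith) (by linarith)
    exact h4.le.trans (le_mul_of_one_le_right hε.le h5)

end Pool.Agent.DimDropF
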