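import Mathlib

/-!
# MP_644907_pr, block FPAIR: definitions

Moebius maps of the disc, discrete cocompact free groups of such maps, fundamental domain, Poincare sums, `∂bar` and `∂`, test functions.
-/

set_option autoImplicit false

open Complex MeasureTheory Metric
open scoped ContDiff

namespace Pool.Agent.DimDropF

/-- the disc automorphism with parameters `a, b` (`|a|^2 - |b|^2 = 1`) -/
noncomputable def mb (a b z : ℂ) : ℂ := (a * z + b) / (starRingEnd ℂ b * z + starRingEnd ℂ a)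

/-- its derivative -/
noncomputable def dmb (a b z : ℂ) : ℂ := 1 / (starRingEnd ℂ b * z + starRingEnd ℂ a) ^ 2

/-- `∂w/∂(conj z)` -/
noncomputable def dbar (w : ℂ → ℂ) (z : ℂ) : ℂ := (fderiv ℝ w z 1 + I * fderiv ℝ w z I) / 2

/-- `∂w/∂z` -/
noncomputable def dd (w : ℂ → ℂ) (z : ℂ) : ℂ := (fderiv ℝ w z 1 - I * fderiv ℝ w z I) / 2

/-- test functions: smooth, supported in a smaller disc -/
structure Test (ψ : ℂ → ℂ) : Prop where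
  smooth : ContDiff ℝ ∞ ψ
  supp : ∃ r : ℝ, 0 < r ∧ r < 1 ∧ ∀ z : ℂ, r < ‖z‖ → ψ z = 0

/-- a discrete, cocompact, freely acting group of orientation preserving automorphisms of the disc -/
structure FG (Γ : Type) [Group Γ] where
  a : Γ → ℂ
  b : Γ → ℂ
  nrm : ∀ γ, ‖a γ‖ ^ 2 - ‖b γ‖ ^ 2 = 1
  one' : ∀ z : ℂ, ‖z‖ < 1 → mb (a 1) (b 1) z = z
  mul' : ∀ γ δ, ∀ z : ℂ, ‖z‖ < 1 → mb (a (γ * δ)) (b (γ * δ)) z = mb (a γ) (b γ) (mb (a δ) (b δ) z)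
  fin' : ∀ r : ℝ, r < 1 → {γ | ‖mb (a γ) (b γ) 0‖ ≤ r}.Finite
  free' : ∀ γ, ∀ z : ℂ, ‖z‖ < 1 → mb (a γ) (b γ) z = z → γ = 1
  r : ℝ
  r0 : 0 < r
  r1 : r < 1
  coc' : ∀ z : ℂ, ‖z‖ < 1 → ∃ γ, ‖mb (a γ) (b γ) z‖ ≤ r

/-- lexicographic order on `ℂ` -/
def lexle (z w : ℂ) : Prop := z.re < w.re ∨ (z.re = w.re ∧ z.im ≤ w.im)

namespace FG

variable {Γ : Type} [Group Γ] (G : FG Γ)

/-- the action of `γ` -/
noncomputable def m (γ : Γ) (z : ℂ) : ℂ := mb (G.a γ) (G.b γ) z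

/-- the derivative of `γ` -/
noncomputable def d (γ : Γ) (z : ℂ) : ℂ := dmb (G.a γ) (G.b γ) z

/-- a fundamental domain -/
def FD : Set ℂ := {z | ‖z‖ ≤ G.r ∧ ∀ γ, ‖G.m γ z‖ ≤ G.r → lexle z (G.m γ z)}

/-- the orbit of `p` -/
def orb (p : ℂ) : Set ℂ := {z | ∃ γ, z = G.m γ p}

/-- Poincare sum of a function -/
noncomputable def PS (ψ : ℂ → ℂ) (z : ℂ) : ℂ := ∑' γ, ψ (G.m γ z)

/-- Poincare sum of a `(0,1)` form -/
noncomputable def PA (ψ : ℂ → ℂ) (z : ℂ) : ℂ := ∑' γ, ψ (G.m γ z) * starRingEnd ℂ (G.d γ z)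

/-- Poincare sum of a `(1,0)` form -/
noncomputable def PB (ψ : ℂ → ℂ) (z : ℂ) : ℂ := ∑' γ, ψ (G.m γ z) * G.d γ z

/-- there is no nonzero holomorphic form of weight 2 -/
def NoForm : Prop := ∀ b : ℂ → ℂ, DifferentiableOn ℂ b (ball 0 1) →
  (∀ γ, ∀ z : ℂ, ‖z‖ < 1 → b (G.m γ z) * G.d γ z = b z) → ∀ z : ℂ, ‖z‖ < 1 → b z = 0

end FG

end Pool.Agent.DimDropF
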