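import Pool.Agent.Lib_MP_644907_f.TEST

/-!
# Piece IBP: integration by parts
-/

set_option autoImplicit false

open Complex MeasureTheory Metric
open scoped ContDiff

namespace Pool.Agent.DimDropF

/-- the derivative of a compactly supported function in a direction has integral 0, and is integrable -/
theorem int_fderiv_aux (f : ℂ → ℂ) (hf : ContDiff ℝ 1 f) (hc : HasCompactSupport f) (v : ℂ) :
    Integrable (fun z => fderiv ℝ f z v) ∧ ∫ z, fderiv ℝ f z v = 0 := by
  have hcont : Continuous (fun z => fderiv ℝ f z v) := (hf.continuous_fderiv one_ne_zero).clm_apply continuous_const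
  have hsupp : HasCompactSupport (fun z => fderiv ℝ f z v) := hc.fderiv_apply ℝ v
  have hint : Integrable (fun z => fderiv ℝ f z v) := hcont.integrable_of_hasCompactSupport hsupp
  refine ⟨hint, ?_⟩
  have h := integral_mul_fderiv_eq_neg_fderiv_mul_of_integrable (μ := (volume : Measure ℂ)) (𝕜 := ℂ)
    (f := fun _ : ℂ => (1:ℂ)) (g := f) (v := v) (by simp) (by simpa using hint)
    (by simpa using hf.continuous.integrable_of_hasCompactSupport hc)
    (fun x _ => differentiableAt_const _) (fun x _ => (hf.differentiable one_ne_zero) x)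
  simpa using h

theorem int_dbar (f : ℂ → ℂ) (hf : ContDiff ℝ 1 f) (hc : HasCompactSupport f) : ∫ z, dbar f z = 0 := by
  obtain ⟨i1, e1⟩ := int_fderiv_aux f hf hc 1
  obtain ⟨i2, e2⟩ := int_fderiv_aux f hf hc I
  have : ∀ z, dbar f z = (fderiv ℝ f z 1 + I * fderiv ℝ f z I) / 2 := fun z => rfl
  simp_rw [this]
  rw [integral_div, integral_add i1 (i2.const_mul I), integral_const_mul, e1, e2]
  simp

theorem int_dd (f : ℂ → ℂ) (hf : ContDiff ℝ 1 f) (hc : HasCompactSupport f) : ∫ z, dd f z = 0 := by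
  obtain ⟨i1, e1⟩ := int_fderiv_aux f hf hc 1
  obtain ⟨i2, e2⟩ := int_fderiv_aux f hf hc I
  have : ∀ z, dd f z = (fderiv ℝ f z 1 - I * fderiv ℝ f z I) / 2 := fun z => rfl
  simp_rw [this]
  rw [integral_div, integral_sub i1 (i2.const_mul I), integral_const_mul, e1, e2]
  simp

/-- a product of a function continuous on `U` and a compactly supported one is integrable on `U` -/
theorem integrableOn_mul_aux (U : Set ℂ) (g φ : ℂ → ℂ) (hg : ContinuousOn g U) (hφ : Continuous φ)
    (hc : HasCompactSupport φ) (hs : tsupport φ ⊆ U) : IntegrableOn (fun z => g z * φ z) U := by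
  have hK : IsCompact (tsupport φ) := hc
  have h1 : IntegrableOn (fun z => g z * φ z) (tsupport φ) :=
    ((hg.mono hs).mul hφ.continuousOn).integrableOn_compact hK
  have h2 : Integrable (fun z => g z * φ z) := by
    rw [← integrableOn_iff_integrable_of_support_subset (s := tsupport φ)]
    · exact h1
    · intro z hz
      apply subset_tsupport φ
      intro h0
      exact hz (by simp [h0])
  exact h2.integrableOn

/-- extension by zero of a product with a compactly supported function -/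
theorem ext_zero_aux (U : Set ℂ) (hU : IsOpen U) (w ψ : ℂ → ℂ) (hw : ContDiffOn ℝ 1 w U) (hψ : ContDiff ℝ ∞ ψ)
    (hc : HasCompactSupport ψ) (hs : tsupport ψ ⊆ U) :
    ContDiff ℝ 1 (U.indicator (fun z => w z * ψ z)) ∧ HasCompactSupport (U.indicator (fun z => w z * ψ z)) ∧
      (∀ z ∈ U, U.indicator (fun z => w z * ψ z) =ᶠ[nhds z] fun z => w z * ψ z) ∧
      (∀ z ∉ U, U.indicator (fun z => w z * ψ z) =ᶠ[nhds z] fun _ => 0) := by
  have hin : ∀ z ∈ U, U.indicator (fun z => w z * ψ z) =ᶠ[nhds z] fun z => w z * ψ z := by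
    intro z hz
    filter_upwards [hU.mem_nhds hz] with x hx
    exact Set.indicator_of_mem hx _
  have hout : ∀ z ∉ tsupport ψ, U.indicator (fun z => w z * ψ z) =ᶠ[nhds z] fun _ => 0 := by
    intro z hz
    have hb : (tsupport ψ)ᶜ ∈ nhds z := (isClosed_tsupport ψ).isOpen_compl.mem_nhds hz
    filter_upwards [hb] with x hx
    have h0 : ψ x = 0 := image_eq_zero_of_notMem_tsupport hx
    by_cases hx' : x ∈ U
    · rw [Set.indicator_of_mem hx', h0, mul_zero]
    · exact Set.indicator_of_notMem hx' _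
  refine ⟨?_, ?_, hin, fun z hz => hout z (fun h => hz (hs h))⟩
  · rw [contDiff_iff_contDiffAt]
    intro z
    by_cases hz : z ∈ U
    · have hψ1 : ContDiffAt ℝ 1 ψ z := (hψ.of_le (by exact_mod_cast le_top)).contDiffAt
      exact ((hw.contDiffAt (hU.mem_nhds hz)).mul hψ1).congr_of_eventuallyEq (hin z hz)
    · exact contDiffAt_const.congr_of_eventuallyEq (hout z (fun h => hz (hs h)))
  · apply HasCompactSupport.intro' (K := tsupport ψ) hc (isClosed_tsupport ψ)
    intro x hx
    exact (hout x hx).self_of_nhds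

/-- `int_dbar` for the function `w ψ` on `U` extended by 0, and `dbar_mul` -/
theorem ibp (U : Set ℂ) (hU : IsOpen U) (w ψ : ℂ → ℂ) (hw : ContDiffOn ℝ 1 w U) (hψ : ContDiff ℝ ∞ ψ)
    (hc : HasCompactSupport ψ) (hs : tsupport ψ ⊆ U) :
    ∫ z in U, w z * dbar ψ z = - ∫ z in U, dbar w z * ψ z := by
  obtain ⟨h1, h2, h3, h4⟩ := ext_zero_aux U hU w ψ hw hψ hc hs
  have h5 := int_dbar _ h1 h2
  have hsd : tsupport (dbar ψ) ⊆ tsupport ψ := by
    apply closure_minimal _ (isClosed_tsupport ψ)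
    intro z hz
    by_contra hn
    apply hz
    have : fderiv ℝ ψ z = 0 := by
      have := support_fderiv_subset ℝ (f := ψ)
      by_contra h0
      exact hn (this h0)
    rw [dbar, this]; simp
  have hcd : HasCompactSupport (dbar ψ) := by
    have hK : IsCompact (tsupport ψ) := hc
    exact hK.of_isClosed_subset (isClosed_tsupport _) hsd
  have i1 : IntegrableOn (fun z => w z * dbar ψ z) U :=
    integrableOn_mul_aux U w (dbar ψ) hw.continuousOn (contDiff_dbar hψ).continuous hcd (hsd.trans hs)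
  have i2 : IntegrableOn (fun z => dbar w z * ψ z) U :=
    integrableOn_mul_aux U (dbar w) ψ (contOn_dbar hU hw) hψ.continuous hc hs
  have e1 : dbar (U.indicator (fun z => w z * ψ z)) = U.indicator (fun z => w z * dbar ψ z + dbar w z * ψ z) := by
    funext z
    by_cases hz : z ∈ U
    · rw [Set.indicator_of_mem hz, dbar_congr (h3 z hz),
        dbar_mul ((hw.contDiffAt (hU.mem_nhds hz)).differentiableAt one_ne_zero) (hψ.differentiable (by simp) z)]
      ring
    · rw [Set.indicator_of_notMem hz, dbar_congr (h4 z hz)]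
      simp [dbar]
  rw [e1, integral_indicator hU.measurableSet, integral_add i1 i2] at h5
  exact eq_neg_of_add_eq_zero_left h5

theorem ibp_dd (U : Set ℂ) (hU : IsOpen U) (w ψ : ℂ → ℂ) (hw : ContDiffOn ℝ 1 w U) (hψ : ContDiff ℝ ∞ ψ)
    (hc : HasCompactSupport ψ) (hs : tsupport ψ ⊆ U) :
    ∫ z in U, w z * dd ψ z = - ∫ z in U, dd w z * ψ z := by
  obtain ⟨h1, h2, h3, h4⟩ := ext_zero_aux U hU w ψ hw hψ hc hs
  have h5 := int_dd _ h1 h2
  have hsd : tsupport (dd ψ) ⊆ tsupport ψ := by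
    apply closure_minimal _ (isClosed_tsupport ψ)
    intro z hz
    by_contra hn
    apply hz
    have : fderiv ℝ ψ z = 0 := by
      have := support_fderiv_subset ℝ (f := ψ)
      by_contra h0
      exact hn (this h0)
    rw [dd, this]; simp
  have hcd : HasCompactSupport (dd ψ) := by
    have hK : IsCompact (tsupport ψ) := hc
    exact hK.of_isClosed_subset (isClosed_tsupport _) hsd
  have i1 : IntegrableOn (fun z => w z * dd ψ z) U :=
    integrableOn_mul_aux U w (dd ψ) hw.continuousOn (contDiff_dd hψ).continuous hcd (hsd.trans hs)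
  have i2 : IntegrableOn (fun z => dd w z * ψ z) U :=
    integrableOn_mul_aux U (dd w) ψ (contOn_dd hU hw) hψ.continuous hc hs
  have e1 : dd (U.indicator (fun z => w z * ψ z)) = U.indicator (fun z => w z * dd ψ z + dd w z * ψ z) := by
    funext z
    by_cases hz : z ∈ U
    · rw [Set.indicator_of_mem hz, dd_congr (h3 z hz),
        dd_mul ((hw.contDiffAt (hU.mem_nhds hz)).differentiableAt one_ne_zero) (hψ.differentiable (by simp) z)]
      ring
    · rw [Set.indicator_of_notMem hz, dd_congr (h4 z hz)]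
      simp [dd]
  rw [e1, integral_indicator hU.measurableSet, integral_add i1 i2] at h5
  exact eq_neg_of_add_eq_zero_left h5

theorem fderiv_fderiv_apply_aux {f : ℂ → ℂ} (hf : ContDiff ℝ ∞ f) (z v u : ℂ) :
    fderiv ℝ (fun x => fderiv ℝ f x v) z u = fderiv ℝ (fderiv ℝ f) z u v := by
  have h1 : DifferentiableAt ℝ (fderiv ℝ f) z :=
    ((hf.fderiv_right (m := ∞) (by simp)).differentiable (by simp)) z
  have h2 : HasFDerivAt (fun x => fderiv ℝ f x v) ((ContinuousLinearMap.apply ℝ ℂ v).comp (fderiv ℝ (fderiv ℝ f) z)) z :=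
    (ContinuousLinearMap.apply ℝ ℂ v).hasFDerivAt.comp z h1.hasFDerivAt
  rw [h2.fderiv]
  simp

theorem dd_dbar_comm {f : ℂ → ℂ} (hf : ContDiff ℝ ∞ f) (z : ℂ) : dd (dbar f) z = dbar (dd f) z := by
  have hd : ∀ v, DifferentiableAt ℝ (fun x => fderiv ℝ f x v) z := fun v =>
    (contDiff_fderiv_apply_aux hf v).differentiable (by simp) z
  have e1 : ∀ u, fderiv ℝ (dbar f) z u = (fderiv ℝ (fderiv ℝ f) z u 1 + I * fderiv ℝ (fderiv ℝ f) z u I) / 2 := by
    intro u
    have h : HasFDerivAt (dbar f)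
        ((2:ℂ)⁻¹ • (fderiv ℝ (fun x => fderiv ℝ f x 1) z + I • fderiv ℝ (fun x => fderiv ℝ f x I) z)) z := by
      have := ((hd 1).hasFDerivAt.add ((hd I).hasFDerivAt.const_smul I)).const_smul (2:ℂ)⁻¹
      refine this.congr_of_eventuallyEq (Filter.Eventually.of_forall fun x => ?_)
      simp [dbar]; ring
    rw [h.fderiv]
    simp only [smul_apply, add_apply, fderiv_fderiv_apply_aux hf, smul_eq_mul]
    ring
  have e2 : ∀ u, fderiv ℝ (dd f) z u = (fderiv ℝ (fderiv ℝ f) z u 1 - I * fderiv ℝ (fderiv ℝ f) z u I) / 2 := by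
    intro u
    have h : HasFDerivAt (dd f)
        ((2:ℂ)⁻¹ • (fderiv ℝ (fun x => fderiv ℝ f x 1) z - I • fderiv ℝ (fun x => fderiv ℝ f x I) z)) z := by
      have := ((hd 1).hasFDerivAt.sub ((hd I).hasFDerivAt.const_smul I)).const_smul (2:ℂ)⁻¹
      refine this.congr_of_eventuallyEq (Filter.Eventually.of_forall fun x => ?_)
      simp [dd]; ring
    rw [h.fderiv]
    simp only [smul_apply, sub_apply, fderiv_fderiv_apply_aux hf, smul_eq_mul]
    ring
  have hsymm : fderiv ℝ (fderiv ℝ f) z 1 I = fderiv ℝ (fderiv ℝ f) z I 1 := by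
    have : IsSymmSndFDerivAt ℝ f z := (hf.contDiffAt (x := z)).isSymmSndFDerivAt
      (by simp only [minSmoothness_of_isRCLikeNormedField]; norm_cast)
    exact this 1 I
  have d1 : dd (dbar f) z = (fderiv ℝ (dbar f) z 1 - I * fderiv ℝ (dbar f) z I) / 2 := rfl
  have d2 : dbar (dd f) z = (fderiv ℝ (dd f) z 1 + I * fderiv ℝ (dd f) z I) / 2 := rfl
  rw [d1, d2, e1, e1, e2, e2, hsymm]
  ring

theorem energy_loc (ψ Ψ : ℂ → ℂ) (hψ : Test ψ) (hΨ : ContDiffOn ℝ ∞ Ψ (ball 0 1)) :
    ∫ z in ball (0:ℂ) 1, dbar ψ z * starRingEnd ℂ (dbar Ψ z) = ∫ z in ball (0:ℂ) 1, dd ψ z * starRingEnd ℂ (dd Ψ z) := by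
  have hW : ContDiffOn ℝ ∞ (fun z => starRingEnd ℂ (Ψ z)) (ball 0 1) := by
    have : (fun z => starRingEnd ℂ (Ψ z)) = fun z => conjCLE (Ψ z) := by
      funext z; simp
    rw [this]
    exact conjCLE.contDiff.comp_contDiffOn hΨ
  have hW1 : ContDiffOn ℝ 1 (fun z => starRingEnd ℂ (Ψ z)) (ball 0 1) := hW.of_le (by exact_mod_cast le_top)
  have hd : ∀ z ∈ ball (0:ℂ) 1, DifferentiableAt ℝ Ψ z := fun z hz =>
    (hΨ.contDiffAt (isOpen_ball.mem_nhds hz)).differentiableAt (by simp)
  have h1 := ibp_dd (ball 0 1) isOpen_ball _ (dbar ψ) hW1 hψ.dbar.smooth hψ.dbar.hasCompactSupport hψ.dbar.tsupport_subset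
  have h2 := ibp (ball 0 1) isOpen_ball _ (dd ψ) hW1 hψ.dd.smooth hψ.dd.hasCompactSupport hψ.dd.tsupport_subset
  have h3 : ∫ z in ball (0:ℂ) 1, dbar ψ z * starRingEnd ℂ (dbar Ψ z) =
      ∫ z in ball (0:ℂ) 1, dd (fun z => starRingEnd ℂ (Ψ z)) z * dbar ψ z := by
    apply setIntegral_congr_fun measurableSet_ball
    intro z hz
    show dbar ψ z * starRingEnd ℂ (dbar Ψ z) = dd (fun z => starRingEnd ℂ (Ψ z)) z * dbar ψ z
    rw [dd_conj (hd z hz), mul_comm]
  have h4 : ∫ z in ball (0:ℂ) 1, dd ψ z * starRingEnd ℂ (dd Ψ z) =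
      ∫ z in ball (0:ℂ) 1, dbar (fun z => starRingEnd ℂ (Ψ z)) z * dd ψ z := by
    apply setIntegral_congr_fun measurableSet_ball
    intro z hz
    show dd ψ z * starRingEnd ℂ (dd Ψ z) = dbar (fun z => starRingEnd ℂ (Ψ z)) z * dd ψ z
    rw [dbar_conj (hd z hz), mul_comm]
  have h5 : ∫ z in ball (0:ℂ) 1, starRingEnd ℂ (Ψ z) * dd (dbar ψ) z = ∫ z in ball (0:ℂ) 1, starRingEnd ℂ (Ψ z) * dbar (dd ψ) z := by
    apply setIntegral_congr_fun measurableSet_ball
    intro z _
    show starRingEnd ℂ (Ψ z) * dd (dbar ψ) z = starRingEnd ℂ (Ψ z) * dbar (dd ψ) z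
    rw [dd_dbar_comm hψ.smooth]
  rw [h3, h4]
  rw [h5, h2] at h1
  exact (neg_injective h1).symm

end Pool.Agent.DimDropF
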