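import Pool.Agent.Lib_MP_644907_f.PSUM
import Pool.Agent.Lib_MP_644907_f.IBP
import Pool.Agent.Lib_MP_644907_f.BR

/-!
# Piece ENERGY: the energy identity
-/

set_option autoImplicit false

open Complex MeasureTheory Metric
open scoped ContDiff

namespace Pool.Agent.DimDropF

namespace FG

variable {Γ : Type} [Group Γ] (G : FG Γ)

/-- On `FD` (which is contained in the compact ball of radius `r < 1` on which all the functions are continuous, hence everything is integrable):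
`∫_FD |dbar (PS ψ)|^2 = ∫_FD PA (dbar ψ) * conj (dbar (PS ψ)) = ∫_disc dbar ψ * conj (dbar (PS ψ))` by `unfB` with `α = dbar ψ`, `κ = conj d`,
`B = conj (dbar (PS ψ))` (for the hypothesis `hB` use `PA_inv`: `conj (PA (m γ z)) * d γ z = conj (PA z)` and `|d|^2 = d * conj d`).
Similarly `∫_FD |dd (PS ψ)|^2 = ∫_disc dd ψ * conj (dd (PS ψ))` (`κ = d`). The two are equal by `energy_loc` with `Ψ = PS ψ`. -/
theorem energy {ψ : ℂ → ℂ} (hψ : Test ψ) :
    ∫ z in G.FD, ‖dbar (G.PS ψ) z‖ ^ 2 = ∫ z in G.FD, ‖dd (G.PS ψ) z‖ ^ 2 := by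
  have hS : ContDiffOn ℝ ∞ (G.PS ψ) (ball 0 1) := G.PS_smooth hψ
  have hS1 : ContDiffOn ℝ 1 (G.PS ψ) (ball 0 1) := hS.of_le (by exact_mod_cast le_top)
  -- the two unfolding identities
  have h1 : ((∫ z in G.FD, ‖dbar (G.PS ψ) z‖ ^ 2 : ℝ) : ℂ) =
      ∫ z in ball (0:ℂ) 1, dbar ψ z * starRingEnd ℂ (dbar (G.PS ψ) z) := by
    obtain ⟨r', -, hr', hα⟩ := hψ.dbar.supp
    have hint : IntegrableOn (fun z => dbar ψ z * starRingEnd ℂ (dbar (G.PS ψ) z)) (ball 0 1) := by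
      have hB : ContinuousOn (fun z => starRingEnd ℂ (dbar (G.PS ψ) z)) (ball 0 1) :=
        continuous_conj.comp_continuousOn (contOn_dbar isOpen_ball hS1)
      have h := integrableOn_mul_aux (ball 0 1) _ (dbar ψ) hB hψ.dbar.continuous
        hψ.dbar.hasCompactSupport hψ.dbar.tsupport_subset
      refine h.congr_fun (fun z _ => ?_) measurableSet_ball
      exact mul_comm _ _
    have hBi : ∀ γ, ∀ z : ℂ, ‖z‖ < 1 →
        (fun z => starRingEnd ℂ (dbar (G.PS ψ) z)) (G.m γ z) * ((‖G.d γ z‖ ^ 2 : ℝ) : ℂ) =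
        (fun γ z => starRingEnd ℂ (G.d γ z)) γ z * (fun z => starRingEnd ℂ (dbar (G.PS ψ) z)) z := by
      intro γ z hz
      show starRingEnd ℂ (dbar (G.PS ψ) (G.m γ z)) * ((‖G.d γ z‖ ^ 2 : ℝ) : ℂ) =
        starRingEnd ℂ (G.d γ z) * starRingEnd ℂ (dbar (G.PS ψ) z)
      rw [G.dbar_PS hψ (G.m_lt γ hz), G.dbar_PS hψ hz, ← G.PA_inv (dbar ψ) γ hz, map_mul,
        starRingEnd_self_apply, ← Complex.normSq_eq_norm_sq, ← Complex.mul_conj]
      ring
    rw [← G.unfB r' hr' (fun γ z => starRingEnd ℂ (G.d γ z)) (dbar ψ)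
      (fun z => starRingEnd ℂ (dbar (G.PS ψ) z)) hα hint hBi, ← integral_complex_ofReal]
    refine setIntegral_congr_fun G.FD_meas fun z hz => ?_
    show ((‖dbar (G.PS ψ) z‖ ^ 2 : ℝ) : ℂ) =
      (∑' γ, dbar ψ (G.m γ z) * starRingEnd ℂ (G.d γ z)) * starRingEnd ℂ (dbar (G.PS ψ) z)
    have e : (∑' γ, dbar ψ (G.m γ z) * starRingEnd ℂ (G.d γ z)) = dbar (G.PS ψ) z := by
      rw [G.dbar_PS hψ (G.FD_lt hz)]
      rfl
    rw [e, Complex.mul_conj, Complex.normSq_eq_norm_sq]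
  have h2 : ((∫ z in G.FD, ‖dd (G.PS ψ) z‖ ^ 2 : ℝ) : ℂ) =
      ∫ z in ball (0:ℂ) 1, dd ψ z * starRingEnd ℂ (dd (G.PS ψ) z) := by
    obtain ⟨r', -, hr', hα⟩ := hψ.dd.supp
    have hint : IntegrableOn (fun z => dd ψ z * starRingEnd ℂ (dd (G.PS ψ) z)) (ball 0 1) := by
      have hB : ContinuousOn (fun z => starRingEnd ℂ (dd (G.PS ψ) z)) (ball 0 1) :=
        continuous_conj.comp_continuousOn (contOn_dd isOpen_ball hS1)
      have h := integrableOn_mul_aux (ball 0 1) _ (dd ψ) hB hψ.dd.continuous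
        hψ.dd.hasCompactSupport hψ.dd.tsupport_subset
      refine h.congr_fun (fun z _ => ?_) measurableSet_ball
      exact mul_comm _ _
    have hBi : ∀ γ, ∀ z : ℂ, ‖z‖ < 1 →
        (fun z => starRingEnd ℂ (dd (G.PS ψ) z)) (G.m γ z) * ((‖G.d γ z‖ ^ 2 : ℝ) : ℂ) =
        (fun γ z => G.d γ z) γ z * (fun z => starRingEnd ℂ (dd (G.PS ψ) z)) z := by
      intro γ z hz
      show starRingEnd ℂ (dd (G.PS ψ) (G.m γ z)) * ((‖G.d γ z‖ ^ 2 : ℝ) : ℂ) =
        G.d γ z * starRingEnd ℂ (dd (G.PS ψ) z)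
      rw [G.dd_PS hψ (G.m_lt γ hz), G.dd_PS hψ hz, ← G.PB_inv (dd ψ) γ hz, map_mul,
        ← Complex.normSq_eq_norm_sq, ← Complex.mul_conj]
      ring
    rw [← G.unfB r' hr' (fun γ z => G.d γ z) (dd ψ)
      (fun z => starRingEnd ℂ (dd (G.PS ψ) z)) hα hint hBi, ← integral_complex_ofReal]
    refine setIntegral_congr_fun G.FD_meas fun z hz => ?_
    show ((‖dd (G.PS ψ) z‖ ^ 2 : ℝ) : ℂ) =
      (∑' γ, dd ψ (G.m γ z) * G.d γ z) * starRingEnd ℂ (dd (G.PS ψ) z)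
    have e : (∑' γ, dd ψ (G.m γ z) * G.d γ z) = dd (G.PS ψ) z := by
      rw [G.dd_PS hψ (G.FD_lt hz)]
      rfl
    rw [e, Complex.mul_conj, Complex.normSq_eq_norm_sq]
  have h3 := energy_loc ψ (G.PS ψ) hψ hS
  rw [← h1, ← h2] at h3
  exact_mod_cast h3

end FG

end Pool.Agent.DimDropF
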