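import Pool.Agent.Lib_MP_644907_f.PSUM
import Pool.Agent.Lib_MP_644907_f.BR

/-!
# Piece EXT: equivariant extension of a function on the fundamental domain
-/

set_option autoImplicit false

open Complex MeasureTheory Metric
open scoped ContDiff

namespace Pool.Agent.DimDropF

namespace FG

variable {Γ : Type} [Group Γ] (G : FG Γ)

/-- only `γ = 1` contributes to the sum: `FD_uniq`, `m_one`, `d_one` -/
theorem ext_eq (β : ℂ → ℂ) {z : ℂ} (hz : z ∈ G.FD) : G.PA (G.FD.indicator β) z = β z := by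
  unfold PA
  rw [tsum_eq_single (1 : Γ)]
  · rw [G.m_one (G.FD_lt hz), G.d_one (G.FD_lt hz), Set.indicator_of_mem hz, map_one, mul_one]
  · intro γ hγ
    have h1 : G.m γ z ∉ G.FD := fun h => hγ (G.FD_uniq hz h)
    rw [Set.indicator_of_notMem h1, zero_mul]

private theorem ind_zero (β : ℂ → ℂ) : ∀ z : ℂ, G.r < ‖z‖ → G.FD.indicator β z = 0 := by
  intro z hz
  apply Set.indicator_of_notMem
  intro h
  exact absurd h.1 (not_le.2 hz)

private theorem ext_measR (β : ℂ → ℂ) (hβ : Measurable β) (R : ℝ) (hR : R < 1) :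
    AEMeasurable (G.PA (G.FD.indicator β)) (volume.restrict (ball (0:ℂ) R)) := by
  obtain ⟨s, hs⟩ := G.locfin G.r R G.r1 hR
  have hm : Measurable (fun z => ∑ γ ∈ s, G.FD.indicator β (G.m γ z) * starRingEnd ℂ (G.d γ z)) := by
    apply Finset.measurable_fun_sum
    intro γ _
    have h1 : Measurable (G.FD.indicator β) := hβ.indicator G.FD_meas
    have h2 : Measurable (fun z => starRingEnd ℂ (G.d γ z)) :=
      (Complex.continuous_conj.measurable).comp (G.d_measurable γ)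
    exact (h1.comp (G.m_measurable γ)).mul h2
  refine ⟨_, hm, ?_⟩
  filter_upwards [ae_restrict_mem measurableSet_ball] with z hz
  exact (hs _ (ind_zero G β) z (mem_ball_zero_iff.1 hz).le).2.1

/-- on the disc the sum has exactly one nonzero term; `FD` is in the closed ball of radius `r`, so `locfin` gives on every ball of radius `R < 1` a finite
sum of measurable functions (`m_measurable`, `d_measurable`) -/
theorem ext_meas (β : ℂ → ℂ) (hβ : Measurable β) :
    AEStronglyMeasurable (G.PA (G.FD.indicator β)) (volume.restrict (ball (0:ℂ) 1)) := by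
  rw [aestronglyMeasurable_iff_aemeasurable]
  have e : ball (0:ℂ) 1 = ⋃ n : ℕ, ball (0:ℂ) (1 - 1 / ((n:ℝ) + 1)) := by
    ext z
    rw [Set.mem_iUnion]
    constructor
    · intro hz
      rw [mem_ball_zero_iff] at hz
      obtain ⟨n, hn⟩ := exists_nat_one_div_lt (sub_pos.2 hz)
      refine ⟨n, ?_⟩
      rw [mem_ball_zero_iff]
      linarith
    · rintro ⟨n, hn⟩
      rw [mem_ball_zero_iff] at hn ⊢
      have : (0:ℝ) < 1 / ((n:ℝ) + 1) := by positivity
      linarith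
  rw [e, aemeasurable_iUnion_iff]
  intro n
  apply ext_measR G β hβ
  have : (0:ℝ) < 1 / ((n:ℝ) + 1) := by positivity
  linarith

/-- `br` with `Φ = ‖PA (..)‖ₑ ^ 2` (equivariant by `PA_inv`), and `ext_eq` -/
theorem ext_l2 (β : ℂ → ℂ) (hβ : Measurable β) (h2 : ∫⁻ z in G.FD, ‖β z‖ₑ ^ 2 < ⊤) (R : ℝ) (hR : R < 1) :
    ∫⁻ z in ball (0:ℂ) R, ‖G.PA (G.FD.indicator β) z‖ₑ ^ 2 < ⊤ := by
  obtain ⟨C, hC⟩ := G.br R hR
  have h1 := hC (fun z => ‖G.PA (G.FD.indicator β) z‖ₑ ^ 2) (by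
    intro γ z hz
    have e := G.PA_inv (G.FD.indicator β) γ hz
    have e2 : ENNReal.ofReal (‖G.d γ z‖ ^ 2) = ‖starRingEnd ℂ (G.d γ z)‖ₑ ^ 2 := by
      rw [ENNReal.ofReal_pow (norm_nonneg _), ← Complex.norm_conj, ofReal_norm]
    show ‖G.PA (G.FD.indicator β) (G.m γ z)‖ₑ ^ 2 * ENNReal.ofReal (‖G.d γ z‖ ^ 2)
      = ‖G.PA (G.FD.indicator β) z‖ₑ ^ 2
    rw [e2, ← mul_pow, ← enorm_mul, e])
  refine lt_of_le_of_lt h1 (ENNReal.mul_lt_top ENNReal.coe_lt_top ?_)
  have e3 : ∫⁻ z in G.FD, ‖G.PA (G.FD.indicator β) z‖ₑ ^ 2 = ∫⁻ z in G.FD, ‖β z‖ₑ ^ 2 := by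
    apply setLIntegral_congr_fun G.FD_meas
    intro z hz
    show ‖G.PA (G.FD.indicator β) z‖ₑ ^ 2 = ‖β z‖ₑ ^ 2
    rw [G.ext_eq β hz]
  rw [e3]
  exact h2

/-- hence in `L^1` of every smaller ball -/
theorem ext_loc (β : ℂ → ℂ) (hβ : Measurable β) (h2 : ∫⁻ z in G.FD, ‖β z‖ₑ ^ 2 < ⊤) :
    LocallyIntegrableOn (G.PA (G.FD.indicator β)) (ball (0:ℂ) 1) := by
  intro z hz
  rw [mem_ball_zero_iff] at hz
  have hR : (1 + ‖z‖) / 2 < 1 := by linarith
  refine ⟨ball 0 ((1 + ‖z‖) / 2), ?_, ?_⟩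
  · apply mem_nhdsWithin_of_mem_nhds
    apply isOpen_ball.mem_nhds
    rw [mem_ball_zero_iff]
    linarith
  · have hfin : IsFiniteMeasure (volume.restrict (ball (0:ℂ) ((1 + ‖z‖) / 2))) :=
      ⟨by rw [Measure.restrict_apply_univ]; exact measure_ball_lt_top⟩
    have hm : MemLp (G.PA (G.FD.indicator β)) 2 (volume.restrict (ball (0:ℂ) ((1 + ‖z‖) / 2))) := by
      refine ⟨(ext_measR G β hβ _ hR).aestronglyMeasurable, ?_⟩
      rw [eLpNorm_lt_top_iff_lintegral_rpow_enorm_lt_top (by norm_num) (by norm_num)]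
      have := G.ext_l2 β hβ h2 _ hR
      simpa using this
    exact hm.integrable (by norm_num)

end FG

end Pool.Agent.DimDropF
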