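import Pool.Agent.Lib_MP_644907_f.CAU
import Pool.Agent.Lib_MP_644907_f.DENSE

/-!
# Piece EXV: solution of the `∂bar` equation on the quotient
-/

set_option autoImplicit false

open Complex MeasureTheory Metric Filter
open scoped ContDiff Topology

namespace Pool.Agent.DimDropF

/-- Hoelder: convergence of the pairing with a fixed function -/
theorem exv_hold {ν : Measure ℂ} (F : ℕ → ℂ → ℂ) (f g : ℂ → ℂ)
    (hF : ∀ n, AEStronglyMeasurable (F n) ν) (hf : MemLp f 2 ν) (hg : MemLp g 2 ν)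
    (h : Tendsto (fun n => eLpNorm (fun z => F n z - f z) 2 ν) atTop (𝓝 0)) :
    Tendsto (fun n => ∫ z, F n z * g z ∂ν) atTop (𝓝 (∫ z, f z * g z ∂ν)) := by
  have hev : ∀ᶠ n in atTop, MemLp (F n) 2 ν := by
    have h1 : ∀ᶠ n in atTop, eLpNorm (fun z => F n z - f z) 2 ν < 1 :=
      (tendsto_order.1 h).2 1 (by norm_num)
    filter_upwards [h1] with n hn
    have h2 : MemLp (fun z => F n z - f z) 2 ν :=
      ⟨(hF n).sub hf.1, hn.trans (by norm_num)⟩
    have h3 := h2.add hf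
    have e : ((fun z => F n z - f z) + f) = F n := by
      funext z
      simp
    rwa [e] at h3
  refine tendsto_integral_of_L1 (fun z => f z * g z) (hf.integrable_mul hg).1 ?_ ?_
  · filter_upwards [hev] with n hn
    exact hn.integrable_mul hg
  · have hub : Tendsto (fun n => eLpNorm (fun z => F n z - f z) 2 ν * eLpNorm g 2 ν) atTop (𝓝 0) := by
      have h4 := ENNReal.Tendsto.mul_const h (Or.inr hg.2.ne) (b := eLpNorm g 2 ν)
      rwa [zero_mul] at h4
    refine tendsto_of_tendsto_of_tendsto_of_le_of_le tendsto_const_nhds hub (fun _ => bot_le) ?_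
    intro n
    have h5 := eLpNorm_smul_le_mul_eLpNorm (p := 2) (q := 2) (r := 1) hg.1
      ((hF n).sub hf.1)
    rw [eLpNorm_one_eq_lintegral_enorm] at h5
    refine le_trans (le_of_eq ?_) h5
    refine lintegral_congr fun z => ?_
    congr 1
    simp only [Pi.smul_apply', Pi.sub_apply, smul_eq_mul]
    ring

/-- functions which are continuous on the open disc are in `L^2` of measurable subsets of smaller closed balls -/
theorem exv_memLp (w : ℂ → ℂ) (hw : ContinuousOn w (ball 0 1)) (r : ℝ) (hr : r < 1) (A : Set ℂ)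
    (hA : MeasurableSet A) (hAr : A ⊆ closedBall 0 r) : MemLp w 2 (volume.restrict A) := by
  have hc : ContinuousOn w (closedBall 0 r) := hw.mono (closedBall_subset_ball hr)
  obtain ⟨M, hM⟩ := (isCompact_closedBall (0:ℂ) r).exists_bound_of_continuousOn hc
  have hfin : volume A < ⊤ :=
    lt_of_le_of_lt (measure_mono hAr) (isCompact_closedBall (0:ℂ) r).measure_lt_top
  have : IsFiniteMeasure (volume.restrict A) := ⟨by rwa [Measure.restrict_apply_univ]⟩
  refine MemLp.of_bound ((hc.aestronglyMeasurable measurableSet_closedBall).mono_measure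
    (Measure.restrict_mono hAr le_rfl)) M ?_
  exact (ae_restrict_iff' hA).2 (Eventually.of_forall fun z hz => hM z (hAr hz))

/-- the square of the `L^2` norm as a lower integral -/
theorem exv_lint {ν : Measure ℂ} (f : ℂ → ℂ) (hf : MemLp f 2 ν) :
    ∫⁻ z, ‖f z‖ₑ ^ 2 ∂ν = ENNReal.ofReal (∫ z, ‖f z‖ ^ 2 ∂ν) := by
  have hi : Integrable (fun z => ‖f z‖ ^ 2) ν := hf.integrable_norm_pow (by norm_num)
  rw [ofReal_integral_eq_lintegral_ofReal hi (Eventually.of_forall fun z => by positivity)]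
  refine lintegral_congr fun z => ?_
  rw [ENNReal.ofReal_pow (norm_nonneg _), ofReal_norm]

theorem exv_eLp {ν : Measure ℂ} (f : ℂ → ℂ) : eLpNorm f 2 ν = (∫⁻ z, ‖f z‖ₑ ^ 2 ∂ν) ^ ((1:ℝ) / 2) := by
  rw [eLpNorm_eq_lintegral_rpow_enorm_toReal (by norm_num) (by norm_num)]
  simp

namespace FG

variable {Γ : Type} [Group Γ] (G : FG Γ)

/-- By `dense` with `α = PA α₀` (bounded on `FD`, `PA_smooth`) choose `ψ n` with `∫_FD |PA α₀ - dbar (PS (ψ n))|^2 < 1/(n+1)`; then `hC` of `cau` holds. Let `c, v` be given by `cau`,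
`w n = PS (ψ n) - c n`. INVARIANCE: a subsequence of `w n` converges a.e. on the disc to `v` (`TendstoInMeasure`, `exists_seq_tendsto_ae`); `w n (m γ z) = w n z`, and `ae_comp`.
WEAK EQUATION: for a test function `ψ'` with support in the ball of radius `R < 1`:
`∫_disc v dbar ψ' = lim ∫_disc (w n) dbar ψ'` (Cauchy-Schwarz, `dbar ψ'` is bounded) and by `ibp` (`U = ball 0 1`) `∫ (w n) dbar ψ' = - ∫ dbar (PS (ψ n)) ψ'`, and
`∫_{ball R} |dbar (PS (ψ n)) - PA α₀|^2 ≤ C ∫_FD |dbar (PS (ψ n)) - PA α₀|^2 → 0` by `br` (equivariant density, `dbar_PS`, `PA_inv`). -/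
theorem exists_v (h0 : G.NoForm) (α₀ : ℂ → ℂ) (hα₀ : Test α₀) : ∃ v : ℂ → ℂ,
    MemLp v 2 (volume.restrict (ball (0:ℂ) 1)) ∧
    (∀ γ, ∀ᵐ z ∂(volume.restrict (ball (0:ℂ) 1)), v (G.m γ z) = v z) ∧
    ∀ ψ : ℂ → ℂ, Test ψ → ∫ z in ball (0:ℂ) 1, v z * dbar ψ z = - ∫ z in ball (0:ℂ) 1, G.PA α₀ z * ψ z := by
  have hPAc : ContinuousOn (G.PA α₀) (ball 0 1) := (G.PA_smooth hα₀).continuousOn
  have hPAF : MemLp (G.PA α₀) 2 (volume.restrict G.FD) :=
    exv_memLp _ hPAc G.r G.r1 G.FD G.FD_meas G.FD_sub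
  choose ψ hψ hψe using fun n : ℕ =>
    G.dense h0 (G.PA α₀) hPAF (1 / ((n:ℝ) + 1)) (by positivity)
  -- regularity of the approximating sequence
  have hsm : ∀ n, ContDiffOn ℝ ∞ (G.PS (ψ n)) (ball 0 1) := fun n => G.PS_smooth (hψ n)
  have hdc : ∀ n, ContinuousOn (dbar (G.PS (ψ n))) (ball 0 1) := fun n =>
    (contDiffOn_dbar isOpen_ball (hsm n)).continuousOn
  have hdF : ∀ n, MemLp (dbar (G.PS (ψ n))) 2 (volume.restrict G.FD) := fun n =>
    exv_memLp _ (hdc n) G.r G.r1 G.FD G.FD_meas G.FD_sub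
  have hfF : ∀ n, MemLp (fun z => G.PA α₀ z - dbar (G.PS (ψ n)) z) 2 (volume.restrict G.FD) :=
    fun n => hPAF.sub (hdF n)
  have hfi : ∀ n, IntegrableOn (fun z => ‖G.PA α₀ z - dbar (G.PS (ψ n)) z‖ ^ 2) G.FD := fun n =>
    (hfF n).integrable_norm_pow (by norm_num)
  have hC : ∀ ε : ℝ, 0 < ε → ∃ N : ℕ, ∀ n ≥ N, ∀ m ≥ N,
      ∫ z in G.FD, ‖dbar (G.PS (ψ n)) z - dbar (G.PS (ψ m)) z‖ ^ 2 < ε := by
    intro ε hε
    obtain ⟨N, hN⟩ := exists_nat_one_div_lt (show 0 < ε / 4 by positivity)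
    refine ⟨N, fun n hn m hm => ?_⟩
    have hle : ∫ z in G.FD, ‖dbar (G.PS (ψ n)) z - dbar (G.PS (ψ m)) z‖ ^ 2 ≤
        ∫ z in G.FD, (2 * ‖G.PA α₀ z - dbar (G.PS (ψ n)) z‖ ^ 2 +
          2 * ‖G.PA α₀ z - dbar (G.PS (ψ m)) z‖ ^ 2) := by
      refine integral_mono_of_nonneg (Eventually.of_forall fun z => by positivity)
        (((hfi n).const_mul 2).add ((hfi m).const_mul 2)) (Eventually.of_forall fun z => ?_)
      show ‖dbar (G.PS (ψ n)) z - dbar (G.PS (ψ m)) z‖ ^ 2 ≤ _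
      have e : dbar (G.PS (ψ n)) z - dbar (G.PS (ψ m)) z =
          (G.PA α₀ z - dbar (G.PS (ψ m)) z) - (G.PA α₀ z - dbar (G.PS (ψ n)) z) := by ring
      rw [e]
      have h1 := norm_sub_le (G.PA α₀ z - dbar (G.PS (ψ m)) z) (G.PA α₀ z - dbar (G.PS (ψ n)) z)
      have h2 := norm_nonneg ((G.PA α₀ z - dbar (G.PS (ψ m)) z) - (G.PA α₀ z - dbar (G.PS (ψ n)) z))
      nlinarith [sq_nonneg (‖G.PA α₀ z - dbar (G.PS (ψ m)) z‖ - ‖G.PA α₀ z - dbar (G.PS (ψ n)) z‖)]
    have heq : ∫ z in G.FD, (2 * ‖G.PA α₀ z - dbar (G.PS (ψ n)) z‖ ^ 2 +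
          2 * ‖G.PA α₀ z - dbar (G.PS (ψ m)) z‖ ^ 2) =
        2 * (∫ z in G.FD, ‖G.PA α₀ z - dbar (G.PS (ψ n)) z‖ ^ 2) +
        2 * (∫ z in G.FD, ‖G.PA α₀ z - dbar (G.PS (ψ m)) z‖ ^ 2) := by
      rw [integral_add ((hfi n).const_mul 2) ((hfi m).const_mul 2), integral_const_mul,
        integral_const_mul]
    have hn' : 1 / ((n:ℝ) + 1) ≤ 1 / ((N:ℝ) + 1) :=
      one_div_le_one_div_of_le (by positivity) (by gcongr)
    have hm' : 1 / ((m:ℝ) + 1) ≤ 1 / ((N:ℝ) + 1) :=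
      one_div_le_one_div_of_le (by positivity) (by gcongr)
    have h1 := hψe n
    have h2 := hψe m
    linarith
  obtain ⟨c, v, hv, hlim⟩ := G.cau ψ hψ hC
  have hwc : ∀ n, ContinuousOn (fun z => G.PS (ψ n) z - c n) (ball 0 1) := fun n =>
    (hsm n).continuousOn.sub continuousOn_const
  have hwm : ∀ n, AEStronglyMeasurable (fun z => G.PS (ψ n) z - c n)
      (volume.restrict (ball (0:ℂ) 1)) := fun n =>
    (hwc n).aestronglyMeasurable measurableSet_ball
  refine ⟨v, hv, ?_, ?_⟩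
  · -- invariance
    intro γ
    have hT : TendstoInMeasure (volume.restrict (ball (0:ℂ) 1))
        (fun n => fun z => G.PS (ψ n) z - c n) atTop v :=
      tendstoInMeasure_of_tendsto_eLpNorm (p := 2) (by norm_num) hwm hv.1 hlim
    obtain ⟨ns, -, hns⟩ := hT.exists_seq_tendsto_ae
    have h2 := G.ae_comp γ _ hns
    filter_upwards [hns, h2, ae_restrict_mem measurableSet_ball] with z h3 h4 h5
    have hz : ‖z‖ < 1 := mem_ball_zero_iff.1 h5
    have e : (fun i => G.PS (ψ (ns i)) (G.m γ z) - c (ns i)) =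
        fun i => G.PS (ψ (ns i)) z - c (ns i) := by
      funext i
      rw [G.PS_inv _ γ hz]
    rw [e] at h4
    exact tendsto_nhds_unique h4 h3
  · -- weak equation
    intro φ hφ
    obtain ⟨r, hr0, hr1, hr⟩ := hφ.supp
    obtain ⟨R, hrR, hR1⟩ := exists_between hr1
    have hR0 : 0 < R := hr0.trans hrR
    -- left hand side
    have hg : MemLp (dbar φ) 2 (volume.restrict (ball (0:ℂ) 1)) :=
      (hφ.dbar.continuous.memLp_of_hasCompactSupport hφ.dbar.hasCompactSupport).restrict _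
    have hL := exv_hold _ _ _ hwm hv hg hlim
    -- right hand side
    have hsub : ball (0:ℂ) R ⊆ closedBall 0 R := ball_subset_closedBall
    have hPR : MemLp (G.PA α₀) 2 (volume.restrict (ball (0:ℂ) R)) :=
      exv_memLp _ hPAc R hR1 _ measurableSet_ball hsub
    have hdR : ∀ n, MemLp (dbar (G.PS (ψ n))) 2 (volume.restrict (ball (0:ℂ) R)) := fun n =>
      exv_memLp _ (hdc n) R hR1 _ measurableSet_ball hsub
    have hgR : MemLp φ 2 (volume.restrict (ball (0:ℂ) R)) :=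
      (hφ.continuous.memLp_of_hasCompactSupport hφ.hasCompactSupport).restrict _
    obtain ⟨C, hCb⟩ := G.br R hR1
    have hbd : ∀ n, ∫⁻ z in ball (0:ℂ) R, ‖dbar (G.PS (ψ n)) z - G.PA α₀ z‖ₑ ^ 2 ≤
        C * ENNReal.ofReal (1 / ((n:ℝ) + 1)) := by
      intro n
      refine (hCb (fun z => ‖dbar (G.PS (ψ n)) z - G.PA α₀ z‖ₑ ^ 2) ?_).trans ?_
      · intro γ z hz
        have e1 : dbar (G.PS (ψ n)) z - G.PA α₀ z =
            (dbar (G.PS (ψ n)) (G.m γ z) - G.PA α₀ (G.m γ z)) * starRingEnd ℂ (G.d γ z) := by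
          rw [sub_mul, G.PA_inv _ γ hz, G.dbar_PS (hψ n) (G.m_lt γ hz), G.PA_inv _ γ hz,
            G.dbar_PS (hψ n) hz]
        show ‖_‖ₑ ^ 2 * _ = ‖_‖ₑ ^ 2
        rw [e1, enorm_mul, mul_pow]
        congr 1
        rw [ENNReal.ofReal_pow (norm_nonneg _), ofReal_norm]
        congr 1
        rw [← ofReal_norm, ← ofReal_norm, RCLike.norm_conj]
      · gcongr
        have e2 : ∫⁻ z in G.FD, ‖dbar (G.PS (ψ n)) z - G.PA α₀ z‖ₑ ^ 2 =
            ∫⁻ z in G.FD, ‖G.PA α₀ z - dbar (G.PS (ψ n)) z‖ₑ ^ 2 := by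
          refine lintegral_congr fun z => ?_
          rw [← ofReal_norm, ← ofReal_norm, norm_sub_rev]
        show ∫⁻ z in G.FD, ‖dbar (G.PS (ψ n)) z - G.PA α₀ z‖ₑ ^ 2 ≤ _
        rw [e2, exv_lint _ (hfF n)]
        exact ENNReal.ofReal_le_ofReal (hψe n).le
    have hlimR : Tendsto (fun n => eLpNorm (fun z => dbar (G.PS (ψ n)) z - G.PA α₀ z) 2
        (volume.restrict (ball (0:ℂ) R))) atTop (𝓝 0) := by
      have h1 : Tendsto (fun n : ℕ => ((C:ENNReal) * ENNReal.ofReal (1 / ((n:ℝ) + 1))) ^ ((1:ℝ) / 2))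
          atTop (𝓝 0) := by
        have h2 : Tendsto (fun n : ℕ => ENNReal.ofReal (1 / ((n:ℝ) + 1))) atTop (𝓝 0) := by
          have h3 := ENNReal.tendsto_ofReal (tendsto_one_div_add_atTop_nhds_zero_nat (𝕜 := ℝ))
          rwa [ENNReal.ofReal_zero] at h3
        have h4 := ENNReal.Tendsto.const_mul (a := (C:ENNReal)) h2 (Or.inr ENNReal.coe_ne_top)
        rw [mul_zero] at h4
        have h5 := h4.ennrpow_const ((1:ℝ) / 2)
        rwa [ENNReal.zero_rpow_of_pos (by norm_num)] at h5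
      refine tendsto_of_tendsto_of_tendsto_of_le_of_le tendsto_const_nhds h1 (fun _ => bot_le) ?_
      intro n
      show eLpNorm _ 2 _ ≤ _
      rw [exv_eLp]
      exact ENNReal.rpow_le_rpow (hbd n) (by norm_num)
    have hRt := exv_hold _ _ _ (fun n => (hdR n).1) hPR hgR hlimR
    -- the two sequences are opposite
    have hoff : ∀ z ∈ ball (0:ℂ) 1 \ ball (0:ℂ) R, φ z = 0 := by
      intro z hz
      refine hr z (lt_of_lt_of_le hrR ?_)
      have h1 := hz.2
      rw [mem_ball_zero_iff, not_lt] at h1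
      exact h1
    have hset : ∀ h : ℂ → ℂ, ∫ z in ball (0:ℂ) 1, h z * φ z = ∫ z in ball (0:ℂ) R, h z * φ z := by
      intro h
      refine setIntegral_eq_of_subset_of_forall_sdiff_eq_zero measurableSet_ball
        (ball_subset_ball hR1.le) fun z hz => ?_
      rw [hoff z hz, mul_zero]
    have hseq : (fun n => ∫ z in ball (0:ℂ) 1, (G.PS (ψ n) z - c n) * dbar φ z) =
        fun n => - ∫ z in ball (0:ℂ) R, dbar (G.PS (ψ n)) z * φ z := by
      funext n
      have hcd : ContDiffOn ℝ 1 (fun z => G.PS (ψ n) z - c n) (ball 0 1) :=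
        ((hsm n).of_le (by exact_mod_cast le_top)).sub contDiffOn_const
      have h1 := ibp (ball 0 1) isOpen_ball (fun z => G.PS (ψ n) z - c n) φ hcd hφ.smooth
        hφ.hasCompactSupport hφ.tsupport_subset
      rw [h1, ← hset]
      congr 1
      refine setIntegral_congr_fun measurableSet_ball fun z hz => ?_
      have hd : DifferentiableAt ℝ (G.PS (ψ n)) z :=
        ((hsm n).contDiffAt (isOpen_ball.mem_nhds hz)).differentiableAt (by simp)
      show dbar (fun z => G.PS (ψ n) z - c n) z * φ z = dbar (G.PS (ψ n)) z * φ z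
      have h2 := dbar_sub (z := z) hd (differentiableAt_const (c n))
      rw [h2, dbar_of_holo (differentiableAt_const (c n)), sub_zero]
    rw [hset]
    rw [hseq] at hL
    exact tendsto_nhds_unique hL hRt.neg

end FG

end Pool.Agent.DimDropF
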