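import Pool.Agent.Lib_MP_644907_f.ACT

/-!
# Piece FD: the fundamental domain
-/

set_option autoImplicit false

open Complex MeasureTheory Metric
open scoped ContDiff

namespace Pool.Agent.DimDropF

namespace FG

variable {Γ : Type} [Group Γ] (G : FG Γ)

theorem countableG (G : FG Γ) : Countable Γ := by
  have h1 : (Set.univ : Set Γ) = ⋃ n : ℕ, {γ | ‖mb (G.a γ) (G.b γ) 0‖ ≤ 1 - 1 / ((n : ℝ) + 1)} := by
    symm
    rw [Set.eq_univ_iff_forall]
    intro γ
    rw [Set.mem_iUnion]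
    have h0 : ‖G.m γ 0‖ < 1 := G.m_lt γ (by simp)
    obtain ⟨n, hn⟩ := exists_nat_one_div_lt (sub_pos.2 h0)
    refine ⟨n, ?_⟩
    show ‖G.m γ 0‖ ≤ 1 - 1 / ((n : ℝ) + 1)
    linarith
  have h2 : (Set.univ : Set Γ).Countable := by
    rw [h1]
    apply Set.countable_iUnion
    intro n
    apply Set.Finite.countable
    apply G.fin'
    have : (0:ℝ) < 1 / ((n : ℝ) + 1) := by positivity
    linarith
  exact Set.countable_univ_iff.1 h2

theorem FD_sub : G.FD ⊆ closedBall 0 G.r := by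
  intro z hz
  rw [mem_closedBall_zero_iff]
  exact hz.1

theorem FD_lt {z : ℂ} (hz : z ∈ G.FD) : ‖z‖ < 1 := lt_of_le_of_lt hz.1 G.r1

private theorem lexle_meas (f : ℂ → ℂ) (hf : Measurable f) : MeasurableSet {z : ℂ | lexle z (f z)} := by
  unfold lexle
  have h1 : Measurable (fun z : ℂ => z.re) := Complex.measurable_re
  have h2 : Measurable (fun z : ℂ => (f z).re) := Complex.measurable_re.comp hf
  have h3 : Measurable (fun z : ℂ => z.im) := Complex.measurable_im
  have h4 : Measurable (fun z : ℂ => (f z).im) := Complex.measurable_im.comp hf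
  exact (measurableSet_lt h1 h2).union ((measurableSet_eq_fun h1 h2).inter (measurableSet_le h3 h4))

/-- intersection of the closed ball with the countable intersection over `γ` of the measurable sets
`{z | ‖m γ z‖ ≤ r → lexle z (m γ z)}` -/
theorem FD_meas : MeasurableSet G.FD := by
  have := G.countableG
  have e : G.FD = {z : ℂ | ‖z‖ ≤ G.r} ∩ ⋂ γ : Γ, ({z : ℂ | ‖G.m γ z‖ ≤ G.r}ᶜ ∪ {z : ℂ | lexle z (G.m γ z)}) := by
    ext z
    unfold FD
    simp only [Set.mem_setOf_eq, Set.mem_inter_iff, Set.mem_iInter, Set.mem_union, Set.mem_compl_iff]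
    constructor
    · rintro ⟨h1, h2⟩
      refine ⟨h1, fun γ => ?_⟩
      by_cases h : ‖G.m γ z‖ ≤ G.r
      · exact Or.inr (h2 γ h)
      · exact Or.inl h
    · rintro ⟨h1, h2⟩
      refine ⟨h1, fun γ h => ?_⟩
      rcases h2 γ with h3 | h3
      · exact absurd h h3
      · exact h3
  rw [e]
  refine (measurableSet_le measurable_norm measurable_const).inter (MeasurableSet.iInter (fun γ => ?_))
  exact (measurableSet_le (G.m_measurable γ).norm measurable_const).compl.union (lexle_meas _ (G.m_measurable γ))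

/-- the set of the `γ` with `‖m γ z‖ ≤ r` is finite (`finite2` with `R = ‖z‖`) and nonempty (`coc'`); take one for which `m γ z` is minimal
for the lexicographic order (a total order); `‖m δ (m γ z)‖ ≤ r` means `‖m (δ γ) z‖ ≤ r` -/
theorem FD_ex {z : ℂ} (hz : ‖z‖ < 1) : ∃ γ, G.m γ z ∈ G.FD := by
  have hfin : {γ | ‖G.m γ z‖ ≤ G.r}.Finite := by
    refine (G.finite2 G.r ‖z‖ G.r1 hz).subset ?_
    intro γ hγ
    exact ⟨z, le_refl _, hγ⟩
  have hne : {γ | ‖G.m γ z‖ ≤ G.r}.Nonempty := G.coc' z hz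
  obtain ⟨γ, hγ, hmin⟩ := Set.exists_min_image _ (fun γ => toLex ((G.m γ z).re, (G.m γ z).im)) hfin hne
  refine ⟨γ, hγ, fun δ hδ => ?_⟩
  rw [← G.m_mul δ γ hz] at hδ ⊢
  have h1 := hmin (δ * γ) hδ
  rw [Prod.Lex.toLex_le_toLex] at h1
  exact h1

private theorem lexle_antisymm {z w : ℂ} (h1 : lexle z w) (h2 : lexle w z) : z = w := by
  unfold lexle at h1 h2
  apply Complex.ext
  · rcases h1 with h1 | h1 <;> rcases h2 with h2 | h2 <;> linarith [h1, h2]
  · rcases h1 with h1 | h1 <;> rcases h2 with h2 | h2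
    · exact absurd h1 (not_lt.2 h2.le)
    · exact absurd h1 (by rw [h2.1]; exact lt_irrefl _)
    · exact absurd h2 (by rw [h1.1]; exact lt_irrefl _)
    · exact le_antisymm h1.2 h2.2

/-- `lexle z (m γ z)` and `lexle (m γ z) (m γ⁻¹ (m γ z)) = lexle (m γ z) z`, so `m γ z = z` and `γ = 1` by `free'` -/
theorem FD_uniq {γ : Γ} {z : ℂ} (hz : z ∈ G.FD) (h : G.m γ z ∈ G.FD) : γ = 1 := by
  have hz1 : ‖z‖ < 1 := G.FD_lt hz
  have h1 : lexle z (G.m γ z) := hz.2 γ h.1
  have h2 : lexle (G.m γ z) z := by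
    have := h.2 γ⁻¹
    rw [G.m_inv γ hz1] at this
    exact this hz.1
  exact G.free' γ z hz1 (lexle_antisymm h2 h1)

theorem FD_uniq' {γ δ : Γ} {z : ℂ} (hz : ‖z‖ < 1) (h : G.m γ z ∈ G.FD) (h' : G.m δ z ∈ G.FD) : γ = δ := by
  have e : G.m (δ * γ⁻¹) (G.m γ z) = G.m δ z := by
    rw [← G.m_mul (δ * γ⁻¹) γ hz, inv_mul_cancel_right]
  have h1 : δ * γ⁻¹ = 1 := G.FD_uniq h (by rw [e]; exact h')
  exact (mul_inv_eq_one.1 h1).symm

theorem iUnion_FD : ⋃ γ, G.m γ '' G.FD = ball 0 1 := by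
  ext z
  simp only [Set.mem_iUnion, Set.mem_image, mem_ball_zero_iff]
  constructor
  · rintro ⟨γ, w, hw, rfl⟩
    exact G.m_lt γ (G.FD_lt hw)
  · intro hz
    obtain ⟨γ, hγ⟩ := G.FD_ex hz
    exact ⟨γ⁻¹, G.m γ z, hγ, G.m_inv γ hz⟩

theorem disj_FD : Pairwise (Function.onFun Disjoint (fun γ => G.m γ '' G.FD)) := by
  intro γ δ hne
  unfold Function.onFun
  rw [Set.disjoint_left]
  rintro w ⟨z, hz, rfl⟩ ⟨z', hz', he⟩
  apply hne
  have hw : ‖G.m γ z‖ < 1 := G.m_lt γ (G.FD_lt hz)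
  have h1 : G.m γ⁻¹ (G.m γ z) ∈ G.FD := by rw [G.m_inv γ (G.FD_lt hz)]; exact hz
  have h2 : G.m δ⁻¹ (G.m γ z) ∈ G.FD := by rw [← he, G.m_inv δ (G.FD_lt hz')]; exact hz'
  exact inv_injective (G.FD_uniq' hw h1 h2)

/-- image of a measurable set by an injective function which is measurable / continuous on it -/
theorem image_meas (γ : Γ) : MeasurableSet (G.m γ '' G.FD) := by
  have hsub : G.FD ⊆ ball 0 1 := fun z hz => mem_ball_zero_iff.2 (G.FD_lt hz)
  exact G.FD_meas.image_of_continuousOn_injOn ((G.m_diffOn γ).continuousOn.mono hsub) ((G.injOn γ).mono hsub)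

theorem FD_finite : volume G.FD < ⊤ :=
  (measure_mono G.FD_sub).trans_lt measure_closedBall_lt_top

/-- otherwise all images are null (`null`), hence the disc would be null -/
theorem FD_pos : 0 < volume G.FD := by
  have := G.countableG
  rw [pos_iff_ne_zero]
  intro h0
  have h1 : ∀ γ : Γ, volume (G.m γ '' G.FD) = 0 := by
    intro γ
    refine measure_mono_null ?_ (G.null γ⁻¹ G.FD h0)
    rintro w ⟨z, hz, rfl⟩
    refine ⟨G.m_lt γ (G.FD_lt hz), ?_⟩
    rw [G.m_inv γ (G.FD_lt hz)]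
    exact hz
  have h2 : volume (ball (0:ℂ) 1) = 0 := by
    rw [← G.iUnion_FD]
    exact measure_iUnion_null h1
  have h3 : 0 < volume (ball (0:ℂ) 1) := measure_ball_pos _ _ one_pos
  rw [h2] at h3
  exact lt_irrefl _ h3

end FG

end Pool.Agent.DimDropF
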