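import Pool.Agent.Lib_MP_644907_f.GRPC

/-!
# Piece GRPD: the structure `FG` on the subgroup
-/

set_option autoImplicit false

open Complex MeasureTheory Metric
open scoped ContDiff

namespace Pool.Agent.DimDropF

open Pool.Agent.DimDrop (IsoD)

/-- Choose `a, b` for all `γ ∈ Λ`. Cocompactness: let `g₁, …, g_m` be representatives of the left cosets `g Λ` (finite index). For `z` in the disc let `‖f γ z‖ ≤ r`, `γ = g_i γ'`; then
`f γ' z = f g_i⁻¹ (f γ z)` is in the union of the compact sets `f g_i⁻¹ '' closedBall 0 r`, which are contained in `closedBall 0 r''`, `r'' < 1` (continuity of `f`, or an explicit bound). -/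
theorem exists_sub {Γ : Type} [Group Γ] (A : IG Γ) {n : ℕ} (e : Fin n → Γ)
    (hgen : ∀ T : Set Γ, (∀ i, e i ∈ T) → (∀ x ∈ T, ∀ y ∈ T, x * y ∈ T) → ∀ γ, γ ∈ T) :
    ∃ (Λ : Subgroup Γ) (G : FG Λ), Λ.FiniteIndex ∧ ∀ (γ : Λ) (z : ℂ), ‖z‖ < 1 → G.m γ z = A.f γ z := by
  obtain ⟨Λ, hΛ, hconf, hfree⟩ := torsion_free A e hgen
  have hconf' : ∀ γ : Λ, ∃ α β : ℂ, ‖α‖ ^ 2 - ‖β‖ ^ 2 = 1 ∧ ∀ z : ℂ, ‖z‖ ≤ 1 → A.f γ z = mb α β z :=
    fun γ => hconf γ γ.2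
  choose a b hab hf using hconf'
  -- bounds for the finitely many representatives
  have hR : ∀ g : Γ, ∃ R : ℝ, R < 1 ∧ ∀ w : ℂ, ‖w‖ ≤ A.r → ‖A.f g w‖ ≤ R := by
    intro g
    obtain ⟨α, β, hαβ, s, hs⟩ := (isoD_iff (A.f g)).1 (A.iso g)
    have hα : 1 ≤ ‖α‖ ^ 2 := by nlinarith [sq_nonneg ‖β‖]
    refine ⟨1 - (1 - A.r) / (8 * ‖α‖ ^ 2), ?_, ?_⟩
    · have : 0 < (1 - A.r) / (8 * ‖α‖ ^ 2) := by
        apply div_pos
        · linarith [A.r1]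
        · linarith
      linarith
    · intro w hw
      have hw1 : ‖w‖ < 1 := lt_of_le_of_lt hw A.r1
      rw [hs w hw1.le]
      have hn : ‖(if s then starRingEnd ℂ w else w)‖ = ‖w‖ := by
        split_ifs
        · exact Complex.norm_conj w
        · rfl
      have h1 := one_sub_ge (z := if s then starRingEnd ℂ w else w) hαβ (by rw [hn]; exact hw1)
      rw [hn] at h1
      have h2 : (1 - A.r) / (8 * ‖α‖ ^ 2) ≤ (1 - ‖w‖) / (8 * ‖α‖ ^ 2) := by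
        apply div_le_div_of_nonneg_right (by linarith) (by linarith)
      linarith
  choose R hR1 hR2 using hR
  have : Finite (Γ ⧸ Λ) := Subgroup.finite_quotient_of_finiteIndex
  obtain ⟨i₀, hi₀⟩ := Finite.exists_max (fun i : Γ ⧸ Λ => R (i.out)⁻¹)
  have hmz : ∀ (γ : Λ) (z : ℂ), ‖z‖ < 1 → mb (a γ) (b γ) z = A.f γ z := fun γ z hz => (hf γ z hz.le).symm
  have hfle : ∀ (γ : Γ) (z : ℂ), ‖z‖ ≤ 1 → ‖A.f γ z‖ ≤ 1 := fun γ z hz => (A.iso γ).norm_le z hz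
  refine ⟨Λ, ⟨a, b, hab, ?_, ?_, ?_, ?_, max (R (i₀.out)⁻¹) A.r, lt_of_lt_of_le A.r0 (le_max_right _ _),
    max_lt (hR1 _) A.r1, ?_⟩, hΛ, ?_⟩
  · intro z hz
    rw [hmz 1 z hz]
    exact A.one' z hz.le
  · intro γ δ z hz
    rw [hmz _ z hz, hmz δ z hz, ← hf γ _ (hfle δ z hz.le)]
    exact A.mul' γ δ z hz.le
  · intro r hr
    have h1 := (A.fin' r hr).preimage (f := fun γ : Λ => (γ : Γ)) Subtype.val_injective.injOn
    apply h1.subset
    intro γ hγ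
    have h2 : ‖mb (a γ) (b γ) 0‖ ≤ r := hγ
    rw [hmz γ 0 (by simp)] at h2
    exact h2
  · intro γ z hz hz2
    rw [hmz γ z hz] at hz2
    exact Subtype.ext (hfree γ γ.2 z hz hz2)
  · intro z hz
    obtain ⟨γ, hγ⟩ := A.coc' z hz
    set g : Γ := ((γ : Γ ⧸ Λ)).out with hg
    have hmem : g⁻¹ * γ ∈ Λ := by
      rw [← QuotientGroup.eq, hg]
      exact Quotient.out_eq' _
    refine ⟨⟨g⁻¹ * γ, hmem⟩, ?_⟩
    rw [hmz _ z hz]
    show ‖A.f (g⁻¹ * γ) z‖ ≤ _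
    rw [A.mul' _ _ z hz.le]
    exact (hR2 g⁻¹ _ hγ).trans ((hi₀ _).trans (le_max_left _ _))
  · intro γ z hz
    exact hmz γ z hz

end Pool.Agent.DimDropF
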