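import Pool.Agent.Lib_MP_644907_f.GRPA

/-!
# Piece GRPE: from a set of functions to a group
-/

set_option autoImplicit false

open Complex MeasureTheory Metric
open scoped ContDiff

namespace Pool.Agent.DimDropF

open Pool.Agent.DimDrop (IsoD)

/-- Very similar to `exists_rw` in `Pool/Agent/Lib_MP_644907/Group.lean`. `Γ` = the subgroup of `Equiv.Perm (closedBall (0:ℂ) 1)` of all `σ` which are the restriction of some `f ∈ S`; `f γ` = a chosen such element of `S`.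
All elements of `S` are `IsoD` (induction, `IsoD.comp`); two sided inverses: `h (f z) = z`, `h' (h z) = z` give `h' = f` on the closed disc. `fin'`: `γ ↦ restriction of f γ` is injective, `hdisc`. -/
theorem exists_IG {n : ℕ} (hn : 0 < n) (g : Fin n → ℂ → ℂ) (hg : ∀ i, IsoD (g i))
    (S : Set (ℂ → ℂ)) (hS : S = ⋂₀ {T : Set (ℂ → ℂ) | Set.range g ⊆ T ∧ ∀ f ∈ T, ∀ h ∈ T, f ∘ h ∈ T})
    (hinv : ∀ f ∈ S, ∃ h ∈ S, ∀ z : ℂ, ‖z‖ ≤ 1 → h (f z) = z)
    (hdisc : ∀ r : ℝ, r < 1 →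
        ((fun f : ℂ → ℂ => (Metric.closedBall (0:ℂ) 1).restrict f) ''
          {f : ℂ → ℂ | f ∈ S ∧ ‖f 0‖ ≤ r}).Finite)
    (hcoc : ∃ r : ℝ, r < 1 ∧ ∀ z : ℂ, ‖z‖ < 1 → ∃ f ∈ S, ‖f z‖ ≤ r) :
    ∃ (Γ : Type) (_ : Group Γ) (A : IG Γ) (e : Fin n → Γ), (∀ i, ∀ z : ℂ, ‖z‖ ≤ 1 → A.f (e i) z = g i z) ∧
      ∀ T : Set Γ, (∀ i, e i ∈ T) → (∀ x ∈ T, ∀ y ∈ T, x * y ∈ T) → ∀ γ, γ ∈ T := by
  classical
  -- induction over S
  have hind : ∀ Q : (ℂ → ℂ) → Prop, (∀ i, Q (g i)) → (∀ f h, Q f → Q h → Q (f ∘ h)) →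
      ∀ f ∈ S, Q f := by
    intro Q h1 h2 f hf
    rw [hS] at hf
    exact hf {f | Q f} ⟨by rintro _ ⟨i, rfl⟩; exact h1 i, fun f hf h hh => h2 f h hf hh⟩
  have hgS : ∀ i, g i ∈ S := by
    intro i
    rw [hS]
    rintro T ⟨h1, _⟩
    exact h1 ⟨i, rfl⟩
  have hcomp : ∀ f ∈ S, ∀ h ∈ S, f ∘ h ∈ S := by
    intro f hf h hh
    rw [hS] at hf hh ⊢
    intro T hT
    exact hT.2 f (hf T hT) h (hh T hT)
  have hiso : ∀ f ∈ S, IsoD f := hind IsoD hg (fun f h hf hh => hf.comp hh)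
  have hle : ∀ z : Metric.closedBall (0:ℂ) 1, ‖(z : ℂ)‖ ≤ 1 := fun z =>
    mem_closedBall_zero_iff.1 z.2
  have hnorm : ∀ f ∈ S, ∀ z : Metric.closedBall (0:ℂ) 1, f z ∈ Metric.closedBall (0:ℂ) 1 :=
    fun f hf z => mem_closedBall_zero_iff.2 ((hiso f hf).norm_le z (hle z))
  -- two sided inverses
  have hinv2 : ∀ f ∈ S, ∃ h ∈ S, (∀ z : Metric.closedBall (0:ℂ) 1, h (f z) = z) ∧
      (∀ z : Metric.closedBall (0:ℂ) 1, f (h z) = z) := by
    intro f hf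
    obtain ⟨h, hh, hfh⟩ := hinv f hf
    obtain ⟨k, hk, hhk⟩ := hinv h hh
    refine ⟨h, hh, fun z => hfh z (hle z), fun z => ?_⟩
    have e1 : k (h z) = z := hhk z (hle z)
    have e2 : k (h (f (h z))) = f (h z) :=
      hhk (f (h z)) (hle ⟨f (h z), hnorm f hf ⟨h z, hnorm h hh z⟩⟩)
    have e3 : h (f (h z)) = h z := hfh (h z) (hle ⟨h z, hnorm h hh z⟩)
    rw [← e2, e3, e1]
  have hne : ∃ f, f ∈ S := ⟨g ⟨0, hn⟩, hgS _⟩
  let Γ : Subgroup (Equiv.Perm (Metric.closedBall (0:ℂ) 1)) :=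
    { carrier := {σ | ∃ f ∈ S, ∀ z : Metric.closedBall (0:ℂ) 1,
        ((σ z : Metric.closedBall (0:ℂ) 1) : ℂ) = f z}
      mul_mem' := by
        rintro σ τ ⟨f, hf, hσ⟩ ⟨h, hh, hτ⟩
        refine ⟨f ∘ h, hcomp f hf h hh, fun z => ?_⟩
        rw [Equiv.Perm.mul_apply, hσ, hτ]
        rfl
      one_mem' := by
        obtain ⟨f, hf⟩ := hne
        obtain ⟨h, hh, h1, _⟩ := hinv2 f hf
        refine ⟨h ∘ f, hcomp h hh f hf, fun z => ?_⟩
        rw [Equiv.Perm.one_apply]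
        exact (h1 z).symm
      inv_mem' := by
        rintro σ ⟨f, hf, hσ⟩
        obtain ⟨h, hh, h1, _⟩ := hinv2 f hf
        refine ⟨h, hh, fun z => ?_⟩
        have e1 := hσ (σ⁻¹ z)
        have e0 : σ (σ⁻¹ z) = z := σ.apply_symm_apply z
        rw [e0] at e1
        rw [e1, h1] }
  have hΓ : ∀ γ : Γ, ∃ f ∈ S, ∀ z : Metric.closedBall (0:ℂ) 1,
      ((γ.1 z : Metric.closedBall (0:ℂ) 1) : ℂ) = f z := fun γ => γ.2
  choose F hFS hF using hΓ
  have hext : ∀ γ γ' : Γ, (∀ z : Metric.closedBall (0:ℂ) 1, F γ z = F γ' z) → γ = γ' := by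
    intro γ γ' h
    refine Subtype.ext (Equiv.ext fun z => Subtype.ext ?_)
    rw [hF, hF]
    exact h z
  have key : ∀ f ∈ S, ∃ γ : Γ, ∀ z : Metric.closedBall (0:ℂ) 1, F γ z = f z := by
    intro f hf
    obtain ⟨h, hh, h1, h2⟩ := hinv2 f hf
    let σ : Equiv.Perm (Metric.closedBall (0:ℂ) 1) :=
      { toFun := fun z => ⟨f z, hnorm f hf z⟩
        invFun := fun z => ⟨h z, hnorm h hh z⟩
        left_inv := fun z => Subtype.ext (h1 z)
        right_inv := fun z => Subtype.ext (h2 z) }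
    refine ⟨⟨σ, f, hf, fun z => rfl⟩, fun z => ?_⟩
    exact (hF ⟨σ, f, hf, fun z => rfl⟩ z).symm
  have hFmul : ∀ γ δ : Γ, ∀ z : Metric.closedBall (0:ℂ) 1, F (γ * δ) z = F γ (F δ z) := by
    intro γ δ z
    rw [← hF (γ * δ) z]
    have e1 : ((γ * δ : Γ).1 z) = γ.1 (δ.1 z) := rfl
    rw [e1, hF γ (δ.1 z), hF δ z]
  choose el hel using fun i => key (g i) (hgS i)
  obtain ⟨r, hr1, hr⟩ := hcoc
  let A : IG Γ :=
    { f := F
      iso := fun γ => hiso _ (hFS γ)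
      one' := by
        intro z hz
        have h := hF 1 ⟨z, mem_closedBall_zero_iff.2 hz⟩
        exact h.symm
      mul' := by
        intro γ δ z hz
        exact hFmul γ δ ⟨z, mem_closedBall_zero_iff.2 hz⟩
      faith := by
        intro γ h
        refine Subtype.ext (Equiv.ext fun z => Subtype.ext ?_)
        rw [hF]
        exact h z (hle z)
      fin' := by
        intro r hr
        refine Set.Finite.of_finite_image (f := fun γ : Γ =>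
          (Metric.closedBall (0:ℂ) 1).restrict (F γ)) ((hdisc r hr).subset ?_) ?_
        · rintro _ ⟨γ, hγ, rfl⟩
          exact ⟨F γ, ⟨hFS γ, hγ⟩, rfl⟩
        · intro γ _ δ _ h
          exact hext γ δ fun z => congrFun h z
      r := max r (1 / 2)
      r0 := lt_of_lt_of_le (by norm_num) (le_max_right _ _)
      r1 := max_lt hr1 (by norm_num)
      coc' := by
        intro z hz
        obtain ⟨f, hf, hfr⟩ := hr z hz
        obtain ⟨γ, hγ⟩ := key f hf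
        refine ⟨γ, ?_⟩
        have h : F γ z = f z := hγ ⟨z, mem_closedBall_zero_iff.2 hz.le⟩
        rw [h]
        exact hfr.trans (le_max_left _ _) }
  refine ⟨Γ, inferInstance, A, el, fun i z hz => hel i ⟨z, mem_closedBall_zero_iff.2 hz⟩, ?_⟩
  intro T hT hTm γ
  have hall : ∀ f ∈ S, ∃ δ ∈ T, ∀ z : Metric.closedBall (0:ℂ) 1, F δ z = f z := by
    refine hind _ (fun i => ⟨el i, hT i, hel i⟩) ?_
    rintro f h ⟨γ, hγ, h1⟩ ⟨δ, hδ, h2⟩
    refine ⟨γ * δ, hTm γ hγ δ hδ, fun z => ?_⟩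
    rw [hFmul, h2 z]
    have h3 : h z ∈ Metric.closedBall (0:ℂ) 1 := by
      rw [← h2 z]
      exact hnorm _ (hFS δ) z
    exact h1 ⟨h z, h3⟩
  obtain ⟨δ, hδ, h⟩ := hall (F γ) (hFS γ)
  rw [← hext δ γ h]
  exact hδ

end Pool.Agent.DimDropF
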