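import Pool.Agent.Lib_MP_644907_f.PRIM
import Pool.Agent.Lib_MP_644907_f.GRPD
import Pool.Agent.Lib_MP_644907_f.GRPE
import Pool.Agent.Lib_MP_644907_f.ASMB

/-!
# FINAL: the interface theorem of block FPAIR
-/

set_option autoImplicit false

open Complex MeasureTheory Metric Filter
open scoped ContDiff Topology

namespace Pool.Agent.DimDropF

open Pool.Agent.DimDrop (IsoD)

/-- a Hoelder function on the circle is Hoelder with every smaller exponent (`‖z - w‖ ≤ 2`) -/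
theorem Hol.mono {φ : ℂ → ℝ} {al C : ℝ} (hφ : Hol φ al C) : ∃ C' : ℝ, 0 ≤ C' ∧ Hol φ (min al 2) C' := by
  refine ⟨max C 0 * 2 ^ (al - min al 2), by positivity, fun z w hz hw => ?_⟩
  have h2 : ‖z - w‖ ≤ 2 := by
    calc ‖z - w‖ ≤ ‖z‖ + ‖w‖ := norm_sub_le _ _
      _ = 2 := by rw [hz, hw]; norm_num
  have h0 : 0 ≤ ‖z - w‖ := norm_nonneg _
  rcases h0.lt_or_eq with hpos | hzero
  · have e1 : ‖z - w‖ ^ al = ‖z - w‖ ^ (min al 2) * ‖z - w‖ ^ (al - min al 2) := by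
      rw [← Real.rpow_add hpos]
      congr 1
      ring
    have e2 : ‖z - w‖ ^ (al - min al 2) ≤ 2 ^ (al - min al 2) :=
      Real.rpow_le_rpow h0 h2 (by linarith [min_le_left al 2])
    calc |φ z - φ w| ≤ C * ‖z - w‖ ^ al := hφ z w hz hw
      _ ≤ max C 0 * ‖z - w‖ ^ al := mul_le_mul_of_nonneg_right (le_max_left _ _) (Real.rpow_nonneg h0 _)
      _ = max C 0 * (‖z - w‖ ^ (min al 2) * ‖z - w‖ ^ (al - min al 2)) := by rw [e1]
      _ ≤ max C 0 * (‖z - w‖ ^ (min al 2) * 2 ^ (al - min al 2)) := by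
          refine mul_le_mul_of_nonneg_left ?_ (le_max_right _ _)
          exact mul_le_mul_of_nonneg_left e2 (Real.rpow_nonneg h0 _)
      _ = max C 0 * 2 ^ (al - min al 2) * ‖z - w‖ ^ (min al 2) := by ring
  · have hzw : z = w := by
      have := hzero.symm
      rwa [norm_eq_zero, sub_eq_zero] at this
    rw [hzw]
    simp only [sub_self, abs_zero]
    positivity

/-- INTERFACE: the stationary measure of a finitely supported random walk on a cocompact group has no Hoelder density. -/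
theorem no_holder {n : ℕ} (p : Fin n → ℝ) (g : Fin n → ℂ → ℂ) (hp : ∀ i, 0 < p i) (hp1 : ∑ i, p i = 1)
    (hg : ∀ i, IsoD (g i))
    (S : Set (ℂ → ℂ)) (hS : S = ⋂₀ {T : Set (ℂ → ℂ) | Set.range g ⊆ T ∧ ∀ f ∈ T, ∀ h ∈ T, f ∘ h ∈ T})
    (hinv : ∀ f ∈ S, ∃ h ∈ S, ∀ z : ℂ, ‖z‖ ≤ 1 → h (f z) = z)
    (hdisc : ∀ r : ℝ, r < 1 →
        ((fun f : ℂ → ℂ => (Metric.closedBall (0:ℂ) 1).restrict f) ''
          {f : ℂ → ℂ | f ∈ S ∧ ‖f 0‖ ≤ r}).Finite)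
    (hcoc : ∃ r : ℝ, r < 1 ∧ ∀ z : ℂ, ‖z‖ < 1 → ∃ f ∈ S, ‖f z‖ ≤ r)
    (φ : ℂ → ℝ) (al C : ℝ) (hal : 0 < al) (hφ : ∀ z w : ℂ, ‖z‖ = 1 → ‖w‖ = 1 → |φ z - φ w| ≤ C * ‖z - w‖ ^ al)
    (hmass : ∫ θ in (0:ℝ)..(2 * Real.pi), φ (circleMap 0 1 θ) ≠ 0)
    (hstat : ∀ h : ℂ → ℂ, ContinuousOn h (sphere 0 1) →
      ∫ θ in (0:ℝ)..(2 * Real.pi), h (circleMap 0 1 θ) * (φ (circleMap 0 1 θ) : ℂ) =
        ∑ i, (p i : ℂ) * ∫ θ in (0:ℝ)..(2 * Real.pi), h (g i (circleMap 0 1 θ)) * (φ (circleMap 0 1 θ) : ℂ)) :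
    False := by
  have hn : 0 < n := by
    rcases Nat.eq_zero_or_pos n with h | h
    · subst h
      simp at hp1
    · exact h
  obtain ⟨Γ, hΓ, A, e, he, hgen⟩ := exists_IG hn g hg S hS hinv hdisc hcoc
  obtain ⟨Λ, G, hΛ, hG⟩ := exists_sub A e hgen
  obtain ⟨F, c, C', hC', hF, hFc, hc, hFg⟩ := G.exists_F
  obtain ⟨C'', hC'', hφ'⟩ := Hol.mono (φ := φ) (al := al) (C := C) hφ
  refine asm A p hp hp1 e hgen Λ hΛ F c C' hC' hF (fun γ z hz => ?_) hc hFg φ (min al 2) C'' (lt_min hal two_pos)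
    (min_le_right _ _) hC'' hφ' hmass (fun h hh => ?_)
  · rw [← hG γ z hz]
    exact hFc γ z hz
  · rw [hstat h hh]
    refine Finset.sum_congr rfl fun i _ => ?_
    congr 1
    refine intervalIntegral.integral_congr fun θ _ => ?_
    have h1 : A.f (e i) (circleMap 0 1 θ) = g i (circleMap 0 1 θ) := he i _ (by simp [circleMap])
    simp only [h1]

end Pool.Agent.DimDropF
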