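import Pool.Agent.Lib_MP_644907_f.POLEA

/-!
# Piece MAXP: the maximum principle argument
-/

set_option autoImplicit false

open Complex MeasureTheory Metric Filter
open scoped ContDiff Topology

namespace Pool.Agent.DimDropF

/-- `|1 - conj z₀ w|^2 - |w - z₀|^2 = (1 - |z₀|^2) (1 - |w|^2)`. Suppose `b` is holomorphic near `z₀`, `b z₀ ≠ 0` and `(1 - |w|^2) |b w| ≥ (1 - |z₀|^2) |b z₀|` near `z₀`.
Then `H w = b w * (1 - conj z₀ w)^2` satisfies `|H w| > |H z₀|` for `w ≠ z₀` near `z₀`: `1 / H` has a strict local maximum of the norm,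
contradiction (`Complex.eventually_eq_of_isLocalMax_norm`). -/
theorem no_local_min (b : ℂ → ℂ) (z₀ : ℂ) (hz₀ : ‖z₀‖ < 1) (hb : ∀ᶠ z in 𝓝 z₀, DifferentiableAt ℂ b z) (hb0 : b z₀ ≠ 0)
    (hmin : ∀ᶠ z in 𝓝 z₀, (1 - ‖z₀‖ ^ 2) * ‖b z₀‖ ≤ (1 - ‖z‖ ^ 2) * ‖b z‖) : False := by
  have hid : ∀ w : ℂ, ‖1 - starRingEnd ℂ z₀ * w‖ ^ 2 =
      (1 - ‖z₀‖ ^ 2) * (1 - ‖w‖ ^ 2) + ‖w - z₀‖ ^ 2 := by
    intro w
    simp only [← Complex.normSq_eq_norm_sq, Complex.normSq_apply]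
    simp
    ring
  set H : ℂ → ℂ := fun w => b w * (1 - starRingEnd ℂ z₀ * w) ^ 2 with hH
  have hnH : ∀ w, ‖H w‖ = ‖b w‖ * ((1 - ‖z₀‖ ^ 2) * (1 - ‖w‖ ^ 2) + ‖w - z₀‖ ^ 2) := by
    intro w
    rw [hH]
    simp only
    rw [norm_mul, norm_pow, hid]
  have hA : 0 < 1 - ‖z₀‖ ^ 2 := by nlinarith [norm_nonneg z₀]
  have hB : 0 < ‖b z₀‖ := norm_pos_iff.2 hb0
  have hH0 : ‖H z₀‖ = ‖b z₀‖ * (1 - ‖z₀‖ ^ 2) ^ 2 := by
    rw [hnH, sub_self, norm_zero]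
    ring
  have hlt : ∀ᶠ w in 𝓝 z₀, w ≠ z₀ → ‖H z₀‖ < ‖H w‖ := by
    have h1 : ∀ᶠ w in 𝓝 z₀, ‖w‖ < 1 := continuous_norm.continuousAt.eventually_lt
      continuousAt_const hz₀
    filter_upwards [h1, hmin] with w hw1 hw2 hne
    have hC : 0 < 1 - ‖w‖ ^ 2 := by nlinarith [norm_nonneg w]
    have hD : 0 < ‖w - z₀‖ ^ 2 := pow_pos (norm_pos_iff.2 (sub_ne_zero.2 hne)) 2
    rw [hH0, hnH]
    have h3 : 0 < ‖b w‖ := by
      by_contra h4
      have h5 : ‖b w‖ = 0 := le_antisymm (not_lt.1 h4) (norm_nonneg _)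
      rw [h5, mul_zero] at hw2
      nlinarith [mul_pos hA hB]
    calc ‖b z₀‖ * (1 - ‖z₀‖ ^ 2) ^ 2 = (1 - ‖z₀‖ ^ 2) * ((1 - ‖z₀‖ ^ 2) * ‖b z₀‖) := by ring
      _ ≤ (1 - ‖z₀‖ ^ 2) * ((1 - ‖w‖ ^ 2) * ‖b w‖) := mul_le_mul_of_nonneg_left hw2 hA.le
      _ < (1 - ‖z₀‖ ^ 2) * ((1 - ‖w‖ ^ 2) * ‖b w‖) + ‖b w‖ * ‖w - z₀‖ ^ 2 :=
          lt_add_of_pos_right _ (mul_pos h3 hD)
      _ = ‖b w‖ * ((1 - ‖z₀‖ ^ 2) * (1 - ‖w‖ ^ 2) + ‖w - z₀‖ ^ 2) := by ring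
  have hHz : 0 < ‖H z₀‖ := by
    rw [hH0]
    positivity
  have hdH : ∀ᶠ w in 𝓝 z₀, DifferentiableAt ℂ H w := by
    filter_upwards [hb] with w hw
    exact hw.mul (((differentiableAt_const _).sub
      ((differentiableAt_const _).mul differentiableAt_id)).pow 2)
  have hne : ∀ᶠ w in 𝓝 z₀, H w ≠ 0 := by
    filter_upwards [hlt] with w hw
    by_cases h1 : w = z₀
    · rw [h1]
      exact norm_pos_iff.1 hHz
    · exact norm_pos_iff.1 (hHz.trans (hw h1))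
  have hd : ∀ᶠ w in 𝓝 z₀, DifferentiableAt ℂ (fun w => (H w)⁻¹) w := by
    filter_upwards [hdH, hne] with w h1 h2
    exact h1.inv h2
  have hmax : IsLocalMax (norm ∘ fun w => (H w)⁻¹) z₀ := by
    filter_upwards [hlt] with w hw
    simp only [Function.comp_apply]
    rw [norm_inv, norm_inv]
    by_cases h1 : w = z₀
    · rw [h1]
    · exact inv_anti₀ hHz (hw h1).le
  have heq := Complex.eventually_eq_of_isLocalMax_norm hd hmax
  have h6 : ∀ᶠ w in 𝓝[≠] z₀, False := by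
    filter_upwards [heq.filter_mono nhdsWithin_le_nhds, hlt.filter_mono nhdsWithin_le_nhds,
      self_mem_nhdsWithin] with w h1 h2 h3
    have h4 := h2 h3
    have h5 : H w = H z₀ := inv_injective h1
    rw [h5] at h4
    exact lt_irrefl _ h4
  exact (h6.exists).elim fun _ h => h

namespace FG

variable {Γ : Type} [Group Γ] (G : FG Γ)

/-- `b = deriv f`, `b (m γ z) * d γ z = b z` off the orbit (differentiate `f (m γ z) = f z`), so `Φ z = (1 - |z|^2) |b z|` is invariant (`one_sub`). Near `p`, `b = -1/(z-p)^2 + V'`, so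
`Φ → ∞` at `p` and by invariance at every orbit point. Hence `Φ` attains its minimum over `disc \ orb p` (take a point `z₁`, the set of the `z ∈ closedBall 0 r \ orb p` with
`Φ z ≤ Φ z₁` is compact); `no_local_min`. -/
theorem contra {p : ℂ} (hp : ‖p‖ < 1) {f : ℂ → ℂ} (hf : IsPole G p f)
    (hd : ∀ q : ℂ, ‖q‖ < 1 → q ∉ G.orb p → deriv f q ≠ 0) : False := by
  classical
  obtain ⟨V, ε, hε, hsub, hV, hpole⟩ := hf.pole
  have hU : IsOpen (ball (0:ℂ) 1 \ G.orb p) := G.orb_open hp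
  have hmemU : ∀ z, z ∈ ball (0:ℂ) 1 \ G.orb p ↔ ‖z‖ < 1 ∧ z ∉ G.orb p := by
    intro z
    rw [Set.mem_sdiff, mem_ball_zero_iff]
  have hbd : DifferentiableOn ℂ (deriv f) (ball (0:ℂ) 1 \ G.orb p) := hf.diff.deriv hU
  have hcov : ∀ γ, ∀ z : ℂ, ‖z‖ < 1 → z ∉ G.orb p → deriv f (G.m γ z) * G.d γ z = deriv f z := by
    intro γ z hz hzo
    have h1 : f ∘ G.m γ =ᶠ[𝓝 z] f := by
      filter_upwards [hU.mem_nhds ((hmemU z).2 ⟨hz, hzo⟩)] with w hw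
      exact hf.inv γ w ((hmemU w).1 hw).1 ((hmemU w).1 hw).2
    have h2 : DifferentiableAt ℂ f (G.m γ z) := by
      refine hf.diff.differentiableAt (hU.mem_nhds ((hmemU _).2 ⟨G.m_lt γ hz, ?_⟩))
      rw [G.orb_m hp γ hz]
      exact hzo
    have h3 := h2.hasDerivAt.comp z (G.hasDerivAt_m γ hz)
    rw [← h3.deriv, h1.deriv_eq]
  let Ψ : ℂ → ℝ := fun z => if z ∈ G.orb p then 0 else ((1 - ‖z‖ ^ 2) * ‖deriv f z‖)⁻¹
  have hΨ1 : ∀ z, z ∈ G.orb p → Ψ z = 0 := fun z hz => if_pos hz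
  have hΨ2 : ∀ z, z ∉ G.orb p → Ψ z = ((1 - ‖z‖ ^ 2) * ‖deriv f z‖)⁻¹ := fun z hz => if_neg hz
  have hΨpos : ∀ z : ℂ, ‖z‖ < 1 → z ∉ G.orb p → 0 < Ψ z := by
    intro z hz hzo
    rw [hΨ2 z hzo]
    have h1 : 0 < 1 - ‖z‖ ^ 2 := by nlinarith [norm_nonneg z]
    exact inv_pos.2 (mul_pos h1 (norm_pos_iff.2 (hd z hz hzo)))
  have hΨinv : ∀ γ, ∀ z : ℂ, ‖z‖ < 1 → Ψ (G.m γ z) = Ψ z := by
    intro γ z hz
    by_cases hzo : z ∈ G.orb p
    · rw [hΨ1 z hzo, hΨ1 _ ((G.orb_m hp γ hz).2 hzo)]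
    · have h1 : G.m γ z ∉ G.orb p := fun h => hzo ((G.orb_m hp γ hz).1 h)
      rw [hΨ2 z hzo, hΨ2 _ h1, G.one_sub γ hz, ← hcov γ z hz hzo, norm_mul]
      congr 1
      ring
  have hcU : ∀ z : ℂ, ‖z‖ < 1 → z ∉ G.orb p → ContinuousAt Ψ z := by
    intro z hz hzo
    have hzU := (hmemU z).2 ⟨hz, hzo⟩
    have h1 : Ψ =ᶠ[𝓝 z] fun w => ((1 - ‖w‖ ^ 2) * ‖deriv f w‖)⁻¹ := by
      filter_upwards [hU.mem_nhds hzU] with w hw
      exact hΨ2 w ((hmemU w).1 hw).2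
    have h2 : ContinuousAt (deriv f) z := (hbd.differentiableAt (hU.mem_nhds hzU)).continuousAt
    have h3 : ContinuousAt (fun w : ℂ => ((1 - ‖w‖ ^ 2) * ‖deriv f w‖)⁻¹) z := by
      refine ContinuousAt.inv₀ ((continuousAt_const.sub
        (continuous_norm.continuousAt.pow 2)).mul h2.norm) ?_
      have h4 : 0 < 1 - ‖z‖ ^ 2 := by nlinarith [norm_nonneg z]
      exact (mul_pos h4 (norm_pos_iff.2 (hd z hz hzo))).ne'
    exact h3.congr h1.symm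
  have hcp : ContinuousAt Ψ p := by
    have hVd : ContinuousAt (deriv V) p :=
      ((hV.deriv isOpen_ball).differentiableAt (ball_mem_nhds p hε)).continuousAt
    have h1 : Ψ =ᶠ[𝓝 p] fun w => ‖w - p‖ ^ 2 *
        ((1 - ‖w‖ ^ 2) * ‖-1 + (w - p) ^ 2 * deriv V w‖)⁻¹ := by
      filter_upwards [ball_mem_nhds p hε] with w hw
      by_cases hwp : w = p
      · subst hwp
        rw [hΨ1 w (G.orb_self hp), sub_self, norm_zero]
        ring
      · obtain ⟨hw1, -⟩ := hpole w hw hwp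
        rw [hΨ2 w hw1]
        have hwp' : w - p ≠ 0 := sub_ne_zero.2 hwp
        have h2 : f =ᶠ[𝓝 w] fun z => (z - p)⁻¹ + V z := by
          have h3 : ball p ε ∩ {p}ᶜ ∈ 𝓝 w :=
            Filter.inter_mem (isOpen_ball.mem_nhds hw) (isOpen_compl_singleton.mem_nhds hwp)
          filter_upwards [h3] with z hz
          rw [(hpole z hz.1 hz.2).2, one_div]
        have h4 : HasDerivAt (fun z => (z - p)⁻¹ + V z) (-1 / (w - p) ^ 2 + deriv V w) w := by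
          have h5 : HasDerivAt (fun z => (z - p)⁻¹) (-1 / (w - p) ^ 2) w :=
            ((hasDerivAt_id w).sub_const p).inv hwp'
          exact h5.add (hV.differentiableAt (isOpen_ball.mem_nhds hw)).hasDerivAt
        rw [h2.deriv_eq, h4.deriv]
        have h6 : -1 / (w - p) ^ 2 + deriv V w = (-1 + (w - p) ^ 2 * deriv V w) / (w - p) ^ 2 := by
          field_simp
        rw [h6, norm_div, norm_pow]
        have h7 : ‖w - p‖ ^ 2 ≠ 0 := pow_ne_zero 2 (norm_ne_zero_iff.2 hwp')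
        rw [mul_div_assoc', inv_div, div_eq_mul_inv]
    have h3 : ContinuousAt (fun w : ℂ => ‖w - p‖ ^ 2 *
        ((1 - ‖w‖ ^ 2) * ‖-1 + (w - p) ^ 2 * deriv V w‖)⁻¹) p := by
      have h5 : ContinuousAt (fun w : ℂ => w - p) p := continuousAt_id.sub continuousAt_const
      refine (h5.norm.pow 2).mul (ContinuousAt.inv₀ ((continuousAt_const.sub
        (continuous_norm.continuousAt.pow 2)).mul
        (continuousAt_const.add ((h5.pow 2).mul hVd)).norm) ?_)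
      have h4 : 0 < 1 - ‖p‖ ^ 2 := by nlinarith [norm_nonneg p]
      rw [sub_self]
      simp [h4.ne']
    exact h3.congr h1.symm
  have hcO : ∀ z : ℂ, ‖z‖ < 1 → ContinuousAt Ψ z := by
    intro z hz
    by_cases hzo : z ∈ G.orb p
    · obtain ⟨γ, rfl⟩ := hzo
      have h1 : G.m γ⁻¹ (G.m γ p) = p := G.m_inv γ hp
      have h2 : Ψ =ᶠ[𝓝 (G.m γ p)] Ψ ∘ G.m γ⁻¹ := by
        filter_upwards [isOpen_ball.mem_nhds (mem_ball_zero_iff.2 hz)] with w hw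
        exact (hΨinv γ⁻¹ w (mem_ball_zero_iff.1 hw)).symm
      have h3 : ContinuousAt (Ψ ∘ G.m γ⁻¹) (G.m γ p) := by
        refine ContinuousAt.comp ?_ (G.hasDerivAt_m γ⁻¹ hz).continuousAt
        rw [h1]
        exact hcp
      exact h3.congr h2.symm
    · exact hcU z hz hzo
  have hcomp : IsCompact (closedBall (0:ℂ) G.r) := isCompact_closedBall 0 G.r
  have hne : (closedBall (0:ℂ) G.r).Nonempty := ⟨0, mem_closedBall_self G.r0.le⟩
  have hcont : ContinuousOn Ψ (closedBall (0:ℂ) G.r) := by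
    intro z hz
    rw [mem_closedBall_zero_iff] at hz
    exact (hcO z (hz.trans_lt G.r1)).continuousWithinAt
  obtain ⟨z₀, hz₀, hmax⟩ := hcomp.exists_isMaxOn hne hcont
  have hz₀1 : ‖z₀‖ < 1 := (mem_closedBall_zero_iff.1 hz₀).trans_lt G.r1
  have hall : ∀ z : ℂ, ‖z‖ < 1 → Ψ z ≤ Ψ z₀ := by
    intro z hz
    obtain ⟨γ, hγ⟩ := G.coc' z hz
    have h1 := hmax (show G.m γ z ∈ closedBall (0:ℂ) G.r from mem_closedBall_zero_iff.2 hγ)
    rw [Set.mem_ofPred_eq, hΨinv γ z hz] at h1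
    exact h1
  have hw : p + (ε / 2 : ℝ) ∈ ball p ε := by
    rw [mem_ball, dist_eq_norm, add_sub_cancel_left, Complex.norm_real, Real.norm_eq_abs,
      abs_of_pos (by positivity)]
    linarith
  have hwp : p + (ε / 2 : ℝ) ≠ p := by
    intro h
    have h1 : ((ε / 2 : ℝ) : ℂ) = 0 := by
      have := congrArg (fun z => z - p) h
      simpa using this
    rw [Complex.ofReal_eq_zero] at h1
    linarith
  have hz₀o : z₀ ∉ G.orb p := by
    intro h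
    have h1 := hΨpos _ (mem_ball_zero_iff.1 (hsub hw)) (hpole _ hw hwp).1
    have h2 := hall _ (mem_ball_zero_iff.1 (hsub hw))
    rw [hΨ1 z₀ h] at h2
    linarith
  have hz₀U := (hmemU z₀).2 ⟨hz₀1, hz₀o⟩
  refine no_local_min (deriv f) z₀ hz₀1 ?_ (hd z₀ hz₀1 hz₀o) ?_
  · filter_upwards [hU.mem_nhds hz₀U] with w hw
    exact hbd.differentiableAt (hU.mem_nhds hw)
  · filter_upwards [hU.mem_nhds hz₀U] with w hw
    obtain ⟨hw1, hw2⟩ := (hmemU w).1 hw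
    have h1 := hall w hw1
    have h2 := hΨpos w hw1 hw2
    rw [hΨ2 w hw2] at h1 h2
    rw [hΨ2 z₀ hz₀o] at h1
    exact (inv_le_inv₀ (inv_pos.1 h2) (inv_pos.1 (h2.trans_le h1))).1 h1

end FG

end Pool.Agent.DimDropF
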