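import Pool.Agent.Lib_MP_644907_f.MOEB
import Pool.Agent.Lib_MP_644907_f.MAXP

/-!
# FORM: existence of a nonzero holomorphic form of weight 2 (proved from the pieces)
-/

set_option autoImplicit false

open Complex MeasureTheory Metric Filter
open scoped ContDiff Topology

namespace Pool.Agent.DimDropF

namespace FG

variable {Γ : Type} [Group Γ] (G : FG Γ)

theorem exists_form : ∃ b : ℂ → ℂ, DifferentiableOn ℂ b (ball 0 1) ∧
    (∀ γ, ∀ z : ℂ, ‖z‖ < 1 → b (G.m γ z) * G.d γ z = b z) ∧ ∃ z : ℂ, ‖z‖ < 1 ∧ b z ≠ 0 := by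
  by_contra hno
  push Not at hno
  have h0 : G.NoForm := fun b hb hb' => hno b hb hb'
  have hp : ‖(0:ℂ)‖ < 1 := by simp
  obtain ⟨f, hf⟩ := G.exists_pole h0 hp
  exact G.contra hp hf fun q hq hpq => G.deriv_ne h0 hp hf hq hpq

end FG

end Pool.Agent.DimDropF
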