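import Pool.Agent.Lib_MP_644907_f.IGdef

/-!
# Piece GRPA: representations by elements of a ring
-/

set_option autoImplicit false

open Complex MeasureTheory Metric
open scoped ContDiff

namespace Pool.Agent.DimDropF

open Pool.Agent.DimDrop (IsoD)

variable {R : Subalgebra ℤ ℂ}

/-- `IsoD` functions have a representation over `ℂ` -/
theorem isoD_iff (h : ℂ → ℂ) : IsoD h ↔ ∃ α β : ℂ, ‖α‖ ^ 2 - ‖β‖ ^ 2 = 1 ∧ ∃ s : Bool,
    ∀ z : ℂ, ‖z‖ ≤ 1 → h z = mb α β (if s then starRingEnd ℂ z else z) := by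
  constructor
  · rintro ⟨α, β, hn, h1 | h1⟩
    · exact ⟨α, β, hn, false, fun z hz => h1 z hz⟩
    · exact ⟨α, β, hn, true, fun z hz => h1 z hz⟩
  · rintro ⟨α, β, hn, s, h1⟩
    cases s with
    | false => exact ⟨α, β, hn, Or.inl fun z hz => h1 z hz⟩
    | true => exact ⟨α, β, hn, Or.inr fun z hz => h1 z hz⟩

private theorem grpa_mb_comp {α β α' β' : ℂ} (h : ‖α‖ ^ 2 - ‖β‖ ^ 2 = 1) (h' : ‖α'‖ ^ 2 - ‖β'‖ ^ 2 = 1)
    {w : ℂ} (hw : ‖w‖ ≤ 1) :
    mb α β (mb α' β' w) = mb (α * α' + β * starRingEnd ℂ β') (α * β' + β * starRingEnd ℂ α') w :=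
  Pool.Agent.DimDrop.IsoDAux.phi_comp h h' hw

private theorem grpa_conj_mb (α β w : ℂ) : starRingEnd ℂ (mb α β w) =
    mb (starRingEnd ℂ α) (starRingEnd ℂ β) (starRingEnd ℂ w) :=
  Pool.Agent.DimDrop.IsoDAux.conj_phi α β w

private theorem grpa_norm_arg (s : Bool) {z : ℂ} (hz : ‖z‖ ≤ 1) :
    ‖(if s then starRingEnd ℂ z else z)‖ ≤ 1 := by
  cases s with
  | false => simpa using hz
  | true => simpa using hz

private theorem grpa_norm_rep {h : ℂ → ℂ} {γ δ γ' δ' : R} {s : Bool} (hh : Rep R h γ δ γ' δ' s) {z : ℂ}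
    (hz : ‖z‖ ≤ 1) : ‖h z‖ ≤ 1 := by
  rw [hh.eq z hz]
  exact norm_mb_le hh.nrm (grpa_norm_arg s hz)

/-- composition, first factor conformal: matrix product. (`mb_le` for the norms; `Pool.Agent.DimDrop.IsoDAux.phi_comp` is this computation) -/
theorem Rep.comp_false {g h : ℂ → ℂ} {α β α' β' γ δ γ' δ' : R} {s : Bool} (hg : Rep R g α β α' β' false) (hh : Rep R h γ δ γ' δ' s) :
    Rep R (fun z => g (h z)) (α * γ + β * δ') (α * δ + β * γ') (α' * γ' + β' * δ) (α' * δ' + β' * γ) s := by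
  have hga := hg.ca
  have hgb := hg.cb
  have hha := hh.ca
  have hhb := hh.cb
  refine ⟨?_, ?_, ?_, ?_⟩
  · push_cast
    rw [map_add, map_mul, map_mul, hga, hgb, hha, hhb, Complex.conj_conj]
  · push_cast
    rw [map_add, map_mul, map_mul, hga, hgb, hha, hhb, Complex.conj_conj]
  · push_cast
    rw [hha, hhb]
    exact Pool.Agent.DimDrop.IsoDAux.norm_comp hg.nrm hh.nrm
  · intro z hz
    have h1 : g (h z) = mb α β (h z) := hg.eq (h z) (grpa_norm_rep hh hz)
    show g (h z) = _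
    rw [h1, hh.eq z hz, grpa_mb_comp hg.nrm hh.nrm (grpa_norm_arg s hz)]
    push_cast
    rw [hha, hhb]

/-- composition, first factor anticonformal: `g (h z) = mb α β (conj (h z))`, `conj (mb γ δ w) = mb γ' δ' (conj w)` -/
theorem Rep.comp_true {g h : ℂ → ℂ} {α β α' β' γ δ γ' δ' : R} {s : Bool} (hg : Rep R g α β α' β' true) (hh : Rep R h γ δ γ' δ' s) :
    Rep R (fun z => g (h z)) (α * γ' + β * δ) (α * δ' + β * γ) (α' * γ + β' * δ') (α' * δ + β' * γ') (!s) := by
  have hga := hg.ca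
  have hgb := hg.cb
  have hha := hh.ca
  have hhb := hh.cb
  have hnc : ‖starRingEnd ℂ (γ : ℂ)‖ ^ 2 - ‖starRingEnd ℂ (δ : ℂ)‖ ^ 2 = 1 := by
    rw [Complex.norm_conj, Complex.norm_conj]
    exact hh.nrm
  refine ⟨?_, ?_, ?_, ?_⟩
  · push_cast
    rw [map_add, map_mul, map_mul, hga, hgb, hha, hhb, Complex.conj_conj]
  · push_cast
    rw [map_add, map_mul, map_mul, hga, hgb, hha, hhb, Complex.conj_conj]
  · push_cast
    rw [hha, hhb]
    have := Pool.Agent.DimDrop.IsoDAux.norm_comp hg.nrm hnc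
    rw [Complex.conj_conj, Complex.conj_conj] at this
    exact this
  · intro z hz
    have h1 : g (h z) = mb α β (starRingEnd ℂ (h z)) := hg.eq (h z) (grpa_norm_rep hh hz)
    have h2 : starRingEnd ℂ (if s then starRingEnd ℂ z else z) = (if !s then starRingEnd ℂ z else z) := by
      cases s with
      | false => rfl
      | true => exact Complex.conj_conj z
    show g (h z) = _
    rw [h1, hh.eq z hz, grpa_conj_mb, h2, grpa_mb_comp hg.nrm hnc (grpa_norm_arg (!s) hz)]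
    rw [Complex.conj_conj, Complex.conj_conj]
    push_cast
    rw [hha, hhb]

private theorem grpa_inv {a b w z : ℂ} (h : ‖a‖ ^ 2 - ‖b‖ ^ 2 = 1) (hw : ‖w‖ ≤ 1) (hz : ‖z‖ ≤ 1) (he : mb a b w = z) :
    w = mb (starRingEnd ℂ a) (-b) z := by
  have hd := den_ne h hw
  have h' : ‖starRingEnd ℂ a‖ ^ 2 - ‖-b‖ ^ 2 = 1 := by
    rw [Complex.norm_conj, norm_neg]
    exact h
  have hd' := den_ne h' hz
  have hc : z * (starRingEnd ℂ b * w + starRingEnd ℂ a) = a * w + b := by
    rw [← he]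
    exact div_mul_cancel₀ _ hd
  unfold mb
  rw [eq_div_iff hd']
  rw [map_neg, Complex.conj_conj]
  linear_combination (-1 : ℂ) * hc

/-- left inverse of a conformal map -/
theorem Rep.inv_false {g h : ℂ → ℂ} {α β α' β' : R} (hg : Rep R g α β α' β' false) (hh : ∀ z : ℂ, ‖z‖ ≤ 1 → g (h z) = z)
    (hn : ∀ z : ℂ, ‖z‖ ≤ 1 → ‖h z‖ ≤ 1) : Rep R h α' (-β) α (-β') false := by
  have hga := hg.ca
  have hgb := hg.cb
  refine ⟨?_, ?_, ?_, ?_⟩
  · rw [hga, Complex.conj_conj]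
  · push_cast
    rw [map_neg, hgb]
  · push_cast
    rw [hga, Complex.norm_conj, norm_neg]
    exact hg.nrm
  · intro z hz
    have h1 : mb α β (h z) = z := by
      rw [← hh z hz]
      have := hg.eq (h z) (hn z hz)
      rw [hh z hz]
      rw [hh z hz] at this
      exact this.symm
    push_cast
    rw [hga]
    exact grpa_inv hg.nrm (hn z hz) hz h1

/-- left inverse of an anticonformal map: `w = mb α β (conj z)` gives `z = conj (mb α' (-β) w) = mb α (-β') (conj w)` -/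
theorem Rep.inv_true {g h : ℂ → ℂ} {α β α' β' : R} (hg : Rep R g α β α' β' true) (hh : ∀ z : ℂ, ‖z‖ ≤ 1 → g (h z) = z)
    (hn : ∀ z : ℂ, ‖z‖ ≤ 1 → ‖h z‖ ≤ 1) : Rep R h α (-β') α' (-β) true := by
  have hga := hg.ca
  have hgb := hg.cb
  refine ⟨?_, ?_, ?_, ?_⟩
  · exact hga
  · push_cast
    rw [map_neg, hgb, Complex.conj_conj]
  · push_cast
    rw [hgb, norm_neg, Complex.norm_conj]
    exact hg.nrm
  · intro z hz
    have h1 : mb α β (starRingEnd ℂ (h z)) = z := by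
      have := hg.eq (h z) (hn z hz)
      rw [hh z hz] at this
      exact this.symm
    have h2 := grpa_inv hg.nrm (by rw [Complex.norm_conj]; exact hn z hz) hz h1
    have h3 : h z = starRingEnd ℂ (starRingEnd ℂ (h z)) := (Complex.conj_conj _).symm
    rw [h3, h2, grpa_conj_mb, Complex.conj_conj]
    push_cast
    rw [hgb, map_neg]
    rfl

private theorem grpa_det {a b : ℂ} (h : ‖a‖ ^ 2 - ‖b‖ ^ 2 = 1) :
    a * starRingEnd ℂ a - b * starRingEnd ℂ b = 1 := by
  rw [Complex.mul_conj, Complex.mul_conj, Complex.normSq_eq_norm_sq, Complex.normSq_eq_norm_sq]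
  exact_mod_cast h

private theorem grpa_cross {a b c d w v : ℂ} (h : ‖a‖ ^ 2 - ‖b‖ ^ 2 = 1) (h' : ‖c‖ ^ 2 - ‖d‖ ^ 2 = 1)
    (hw : ‖w‖ ≤ 1) (hv : ‖v‖ ≤ 1) (he : mb a b w = mb c d v) :
    (a * w + b) * (starRingEnd ℂ d * v + starRingEnd ℂ c) = (c * v + d) * (starRingEnd ℂ b * w + starRingEnd ℂ a) := by
  have hd := den_ne h hw
  have hd' := den_ne h' hv
  unfold mb at he
  rw [div_eq_div_iff hd hd'] at he
  exact he

private theorem grpa_uniq {a b c d : ℂ} (h : ‖a‖ ^ 2 - ‖b‖ ^ 2 = 1) (h' : ‖c‖ ^ 2 - ‖d‖ ^ 2 = 1)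
    (he : ∀ w : ℂ, ‖w‖ ≤ 1 → mb a b w = mb c d w) : (c = a ∧ d = b) ∨ (c = -a ∧ d = -b) := by
  have e0 := grpa_cross h h' (by simp) (by simp) (he 0 (by simp))
  have e1 := grpa_cross h h' (by simp) (by simp) (he 1 (by simp))
  have e2 := grpa_cross h h' (by simp) (by simp) (he (-1) (by simp))
  have n1 := grpa_det h
  have n2 := grpa_det h'
  have ha0 : starRingEnd ℂ a ≠ 0 := by
    intro h0
    rw [h0, mul_zero, zero_sub] at n1
    have h3 := h
    have h4 : ‖a‖ = 0 := by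
      rw [← Complex.norm_conj, h0, norm_zero]
    rw [h4] at h3
    nlinarith [sq_nonneg ‖b‖]
  have k0 : b * starRingEnd ℂ c = d * starRingEnd ℂ a := by linear_combination e0
  have k1 : a * starRingEnd ℂ d = c * starRingEnd ℂ b := by
    linear_combination (1/2 : ℂ) * e1 + (1/2 : ℂ) * e2 - k0
  have k2 : a * starRingEnd ℂ c + b * starRingEnd ℂ d = c * starRingEnd ℂ a + d * starRingEnd ℂ b := by
    linear_combination (1/2 : ℂ) * e1 - (1/2 : ℂ) * e2
  have k3 : (starRingEnd ℂ a - starRingEnd ℂ c) * (starRingEnd ℂ a + starRingEnd ℂ c) = 0 := by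
    linear_combination (-(starRingEnd ℂ a) ^ 2) * n2 + ((starRingEnd ℂ c) ^ 2) * n1 - (starRingEnd ℂ a * starRingEnd ℂ c) * k2 +
      (starRingEnd ℂ a * starRingEnd ℂ d + starRingEnd ℂ c * starRingEnd ℂ b) * k0
  rcases mul_eq_zero.1 k3 with h3 | h3
  · left
    have h4 : starRingEnd ℂ c = starRingEnd ℂ a := by linear_combination -h3
    have h5 : c = a := (starRingEnd ℂ).injective h4
    refine ⟨h5, ?_⟩
    rw [h4] at k0
    exact (mul_right_cancel₀ ha0 k0).symm
  · right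
    have h4 : starRingEnd ℂ c = starRingEnd ℂ (-a) := by rw [map_neg]; linear_combination h3
    have h5 : c = -a := (starRingEnd ℂ).injective h4
    refine ⟨h5, ?_⟩
    rw [h4, map_neg] at k0
    have : -b * starRingEnd ℂ a = d * starRingEnd ℂ a := by linear_combination k0
    exact (mul_right_cancel₀ ha0 this).symm

private theorem grpa_lt {a b : ℂ} (h : ‖a‖ ^ 2 - ‖b‖ ^ 2 = 1) : ‖b‖ < ‖a‖ := by
  apply lt_of_pow_lt_pow_left₀ 2 (norm_nonneg _)
  linarith

private theorem grpa_diff {a b c d : ℂ} (h : ‖a‖ ^ 2 - ‖b‖ ^ 2 = 1) (h' : ‖c‖ ^ 2 - ‖d‖ ^ 2 = 1)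
    (he : ∀ w : ℂ, ‖w‖ ≤ 1 → mb a b w = mb c d (starRingEnd ℂ w)) : False := by
  have e0 := grpa_cross h h' (by simp) (by simp) (he 0 (by simp))
  have e1 := grpa_cross h h' (by simp) (by simp) (he 1 (by simp))
  have e2 := grpa_cross h h' (by simp) (by simp) (he (-1) (by simp))
  have e3 := grpa_cross h h' (by simp) (by simp) (he I (by simp))
  simp only [map_zero, map_one, map_neg, Complex.conj_I] at e0 e1 e2 e3
  have hI : (I : ℂ) * I = -1 := Complex.I_mul_I
  have k0 : b * starRingEnd ℂ c = d * starRingEnd ℂ a := by linear_combination e0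
  have k1 : a * starRingEnd ℂ d = c * starRingEnd ℂ b := by
    linear_combination (1/2 : ℂ) * e1 + (1/2 : ℂ) * e2 - k0
  have k2 : a * starRingEnd ℂ c + b * starRingEnd ℂ d = c * starRingEnd ℂ a + d * starRingEnd ℂ b := by
    linear_combination (1/2 : ℂ) * e1 - (1/2 : ℂ) * e2
  have k3 : I * (a * starRingEnd ℂ c - b * starRingEnd ℂ d + c * starRingEnd ℂ a - d * starRingEnd ℂ b) = 0 := by
    linear_combination e3 - k1 - k0 + (a * starRingEnd ℂ d - c * starRingEnd ℂ b) * hI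
  have k4 : a * starRingEnd ℂ c - b * starRingEnd ℂ d + c * starRingEnd ℂ a - d * starRingEnd ℂ b = 0 := by
    rcases mul_eq_zero.1 k3 with h3 | h3
    · exact absurd h3 Complex.I_ne_zero
    · exact h3
  have k5 : a * starRingEnd ℂ c = d * starRingEnd ℂ b := by
    linear_combination (1/2 : ℂ) * k4 + (1/2 : ℂ) * k2
  have k6 : ‖a‖ * ‖c‖ = ‖d‖ * ‖b‖ := by
    have := congrArg norm k5
    rwa [norm_mul, norm_mul, Complex.norm_conj, Complex.norm_conj] at this
  have h1 := grpa_lt h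
  have h2 := grpa_lt h'
  have h3 := norm_nonneg b
  have h4 := norm_nonneg d
  nlinarith

/-- uniqueness: `mb α β = mb γ δ` on the closed disc forces `(γ, δ) = ± (α, β)`; a conformal `mb` is not anticonformal (compare at `0`, `1`, `-1`, `i`, or compare the composition with the
inverse: `mb a b (conj z) = z` on the disc is impossible) -/
theorem Rep.uniq {h : ℂ → ℂ} {α β α' β' γ δ γ' δ' : R} {s t : Bool} (h1 : Rep R h α β α' β' s) (h2 : Rep R h γ δ γ' δ' t) :
    s = t ∧ ((γ = α ∧ δ = β ∧ γ' = α' ∧ δ' = β') ∨ (γ = -α ∧ δ = -β ∧ γ' = -α' ∧ δ' = -β')) := by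
  have h1a := h1.ca
  have h1b := h1.cb
  have h2a := h2.ca
  have h2b := h2.cb
  have fin : ((γ : ℂ) = α ∧ (δ : ℂ) = β) ∨ ((γ : ℂ) = -α ∧ (δ : ℂ) = -β) →
      ((γ = α ∧ δ = β ∧ γ' = α' ∧ δ' = β') ∨ (γ = -α ∧ δ = -β ∧ γ' = -α' ∧ δ' = -β')) := by
    rintro (⟨h3, h4⟩ | ⟨h3, h4⟩)
    · left
      refine ⟨Subtype.ext h3, Subtype.ext h4, Subtype.ext ?_, Subtype.ext ?_⟩
      · rw [h2a, h1a, h3]
      · rw [h2b, h1b, h4]
    · right
      refine ⟨Subtype.ext ?_, Subtype.ext ?_, Subtype.ext ?_, Subtype.ext ?_⟩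
      · push_cast
        exact h3
      · push_cast
        exact h4
      · push_cast
        rw [h2a, h1a, h3, map_neg]
      · push_cast
        rw [h2b, h1b, h4, map_neg]
  cases s with
  | false =>
    cases t with
    | false =>
      refine ⟨rfl, fin (grpa_uniq h1.nrm h2.nrm fun w hw => ?_)⟩
      exact (h1.eq w hw).symm.trans (h2.eq w hw)
    | true =>
      exact (grpa_diff h1.nrm h2.nrm fun w hw => (h1.eq w hw).symm.trans (h2.eq w hw)).elim
  | true =>
    cases t with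
    | false =>
      exact (grpa_diff h2.nrm h1.nrm fun w hw => (h2.eq w hw).symm.trans (h1.eq w hw)).elim
    | true =>
      refine ⟨rfl, fin (grpa_uniq h1.nrm h2.nrm fun w hw => ?_)⟩
      have hw' : ‖starRingEnd ℂ w‖ ≤ 1 := by rwa [Complex.norm_conj]
      have e1 := h1.eq (starRingEnd ℂ w) hw'
      have e2 := h2.eq (starRingEnd ℂ w) hw'
      simp only [if_true, Complex.conj_conj] at e1 e2
      exact e1.symm.trans e2

end Pool.Agent.DimDropF
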