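import Pool.Agent.Lib_MP_644907_f.GRPA

/-!
# Piece GRPB: congruence subgroups
-/

set_option autoImplicit false

open Complex MeasureTheory Metric
open scoped ContDiff

namespace Pool.Agent.DimDropF

open Pool.Agent.DimDrop (IsoD)

private theorem grpB_congr {R : Subalgebra ℤ ℂ} {g h : ℂ → ℂ} {α β α' β' : R} {s : Bool}
    (hg : Rep R g α β α' β' s) (e : ∀ z : ℂ, ‖z‖ ≤ 1 → h z = g z) : Rep R h α β α' β' s :=
  ⟨hg.ca, hg.cb, hg.nrm, fun z hz => (e z hz).trans (hg.eq z hz)⟩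

private theorem grpB_det {R : Subalgebra ℤ ℂ} {g : ℂ → ℂ} {α β α' β' : R} {s : Bool}
    (hg : Rep R g α β α' β' s) : α * α' - β * β' = 1 := by
  apply Subtype.ext
  push_cast
  rw [hg.ca, hg.cb, Complex.mul_conj, Complex.mul_conj, Complex.normSq_eq_norm_sq,
    Complex.normSq_eq_norm_sq, ← Complex.ofReal_sub, hg.nrm, Complex.ofReal_one]

private theorem grpB_mul {Γ : Type} [Group Γ] (A : IG Γ) {R : Subalgebra ℤ ℂ} {γ δ : Γ}
    {α β α' β' a b a' b' : R} {s t : Bool} (hg : Rep R (A.f γ) α β α' β' s)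
    (hh : Rep R (A.f δ) a b a' b' t) :
    ∃ (x y x' y' : R) (u : Bool), Rep R (A.f (γ * δ)) x y x' y' u := by
  cases s with
  | false => exact ⟨_, _, _, _, _, grpB_congr (hg.comp_false hh) (fun z hz => A.mul' γ δ z hz)⟩
  | true => exact ⟨_, _, _, _, _, grpB_congr (hg.comp_true hh) (fun z hz => A.mul' γ δ z hz)⟩

private theorem grpB_inv {Γ : Type} [Group Γ] (A : IG Γ) (γ : Γ) :
    (∀ z : ℂ, ‖z‖ ≤ 1 → A.f γ (A.f γ⁻¹ z) = z) ∧ ∀ z : ℂ, ‖z‖ ≤ 1 → ‖A.f γ⁻¹ z‖ ≤ 1 := by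
  refine ⟨fun z hz => ?_, fun z hz => (A.iso γ⁻¹).norm_le z hz⟩
  rw [← A.mul' γ γ⁻¹ z hz, mul_inv_cancel, A.one' z hz]

/-- `Λ` = the set of the `γ` with the stated property; subgroup by `Rep.comp_false`, `Rep.inv_false`. Finite index: choose a representation of every `γ` and map `γ` to
`(θ α, θ β, θ α', θ β', s)` in the finite set `k × k × k × k × Bool`; if `γ, δ` have the same image then `γ⁻¹ * δ ∈ Λ`: for `s = false` the entries of `γ⁻¹ δ` are
`(α' a - β b', α' b - β a')`, their images are `θ (α α' - β β') = 1` and `0`; for `s = true` they are `(α a' - β' b, α b' - β' a)` and it is the same. So `γ ↦ image` is injective on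
representatives of the left cosets (`Quotient.out`), `Finite (Γ ⧸ Λ)`. -/
theorem cong {Γ : Type} [Group Γ] (A : IG Γ) (R : Subalgebra ℤ ℂ)
    (hR : ∀ γ, ∃ (α β α' β' : R) (s : Bool), Rep R (A.f γ) α β α' β' s)
    (k : Type) [Field k] [Finite k] (θ : R →+* k) :
    ∃ Λ : Subgroup Γ, Λ.FiniteIndex ∧ ∀ γ ∈ Λ, ∃ α β α' β' : R, Rep R (A.f γ) α β α' β' false ∧
      θ α = 1 ∧ θ α' = 1 ∧ θ β = 0 ∧ θ β' = 0 := by
  classical
  let Λ : Subgroup Γ :=
    { carrier := {γ | ∃ α β α' β' : R, Rep R (A.f γ) α β α' β' false ∧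
        θ α = 1 ∧ θ α' = 1 ∧ θ β = 0 ∧ θ β' = 0}
      one_mem' := by
        refine ⟨1, 0, 1, 0, ⟨?_, ?_, ?_, ?_⟩, map_one θ, map_one θ, map_zero θ, map_zero θ⟩
        · simp
        · simp
        · simp
        · intro z hz
          rw [A.one' z hz]
          simp [mb]
      mul_mem' := by
        rintro γ δ ⟨α, β, α', β', h1, h2, h3, h4, h5⟩ ⟨a, b, a', b', k1, k2, k3, k4, k5⟩
        refine ⟨_, _, _, _, grpB_congr (h1.comp_false k1) (fun z hz => A.mul' γ δ z hz),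
          ?_, ?_, ?_, ?_⟩ <;>
        simp only [map_add, map_mul, h2, h3, h4, h5, k2, k3, k4, k5, mul_one, mul_zero,
          add_zero]
      inv_mem' := by
        rintro γ ⟨α, β, α', β', h1, h2, h3, h4, h5⟩
        refine ⟨_, _, _, _, h1.inv_false (grpB_inv A γ).1 (grpB_inv A γ).2, h3, h2, ?_, ?_⟩ <;>
        simp only [map_neg, h4, h5, neg_zero] }
  choose al be al' be' s hrep using hR
  have key : ∀ γ δ : Γ, θ (al γ) = θ (al δ) → θ (be γ) = θ (be δ) → θ (al' γ) = θ (al' δ) →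
      θ (be' γ) = θ (be' δ) → s γ = s δ → γ⁻¹ * δ ∈ Λ := by
    intro γ δ e1 e2 e3 e4 e5
    have hg := hrep γ
    have hh := hrep δ
    have hd : θ (al δ) * θ (al' δ) - θ (be δ) * θ (be' δ) = 1 := by
      rw [← map_mul, ← map_mul, ← map_sub, grpB_det hh, map_one]
    rw [← e5] at hh
    cases hs : s γ with
    | false =>
      rw [hs] at hg hh
      have hi := hg.inv_false (grpB_inv A γ).1 (grpB_inv A γ).2
      refine ⟨_, _, _, _, grpB_congr (hi.comp_false hh) (fun z hz => A.mul' γ⁻¹ δ z hz),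
        ?_, ?_, ?_, ?_⟩ <;>
      simp only [map_add, map_mul, map_neg, e1, e2, e3, e4]
      · linear_combination hd
      · linear_combination hd
      · ring
      · ring
    | true =>
      rw [hs] at hg hh
      have hi := hg.inv_true (grpB_inv A γ).1 (grpB_inv A γ).2
      refine ⟨_, _, _, _, grpB_congr (hi.comp_true hh) (fun z hz => A.mul' γ⁻¹ δ z hz),
        ?_, ?_, ?_, ?_⟩ <;>
      simp only [map_add, map_mul, map_neg, e1, e2, e3, e4]
      · linear_combination hd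
      · linear_combination hd
      · ring
      · ring
  refine ⟨Λ, ?_, fun γ hγ => hγ⟩
  have hfin : Finite (Γ ⧸ Λ) := by
    refine Finite.of_injective (fun q : Γ ⧸ Λ => (θ (al q.out), θ (be q.out), θ (al' q.out),
      θ (be' q.out), s q.out)) ?_
    intro q1 q2 h
    simp only [Prod.mk.injEq] at h
    obtain ⟨e1, e2, e3, e4, e5⟩ := h
    have := key _ _ e1 e2 e3 e4 e5
    rw [← QuotientGroup.out_eq' q1, ← QuotientGroup.out_eq' q2]
    exact QuotientGroup.eq.2 this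
  exact Subgroup.finiteIndex_of_finite_quotient

/-- `E` = the entries of representations of the generators and their conjugates (`isoD_iff`); all `γ` by `hgen`, `Rep.comp_false`, `Rep.comp_true` -/
theorem ring_gen {Γ : Type} [Group Γ] (A : IG Γ) {n : ℕ} (e : Fin n → Γ)
    (hgen : ∀ T : Set Γ, (∀ i, e i ∈ T) → (∀ x ∈ T, ∀ y ∈ T, x * y ∈ T) → ∀ γ, γ ∈ T) :
    ∃ E : Set ℂ, E.Finite ∧ ∀ γ, ∃ (α β α' β' : Algebra.adjoin ℤ E) (s : Bool), Rep (Algebra.adjoin ℤ E) (A.f γ) α β α' β' s := by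
  classical
  have hiso : ∀ i, ∃ α β : ℂ, ‖α‖ ^ 2 - ‖β‖ ^ 2 = 1 ∧ ∃ s : Bool,
      ∀ z : ℂ, ‖z‖ ≤ 1 → A.f (e i) z = mb α β (if s then starRingEnd ℂ z else z) :=
    fun i => (isoD_iff _).1 (A.iso (e i))
  choose al be hn s hs using hiso
  let E : Set ℂ := ⋃ i, {al i, be i, starRingEnd ℂ (al i), starRingEnd ℂ (be i)}
  have hE : E.Finite := Set.finite_iUnion fun i => by
    simp only [Set.finite_insert, Set.finite_singleton]
  have hsub : ∀ i, ∀ z ∈ ({al i, be i, starRingEnd ℂ (al i), starRingEnd ℂ (be i)} : Set ℂ),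
      z ∈ Algebra.adjoin ℤ E := fun i z hz =>
    Algebra.subset_adjoin (Set.mem_iUnion.2 ⟨i, hz⟩)
  refine ⟨E, hE, hgen {γ | ∃ (α β α' β' : Algebra.adjoin ℤ E) (s : Bool),
    Rep (Algebra.adjoin ℤ E) (A.f γ) α β α' β' s} ?_ ?_⟩
  · intro i
    exact ⟨⟨al i, hsub i _ (by simp)⟩, ⟨be i, hsub i _ (by simp)⟩,
      ⟨starRingEnd ℂ (al i), hsub i _ (by simp)⟩, ⟨starRingEnd ℂ (be i), hsub i _ (by simp)⟩,
      s i, ⟨rfl, rfl, hn i, hs i⟩⟩
  · rintro x ⟨α, β, α', β', t, hx⟩ y ⟨a, b, a', b', u, hy⟩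
    exact grpB_mul A hx hy

end Pool.Agent.DimDropF
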