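import Mathlib

/-!
# Piece MAL: finitely generated domains have many homomorphisms to finite fields
-/

set_option autoImplicit false

namespace Pool.Agent.DimDropF

/-- `ℤ` is a Jacobson ring. -/
theorem jac_int : IsJacobsonRing ℤ := by
  rw [isJacobsonRing_iff_sInf_maximal]
  intro I hI
  by_cases h : I = ⊥
  · refine ⟨{J | J.IsMaximal}, fun J hJ => Or.inl hJ, ?_⟩
    rw [h]
    symm
    rw [eq_bot_iff]
    intro x hx
    by_contra hx0
    have hx0' : x ≠ 0 := fun h => hx0 (by rw [h]; exact Submodule.zero_mem _)
    obtain ⟨p, hp1, hp⟩ := Nat.exists_infinite_primes (x.natAbs + 1)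
    have hmax : (Ideal.span {(p : ℤ)}).IsMaximal :=
      PrincipalIdealRing.isMaximal_of_irreducible (Nat.prime_iff_prime_int.1 hp).irreducible
    have h1 : x ∈ Ideal.span {(p : ℤ)} := (Submodule.mem_sInf.1 hx) _ hmax
    rw [Ideal.mem_span_singleton] at h1
    have h2 := Int.natAbs_dvd_natAbs.2 h1
    have h3 := Nat.le_of_dvd (Int.natAbs_pos.2 hx0') h2
    simp at h3
    omega
  · refine ⟨{I}, fun J hJ => Or.inl ?_, by simp⟩
    rw [Set.mem_singleton_iff.1 hJ]
    exact IsPrime.to_maximal_ideal h

/-- A field which is a finitely generated ring is finite. `ℤ → k` is integral (Jacobson ring: `Ideal.Polynomial` / `MvPolynomial.comp_C_integral_of_surjective_of_isJacobsonRing` in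
`Mathlib/RingTheory/Jacobson/Ring.lean`, applied to a surjection from `MvPolynomial (Fin n) ℤ`), so the characteristic is not 0 (otherwise `ℤ` would be a field:
`isField_of_isIntegral_of_isField`), `k` is integral and finitely generated over `ZMod p`, hence a finite module over a finite ring. -/
theorem finite_field (k : Type) [Field k] [Algebra.FiniteType ℤ k] : Finite k := by
  have := jac_int
  have : Module.Finite ℤ k := finite_of_finite_type_of_isJacobsonRing ℤ k
  by_cases h0 : CharZero k
  · exfalso
    have hint : Algebra.IsIntegral ℤ k := inferInstance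
    have hinj : Function.Injective (algebraMap ℤ k) := by
      intro a b h
      simpa using h
    have : IsField ℤ := isField_of_isIntegral_of_isField hinj (Field.toIsField k)
    exact Int.not_isField this
  · obtain ⟨p, hp⟩ := CharP.exists k
    have hp0 : p ≠ 0 := by
      rintro rfl
      exact h0 (CharP.charP_to_charZero k)
    apply Module.finite_of_fg_torsion
    intro x
    refine ⟨⟨(p : ℤ), ?_⟩, ?_⟩
    · rw [mem_nonZeroDivisors_iff_ne_zero]
      exact_mod_cast hp0
    · rw [Submonoid.mk_smul]
      simp

theorem fin_type_congr {A : Type} [CommRing A] (i1 i2 : Algebra ℤ A)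
    (h : @Algebra.FiniteType ℤ A _ _ i1) : @Algebra.FiniteType ℤ A _ _ i2 := by
  rwa [Subsingleton.elim i2 i1]

theorem fin_type_trans (A L : Type) [CommRing A] [CommRing L] [Algebra A L]
    (h1 : Algebra.FiniteType ℤ A) (h2 : Algebra.FiniteType A L) : Algebra.FiniteType ℤ L :=
  Algebra.FiniteType.trans h1 h2

theorem exists_hom_aux (L : Type) [CommRing L] [Nontrivial L] (h : Algebra.FiniteType ℤ L) :
    ∃ (k : Type) (_ : Field k) (_ : Finite k) (φ : L →+* k), Function.Surjective φ := by
  obtain ⟨m, hm⟩ := Ideal.exists_maximal L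
  let iF : Field (L ⧸ m) := Ideal.Quotient.field m
  have key : ∀ (k : Type) (iF : Field k) (ψ : L →+* k), Function.Surjective ψ → Finite k := by
    intro k iF ψ hψ
    have : Algebra.FiniteType ℤ k :=
      Algebra.FiniteType.of_surjective ψ.toIntAlgHom hψ
    exact finite_field k
  exact ⟨L ⧸ m, iF, key (L ⧸ m) iF (Ideal.Quotient.mk m) Ideal.Quotient.mk_surjective,
    Ideal.Quotient.mk m, Ideal.Quotient.mk_surjective⟩

/-- `A = adjoin ℤ E`; take a maximal ideal of the localization `A[1/x]` (`Localization.Away x`, finitely generated over `ℤ`, nontrivial as `x` is not nilpotent), quotient field `k` is finite by `finite_field`;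
the image of `x` is a unit. -/
theorem exists_hom (E : Set ℂ) (hE : E.Finite) (x : Algebra.adjoin ℤ E) (hx : x ≠ 0) :
    ∃ (k : Type) (_ : Field k) (_ : Finite k) (θ : Algebra.adjoin ℤ E →+* k), θ x ≠ 0 := by
  have hft : Algebra.FiniteType ℤ (Algebra.adjoin ℤ E) :=
    (Subalgebra.fg_iff_finiteType _).1 (Subalgebra.fg_def.2 ⟨E, hE, rfl⟩)
  set L := Localization.Away x with hL
  have hle : Submonoid.powers x ≤ nonZeroDivisors (Algebra.adjoin ℤ E) :=
    powers_le_nonZeroDivisors_of_noZeroDivisors hx
  have hnt : Nontrivial L := (IsLocalization.injective L hle).nontrivial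
  have h1 : Algebra.FiniteType (Algebra.adjoin ℤ E) L :=
    IsLocalization.finiteType_of_monoid_fg (Submonoid.powers x) L
  obtain ⟨k, iF, hfin, φ, -⟩ := exists_hom_aux L
    (fin_type_trans _ L (fin_type_congr _ _ hft) h1)
  refine ⟨k, iF, hfin, φ.comp (algebraMap _ L), ?_⟩
  have : IsUnit ((φ.comp (algebraMap (Algebra.adjoin ℤ E) L)) x) :=
    (IsLocalization.Away.algebraMap_isUnit (S := L) x).map φ
  exact this.ne_zero
end Pool.Agent.DimDropF
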