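import Pool.Agent.Lib_MP_644907_f.GRPB
import Pool.Agent.Lib_MP_644907_f.MAL

/-!
# Piece GRPC: a torsion free normal subgroup of finite index
-/

set_option autoImplicit false

open Complex MeasureTheory Metric
open scoped ContDiff

namespace Pool.Agent.DimDropF

open Pool.Agent.DimDrop (IsoD)

private theorem grpC_one (z : ℂ) : mb 1 0 z = z := by
  simp [mb]

private theorem grpC_neg_one (z : ℂ) : mb (-1) 0 z = z := by
  simp [mb]

/-- Let `r' < 1` with `r'^2 = 1 - (1 - r^2) (1 - r)^2` (`mb_zero_of`) and `T` the finite set of the `γ ≠ 1` with `‖f γ 0‖ ≤ r'` (`fin'`). Let `E` be as in `ring_gen`, `R = adjoin ℤ E`. For `γ ∈ T` choose a representation and put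
`x γ = 1` if it is anticonformal, `x γ = β` if `β ≠ 0`, else `x γ = α ^ 2 - 1`, which is not 0 because of `faith` (if `β = 0` and `α = ± 1` then `f γ = id` on the disc). `x = ∏ γ ∈ T, x γ ≠ 0`.
`exists_hom` gives `θ` with `θ x ≠ 0`, `cong` gives `Λ₀`; `T ∩ Λ₀ = ∅` by `Rep.uniq`. Let `Λ` be the normal core of `Λ₀` (finite index: `Subgroup.finiteIndex_normalCore`). If `δ ∈ Λ` fixes `z` in the disc, let `‖f γ z‖ ≤ r`;
`δ' = γ δ γ⁻¹ ∈ Λ` fixes `f γ z`, so `‖f δ' 0‖ ≤ r'` (`mb_zero_of`, `δ'` is conformal) so `δ' = 1` (else `δ' ∈ T`), `δ = 1`. -/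
theorem torsion_free {Γ : Type} [Group Γ] (A : IG Γ) {n : ℕ} (e : Fin n → Γ)
    (hgen : ∀ T : Set Γ, (∀ i, e i ∈ T) → (∀ x ∈ T, ∀ y ∈ T, x * y ∈ T) → ∀ γ, γ ∈ T) :
    ∃ Λ : Subgroup Γ, Λ.FiniteIndex ∧ (∀ γ ∈ Λ, ∃ α β : ℂ, ‖α‖ ^ 2 - ‖β‖ ^ 2 = 1 ∧ ∀ z : ℂ, ‖z‖ ≤ 1 → A.f γ z = mb α β z) ∧
      ∀ γ ∈ Λ, ∀ z : ℂ, ‖z‖ < 1 → A.f γ z = z → γ = 1 := by
  classical
  obtain ⟨E, hE, hrep⟩ := ring_gen A e hgen
  choose al be al' be' s hr using hrep
  let r2 : ℝ := Real.sqrt (1 - (1 - A.r ^ 2) * (1 - A.r) ^ 2)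
  have hr2 : r2 < 1 := by
    have e1 : (0:ℝ) < 1 - A.r ^ 2 := by nlinarith [A.r0, A.r1]
    have e2 : (0:ℝ) < (1 - A.r) ^ 2 := by
      have : (0:ℝ) < 1 - A.r := by linarith [A.r1]
      positivity
    have e3 : 0 < (1 - A.r ^ 2) * (1 - A.r) ^ 2 := mul_pos e1 e2
    show Real.sqrt (1 - (1 - A.r ^ 2) * (1 - A.r) ^ 2) < 1
    rw [Real.sqrt_lt' one_pos]
    linarith
  have hTf : {γ | γ ≠ 1 ∧ ‖A.f γ 0‖ ≤ r2}.Finite :=
    (A.fin' r2 hr2).subset fun γ hγ => hγ.2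
  let T : Finset Γ := hTf.toFinset
  let x : Γ → Algebra.adjoin ℤ E := fun γ =>
    if s γ = true then 1 else if be γ ≠ 0 then be γ else al γ ^ 2 - 1
  have hx : ∀ γ, γ ≠ 1 → x γ ≠ 0 := by
    intro γ hγ h0
    apply hγ
    by_cases hs : s γ = true
    · simp only [x, hs, if_true] at h0
      exact absurd h0 one_ne_zero
    · by_cases hb : be γ = 0
      · simp only [x, hs, hb] at h0
        have h1 : al γ ^ 2 - 1 = 0 := by simpa using h0
        have h2 : (al γ - 1) * (al γ + 1) = 0 := by linear_combination h1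
        have hs' : s γ = false := by simpa using hs
        have h3 := hr γ
        apply A.faith
        intro z hz
        rw [h3.eq z hz, hs', hb]
        rcases mul_eq_zero.1 h2 with h4 | h4
        · rw [sub_eq_zero.1 h4]
          simpa using grpC_one z
        · rw [eq_neg_of_add_eq_zero_left h4]
          simpa using grpC_neg_one z
      · simp only [x, hs, ne_eq, hb, not_false_eq_true, if_true] at h0
        exact absurd (by simpa using h0) hb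
  have hprod : ∏ γ ∈ T, x γ ≠ 0 :=
    Finset.prod_ne_zero_iff.2 fun γ hγ => hx γ (by
      have := (Set.Finite.mem_toFinset hTf).1 hγ
      exact this.1)
  obtain ⟨k, iF, iFin, θ, hθ⟩ := exists_hom E hE _ hprod
  obtain ⟨Λ₀, hfi, hΛ₀⟩ := cong A (Algebra.adjoin ℤ E)
    (fun γ => ⟨al γ, be γ, al' γ, be' γ, s γ, hr γ⟩) k θ
  have hTΛ : ∀ γ ∈ Λ₀, γ ≠ 1 → ¬ ‖A.f γ 0‖ ≤ r2 := by
    intro γ hγ hγ1 hle
    have hγT : γ ∈ T := (Set.Finite.mem_toFinset hTf).2 ⟨hγ1, hle⟩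
    have hθγ : θ (x γ) ≠ 0 := by
      rw [map_prod] at hθ
      exact Finset.prod_ne_zero_iff.1 hθ γ hγT
    obtain ⟨α, β, α', β', hR, h1, h2, h3, h4⟩ := hΛ₀ γ hγ
    obtain ⟨hs, hcase⟩ := hR.uniq (hr γ)
    have hs' : ¬ s γ = true := by rw [← hs]; simp
    apply hθγ
    have hb : θ (be γ) = 0 := by
      rcases hcase with h | h
      · rw [h.2.1, h3]
      · rw [h.2.1, map_neg, h3, neg_zero]
    have ha : θ (al γ) ^ 2 = 1 := by
      rcases hcase with h | h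
      · rw [h.1, h1, one_pow]
      · rw [h.1, map_neg, h1]; ring
    by_cases hb0 : be γ = 0
    · have : x γ = al γ ^ 2 - 1 := by
        simp only [x, hs', hb0]; simp
      rw [this, map_sub, map_pow, ha, map_one, sub_self]
    · have : x γ = be γ := by
        simp only [x, hs', hb0, ne_eq, not_false_eq_true, if_true]; simp
      rw [this, hb]
  refine ⟨Λ₀.normalCore, ?_, ?_, ?_⟩
  · exact inferInstance
  · intro γ hγ
    obtain ⟨α, β, α', β', hR, -⟩ := hΛ₀ γ (Subgroup.normalCore_le Λ₀ hγ)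
    refine ⟨α, β, hR.nrm, fun z hz => ?_⟩
    have := hR.eq z hz
    simpa using this
  · intro δ hδ z hz hfix
    obtain ⟨γ, hγ⟩ := A.coc' z hz
    have hδ' : γ * δ * γ⁻¹ ∈ Λ₀.normalCore :=
      (inferInstance : Λ₀.normalCore.Normal).conj_mem δ hδ γ
    have hδ0 := Subgroup.normalCore_le Λ₀ hδ'
    obtain ⟨α, β, α', β', hR, -⟩ := hΛ₀ _ hδ0
    have hfz : ‖A.f γ z‖ ≤ 1 := (A.iso γ).norm_le z hz.le
    have hfix' : A.f (γ * δ * γ⁻¹) (A.f γ z) = A.f γ z := by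
      rw [← A.mul' _ γ z hz.le, inv_mul_cancel_right, A.mul' γ δ z hz.le, hfix]
    have hmb : ∀ w : ℂ, ‖w‖ ≤ 1 → A.f (γ * δ * γ⁻¹) w = mb α β w := by
      intro w hw
      simpa using hR.eq w hw
    have h5 : ‖mb α β (A.f γ z)‖ ≤ A.r := by
      rw [← hmb _ hfz, hfix']
      exact hγ
    have h6 := mb_zero_of hR.nrm A.r1 A.r1 hγ h5
    have h7 : ‖A.f (γ * δ * γ⁻¹) 0‖ ≤ r2 := by
      rw [hmb 0 (by simp)]
      exact Real.le_sqrt_of_sq_le h6
    by_contra hne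
    have hne' : γ * δ * γ⁻¹ ≠ 1 := by
      intro h
      exact hne (conj_eq_one_iff.1 h)
    exact hTΛ _ hδ0 hne' h7

end Pool.Agent.DimDropF
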