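import Pool.Agent.Lib_MP_644907_f.CALC

/-!
# Piece POIN: the Poincare inequality on a Euclidean ball
-/

set_option autoImplicit false

open Complex MeasureTheory Metric
open scoped ContDiff ENNReal

namespace Pool.Agent.DimDropF

/-- Cauchy-Schwarz on a finite measure space -/
private theorem poin_cs {α : Type*} [MeasurableSpace α] (μ : Measure α) [IsFiniteMeasure μ]
    (h : α → ℝ) (hi : Integrable h μ) (hi2 : Integrable (fun x => h x ^ 2) μ) :
    (∫ x, h x ∂μ) ^ 2 ≤ (μ Set.univ).toReal * ∫ x, h x ^ 2 ∂μ := by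
  set M := (μ Set.univ).toReal with hM
  set I := ∫ x, h x ∂μ with hI
  set J := ∫ x, h x ^ 2 ∂μ with hJ
  have h1 : 0 ≤ ∫ x, (M * h x - I) ^ 2 ∂μ := integral_nonneg fun x => sq_nonneg _
  have h2 : ∫ x, (M * h x - I) ^ 2 ∂μ = M ^ 2 * J - 2 * M * I * I + I ^ 2 * M := by
    have h3 : ∀ x, (M * h x - I) ^ 2 = M ^ 2 * h x ^ 2 - 2 * M * I * h x + I ^ 2 := by
      intro x; ring
    have hA : Integrable (fun x => M ^ 2 * h x ^ 2) μ := hi2.const_mul _
    have hB : Integrable (fun x => 2 * M * I * h x) μ := hi.const_mul _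
    have hAB : Integrable (fun x => M ^ 2 * h x ^ 2 - 2 * M * I * h x) μ := hA.sub hB
    have hCc : Integrable (fun _ : α => I ^ 2) μ := integrable_const _
    have e1 : ∫ x, (M ^ 2 * h x ^ 2 - 2 * M * I * h x + I ^ 2) ∂μ =
        ∫ x, (M ^ 2 * h x ^ 2 - 2 * M * I * h x) ∂μ + ∫ _x, I ^ 2 ∂μ := integral_add hAB hCc
    have e2 : ∫ x, (M ^ 2 * h x ^ 2 - 2 * M * I * h x) ∂μ =
        ∫ x, M ^ 2 * h x ^ 2 ∂μ - ∫ x, 2 * M * I * h x ∂μ := integral_sub hA hB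
    simp_rw [h3]
    rw [e1, e2, integral_const_mul, integral_const_mul,
      integral_const, smul_eq_mul, Measure.real, ← hM, ← hI, ← hJ]
    ring
  rcases eq_or_lt_of_le (ENNReal.toReal_nonneg : 0 ≤ (μ Set.univ).toReal) with h0 | h0
  · have h4 : μ Set.univ = 0 := by
      rcases (ENNReal.toReal_eq_zero_iff _).mp h0.symm with h | h
      · exact h
      · exact absurd h (measure_ne_top μ _)
    have h5 : I = 0 := by
      rw [hI, Measure.measure_univ_eq_zero.mp h4, integral_zero_measure]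
    have h6 : M = 0 := h0.symm
    rw [h5, h6]; simp
  · have h7 : 0 ≤ M * (M * J - I ^ 2) := by
      rw [h2] at h1
      nlinarith
    have h8 : 0 ≤ M * J - I ^ 2 := by
      by_contra hcon
      push Not at hcon
      have : M * (M * J - I ^ 2) < 0 := mul_neg_of_pos_of_neg h0 hcon
      linarith
    linarith

/-- the density -/
private noncomputable def poinG (R : ℝ) (w : ℂ → ℂ) (u : ℂ) : ℝ≥0∞ :=
  (ball (0 : ℂ) R).indicator (fun u => ENNReal.ofReal (‖fderiv ℝ w u‖ ^ 2)) u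

private theorem poinG_meas (R : ℝ) (w : ℂ → ℂ) : Measurable (poinG R w) := by
  unfold poinG
  refine Measurable.indicator ?_ measurableSet_ball
  exact ENNReal.measurable_ofReal.comp ((measurable_fderiv ℝ w).norm.pow_const 2)

private theorem poin_contf {w : ℂ → ℂ} (hw : ContDiffOn ℝ 1 w (ball 0 1)) :
    ContinuousOn (fderiv ℝ w) (ball (0 : ℂ) 1) :=
  hw.continuousOn_fderiv_of_isOpen isOpen_ball le_rfl

private theorem poin_seg {R : ℝ} {x y : ℂ} (hx : x ∈ ball (0 : ℂ) R) (hy : y ∈ ball (0 : ℂ) R)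
    {t : ℝ} (h0 : 0 ≤ t) (h1 : t ≤ 1) : x + t • (y - x) ∈ ball (0 : ℂ) R :=
  (convex_ball (0 : ℂ) R).add_smul_sub_mem hx hy ⟨h0, h1⟩

/-- pointwise bound -/
private theorem poin_point {R : ℝ} (hR : R < 1) {w : ℂ → ℂ} (hw : ContDiffOn ℝ 1 w (ball 0 1))
    {x y : ℂ} (hx : x ∈ ball (0 : ℂ) R) (hy : y ∈ ball (0 : ℂ) R) :
    ENNReal.ofReal (‖w x - w y‖ ^ 2) ≤
      ENNReal.ofReal (4 * R ^ 2) * ∫⁻ t in Set.Ioc (0 : ℝ) 1, poinG R w (x + t • (y - x)) := by
  have hsub : ball (0 : ℂ) R ⊆ ball (0 : ℂ) 1 := ball_subset_ball hR.le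
  have hcf := poin_contf hw
  have hγ : Continuous fun t : ℝ => x + t • (y - x) := by fun_prop
  have hseg : ∀ t ∈ Set.Icc (0 : ℝ) 1, x + t • (y - x) ∈ ball (0 : ℂ) R := fun t ht =>
    poin_seg hx hy ht.1 ht.2
  have hcont : ContinuousOn (fun t : ℝ => fderiv ℝ w (x + t • (y - x))) (Set.Icc 0 1) :=
    hcf.comp hγ.continuousOn fun t ht => hsub (hseg t ht)
  have hcH : ContinuousOn (fun t : ℝ => ‖fderiv ℝ w (x + t • (y - x))‖) (Set.Icc 0 1) := hcont.norm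
  have hderiv : ∀ t ∈ Set.uIcc (0 : ℝ) 1, HasDerivAt (fun t : ℝ => w (x + t • (y - x)))
      (fderiv ℝ w (x + t • (y - x)) (y - x)) t := by
    intro t ht
    rw [Set.uIcc_of_le zero_le_one] at ht
    have h1 : DifferentiableAt ℝ w (x + t • (y - x)) :=
      (hw.differentiableOn one_ne_zero).differentiableAt (isOpen_ball.mem_nhds (hsub (hseg t ht)))
    have h2 : HasDerivAt (fun t : ℝ => x + t • (y - x)) (y - x) t := by
      simpa using ((hasDerivAt_id t).smul_const (y - x)).const_add x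
    exact h1.hasFDerivAt.comp_hasDerivAt t h2
  have hcd : ContinuousOn (fun t : ℝ => fderiv ℝ w (x + t • (y - x)) (y - x)) (Set.Icc 0 1) :=
    hcont.clm_apply continuousOn_const
  have hint : IntervalIntegrable (fun t : ℝ => fderiv ℝ w (x + t • (y - x)) (y - x)) volume 0 1 := by
    apply ContinuousOn.intervalIntegrable
    rwa [Set.uIcc_of_le zero_le_one]
  have hftc := intervalIntegral.integral_eq_sub_of_hasDerivAt hderiv hint
  simp only [one_smul, zero_smul, add_zero] at hftc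
  rw [add_sub_cancel] at hftc
  have hH1 : IntegrableOn (fun t : ℝ => ‖fderiv ℝ w (x + t • (y - x))‖) (Set.Ioc 0 1) :=
    (hcH.integrableOn_compact isCompact_Icc).mono_set Set.Ioc_subset_Icc_self
  have hH2 : IntegrableOn (fun t : ℝ => ‖fderiv ℝ w (x + t • (y - x))‖ ^ 2) (Set.Ioc 0 1) :=
    ((hcH.pow 2).integrableOn_compact isCompact_Icc).mono_set Set.Ioc_subset_Icc_self
  have hxy : ‖y - x‖ ≤ 2 * R := by
    have h1 := norm_sub_le y x
    rw [mem_ball_zero_iff] at hx hy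
    linarith
  have hR0 : 0 ≤ R := by
    rw [mem_ball_zero_iff] at hx
    exact (norm_nonneg x).trans hx.le
  have hle : ‖w x - w y‖ ≤ 2 * R * ∫ t in Set.Ioc (0 : ℝ) 1, ‖fderiv ℝ w (x + t • (y - x))‖ := by
    rw [norm_sub_rev, ← hftc, intervalIntegral.integral_of_le zero_le_one]
    calc ‖∫ t in Set.Ioc (0 : ℝ) 1, fderiv ℝ w (x + t • (y - x)) (y - x)‖
        ≤ ∫ t in Set.Ioc (0 : ℝ) 1, ‖fderiv ℝ w (x + t • (y - x))‖ * (2 * R) := by
          refine norm_integral_le_of_norm_le (hH1.mul_const _) (Filter.Eventually.of_forall fun t => ?_)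
          exact ((fderiv ℝ w (x + t • (y - x))).le_opNorm _).trans
            (mul_le_mul_of_nonneg_left hxy (norm_nonneg _))
      _ = _ := by rw [integral_mul_const, mul_comm]
  have hcs := poin_cs (volume.restrict (Set.Ioc (0 : ℝ) 1)) _ hH1 hH2
  rw [Measure.restrict_apply_univ, Real.volume_Ioc, sub_zero, ENNReal.ofReal_one,
    ENNReal.toReal_one, one_mul] at hcs
  have hsq : ‖w x - w y‖ ^ 2 ≤ 4 * R ^ 2 * ∫ t in Set.Ioc (0 : ℝ) 1, ‖fderiv ℝ w (x + t • (y - x))‖ ^ 2 := by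
    have h1 := pow_le_pow_left₀ (norm_nonneg _) hle 2
    refine h1.trans ?_
    rw [mul_pow, mul_pow]
    have h2 : (2 : ℝ) ^ 2 * R ^ 2 = 4 * R ^ 2 := by norm_num
    rw [h2]
    exact mul_le_mul_of_nonneg_left hcs (by positivity)
  refine (ENNReal.ofReal_le_ofReal hsq).trans ?_
  rw [ENNReal.ofReal_mul (by positivity)]
  refine mul_le_mul_right ?_ _
  rw [ofReal_integral_eq_lintegral_ofReal hH2 (Filter.Eventually.of_forall fun t => sq_nonneg _)]
  refine le_of_eq (setLIntegral_congr_fun measurableSet_Ioc fun t ht => ?_)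
  have h3 : x + t • (y - x) ∈ ball (0 : ℂ) R := hseg t ⟨ht.1.le, ht.2⟩
  simp only [poinG, Set.indicator_of_mem h3]

/-- change of variables -/
private theorem poin_cov (F : ℂ → ℝ≥0∞) (hF : Measurable F) (c : ℂ) {s : ℝ} (hs : 1 / 2 ≤ s) :
    ∫⁻ y, F (c + s • y) ≤ 4 * ∫⁻ y, F y := by
  have hs0 : s ≠ 0 := by intro h; rw [h] at hs; norm_num at hs
  have h1 : ∫⁻ y, F (c + s • y) = ∫⁻ z, F (c + z) ∂(Measure.map (fun y : ℂ => s • y) volume) := by
    rw [lintegral_map (f := fun z => F (c + z)) (hF.comp (measurable_const_add c))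
      (measurable_const_smul s)]
  rw [h1, Measure.map_addHaar_smul volume hs0, lintegral_smul_measure, Complex.finrank_real_complex,
    lintegral_add_left_eq_self F c, smul_eq_mul]
  refine mul_le_mul_left ?_ _
  have h2 : |(s ^ 2)⁻¹| ≤ 4 := by
    rw [abs_of_nonneg (by positivity), inv_le_comm₀ (by positivity) (by norm_num)]
    nlinarith
  calc ENNReal.ofReal |(s ^ 2)⁻¹| ≤ ENNReal.ofReal 4 := ENNReal.ofReal_le_ofReal h2
    _ = 4 := by simp

private theorem poin_fixed (F : ℂ → ℝ≥0∞) (hF : Measurable F) (B : Set ℂ) (t : ℝ) :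
    ∫⁻ x in B, ∫⁻ y in B, F (x + t • (y - x)) ≤ 4 * (∫⁻ y, F y) * volume B := by
  rcases le_total (1 / 2) t with ht | ht
  · calc ∫⁻ x in B, ∫⁻ y in B, F (x + t • (y - x)) ≤ ∫⁻ x in B, 4 * ∫⁻ y, F y := by
          refine lintegral_mono fun x => ?_
          calc ∫⁻ y in B, F (x + t • (y - x)) ≤ ∫⁻ y, F (x + t • (y - x)) := setLIntegral_le_lintegral _ _
            _ = ∫⁻ y, F ((x - t • x) + t • y) := by
                congr 1; funext y; congr 1; rw [smul_sub]; ring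
            _ ≤ 4 * ∫⁻ y, F y := poin_cov F hF _ ht
      _ = 4 * (∫⁻ y, F y) * volume B := by rw [setLIntegral_const]
  · have hm : Measurable fun p : ℂ × ℂ => F (p.1 + t • (p.2 - p.1)) := by
      refine hF.comp ?_
      exact (by fun_prop : Continuous fun p : ℂ × ℂ => p.1 + t • (p.2 - p.1)).measurable
    rw [lintegral_lintegral_swap hm.aemeasurable]
    calc ∫⁻ y in B, ∫⁻ x in B, F (x + t • (y - x)) ≤ ∫⁻ y in B, 4 * ∫⁻ y, F y := by
          refine lintegral_mono fun y => ?_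
          calc ∫⁻ x in B, F (x + t • (y - x)) ≤ ∫⁻ x, F (x + t • (y - x)) := setLIntegral_le_lintegral _ _
            _ = ∫⁻ x, F (t • y + (1 - t) • x) := by
                congr 1; funext x; congr 1; rw [smul_sub, sub_smul, one_smul]; ring
            _ ≤ 4 * ∫⁻ y, F y := poin_cov F hF _ (by linarith)
      _ = 4 * (∫⁻ y, F y) * volume B := by rw [setLIntegral_const]

private theorem poin_tonelli (F : ℂ → ℝ≥0∞) (hF : Measurable F) (B : Set ℂ) :
    ∫⁻ x in B, ∫⁻ y in B, ∫⁻ t in Set.Ioc (0 : ℝ) 1, F (x + t • (y - x)) ≤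
      4 * (∫⁻ y, F y) * volume B := by
  have hm3 : Measurable fun p : (ℂ × ℝ) × ℂ => F (p.1.1 + p.1.2 • (p.2 - p.1.1)) := by
    refine hF.comp ?_
    exact (by fun_prop : Continuous fun p : (ℂ × ℝ) × ℂ =>
      p.1.1 + p.1.2 • (p.2 - p.1.1)).measurable
  have h1 : ∀ x : ℂ, ∫⁻ y in B, ∫⁻ t in Set.Ioc (0 : ℝ) 1, F (x + t • (y - x)) =
      ∫⁻ t in Set.Ioc (0 : ℝ) 1, ∫⁻ y in B, F (x + t • (y - x)) := by
    intro x
    have hm : Measurable fun p : ℂ × ℝ => F (x + p.2 • (p.1 - x)) := by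
      refine hF.comp ?_
      exact (by fun_prop : Continuous fun p : ℂ × ℝ => x + p.2 • (p.1 - x)).measurable
    exact lintegral_lintegral_swap hm.aemeasurable
  simp_rw [h1]
  have hm2 : Measurable fun p : ℂ × ℝ => ∫⁻ y in B, F (p.1 + p.2 • (y - p.1)) :=
    hm3.lintegral_prod_right'
  rw [lintegral_lintegral_swap hm2.aemeasurable]
  calc ∫⁻ t in Set.Ioc (0 : ℝ) 1, ∫⁻ x in B, ∫⁻ y in B, F (x + t • (y - x))
      ≤ ∫⁻ _t in Set.Ioc (0 : ℝ) 1, 4 * (∫⁻ y, F y) * volume B :=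
        lintegral_mono fun t => poin_fixed F hF B t
    _ = 4 * (∫⁻ y, F y) * volume B := by
        rw [setLIntegral_const, Real.volume_Ioc]; simp

private theorem poin_intg {R : ℝ} (hR : R < 1) {w : ℂ → ℂ} (hw : ContDiffOn ℝ 1 w (ball 0 1)) :
    IntegrableOn (fun x => ‖fderiv ℝ w x‖ ^ 2) (ball (0 : ℂ) R) := by
  have h1 : ContinuousOn (fun x => ‖fderiv ℝ w x‖ ^ 2) (closedBall (0 : ℂ) R) :=
    ((poin_contf hw).mono (closedBall_subset_ball hR)).norm.pow 2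
  exact (h1.integrableOn_compact (isCompact_closedBall _ _)).mono_set ball_subset_closedBall

/-- the inequality with `lintegral` -/
private theorem poin_main {R : ℝ} (hR : R < 1) {w : ℂ → ℂ} (hw : ContDiffOn ℝ 1 w (ball 0 1)) :
    ∫⁻ x in ball (0 : ℂ) R, ∫⁻ y in ball (0 : ℂ) R, ENNReal.ofReal (‖w x - w y‖ ^ 2) ≤
      ENNReal.ofReal (16 * R ^ 2 * (volume (ball (0 : ℂ) R)).toReal *
        ∫ x in ball (0 : ℂ) R, ‖fderiv ℝ w x‖ ^ 2) := by
  have hfin : volume (ball (0 : ℂ) R) ≠ ⊤ := measure_ball_lt_top.ne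
  calc ∫⁻ x in ball (0 : ℂ) R, ∫⁻ y in ball (0 : ℂ) R, ENNReal.ofReal (‖w x - w y‖ ^ 2)
      ≤ ∫⁻ x in ball (0 : ℂ) R, ∫⁻ y in ball (0 : ℂ) R, ENNReal.ofReal (4 * R ^ 2) *
          ∫⁻ t in Set.Ioc (0 : ℝ) 1, poinG R w (x + t • (y - x)) := by
        refine setLIntegral_mono' measurableSet_ball fun x hx => ?_
        exact setLIntegral_mono' measurableSet_ball fun y hy => poin_point hR hw hx hy
    _ = ENNReal.ofReal (4 * R ^ 2) * ∫⁻ x in ball (0 : ℂ) R, ∫⁻ y in ball (0 : ℂ) R,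
          ∫⁻ t in Set.Ioc (0 : ℝ) 1, poinG R w (x + t • (y - x)) := by
        rw [← lintegral_const_mul' _ _ ENNReal.ofReal_ne_top]
        congr 1; funext x
        rw [← lintegral_const_mul' _ _ ENNReal.ofReal_ne_top]
    _ ≤ ENNReal.ofReal (4 * R ^ 2) * (4 * (∫⁻ y, poinG R w y) * volume (ball (0 : ℂ) R)) :=
        mul_le_mul_right (poin_tonelli _ (poinG_meas R w) _) _
    _ = _ := by
        have h1 : ∫⁻ y, poinG R w y = ENNReal.ofReal (∫ x in ball (0 : ℂ) R, ‖fderiv ℝ w x‖ ^ 2) := by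
          rw [ofReal_integral_eq_lintegral_ofReal (poin_intg hR hw)
            (Filter.Eventually.of_forall fun t => sq_nonneg _)]
          unfold poinG
          rw [lintegral_indicator measurableSet_ball]
        rw [h1, ← ENNReal.ofReal_toReal hfin, ENNReal.toReal_ofReal ENNReal.toReal_nonneg]
        have h4 : (4 : ℝ≥0∞) = ENNReal.ofReal 4 := by simp
        have hI : 0 ≤ ∫ x in ball (0 : ℂ) R, ‖fderiv ℝ w x‖ ^ 2 :=
          integral_nonneg fun x => sq_nonneg _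
        rw [h4, ← ENNReal.ofReal_mul (by norm_num), ← ENNReal.ofReal_mul (by positivity),
          ← ENNReal.ofReal_mul (by positivity)]
        congr 1; ring

/-- Let `B = ball 0 R`. For `x, y ∈ B`: `w y - w x = ∫_0^1 fderiv w (x + t (y - x)) (y - x) dt`, so
`|w x - w y|^2 ≤ (2R)^2 ∫_0^1 ‖fderiv w (x + t (y - x))‖^2 dt`. Integrate over `x, y ∈ B` and split the `t`-integral at `1/2`; for `t ≥ 1/2` and fixed `x`
substitute `u = x + t (y - x) = (1 - t) x + t y ∈ B` for `y` (Jacobian `t^2 ≥ 1/4`): `∫_B ‖fderiv w (..)‖^2 dy ≤ 4 ∫_B ‖fderiv w u‖^2 du`;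
for `t ≤ 1/2` substitute for `x`. By the symmetry `(x, y, t) → (y, x, 1 - t)` it is enough to do one of the two. Work with `lintegral` (no integrability
problems: `w` is `C^1` on the closed ball, all functions are bounded and continuous there) or with Bochner integrals. -/
theorem poincare2 (R : ℝ) (hR0 : 0 < R) (hR : R < 1) : ∃ C : ℝ, 0 ≤ C ∧ ∀ w : ℂ → ℂ, ContDiffOn ℝ 1 w (ball 0 1) →
    ∫ x in ball (0:ℂ) R, ∫ y in ball (0:ℂ) R, ‖w x - w y‖ ^ 2 ≤ C * ∫ x in ball (0:ℂ) R, ‖fderiv ℝ w x‖ ^ 2 := by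
  refine ⟨16 * R ^ 2 * (volume (ball (0 : ℂ) R)).toReal, by positivity, fun w hw => ?_⟩
  have hI : 0 ≤ ∫ x in ball (0 : ℂ) R, ‖fderiv ℝ w x‖ ^ 2 := integral_nonneg fun x => sq_nonneg _
  have h1 : ENNReal.ofReal (∫ x in ball (0:ℂ) R, ∫ y in ball (0:ℂ) R, ‖w x - w y‖ ^ 2) ≤
      ∫⁻ x in ball (0 : ℂ) R, ∫⁻ y in ball (0 : ℂ) R, ENNReal.ofReal (‖w x - w y‖ ^ 2) := by
    calc ENNReal.ofReal (∫ x in ball (0:ℂ) R, ∫ y in ball (0:ℂ) R, ‖w x - w y‖ ^ 2)
        ≤ ‖∫ x in ball (0:ℂ) R, ∫ y in ball (0:ℂ) R, ‖w x - w y‖ ^ 2‖ₑ := Real.ofReal_le_enorm _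
      _ ≤ ∫⁻ x in ball (0:ℂ) R, ‖∫ y in ball (0:ℂ) R, ‖w x - w y‖ ^ 2‖ₑ :=
          enorm_integral_le_lintegral_enorm _
      _ ≤ ∫⁻ x in ball (0:ℂ) R, ∫⁻ y in ball (0:ℂ) R, ‖‖w x - w y‖ ^ 2‖ₑ :=
          lintegral_mono fun x => enorm_integral_le_lintegral_enorm _
      _ = _ := by
          congr 1; funext x; congr 1; funext y
          exact Real.enorm_of_nonneg (sq_nonneg _)
  exact (ENNReal.ofReal_le_ofReal_iff (by positivity)).mp (h1.trans (poin_main hR hw))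

/-- from `poincare2`: `w x - avg = avg_y (w x - w y)`, Cauchy-Schwarz (Jensen) -/
theorem poincare (R : ℝ) (hR0 : 0 < R) (hR : R < 1) : ∃ C : ℝ, 0 ≤ C ∧ ∀ w : ℂ → ℂ, ContDiffOn ℝ 1 w (ball 0 1) →
    ∫ x in ball (0:ℂ) R, ‖w x - (((volume (ball (0:ℂ) R)).toReal)⁻¹ : ℝ) • ∫ y in ball (0:ℂ) R, w y‖ ^ 2 ≤
      C * ∫ x in ball (0:ℂ) R, ‖fderiv ℝ w x‖ ^ 2 := by
  set V : ℝ := (volume (ball (0 : ℂ) R)).toReal with hV
  have hV0 : 0 < V := ENNReal.toReal_pos (measure_ball_pos _ _ hR0).ne' measure_ball_lt_top.ne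
  refine ⟨V⁻¹ * (16 * R ^ 2 * V), by positivity, fun w hw => ?_⟩
  have hI : 0 ≤ ∫ x in ball (0 : ℂ) R, ‖fderiv ℝ w x‖ ^ 2 := integral_nonneg fun x => sq_nonneg _
  have hwc : ContinuousOn w (closedBall (0 : ℂ) R) := hw.continuousOn.mono (closedBall_subset_ball hR)
  have hwi : IntegrableOn w (ball (0 : ℂ) R) :=
    (hwc.integrableOn_compact (isCompact_closedBall _ _)).mono_set ball_subset_closedBall
  -- pointwise Cauchy-Schwarz
  have hpt : ∀ x : ℂ, ENNReal.ofReal (‖w x - V⁻¹ • ∫ y in ball (0:ℂ) R, w y‖ ^ 2) ≤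
      ENNReal.ofReal V⁻¹ * ∫⁻ y in ball (0:ℂ) R, ENNReal.ofReal (‖w x - w y‖ ^ 2) := by
    intro x
    have hc1 : ContinuousOn (fun y => ‖w x - w y‖) (closedBall (0 : ℂ) R) :=
      (continuousOn_const.sub hwc).norm
    have hi1 : IntegrableOn (fun y => ‖w x - w y‖) (ball (0 : ℂ) R) :=
      (hc1.integrableOn_compact (isCompact_closedBall _ _)).mono_set ball_subset_closedBall
    have hi2 : IntegrableOn (fun y => ‖w x - w y‖ ^ 2) (ball (0 : ℂ) R) :=
      ((hc1.pow 2).integrableOn_compact (isCompact_closedBall _ _)).mono_set ball_subset_closedBall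
    have : IsFiniteMeasure (volume.restrict (ball (0 : ℂ) R)) :=
      ⟨by rw [Measure.restrict_apply_univ]; exact measure_ball_lt_top⟩
    have hcs := poin_cs (volume.restrict (ball (0 : ℂ) R)) _ hi1 hi2
    rw [Measure.restrict_apply_univ, ← hV] at hcs
    have h1 : w x - V⁻¹ • ∫ y in ball (0:ℂ) R, w y = V⁻¹ • ∫ y in ball (0:ℂ) R, (w x - w y) := by
      rw [integral_sub (integrable_const _) hwi, integral_const, Measure.real,
        Measure.restrict_apply_univ, ← hV, smul_sub, smul_smul, inv_mul_cancel₀ hV0.ne', one_smul]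
    have h2 : ‖w x - V⁻¹ • ∫ y in ball (0:ℂ) R, w y‖ ≤ V⁻¹ * ∫ y in ball (0:ℂ) R, ‖w x - w y‖ := by
      rw [h1, norm_smul, Real.norm_of_nonneg (by positivity)]
      exact mul_le_mul_of_nonneg_left (norm_integral_le_integral_norm _) (by positivity)
    have h3 : ‖w x - V⁻¹ • ∫ y in ball (0:ℂ) R, w y‖ ^ 2 ≤ V⁻¹ * ∫ y in ball (0:ℂ) R, ‖w x - w y‖ ^ 2 := by
      refine (pow_le_pow_left₀ (norm_nonneg _) h2 2).trans ?_
      rw [mul_pow]
      calc V⁻¹ ^ 2 * (∫ y in ball (0:ℂ) R, ‖w x - w y‖) ^ 2 ≤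
            V⁻¹ ^ 2 * (V * ∫ y in ball (0:ℂ) R, ‖w x - w y‖ ^ 2) :=
            mul_le_mul_of_nonneg_left hcs (by positivity)
        _ = V⁻¹ * ∫ y in ball (0:ℂ) R, ‖w x - w y‖ ^ 2 := by field_simp
    refine (ENNReal.ofReal_le_ofReal h3).trans ?_
    rw [ENNReal.ofReal_mul (by positivity),
      ofReal_integral_eq_lintegral_ofReal hi2 (Filter.Eventually.of_forall fun t => sq_nonneg _)]
  have h1 : ENNReal.ofReal (∫ x in ball (0:ℂ) R, ‖w x - V⁻¹ • ∫ y in ball (0:ℂ) R, w y‖ ^ 2) ≤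
      ENNReal.ofReal V⁻¹ *
        ∫⁻ x in ball (0 : ℂ) R, ∫⁻ y in ball (0 : ℂ) R, ENNReal.ofReal (‖w x - w y‖ ^ 2) := by
    calc ENNReal.ofReal (∫ x in ball (0:ℂ) R, ‖w x - V⁻¹ • ∫ y in ball (0:ℂ) R, w y‖ ^ 2)
        ≤ ‖∫ x in ball (0:ℂ) R, ‖w x - V⁻¹ • ∫ y in ball (0:ℂ) R, w y‖ ^ 2‖ₑ :=
          Real.ofReal_le_enorm _
      _ ≤ ∫⁻ x in ball (0:ℂ) R, ‖‖w x - V⁻¹ • ∫ y in ball (0:ℂ) R, w y‖ ^ 2‖ₑ :=
          enorm_integral_le_lintegral_enorm _
      _ = ∫⁻ x in ball (0:ℂ) R, ENNReal.ofReal (‖w x - V⁻¹ • ∫ y in ball (0:ℂ) R, w y‖ ^ 2) := by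
          congr 1; funext x
          exact Real.enorm_of_nonneg (sq_nonneg _)
      _ ≤ ∫⁻ x in ball (0:ℂ) R, ENNReal.ofReal V⁻¹ *
            ∫⁻ y in ball (0:ℂ) R, ENNReal.ofReal (‖w x - w y‖ ^ 2) := lintegral_mono hpt
      _ = _ := lintegral_const_mul' _ _ ENNReal.ofReal_ne_top
  have h2 : ENNReal.ofReal (∫ x in ball (0:ℂ) R, ‖w x - V⁻¹ • ∫ y in ball (0:ℂ) R, w y‖ ^ 2) ≤
      ENNReal.ofReal (V⁻¹ * (16 * R ^ 2 * V) * ∫ x in ball (0 : ℂ) R, ‖fderiv ℝ w x‖ ^ 2) := by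
    refine (h1.trans (mul_le_mul_right (poin_main hR hw) _)).trans (le_of_eq ?_)
    rw [← ENNReal.ofReal_mul (by positivity)]
    congr 1; ring
  exact (ENNReal.ofReal_le_ofReal_iff (by positivity)).mp h2

end Pool.Agent.DimDropF
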