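import Pool.Agent.Lib_MP_644907_f.ENERGY
import Pool.Agent.Lib_MP_644907_f.POIN

/-!
# Piece KEY: the global Poincare inequality
-/

set_option autoImplicit false

open Complex MeasureTheory Metric
open scoped ContDiff

namespace Pool.Agent.DimDropF

namespace FG

variable {Γ : Type} [Group Γ] (G : FG Γ)

/-- the average of `PS ψ` over the ball of radius `(1 + r) / 2` -/
noncomputable def avg (ψ : ℂ → ℂ) : ℂ :=
  (((volume (ball (0:ℂ) ((1 + G.r) / 2))).toReal)⁻¹ : ℝ) • ∫ y in ball (0:ℂ) ((1 + G.r) / 2), G.PS ψ y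

/-- `PS ψ` is bounded on the disc (invariance, continuity on the compact ball of radius `r`) -/
theorem PS_bdd {ψ : ℂ → ℂ} (hψ : Test ψ) : ∃ M : ℝ, ∀ z : ℂ, ‖z‖ < 1 → ‖G.PS ψ z‖ ≤ M := by
  have hc : ContinuousOn (G.PS ψ) (closedBall 0 G.r) :=
    (G.PS_smooth hψ).continuousOn.mono (closedBall_subset_ball G.r1)
  obtain ⟨M, hM⟩ := (isCompact_closedBall (0:ℂ) G.r).exists_bound_of_continuousOn hc
  refine ⟨M, fun z hz => ?_⟩
  obtain ⟨γ, hγ⟩ := G.coc' z hz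
  have h1 := G.PS_inv ψ γ hz
  rw [← h1]
  exact hM _ (mem_closedBall_zero_iff.2 hγ)

private theorem key_intOn {f : ℂ → ℝ} {ρ : ℝ} (hρ : ρ < 1) (hf : ContinuousOn f (ball 0 1)) (s : Set ℂ)
    (hs : s ⊆ closedBall 0 ρ) : IntegrableOn f s := by
  have h1 : ContinuousOn f (closedBall 0 ρ) := hf.mono (closedBall_subset_ball hρ)
  exact (h1.integrableOn_compact (isCompact_closedBall (0:ℂ) ρ)).mono_set hs

private theorem key_dd_eq {ψ : ℂ → ℂ} (hψ : Test ψ) (γ : Γ) {z : ℂ} (hz : ‖z‖ < 1) :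
    ‖dd (G.PS ψ) (G.m γ z)‖ * ‖G.d γ z‖ = ‖dd (G.PS ψ) z‖ := by
  rw [G.dd_PS hψ (G.m_lt γ hz), G.dd_PS hψ hz, ← G.PB_inv (dd ψ) γ hz, norm_mul]

private theorem key_dbar_eq {ψ : ℂ → ℂ} (hψ : Test ψ) (γ : Γ) {z : ℂ} (hz : ‖z‖ < 1) :
    ‖dbar (G.PS ψ) (G.m γ z)‖ * ‖G.d γ z‖ = ‖dbar (G.PS ψ) z‖ := by
  rw [G.dbar_PS hψ (G.m_lt γ hz), G.dbar_PS hψ hz, ← G.PA_inv (dbar ψ) γ hz, norm_mul, Complex.norm_conj]

/-- `R = (1 + r) / 2`, `w = PS ψ - avg ψ` is invariant. `∫_disc |w|^2 ≤ C₁ ∫_FD |w|^2` (`l2d`) `≤ C₁ ∫_{ball R} |w|^2 ≤ C₁ C₂ ∫_{ball R} ‖fderiv ℝ (PS ψ)‖^2` (`poincare`)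
`≤ 2 C₁ C₂ ∫_{ball R} (|dd|^2 + |dbar|^2)` (`norm_fderiv_sq_le`) `≤ 2 C₁ C₂ C₃ ∫_FD (|dd (PS ψ)|^2 + |dbar (PS ψ)|^2)` (`br`; the density `|dbar (PS ψ)|^2` is equivariant
by `dbar_PS` and `PA_inv`, the density `|dd (PS ψ)|^2` by `dd_PS` and `PB_inv`) `= 4 C₁ C₂ C₃ ∫_FD |dbar (PS ψ)|^2` (`energy`). -/
theorem key : ∃ C : ℝ, 0 ≤ C ∧ ∀ ψ : ℂ → ℂ, Test ψ →
    ∫ z in ball (0:ℂ) 1, ‖G.PS ψ z - G.avg ψ‖ ^ 2 ≤ C * ∫ z in G.FD, ‖dbar (G.PS ψ) z‖ ^ 2 := by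
  have hr0 := G.r0
  have hr1 := G.r1
  set R : ℝ := (1 + G.r) / 2 with hRdef
  have hR0 : 0 < R := by rw [hRdef]; linarith
  have hR1 : R < 1 := by rw [hRdef]; linarith
  have hrR : G.r < R := by rw [hRdef]; linarith
  obtain ⟨C₁, hC₁⟩ := G.l2d
  obtain ⟨C₂, hC₂0, hC₂⟩ := poincare R hR0 hR1
  obtain ⟨C₃, hC₃⟩ := G.br R hR1
  refine ⟨C₁ * (C₂ * (C₃ * 4)), by positivity, fun ψ hψ => ?_⟩
  have hsm := G.PS_smooth hψ
  have hsm1 : ContDiffOn ℝ 1 (G.PS ψ) (ball 0 1) := hsm.of_le (by exact_mod_cast le_top)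
  have hcont : ContinuousOn (G.PS ψ) (ball 0 1) := hsm.continuousOn
  have hcd : ContinuousOn (dd (G.PS ψ)) (ball 0 1) := contOn_dd isOpen_ball hsm1
  have hcb : ContinuousOn (dbar (G.PS ψ)) (ball 0 1) := contOn_dbar isOpen_ball hsm1
  have hcf : ContinuousOn (fderiv ℝ (G.PS ψ)) (ball 0 1) :=
    hsm1.continuousOn_fderiv_of_isOpen isOpen_ball le_rfl
  set w : ℂ → ℝ := fun z => ‖G.PS ψ z - G.avg ψ‖ ^ 2 with hw
  have hwc : ContinuousOn w (ball 0 1) := ((hcont.sub continuousOn_const).norm).pow 2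
  have hbR : ball (0:ℂ) R ⊆ closedBall 0 R := ball_subset_closedBall
  have hFDr : G.FD ⊆ closedBall 0 G.r := G.FD_sub
  have hFDR : G.FD ⊆ ball 0 R := fun z hz => by
    have := hFDr hz
    rw [mem_closedBall_zero_iff] at this
    rw [mem_ball_zero_iff]
    linarith
  -- step 1
  have h1 : ∫⁻ z in ball (0:ℂ) 1, ENNReal.ofReal (w z) ≤ C₁ * ∫⁻ z in ball (0:ℂ) R, ENNReal.ofReal (w z) := by
    refine (hC₁ (fun z => ENNReal.ofReal (w z)) ?_).trans ?_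
    · intro γ z hz
      simp only [hw]
      rw [G.PS_inv ψ γ hz]
    · gcongr
  -- step 2
  have h2 : ∫⁻ z in ball (0:ℂ) R, ENNReal.ofReal (w z) = ENNReal.ofReal (∫ z in ball (0:ℂ) R, w z) := by
    rw [ofReal_integral_eq_lintegral_ofReal (key_intOn hR1 hwc _ hbR)
      (Filter.Eventually.of_forall fun z => by simp only [hw]; positivity)]
  have h3 : ∫ z in ball (0:ℂ) R, w z ≤ C₂ * ∫ x in ball (0:ℂ) R, ‖fderiv ℝ (G.PS ψ) x‖ ^ 2 := hC₂ _ hsm1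
  -- step 3
  set Φ : ℂ → ℝ := fun z => 2 * (‖dd (G.PS ψ) z‖ ^ 2 + ‖dbar (G.PS ψ) z‖ ^ 2) with hΦ
  have hΦc : ContinuousOn Φ (ball 0 1) := continuousOn_const.mul ((hcd.norm.pow 2).add (hcb.norm.pow 2))
  have hΦ0 : ∀ z, 0 ≤ Φ z := fun z => by simp only [hΦ]; positivity
  have hfi : IntegrableOn (fun x => ‖fderiv ℝ (G.PS ψ) x‖ ^ 2) (ball (0:ℂ) R) :=
    key_intOn hR1 (hcf.norm.pow 2) _ hbR
  have h4 : ∫ x in ball (0:ℂ) R, ‖fderiv ℝ (G.PS ψ) x‖ ^ 2 ≤ ∫ x in ball (0:ℂ) R, Φ x :=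
    setIntegral_mono hfi (key_intOn hR1 hΦc _ hbR) (fun z => norm_fderiv_sq_le _ z)
  have h5 : ENNReal.ofReal (∫ x in ball (0:ℂ) R, Φ x) ≤ C₃ * ENNReal.ofReal (∫ x in G.FD, Φ x) := by
    rw [ofReal_integral_eq_lintegral_ofReal (key_intOn hR1 hΦc _ hbR) (Filter.Eventually.of_forall hΦ0),
      ofReal_integral_eq_lintegral_ofReal (key_intOn hr1 hΦc _ hFDr) (Filter.Eventually.of_forall hΦ0)]
    refine hC₃ (fun z => ENNReal.ofReal (Φ z)) ?_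
    intro γ z hz
    show ENNReal.ofReal (Φ (G.m γ z)) * ENNReal.ofReal (‖G.d γ z‖ ^ 2) = ENNReal.ofReal (Φ z)
    rw [← ENNReal.ofReal_mul (hΦ0 _)]
    congr 1
    simp only [hΦ]
    rw [← G.key_dd_eq hψ γ hz, ← G.key_dbar_eq hψ γ hz]
    ring
  have h6 : ∫ x in G.FD, Φ x = 4 * ∫ z in G.FD, ‖dbar (G.PS ψ) z‖ ^ 2 := by
    have he := G.energy hψ
    have hi1 : IntegrableOn (fun z => ‖dd (G.PS ψ) z‖ ^ 2) G.FD := key_intOn hr1 (hcd.norm.pow 2) _ hFDr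
    have hi2 : IntegrableOn (fun z => ‖dbar (G.PS ψ) z‖ ^ 2) G.FD := key_intOn hr1 (hcb.norm.pow 2) _ hFDr
    simp only [hΦ]
    rw [integral_const_mul, integral_add hi1 hi2, ← he]
    ring
  set E : ℝ := ∫ z in G.FD, ‖dbar (G.PS ψ) z‖ ^ 2 with hE
  have hE0 : 0 ≤ E := integral_nonneg fun z => by positivity
  -- conclusion
  have h7 : ∫⁻ z in ball (0:ℂ) 1, ENNReal.ofReal (w z) ≤ ENNReal.ofReal (C₁ * (C₂ * (C₃ * 4)) * E) := by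
    calc ∫⁻ z in ball (0:ℂ) 1, ENNReal.ofReal (w z)
        ≤ C₁ * ∫⁻ z in ball (0:ℂ) R, ENNReal.ofReal (w z) := h1
      _ = C₁ * ENNReal.ofReal (∫ z in ball (0:ℂ) R, w z) := by rw [h2]
      _ ≤ C₁ * ENNReal.ofReal (C₂ * ∫ x in ball (0:ℂ) R, Φ x) := by
          gcongr
          exact h3.trans (mul_le_mul_of_nonneg_left h4 hC₂0)
      _ = C₁ * (ENNReal.ofReal C₂ * ENNReal.ofReal (∫ x in ball (0:ℂ) R, Φ x)) := by
          rw [ENNReal.ofReal_mul hC₂0]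
      _ ≤ C₁ * (ENNReal.ofReal C₂ * (C₃ * ENNReal.ofReal (∫ x in G.FD, Φ x))) := by
          gcongr
      _ = ENNReal.ofReal (C₁ * (C₂ * (C₃ * 4)) * E) := by
          rw [h6, ENNReal.ofReal_mul (by positivity : (0:ℝ) ≤ C₁ * (C₂ * (C₃ * 4))),
            ENNReal.ofReal_mul (by positivity : (0:ℝ) ≤ (C₁:ℝ)), ENNReal.ofReal_mul hC₂0,
            ENNReal.ofReal_mul (by positivity : (0:ℝ) ≤ (C₃:ℝ)), ENNReal.ofReal_mul (by norm_num : (0:ℝ) ≤ 4),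
            ENNReal.ofReal_coe_nnreal, ENNReal.ofReal_coe_nnreal]
          ring
  have hae : AEStronglyMeasurable w (volume.restrict (ball (0:ℂ) 1)) :=
    hwc.aestronglyMeasurable measurableSet_ball
  rw [integral_eq_lintegral_of_nonneg_ae (Filter.Eventually.of_forall fun z => by simp only [hw]; positivity) hae]
  exact ENNReal.toReal_le_of_le_ofReal (by positivity) h7

end FG

end Pool.Agent.DimDropF
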