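import Pool.Agent.Lib_MP_644907_f.Defs

/-!
# Piece MB: basic facts on the maps `mb a b`

All statements are elementary. `den = conj b * z + conj a`; `|b| < |a|` because `|a|^2 = 1 + |b|^2`. See also `Pool/Agent/Lib_MP_644907/IsoA.lean`
(namespace `IsoDAux`: `phi` is our `mb`, the lemmas `key`, `den_ne`, `norm_phi_le` can be copied).
-/

set_option autoImplicit false

open Complex MeasureTheory Metric
open scoped ContDiff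

namespace Pool.Agent.DimDropF

private theorem mb_key (a b z : ℂ) : ‖starRingEnd ℂ b * z + starRingEnd ℂ a‖ ^ 2 - ‖a * z + b‖ ^ 2 =
    (‖a‖ ^ 2 - ‖b‖ ^ 2) * (1 - ‖z‖ ^ 2) := by
  simp only [← Complex.normSq_eq_norm_sq, Complex.normSq_apply]
  simp
  ring

private theorem mb_ba {a b : ℂ} (h : ‖a‖ ^ 2 - ‖b‖ ^ 2 = 1) : ‖b‖ < ‖a‖ := by
  apply lt_of_pow_lt_pow_left₀ 2 (norm_nonneg _)
  linarith

private theorem mb_apos {a b : ℂ} (h : ‖a‖ ^ 2 - ‖b‖ ^ 2 = 1) : 0 < ‖a‖ :=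
  (norm_nonneg b).trans_lt (mb_ba h)

theorem den_ne {a b z : ℂ} (h : ‖a‖ ^ 2 - ‖b‖ ^ 2 = 1) (hz : ‖z‖ ≤ 1) :
    starRingEnd ℂ b * z + starRingEnd ℂ a ≠ 0 := by
  intro h0
  have h1 : ‖starRingEnd ℂ a‖ = ‖starRingEnd ℂ b * z‖ := by
    have : starRingEnd ℂ a = -(starRingEnd ℂ b * z) := by linear_combination h0
    rw [this, norm_neg]
  rw [norm_mul, Complex.norm_conj, Complex.norm_conj] at h1
  have h2 : ‖a‖ ≤ ‖b‖ := by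
    rw [h1]
    exact mul_le_of_le_one_right (norm_nonneg _) hz
  exact absurd h2 (not_le.2 (mb_ba h))

private theorem norm_dmb (a b z : ℂ) :
    ‖dmb a b z‖ = 1 / ‖starRingEnd ℂ b * z + starRingEnd ℂ a‖ ^ 2 := by
  unfold dmb
  rw [norm_div, norm_one, norm_pow]

private theorem mb_den_pos {a b z : ℂ} (h : ‖a‖ ^ 2 - ‖b‖ ^ 2 = 1) (hz : ‖z‖ ≤ 1) :
    0 < ‖starRingEnd ℂ b * z + starRingEnd ℂ a‖ := norm_pos_iff.2 (den_ne h hz)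

private theorem mb_den_le {a b z : ℂ} (h : ‖a‖ ^ 2 - ‖b‖ ^ 2 = 1) (hz : ‖z‖ ≤ 1) :
    ‖starRingEnd ℂ b * z + starRingEnd ℂ a‖ ≤ 2 * ‖a‖ := by
  refine (norm_add_le _ _).trans ?_
  rw [norm_mul, Complex.norm_conj, Complex.norm_conj]
  have h1 : ‖b‖ * ‖z‖ ≤ ‖b‖ := mul_le_of_le_one_right (norm_nonneg _) hz
  linarith [mb_ba h]

private theorem mb_den_ge {a b z : ℂ} {R : ℝ} (h : ‖a‖ ^ 2 - ‖b‖ ^ 2 = 1) (hz : ‖z‖ ≤ R) :
    ‖a‖ * (1 - R) ≤ ‖starRingEnd ℂ b * z + starRingEnd ℂ a‖ := by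
  have h1 : ‖starRingEnd ℂ a‖ ≤ ‖starRingEnd ℂ b * z + starRingEnd ℂ a‖ + ‖starRingEnd ℂ b * z‖ := by
    have := norm_sub_le (starRingEnd ℂ b * z + starRingEnd ℂ a) (starRingEnd ℂ b * z)
    rwa [add_sub_cancel_left] at this
  rw [norm_mul, Complex.norm_conj, Complex.norm_conj] at h1
  have h2 : ‖b‖ * ‖z‖ ≤ ‖a‖ * R :=
    mul_le_mul (mb_ba h).le hz (norm_nonneg _) (norm_nonneg _)
  linarith

/-- `|conj b z + conj a|^2 - |a z + b|^2 = (|a|^2 - |b|^2) (1 - |z|^2)` -/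
theorem one_sub_mb {a b z : ℂ} (h : ‖a‖ ^ 2 - ‖b‖ ^ 2 = 1) (hz : ‖z‖ ≤ 1) :
    1 - ‖mb a b z‖ ^ 2 = (1 - ‖z‖ ^ 2) * ‖dmb a b z‖ := by
  have h1 := mb_key a b z
  rw [h, one_mul] at h1
  have h2 := mb_den_pos h hz
  rw [norm_dmb, mb, norm_div, div_pow, mul_one_div, ← h1, sub_div, div_self (pow_pos h2 2).ne']

private theorem dmb_pos {a b z : ℂ} (h : ‖a‖ ^ 2 - ‖b‖ ^ 2 = 1) (hz : ‖z‖ ≤ 1) :
    0 < ‖dmb a b z‖ := by
  rw [norm_dmb]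
  exact div_pos one_pos (pow_pos (mb_den_pos h hz) 2)

theorem norm_mb_lt {a b z : ℂ} (h : ‖a‖ ^ 2 - ‖b‖ ^ 2 = 1) (hz : ‖z‖ < 1) : ‖mb a b z‖ < 1 := by
  have h1 := one_sub_mb h hz.le
  have h2 := dmb_pos h hz.le
  have h3 : 0 < 1 - ‖z‖ ^ 2 := by nlinarith [norm_nonneg z]
  have h4 := mul_pos h3 h2
  have h5 : ‖mb a b z‖ ^ 2 < 1 ^ 2 := by linarith
  exact lt_of_pow_lt_pow_left₀ 2 zero_le_one h5

theorem norm_mb_le {a b z : ℂ} (h : ‖a‖ ^ 2 - ‖b‖ ^ 2 = 1) (hz : ‖z‖ ≤ 1) : ‖mb a b z‖ ≤ 1 := by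
  have h1 := one_sub_mb h hz
  have h2 := dmb_pos h hz
  have h3 : 0 ≤ 1 - ‖z‖ ^ 2 := by nlinarith [norm_nonneg z]
  have h4 := mul_nonneg h3 h2.le
  have h5 : ‖mb a b z‖ ^ 2 ≤ 1 ^ 2 := by linarith
  exact le_of_sq_le_sq h5 zero_le_one

theorem dmb_ne {a b z : ℂ} (h : ‖a‖ ^ 2 - ‖b‖ ^ 2 = 1) (hz : ‖z‖ ≤ 1) : dmb a b z ≠ 0 :=
  norm_pos_iff.1 (dmb_pos h hz)

private theorem mb_det {a b : ℂ} (h : ‖a‖ ^ 2 - ‖b‖ ^ 2 = 1) :
    a * starRingEnd ℂ a - b * starRingEnd ℂ b = 1 := by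
  rw [Complex.mul_conj, Complex.mul_conj, Complex.normSq_eq_norm_sq, Complex.normSq_eq_norm_sq]
  exact_mod_cast h

/-- quotient rule; `a * conj a - b * conj b = 1` -/
theorem hasDerivAt_mb {a b z : ℂ} (h : ‖a‖ ^ 2 - ‖b‖ ^ 2 = 1) (hz : ‖z‖ ≤ 1) :
    HasDerivAt (mb a b) (dmb a b z) z := by
  have h1 : HasDerivAt (fun w : ℂ => a * w + b) a z := by
    simpa using ((hasDerivAt_id z).const_mul a).add_const b
  have h2 : HasDerivAt (fun w : ℂ => starRingEnd ℂ b * w + starRingEnd ℂ a) (starRingEnd ℂ b) z := by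
    simpa using ((hasDerivAt_id z).const_mul (starRingEnd ℂ b)).add_const (starRingEnd ℂ a)
  have h3 := h1.div h2 (den_ne h hz)
  have h4 : (a * (starRingEnd ℂ b * z + starRingEnd ℂ a) - (a * z + b) * starRingEnd ℂ b) /
      (starRingEnd ℂ b * z + starRingEnd ℂ a) ^ 2 = dmb a b z := by
    unfold dmb
    congr 1
    linear_combination mb_det h
  rw [h4] at h3
  exact h3

/-- distortion: `|a| (1 - R) ≤ |conj b z + conj a|` and `|conj b w + conj a| ≤ 2 |a|` -/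
theorem dmb_le {a b z w : ℂ} {R : ℝ} (h : ‖a‖ ^ 2 - ‖b‖ ^ 2 = 1) (hR : R < 1) (hz : ‖z‖ ≤ R) (hw : ‖w‖ ≤ 1) :
    ‖dmb a b z‖ ≤ 4 / (1 - R) ^ 2 * ‖dmb a b w‖ := by
  rw [norm_dmb, norm_dmb]
  have h1 := mb_den_ge h hz
  have h2 := mb_den_le h hw
  have h3 := mb_den_pos h hw
  have ha := mb_apos h
  have hR' : 0 < 1 - R := by linarith
  have h5 : 0 < ‖a‖ * (1 - R) := mul_pos ha hR'
  calc 1 / ‖starRingEnd ℂ b * z + starRingEnd ℂ a‖ ^ 2 ≤ 1 / (‖a‖ * (1 - R)) ^ 2 :=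
        one_div_le_one_div_of_le (pow_pos h5 2) (pow_le_pow_left₀ h5.le h1 2)
    _ = 4 / (1 - R) ^ 2 * (1 / (2 * ‖a‖) ^ 2) := by
        field_simp
        norm_num
    _ ≤ 4 / (1 - R) ^ 2 * (1 / ‖starRingEnd ℂ b * w + starRingEnd ℂ a‖ ^ 2) := by
        refine mul_le_mul_of_nonneg_left ?_ (by positivity)
        exact one_div_le_one_div_of_le (pow_pos h3 2) (pow_le_pow_left₀ h3.le h2 2)

/-- from `one_sub_mb`, `|dmb| ≥ 1 / (2 |a|)^2`, `1 - |w| ≥ (1 - |w|^2) / 2` and `1 - |z|^2 ≥ 1 - |z|` -/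
theorem one_sub_ge {a b z : ℂ} (h : ‖a‖ ^ 2 - ‖b‖ ^ 2 = 1) (hz : ‖z‖ < 1) :
    (1 - ‖z‖) / (8 * ‖a‖ ^ 2) ≤ 1 - ‖mb a b z‖ := by
  have h1 := one_sub_mb h hz.le
  rw [norm_dmb] at h1
  have h2 := mb_den_le h hz.le
  have h3 := mb_den_pos h hz.le
  have ha := mb_apos h
  have h4 := norm_mb_lt h hz
  have h5 : 1 / (2 * ‖a‖) ^ 2 ≤ 1 / ‖starRingEnd ℂ b * z + starRingEnd ℂ a‖ ^ 2 :=
    one_div_le_one_div_of_le (pow_pos h3 2) (pow_le_pow_left₀ h3.le h2 2)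
  have h6 : 1 - ‖z‖ ≤ 1 - ‖z‖ ^ 2 := by nlinarith [norm_nonneg z]
  have h7 : (1 - ‖z‖) * (1 / (2 * ‖a‖) ^ 2) ≤
      (1 - ‖z‖ ^ 2) * (1 / ‖starRingEnd ℂ b * z + starRingEnd ℂ a‖ ^ 2) :=
    mul_le_mul h6 h5 (by positivity) (by linarith)
  rw [← h1] at h7
  have h8 : (1 - ‖z‖) / (8 * ‖a‖ ^ 2) = (1 - ‖z‖) * (1 / (2 * ‖a‖) ^ 2) / 2 := by
    field_simp
    norm_num
  rw [h8]
  nlinarith [norm_nonneg (mb a b z)]

private theorem mb_sub {a b z w : ℂ} (h : ‖a‖ ^ 2 - ‖b‖ ^ 2 = 1) (hz : ‖z‖ ≤ 1) (hw : ‖w‖ ≤ 1) :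
    mb a b z - mb a b w = (z - w) / ((starRingEnd ℂ b * z + starRingEnd ℂ a) *
      (starRingEnd ℂ b * w + starRingEnd ℂ a)) := by
  unfold mb
  rw [div_sub_div _ _ (den_ne h hz) (den_ne h hw)]
  congr 1
  linear_combination (z - w) * mb_det h

/-- `mb a b` is injective on the closed disc: `mb a b z - mb a b w = (z - w) / (den z * den w)` -/
theorem mb_injOn {a b : ℂ} (h : ‖a‖ ^ 2 - ‖b‖ ^ 2 = 1) : Set.InjOn (mb a b) (closedBall 0 1) := by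
  intro z hz w hw hzw
  rw [mem_closedBall_zero_iff] at hz hw
  have h1 := mb_sub h hz hw
  rw [hzw, sub_self] at h1
  have h2 := mul_ne_zero (den_ne h hz) (den_ne h hw)
  have h3 : z - w = 0 := by
    rcases div_eq_zero_iff.1 h1.symm with h4 | h4
    · exact h4
    · exact absurd h4 h2
  exact sub_eq_zero.1 h3

theorem measurable_mb (a b : ℂ) : Measurable (mb a b) := by
  unfold mb
  exact ((measurable_id.const_mul a).add_const b).div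
    ((measurable_id.const_mul (starRingEnd ℂ b)).add_const (starRingEnd ℂ a))

theorem measurable_dmb (a b : ℂ) : Measurable (dmb a b) := by
  unfold dmb
  exact measurable_const.div
    (((measurable_id.const_mul (starRingEnd ℂ b)).add_const (starRingEnd ℂ a)).pow_const 2)

theorem continuousOn_mb {a b : ℂ} (h : ‖a‖ ^ 2 - ‖b‖ ^ 2 = 1) : ContinuousOn (mb a b) (closedBall 0 1) := by
  intro z hz
  rw [mem_closedBall_zero_iff] at hz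
  exact (hasDerivAt_mb h hz).continuousAt.continuousWithinAt

/-- `|mb a b z| ≤ r`, `|z| ≤ R` bound `|a|`: `1 - r^2 ≤ 1 - |mb z|^2 = (1 - |z|^2) / |den|^2 ≤ 1 / (|a| (1 - R))^2`, and
`1 - |mb a b 0|^2 = 1 / |a|^2 ≥ (1 - r^2) (1 - R)^2` -/
theorem mb_zero_of {a b z : ℂ} {r R : ℝ} (h : ‖a‖ ^ 2 - ‖b‖ ^ 2 = 1) (hr : r < 1) (hR : R < 1) (hz : ‖z‖ ≤ R)
    (hm : ‖mb a b z‖ ≤ r) : ‖mb a b 0‖ ^ 2 ≤ 1 - (1 - r ^ 2) * (1 - R) ^ 2 := by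
  have ha := mb_apos h
  have hR' : 0 < 1 - R := by linarith
  have h1 := one_sub_mb h (hz.trans hR.le)
  have h2 := one_sub_mb (z := 0) h (by simp)
  rw [norm_dmb] at h1 h2
  rw [norm_zero, mul_zero, zero_add, Complex.norm_conj] at h2
  have h3 := mb_den_ge h hz
  have h5 : 0 < ‖a‖ * (1 - R) := mul_pos ha hR'
  have h4 : 1 / ‖starRingEnd ℂ b * z + starRingEnd ℂ a‖ ^ 2 ≤ 1 / (‖a‖ * (1 - R)) ^ 2 :=
    one_div_le_one_div_of_le (pow_pos h5 2) (pow_le_pow_left₀ h5.le h3 2)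
  have h6 : ‖mb a b z‖ ^ 2 ≤ r ^ 2 := pow_le_pow_left₀ (norm_nonneg _) hm 2
  have h7 : (1 - ‖z‖ ^ 2) * (1 / ‖starRingEnd ℂ b * z + starRingEnd ℂ a‖ ^ 2) ≤
      1 * (1 / (‖a‖ * (1 - R)) ^ 2) := by
    refine mul_le_mul ?_ h4 (by positivity) zero_le_one
    nlinarith [norm_nonneg z]
  rw [← h1, one_mul] at h7
  have h8 : (1 - r ^ 2) * (1 - R) ^ 2 ≤ 1 / ‖a‖ ^ 2 := by
    have h9 : 1 - r ^ 2 ≤ 1 / (‖a‖ * (1 - R)) ^ 2 := by linarith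
    calc (1 - r ^ 2) * (1 - R) ^ 2 ≤ 1 / (‖a‖ * (1 - R)) ^ 2 * (1 - R) ^ 2 :=
          mul_le_mul_of_nonneg_right h9 (sq_nonneg _)
      _ = 1 / ‖a‖ ^ 2 := by
          field_simp
  have h10 : (1 : ℝ) - 0 ^ 2 = 1 := by norm_num
  rw [h10, one_mul] at h2
  linarith

end Pool.Agent.DimDropF
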