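import Pool.Agent.Lib_MP_644907_f.POLE
import Pool.Agent.Lib_MP_644907_f.CONST

/-!
# Piece MOEB: in the absence of forms of weight 2 the function with one pole has no critical points
-/

set_option autoImplicit false

open Complex MeasureTheory Metric Filter
open scoped ContDiff Topology

namespace Pool.Agent.DimDropF

namespace FG

variable {Γ : Type} [Group Γ] (G : FG Γ)

private theorem moeb_punct {G : FG Γ} {p : ℂ} {f : ℂ → ℂ} (hf : IsPole G p f) :
    ∀ᶠ w in 𝓝[≠] p, w ∉ G.orb p ∧ w ∈ ball (0:ℂ) 1 := by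
  obtain ⟨V, ε, hε, hsub, -, h⟩ := hf.pole
  rw [eventually_nhdsWithin_iff]
  filter_upwards [ball_mem_nhds p hε] with w hw hne
  exact ⟨(h w hw hne).1, hsub hw⟩

private theorem moeb_tendsto {G : FG Γ} {p : ℂ} {f : ℂ → ℂ} (hf : IsPole G p f) {h : ℂ → ℂ} {h' : ℂ}
    (hh : HasDerivAt h h' p) : Tendsto (fun w => f w * (h w - h p)) (𝓝[≠] p) (𝓝 h') := by
  obtain ⟨V, ε, hε, hsub, hV, hp⟩ := hf.pole
  have h1 : Tendsto (slope h p) (𝓝[≠] p) (𝓝 h') := hasDerivAt_iff_tendsto_slope.1 hh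
  have h2 : Tendsto (fun w => V w * (h w - h p)) (𝓝[≠] p) (𝓝 (V p * (h p - h p))) := by
    have hVc : ContinuousAt V p := (hV.differentiableAt (ball_mem_nhds p hε)).continuousAt
    have hhc : ContinuousAt h p := hh.continuousAt
    exact ((hVc.mul (hhc.sub continuousAt_const)).tendsto).mono_left nhdsWithin_le_nhds
  have h3 := h1.add h2
  rw [sub_self, mul_zero, add_zero] at h3
  refine h3.congr' ?_
  rw [EventuallyEq, eventually_nhdsWithin_iff]
  filter_upwards [ball_mem_nhds p hε] with w hw hne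
  have hne' : w - p ≠ 0 := sub_ne_zero.2 hne
  rw [(hp w hw hne).2, slope_def_field]
  field_simp

private theorem moeb_bdd {G : FG Γ} {p q : ℂ} {k : ℂ → ℂ} {L : ℂ} (hp : ‖p‖ < 1)
    (h : Tendsto k (𝓝[≠] p) (𝓝 L)) :
    ∃ ε : ℝ, 0 < ε ∧ ∃ M : ℝ, ∀ w ∈ ball p ε, ‖w‖ < 1 → w ∉ G.orb p → ‖k w‖ ≤ M := by
  have h1 : ∀ᶠ w in 𝓝[≠] p, ‖k w‖ < ‖L‖ + 1 :=
    h.norm.eventually_lt_const (by linarith)
  rw [eventually_nhdsWithin_iff] at h1
  obtain ⟨ε, hε, hb⟩ := Metric.eventually_nhds_iff_ball.1 h1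
  refine ⟨ε, hε, ‖L‖ + 1, fun w hw _ ho => (hb w hw ?_).le⟩
  rintro rfl
  exact ho (G.orb_self hp)

/-- Let `g` be the function with pole at `q` (`exists_pole`), `p ∉ orb q`. `k = (f - f q) * g - g p * f` is invariant, holomorphic off the orbits, bounded near `p`
(`k = f (g - g p) - f q * g`, `f = 1/(z - p) + V`, `|g - g p| ≤ C |z - p|`) and near `q` (`|f - f q| ≤ C |z - q|`, `g = 1/(z - q) + V'`): by `const2` `k = κ`, i.e.
`(f - f q) g = g p * f + κ`. Suppose `deriv f q = 0`. Then `(f - f q) g → 0` at `q`, so `g p * f q + κ = 0` and `(f - f q)(g - g p) = 0` off the orbits. As `g → ∞` at `q`,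
`f = f q` in a punctured neighbourhood of `q`, so `f` is constant on the preconnected open set `disc \ orb p` (identity theorem,
`AnalyticOnNhd.eqOn_of_preconnected_of_eventuallyEq`, `orb_conn`), contradiction with the pole of `f` at `p`. -/
theorem deriv_ne (h0 : G.NoForm) {p : ℂ} (hp : ‖p‖ < 1) {f : ℂ → ℂ} (hf : IsPole G p f) {q : ℂ} (hq : ‖q‖ < 1)
    (hpq : q ∉ G.orb p) : deriv f q ≠ 0 := by
  intro hd
  have hqp : p ∉ G.orb q := fun h => hpq (G.orb_symm hq hp h)
  obtain ⟨g, hg⟩ := G.exists_pole h0 hq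
  have hop := G.orb_open hp
  have hoq := G.orb_open hq
  have hqm : q ∈ ball (0:ℂ) 1 \ G.orb p := ⟨mem_ball_zero_iff.2 hq, hpq⟩
  have hpm : p ∈ ball (0:ℂ) 1 \ G.orb q := ⟨mem_ball_zero_iff.2 hp, hqp⟩
  have hfq : DifferentiableAt ℂ f q := hf.diff.differentiableAt (hop.mem_nhds hqm)
  have hgp : DifferentiableAt ℂ g p := hg.diff.differentiableAt (hoq.mem_nhds hpm)
  -- the limits of k
  have hkp : Tendsto (fun z => (f z - f q) * g z - g p * f z) (𝓝[≠] p) (𝓝 (deriv g p - f q * g p)) := by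
    have h1 := moeb_tendsto hf hgp.hasDerivAt
    have h2 : Tendsto (fun z => f q * g z) (𝓝[≠] p) (𝓝 (f q * g p)) :=
      ((continuousAt_const.mul hgp.continuousAt).tendsto).mono_left nhdsWithin_le_nhds
    refine (h1.sub h2).congr fun z => ?_
    ring
  have hkq : Tendsto (fun z => (f z - f q) * g z - g p * f z) (𝓝[≠] q) (𝓝 (deriv f q - g p * f q)) := by
    have h1 := moeb_tendsto hg hfq.hasDerivAt
    have h2 : Tendsto (fun z => g p * f z) (𝓝[≠] q) (𝓝 (g p * f q)) :=
      ((continuousAt_const.mul hfq.continuousAt).tendsto).mono_left nhdsWithin_le_nhds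
    refine (h1.sub h2).congr fun z => ?_
    ring
  obtain ⟨κ, hκ⟩ := G.const2 hp hq (fun z => (f z - f q) * g z - g p * f z) (by
      have h1 : DifferentiableOn ℂ f (ball 0 1 \ (G.orb p ∪ G.orb q)) :=
        hf.diff.mono fun z hz => ⟨hz.1, fun h => hz.2 (Or.inl h)⟩
      have h2 : DifferentiableOn ℂ g (ball 0 1 \ (G.orb p ∪ G.orb q)) :=
        hg.diff.mono fun z hz => ⟨hz.1, fun h => hz.2 (Or.inr h)⟩
      exact ((h1.sub_const (f q)).mul h2).sub (h1.const_mul (g p)))
    (by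
      intro γ z hz h1 h2
      show (f (G.m γ z) - f q) * g (G.m γ z) - g p * f (G.m γ z) = (f z - f q) * g z - g p * f z
      rw [hf.inv γ z hz h1, hg.inv γ z hz h2])
    (by
      obtain ⟨ε, hε, M, hM⟩ := moeb_bdd (G := G) (q := q) hp hkp
      exact ⟨ε, hε, M, fun w hw h1 h2 _ => hM w hw h1 h2⟩)
    (by
      obtain ⟨ε, hε, M, hM⟩ := moeb_bdd (G := G) (q := p) hq hkq
      exact ⟨ε, hε, M, fun w hw h1 _ h2 => hM w hw h1 h2⟩)
  -- near `q` all points are off the orbits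
  have hoff : ∀ᶠ w in 𝓝[≠] q, w ∉ G.orb p ∧ w ∉ G.orb q ∧ ‖w‖ < 1 := by
    have h1 : ∀ᶠ w in 𝓝[≠] q, w ∈ ball (0:ℂ) 1 \ G.orb p :=
      nhdsWithin_le_nhds (hop.mem_nhds hqm)
    filter_upwards [h1, moeb_punct hg] with w h2 h3
    exact ⟨h2.2, h3.1, mem_ball_zero_iff.1 h2.1⟩
  have hκ' : κ = deriv f q - g p * f q := by
    refine tendsto_nhds_unique (Tendsto.congr' ?_ tendsto_const_nhds) hkq
    filter_upwards [hoff] with w hw
    exact (hκ w hw.2.2 hw.1 hw.2.1).symm
  rw [hd, zero_sub] at hκ'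
  -- `g` goes to infinity at `q`
  have hgne : ∀ᶠ w in 𝓝[≠] q, g w - g p ≠ 0 := by
    have h1 := moeb_tendsto hg (hasDerivAt_id q)
    have h2 : Tendsto (fun w : ℂ => g p * (w - q)) (𝓝[≠] q) (𝓝 (g p * (q - q))) :=
      ((continuousAt_const.mul (continuousAt_id.sub continuousAt_const)).tendsto).mono_left nhdsWithin_le_nhds
    have h3 := h1.sub h2
    rw [sub_self, mul_zero, sub_zero] at h3
    have h4 := h3.eventually_ne one_ne_zero
    filter_upwards [h4] with w hw h5
    apply hw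
    simp only [id]
    linear_combination (w - q) * h5
  have hev : f =ᶠ[𝓝 q] fun _ => f q := by
    have h1 : ∀ᶠ w in 𝓝[≠] q, f w = f q := by
      filter_upwards [hoff, hgne] with w hw hne
      have h2 := hκ w hw.2.2 hw.1 hw.2.1
      rw [hκ'] at h2
      have h3 : (f w - f q) * (g w - g p) = 0 := by linear_combination h2
      rcases mul_eq_zero.1 h3 with h4 | h4
      · exact sub_eq_zero.1 h4
      · exact absurd h4 hne
    rw [eventually_nhdsWithin_iff] at h1
    filter_upwards [h1] with w hw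
    by_cases h : w = q
    · rw [h]
    · exact hw h
  have heq : Set.EqOn f (fun _ => f q) (ball 0 1 \ G.orb p) :=
    (hf.diff.analyticOnNhd hop).eqOn_of_preconnected_of_eventuallyEq analyticOnNhd_const
      (G.orb_conn p) hqm hev
  -- contradiction at the pole of `f`
  have h1 := moeb_tendsto hf (hasDerivAt_id p)
  have h2 : Tendsto (fun w : ℂ => f q * (w - p)) (𝓝[≠] p) (𝓝 (f q * (p - p))) :=
    ((continuousAt_const.mul (continuousAt_id.sub continuousAt_const)).tendsto).mono_left nhdsWithin_le_nhds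
  have h3 : Tendsto (fun w => f w * (id w - id p)) (𝓝[≠] p) (𝓝 (f q * (p - p))) := by
    refine h2.congr' ?_
    filter_upwards [moeb_punct hf] with w hw
    rw [heq ⟨hw.2, hw.1⟩]
    rfl
  have h4 := tendsto_nhds_unique h1 h3
  rw [sub_self, mul_zero] at h4
  exact one_ne_zero h4

end FG

end Pool.Agent.DimDropF
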