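import Pool.Agent.Lib_MP_644907_f.POIS

/-!
# Piece PAIR: existence and continuity of the pairing
-/

set_option autoImplicit false

open Complex MeasureTheory Metric Filter
open scoped ContDiff Topology

namespace Pool.Agent.DimDropF

theorem rho_pos (j : ℕ) : 0 < rho j := Real.exp_pos _

theorem rho_lt (j : ℕ) : rho j < 1 := by
  unfold rho
  rw [Real.exp_lt_one_iff]
  have : (0 : ℝ) < (1 / 2) ^ j := by positivity
  linarith

theorem rho_sq (j : ℕ) : rho (j + 1) * rho (j + 1) = rho j := by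
  unfold rho
  rw [← Real.exp_add]
  congr 1
  rw [pow_succ]
  ring

/-- `1 - exp (-x) ≤ x` -/
theorem one_sub_rho (j : ℕ) : 1 - rho j ≤ (1 / 2) ^ j := by
  unfold rho
  have := Real.add_one_le_exp (-(1 / 2 : ℝ) ^ j)
  linarith

theorem rho_tendsto : Tendsto rho atTop (𝓝 1) := by
  have h1 : Tendsto (fun j : ℕ => (1 / 2 : ℝ) ^ j) atTop (𝓝 0) :=
    tendsto_pow_atTop_nhds_zero_of_lt_one (by norm_num) (by norm_num)
  have h2 := (Real.continuous_exp.tendsto (-0)).comp h1.neg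
  rw [neg_zero, Real.exp_zero] at h2
  exact h2

private theorem pair_norm (θ : ℝ) : ‖circleMap 0 1 θ‖ = 1 := by
  rw [norm_circleMap_zero, abs_one]

private theorem pair_phi_bd (φ : ℂ → ℝ) (al C : ℝ) (hal : 0 < al) (hφ : Hol φ al C) (θ : ℝ) :
    |φ (circleMap 0 1 θ)| ≤ |φ 1| + |C| * 2 ^ al := by
  have h1 := hφ (circleMap 0 1 θ) 1 (pair_norm θ) (by simp)
  have h2 : ‖circleMap 0 1 θ - 1‖ ≤ 2 := by
    refine (norm_sub_le _ _).trans ?_
    rw [pair_norm, norm_one]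
    norm_num
  have h3 : C * ‖circleMap 0 1 θ - 1‖ ^ al ≤ |C| * 2 ^ al := by
    have h4 : ‖circleMap 0 1 θ - 1‖ ^ al ≤ 2 ^ al := Real.rpow_le_rpow (norm_nonneg _) h2 hal.le
    exact (mul_le_mul_of_nonneg_right (le_abs_self C) (Real.rpow_nonneg (norm_nonneg _) _)).trans
      (mul_le_mul_of_nonneg_left h4 (abs_nonneg C))
  have h5 : |φ (circleMap 0 1 θ)| ≤ |φ 1| + |φ (circleMap 0 1 θ) - φ 1| := by
    have := abs_add_le (φ 1) (φ (circleMap 0 1 θ) - φ 1)
    rw [add_sub_cancel] at this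
    exact this
  linarith

private theorem pair_phi_cont (φ : ℂ → ℝ) (al C : ℝ) (hal : 0 < al) (hφ : Hol φ al C) :
    Continuous (fun θ : ℝ => φ (circleMap 0 1 θ)) := by
  rw [continuous_iff_continuousAt]
  intro θ₀
  unfold ContinuousAt
  rw [tendsto_iff_norm_sub_tendsto_zero]
  have h1 : Tendsto (fun θ : ℝ => C * ‖circleMap 0 1 θ - circleMap 0 1 θ₀‖ ^ al) (𝓝 θ₀) (𝓝 0) := by
    have h2 : Continuous (fun θ : ℝ => C * ‖circleMap 0 1 θ - circleMap 0 1 θ₀‖ ^ al) := by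
      apply continuous_const.mul
      apply Continuous.rpow_const
      · exact ((continuous_circleMap 0 1).sub continuous_const).norm
      · intro x
        right
        exact hal.le
    have h3 := h2.tendsto θ₀
    simp only [sub_self, norm_zero] at h3
    rw [Real.zero_rpow hal.ne', mul_zero] at h3
    exact h3
  refine squeeze_zero (fun θ => norm_nonneg _) (fun θ => ?_) h1
  exact hφ _ _ (pair_norm θ) (pair_norm θ₀)

/-- `pois` with `r = s = rho (j + 1)`, `M = B (1 - rho (j+1))^(-a)`: the difference of consecutive terms is at most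
`2π B C 2^(al/2) (1 - rho (j+1))^(al/2 - a) ≤ K' B (2^(-(al/2 - a)))^(j+1)`: geometric series; `|II φ (rho 0) k| ≤ 2π B (1 - rho 0)^(-a) max |φ|` (`φ` is bounded on the circle, by `hφ`) -/
theorem pair_step (φ : ℂ → ℝ) (al C : ℝ) (hal : 0 < al) (hal2 : al ≤ 2) (hC : 0 ≤ C) (hφ : Hol φ al C) (a : ℝ) (ha : 0 < a) (ha2 : a < al / 2) :
    ∃ K q : ℝ, 0 ≤ K ∧ 0 < q ∧ q < 1 ∧ ∀ (k : ℂ → ℂ) (B : ℝ), Hm k → 0 ≤ B → Gr k B a →
      (∀ j, ‖II φ (rho (j + 1)) k - II φ (rho j) k‖ ≤ K * B * q ^ j) ∧ ∀ j, ‖II φ (rho j) k‖ ≤ K * B := by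
  obtain ⟨q, hq⟩ : ∃ q : ℝ, q = (1 / 2 : ℝ) ^ (al / 2 - a) := ⟨_, rfl⟩
  have hq0 : 0 < q := by rw [hq]; positivity
  have hq1 : q < 1 := by
    rw [hq]
    exact Real.rpow_lt_one (by norm_num) (by norm_num) (by linarith)
  obtain ⟨K1, hK1⟩ : ∃ K1 : ℝ, K1 = 2 * Real.pi * (C * 2 ^ (al / 2)) := ⟨_, rfl⟩
  have hK10 : 0 ≤ K1 := by rw [hK1]; positivity
  obtain ⟨K0, hK0⟩ : ∃ K0 : ℝ, K0 = 2 * Real.pi * ((1 - rho 0) ^ (-a) * (|φ 1| + |C| * 2 ^ al)) := ⟨_, rfl⟩
  have hr0 : 0 < 1 - rho 0 := by linarith [rho_lt 0]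
  have hK00 : 0 ≤ K0 := by rw [hK0]; positivity
  have hdiv : 0 < 1 - q := by linarith
  have hK1q : K1 ≤ K1 / (1 - q) := by
    rw [le_div_iff₀ hdiv]
    nlinarith
  refine ⟨K0 + K1 / (1 - q), q, by positivity, hq0, hq1, ?_⟩
  intro k B hk hB hg
  have hstep : ∀ j, ‖II φ (rho (j + 1)) k - II φ (rho j) k‖ ≤ K1 * B * q ^ (j + 1) := by
    intro j
    obtain ⟨r, hr⟩ : ∃ r, r = rho (j + 1) := ⟨_, rfl⟩
    have hrp : 0 < r := by rw [hr]; exact rho_pos _
    have hrl : r < 1 := by rw [hr]; exact rho_lt _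
    have h1r : 0 < 1 - r := by linarith
    have h := pois φ al C hal hal2 hC hφ k hk r r hrp hrl hrp hrl (B * (1 - r) ^ (-a)) (fun z hz => by
      have := hg z (by rw [hz]; exact hrl)
      rw [hz] at this
      exact this)
    rw [show r * r = rho j by rw [hr]; exact rho_sq j] at h
    rw [← hr]
    refine h.trans ?_
    have e1 : (2 * (1 - r)) ^ (al / 2) = 2 ^ (al / 2) * (1 - r) ^ (al / 2) :=
      Real.mul_rpow (by norm_num) h1r.le
    have e2 : (1 - r) ^ (-a) * (1 - r) ^ (al / 2) = (1 - r) ^ (al / 2 - a) := by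
      rw [← Real.rpow_add h1r]
      congr 1
      ring
    have e3 : (1 - r) ^ (al / 2 - a) ≤ q ^ (j + 1) := by
      have h3 : (1 - r) ^ (al / 2 - a) ≤ ((1 / 2 : ℝ) ^ (j + 1)) ^ (al / 2 - a) :=
        Real.rpow_le_rpow h1r.le (by rw [hr]; exact one_sub_rho _) (by linarith)
      refine h3.trans (le_of_eq ?_)
      rw [hq, ← Real.rpow_natCast, ← Real.rpow_natCast, ← Real.rpow_mul (by norm_num),
        ← Real.rpow_mul (by norm_num), mul_comm]
    calc 2 * Real.pi * (B * (1 - r) ^ (-a) * (C * (2 * (1 - r)) ^ (al / 2)))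
        = K1 * B * ((1 - r) ^ (-a) * (1 - r) ^ (al / 2)) := by
          rw [e1, hK1]
          ring
      _ = K1 * B * (1 - r) ^ (al / 2 - a) := by rw [e2]
      _ ≤ K1 * B * q ^ (j + 1) := mul_le_mul_of_nonneg_left e3 (mul_nonneg hK10 hB)
  have h0 : ‖II φ (rho 0) k‖ ≤ K0 * B := by
    have h4 : ∀ θ ∈ Set.uIoc (0 : ℝ) (2 * Real.pi), ‖k (circleMap 0 (rho 0) θ) * (φ (circleMap 0 1 θ) : ℂ)‖ ≤
        B * (1 - rho 0) ^ (-a) * (|φ 1| + |C| * 2 ^ al) := by
      intro θ _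
      rw [norm_mul, Complex.norm_real, Real.norm_eq_abs]
      apply mul_le_mul _ (pair_phi_bd φ al C hal hφ θ) (abs_nonneg _) (by positivity)
      have h5 : ‖circleMap 0 (rho 0) θ‖ = rho 0 := by
        rw [norm_circleMap_zero, abs_of_pos (rho_pos 0)]
      have := hg (circleMap 0 (rho 0) θ) (by rw [h5]; exact rho_lt 0)
      rw [h5] at this
      exact this
    have h6 := intervalIntegral.norm_integral_le_of_norm_le_const h4
    unfold II
    refine h6.trans (le_of_eq ?_)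
    rw [sub_zero, abs_of_pos Real.two_pi_pos, hK0]
    ring
  refine ⟨fun j => ?_, fun j => ?_⟩
  · refine (hstep j).trans ?_
    have h7 : q ^ (j + 1) ≤ q ^ j := pow_le_pow_of_le_one hq0.le hq1.le (by omega)
    have h8 : K1 * B ≤ (K0 + K1 / (1 - q)) * B := mul_le_mul_of_nonneg_right (by linarith) hB
    exact mul_le_mul h8 h7 (by positivity) (by positivity)
  · have h9 : ∀ j, ‖II φ (rho j) k‖ ≤ K0 * B + K1 * B * ∑ i ∈ Finset.range j, q ^ i := by
      intro j
      induction j with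
      | zero => simpa using h0
      | succ j ih =>
        rw [Finset.sum_range_succ]
        have h10 := hstep j
        have h11 : ‖II φ (rho (j + 1)) k‖ ≤ ‖II φ (rho j) k‖ + ‖II φ (rho (j + 1)) k - II φ (rho j) k‖ := by
          have := norm_add_le (II φ (rho j) k) (II φ (rho (j + 1)) k - II φ (rho j) k)
          rw [add_sub_cancel] at this
          exact this
        have h12 : K1 * B * q ^ (j + 1) ≤ K1 * B * q ^ j :=
          mul_le_mul_of_nonneg_left (pow_le_pow_of_le_one hq0.le hq1.le (by omega)) (mul_nonneg hK10 hB)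
        linarith
    refine (h9 j).trans ?_
    have h13 : ∑ i ∈ Finset.range j, q ^ i ≤ 1 / (1 - q) := by
      rw [geom_sum_eq hq1.ne, ← neg_div_neg_eq, neg_sub, neg_sub]
      gcongr
      have := pow_pos hq0 j
      linarith
    calc K0 * B + K1 * B * ∑ i ∈ Finset.range j, q ^ i ≤ K0 * B + K1 * B * (1 / (1 - q)) := by gcongr
      _ = _ := by ring

theorem LL_tendsto (φ : ℂ → ℝ) (al C : ℝ) (hal : 0 < al) (hal2 : al ≤ 2) (hC : 0 ≤ C) (hφ : Hol φ al C) (a : ℝ) (ha : 0 < a) (ha2 : a < al / 2)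
    (k : ℂ → ℂ) (B : ℝ) (hk : Hm k) (hB : 0 ≤ B) (hg : Gr k B a) :
    Tendsto (fun j => II φ (rho j) k) atTop (𝓝 (LL φ k)) := by
  obtain ⟨K, q, hK, hq0, hq1, h⟩ := pair_step φ al C hal hal2 hC hφ a ha ha2
  have h1 := (h k B hk hB hg).1
  have h2 : CauchySeq (fun j => II φ (rho j) k) := by
    apply cauchySeq_of_le_geometric q (K * B) hq1
    intro j
    rw [dist_comm, dist_eq_norm]
    exact h1 j
  obtain ⟨x, hx⟩ := cauchySeq_tendsto_of_complete h2
  exact tendsto_nhds_limUnder ⟨x, hx⟩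

theorem LL_bound (φ : ℂ → ℝ) (al C : ℝ) (hal : 0 < al) (hal2 : al ≤ 2) (hC : 0 ≤ C) (hφ : Hol φ al C) (a : ℝ) (ha : 0 < a) (ha2 : a < al / 2) :
    ∃ K : ℝ, 0 ≤ K ∧ ∀ (k : ℂ → ℂ) (B : ℝ), Hm k → 0 ≤ B → Gr k B a → ‖LL φ k‖ ≤ K * B := by
  obtain ⟨K, q, hK, hq0, hq1, h⟩ := pair_step φ al C hal hal2 hC hφ a ha ha2
  refine ⟨K, hK, fun k B hk hB hg => ?_⟩
  exact le_of_tendsto' (LL_tendsto φ al C hal hal2 hC hφ a ha ha2 k B hk hB hg).norm (h k B hk hB hg).2

/-- uniform continuity of `k` on the closed disc -/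
theorem LL_cont (φ : ℂ → ℝ) (al C : ℝ) (hal : 0 < al) (hφ : Hol φ al C) (k : ℂ → ℂ) (hk : ContinuousOn k (closedBall 0 1)) :
    Tendsto (fun j => II φ (rho j) k) atTop (𝓝 (II φ 1 k)) := by
  obtain ⟨M, hM⟩ := (isCompact_closedBall (0 : ℂ) 1).exists_bound_of_continuousOn hk
  have hmem : ∀ (j : ℕ) (θ : ℝ), circleMap 0 (rho j) θ ∈ closedBall (0 : ℂ) 1 := by
    intro j θ
    rw [mem_closedBall_zero_iff, norm_circleMap_zero, abs_of_pos (rho_pos j)]
    exact (rho_lt j).le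
  have hmem1 : ∀ θ : ℝ, circleMap 0 1 θ ∈ closedBall (0 : ℂ) 1 := by
    intro θ
    rw [mem_closedBall_zero_iff, pair_norm]
  have hM0 : 0 ≤ M := (norm_nonneg _).trans (hM _ (hmem1 0))
  unfold II
  refine intervalIntegral.tendsto_integral_filter_of_dominated_convergence
    (fun _ => M * (|φ 1| + |C| * 2 ^ al)) ?_ ?_ ?_ ?_
  · refine Eventually.of_forall fun j => ?_
    have h1 : Continuous (fun θ : ℝ => k (circleMap 0 (rho j) θ) * (φ (circleMap 0 1 θ) : ℂ)) := by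
      apply Continuous.mul
      · exact hk.comp_continuous (continuous_circleMap 0 _) (hmem j)
      · exact Complex.continuous_ofReal.comp (pair_phi_cont φ al C hal hφ)
    exact h1.aestronglyMeasurable
  · refine Eventually.of_forall fun j => Eventually.of_forall fun θ _ => ?_
    rw [norm_mul, Complex.norm_real, Real.norm_eq_abs]
    exact mul_le_mul (hM _ (hmem j θ)) (pair_phi_bd φ al C hal hφ θ) (abs_nonneg _) hM0
  · exact intervalIntegrable_const
  · refine Eventually.of_forall fun θ _ => ?_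
    apply Tendsto.mul_const
    have h2 : Tendsto (fun j => circleMap 0 (rho j) θ) atTop (𝓝[closedBall 0 1] (circleMap 0 1 θ)) := by
      rw [tendsto_nhdsWithin_iff]
      refine ⟨?_, Eventually.of_forall fun j => hmem j θ⟩
      unfold circleMap
      have h3 : Tendsto (fun j => ((rho j : ℝ) : ℂ)) atTop (𝓝 ((1 : ℝ) : ℂ)) :=
        (Complex.continuous_ofReal.tendsto 1).comp rho_tendsto
      exact (h3.mul_const _).const_add _
    exact (hk _ (hmem1 θ)).tendsto.comp h2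

end Pool.Agent.DimDropF
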