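import Pool.Agent.Lib_MP_644907_f.MB
import Pool.Agent.Lib_MP_644907.IsoA

/-!
# PDEF: definitions for the pairing
-/

set_option autoImplicit false

open Complex MeasureTheory Metric Filter
open scoped ContDiff Topology

namespace Pool.Agent.DimDropF

open Pool.Agent.DimDrop (IsoD)

/-- holomorphic or antiholomorphic on the disc -/
def Hm (k : ℂ → ℂ) : Prop :=
  DifferentiableOn ℂ k (ball 0 1) ∨ DifferentiableOn ℂ (fun z => starRingEnd ℂ (k z)) (ball 0 1)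

/-- growth of order `a` -/
def Gr (k : ℂ → ℂ) (B a : ℝ) : Prop := ∀ z : ℂ, ‖z‖ < 1 → ‖k z‖ ≤ B * (1 - ‖z‖) ^ (-a)

/-- the integral of `k` over the circle of radius `r` against the density `φ` -/
noncomputable def II (φ : ℂ → ℝ) (r : ℝ) (k : ℂ → ℂ) : ℂ :=
  ∫ θ in (0:ℝ)..(2 * Real.pi), k (circleMap 0 r θ) * (φ (circleMap 0 1 θ) : ℂ)

/-- the radii; `rho (j+1) ^ 2 = rho j` -/
noncomputable def rho (j : ℕ) : ℝ := Real.exp (-(1 / 2) ^ j)

/-- the pairing -/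
noncomputable def LL (φ : ℂ → ℝ) (k : ℂ → ℂ) : ℂ := limUnder atTop (fun j => II φ (rho j) k)

/-- Hoelder continuity on the circle -/
def Hol (φ : ℂ → ℝ) (al C : ℝ) : Prop := ∀ z w : ℂ, ‖z‖ = 1 → ‖w‖ = 1 → |φ z - φ w| ≤ C * ‖z - w‖ ^ al

end Pool.Agent.DimDropF
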