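import Pool.Agent.Lib_MP_644907_f.PDEF

/-!
# Piece POIS: the main estimate of the pairing, from the Poisson integral formula
-/

set_option autoImplicit false

open Complex MeasureTheory Metric Filter
open scoped ContDiff Topology

namespace Pool.Agent.DimDropF

namespace PoisAux

lemma circ_mul (r s θ : ℝ) : circleMap 0 (r * s) θ = (r : ℂ) * circleMap 0 s θ := by
  simp only [circleMap_zero, Complex.ofReal_mul, mul_assoc]

lemma circ_one (r θ : ℝ) : circleMap 0 r θ = (r : ℂ) * circleMap 0 1 θ := by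
  rw [← circ_mul, mul_one]

lemma norm_circ (r θ : ℝ) (hr : 0 < r) : ‖circleMap 0 r θ‖ = r := by
  rw [norm_circleMap_zero, abs_of_pos hr]

lemma mem_ball_circ (s θ : ℝ) (hs : 0 < s) (hs1 : s < 1) : circleMap 0 s θ ∈ ball (0 : ℂ) 1 := by
  rw [mem_ball_zero_iff, norm_circ s θ hs]
  exact hs1

/-- The formula for holomorphic functions. -/
lemma repr_hol (k : ℂ → ℂ) (hk : DifferentiableOn ℂ k (ball 0 1)) (r s : ℝ) (hr : 0 < r)
    (hr1 : r < 1) (hs : 0 < s) (hs1 : s < 1) (θ : ℝ) :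
    k (circleMap 0 (r * s) θ) = (2 * Real.pi)⁻¹ *
      ∫ τ in (0:ℝ)..(2 * Real.pi), (poissonKernel 0 (circleMap 0 s θ) (circleMap 0 1 τ) : ℂ) *
        k (circleMap 0 r τ) := by
  have h1 : DiffContOnCl ℂ (fun w => k ((r : ℂ) * w)) (ball 0 1) := by
    apply DifferentiableOn.diffContOnCl_ball (U := closedBall (0 : ℂ) 1) _ le_rfl
    refine hk.comp ((differentiable_id.const_mul (r : ℂ)).differentiableOn) ?_
    intro z hz
    rw [mem_closedBall_zero_iff] at hz
    change (r : ℂ) * z ∈ ball (0 : ℂ) 1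
    rw [mem_ball_zero_iff, norm_mul, Complex.norm_real, Real.norm_eq_abs, abs_of_pos hr]
    nlinarith [norm_nonneg z]
  have h2 := h1.circleAverage_poissonKernel_smul (mem_ball_circ s θ hs hs1)
  rw [circ_mul, ← h2, Real.circleAverage_def]
  rw [Complex.real_smul]
  congr 1
  refine intervalIntegral.integral_congr fun τ _ => ?_
  change poissonKernel 0 (circleMap 0 s θ) (circleMap 0 1 τ) • k ((r : ℂ) * circleMap 0 1 τ) = _
  rw [Complex.real_smul, ← circ_one]

end PoisAux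

open PoisAux

/-- Poisson integral formula of `Mathlib/Analysis/Complex/Poisson.lean` (`DiffContOnCl.circleAverage_poissonKernel_smul`) for `w ↦ k (r w)` (holomorphic near the closed unit disc), at the point
`s e^{iθ}`; for antiholomorphic `k` take conjugates (the kernel is real). -/
theorem poisson_repr (k : ℂ → ℂ) (hk : Hm k) (r s : ℝ) (hr : 0 < r) (hr1 : r < 1) (hs : 0 < s) (hs1 : s < 1) (θ : ℝ) :
    k (circleMap 0 (r * s) θ) = (2 * Real.pi)⁻¹ *
      ∫ τ in (0:ℝ)..(2 * Real.pi), (poissonKernel 0 (circleMap 0 s θ) (circleMap 0 1 τ) : ℂ) * k (circleMap 0 r τ) := by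
  rcases hk with hk | hk
  · exact repr_hol k hk r s hr hr1 hs hs1 θ
  · have h1 := repr_hol _ hk r s hr hr1 hs hs1 θ
    have h2 := congrArg (starRingEnd ℂ) h1
    rw [Complex.conj_conj, map_mul, ← intervalIntegral.intervalIntegral_conj] at h2
    rw [h2]
    congr 1
    · exact Complex.conj_ofReal _
    · refine intervalIntegral.integral_congr fun τ _ => ?_
      simp only [map_mul, Complex.conj_conj, Complex.conj_ofReal]

/-- symmetry of the kernel: `(1 - s^2) / |e^{iτ} - s e^{iθ}|^2` -/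
theorem poisson_symm (s : ℝ) (θ τ : ℝ) : poissonKernel 0 (circleMap 0 s θ) (circleMap 0 1 τ) =
    poissonKernel 0 (circleMap 0 s τ) (circleMap 0 1 θ) := by
  unfold poissonKernel
  simp only [sub_zero, norm_circleMap_zero]
  congr 1
  rw [← Complex.normSq_eq_norm_sq, ← Complex.normSq_eq_norm_sq, Complex.normSq_apply,
    Complex.normSq_apply]
  simp only [circleMap_zero, Complex.sub_re, Complex.sub_im, Complex.mul_re, Complex.mul_im,
    Complex.ofReal_re, Complex.ofReal_im, Complex.exp_ofReal_mul_I_re,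
    Complex.exp_ofReal_mul_I_im]
  linear_combination (1 - s ^ 2) * Real.sin_sq_add_cos_sq τ - (1 - s ^ 2) *
    Real.sin_sq_add_cos_sq θ

theorem poisson_nonneg (s : ℝ) (hs : 0 < s) (hs1 : s < 1) (θ τ : ℝ) : 0 ≤ poissonKernel 0 (circleMap 0 s θ) (circleMap 0 1 τ) := by
  unfold poissonKernel
  simp only [sub_zero, norm_circleMap_zero]
  apply div_nonneg _ (sq_nonneg _)
  rw [abs_of_pos hs, abs_one]
  nlinarith

namespace PoisAux

lemma continuous_circ (r : ℝ) : Continuous (fun τ : ℝ => circleMap 0 r τ) := by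
  simp only [circleMap_zero]
  fun_prop

lemma continuous_P' {X : Type*} [TopologicalSpace X] (s : ℝ) (hs : 0 < s) (hs1 : s < 1)
    (f g : X → ℝ) (hf : Continuous f) (hg : Continuous g) : Continuous (fun p : X =>
    poissonKernel 0 (circleMap 0 s (f p)) (circleMap 0 1 (g p))) := by
  unfold poissonKernel
  have c1 : Continuous (fun p : X => circleMap 0 s (f p)) :=
    (continuous_circ s).comp hf
  have c2 : Continuous (fun p : X => circleMap 0 1 (g p)) :=
    (continuous_circ 1).comp hg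
  simp only [sub_zero]
  refine Continuous.div ((c2.norm.pow 2).sub (c1.norm.pow 2)) ((c2.sub c1).norm.pow 2) ?_
  intro p
  apply pow_ne_zero
  rw [norm_ne_zero_iff, sub_ne_zero]
  intro h
  have h2 := congrArg norm h
  rw [norm_circ 1 _ one_pos, norm_circ s _ hs] at h2
  linarith

lemma continuous_Pr (s : ℝ) (hs : 0 < s) (hs1 : s < 1) (θ : ℝ) : Continuous (fun τ : ℝ =>
    poissonKernel 0 (circleMap 0 s θ) (circleMap 0 1 τ)) :=
  continuous_P' s hs hs1 (fun _ => θ) (fun τ => τ) continuous_const continuous_id'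

lemma continuous_P (s : ℝ) (hs : 0 < s) (hs1 : s < 1) : Continuous (fun p : ℝ × ℝ =>
    poissonKernel 0 (circleMap 0 s p.1) (circleMap 0 1 p.2)) :=
  continuous_P' s hs hs1 (fun p : ℝ × ℝ => p.1) (fun p => p.2) continuous_fst continuous_snd

/-- Fubini for continuous functions. -/
lemma fub (f : ℝ → ℝ → ℂ) (hf : Continuous (Function.uncurry f)) (a b : ℝ) (hab : a ≤ b) :
    ∫ x in a..b, ∫ y in a..b, f x y = ∫ y in a..b, ∫ x in a..b, f x y := by
  simp only [intervalIntegral.integral_of_le hab]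
  apply MeasureTheory.integral_integral_swap
  rw [MeasureTheory.Measure.prod_restrict]
  have h := hf.continuousOn.integrableOn_compact (μ := (volume : Measure ℝ).prod volume)
    ((isCompact_Icc (a := a) (b := b)).prod (isCompact_Icc (a := a) (b := b)))
  exact h.mono_set (Set.prod_mono Set.Ioc_subset_Icc_self Set.Ioc_subset_Icc_self)

end PoisAux

/-- `poisson_repr`-type formula for the constant function 1 -/
theorem poisson_one (s : ℝ) (hs : 0 < s) (hs1 : s < 1) (θ : ℝ) :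
    ∫ τ in (0:ℝ)..(2 * Real.pi), poissonKernel 0 (circleMap 0 s θ) (circleMap 0 1 τ) = 2 * Real.pi := by
  have h := repr_hol (fun _ => 1) (differentiableOn_const _) (1 / 2) s (by norm_num)
    (by norm_num) hs hs1 θ
  simp only [mul_one] at h
  rw [intervalIntegral.integral_ofReal] at h
  have hpi := Real.pi_pos
  obtain ⟨J, hJ⟩ : ∃ J : ℝ, ∫ τ in (0:ℝ)..(2 * Real.pi),
      poissonKernel 0 (circleMap 0 s θ) (circleMap 0 1 τ) = J := ⟨_, rfl⟩
  rw [hJ] at h ⊢
  have h2 : (1 : ℝ) = (2 * Real.pi)⁻¹ * J := by exact_mod_cast h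
  field_simp at h2
  linarith

/-- `|e^{iτ} - e^{iθ}|^2 = 2 - 2 Re (e^{iτ} e^{-iθ})`; the Poisson formula for the holomorphic function `w ↦ w e^{-iθ}` gives `2 - 2 s` -/
theorem poisson_sq (s : ℝ) (hs : 0 < s) (hs1 : s < 1) (θ : ℝ) :
    ∫ τ in (0:ℝ)..(2 * Real.pi), poissonKernel 0 (circleMap 0 s θ) (circleMap 0 1 τ) * ‖circleMap 0 1 τ - circleMap 0 1 θ‖ ^ 2 =
      2 * Real.pi * (2 * (1 - s)) := by
  have hpi := Real.pi_pos
  obtain ⟨c, hc⟩ : ∃ c, starRingEnd ℂ (circleMap 0 1 θ) = c := ⟨_, rfl⟩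
  have hcc : circleMap 0 1 θ * c = 1 := by
    rw [← hc, Complex.mul_conj, Complex.normSq_eq_norm_sq, norm_circ 1 _ one_pos]
    norm_num
  have h := repr_hol (fun z => z * c) (by fun_prop) (1 / 2) s (by norm_num)
    (by norm_num) hs hs1 θ
  have h1 : ∫ τ in (0:ℝ)..(2 * Real.pi), ((poissonKernel 0 (circleMap 0 s θ) (circleMap 0 1 τ) : ℝ) : ℂ) *
      (circleMap 0 1 τ * c) = 2 * Real.pi * s := by
    have h2 : ∫ τ in (0:ℝ)..(2 * Real.pi), ((poissonKernel 0 (circleMap 0 s θ) (circleMap 0 1 τ) : ℝ) : ℂ) *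
        (circleMap 0 (1 / 2) τ * c) = (1 / 2) * ∫ τ in (0:ℝ)..(2 * Real.pi),
          ((poissonKernel 0 (circleMap 0 s θ) (circleMap 0 1 τ) : ℝ) : ℂ) *
            (circleMap 0 1 τ * c) := by
      rw [← intervalIntegral.integral_const_mul]
      refine intervalIntegral.integral_congr fun τ _ => ?_
      change _ = (1 / 2) * _
      rw [circ_one (1 / 2) τ]
      push_cast
      ring
    have h3 : circleMap 0 (1 / 2 * s) θ * c = (1 / 2) * s := by
      rw [circ_one, mul_assoc, hcc]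
      push_cast
      ring
    obtain ⟨J, hJ⟩ : ∃ J : ℂ, ∫ τ in (0:ℝ)..(2 * Real.pi),
      ((poissonKernel 0 (circleMap 0 s θ) (circleMap 0 1 τ) : ℝ) : ℂ) *
        (circleMap 0 1 τ * c) = J := ⟨_, rfl⟩
    rw [h2, h3, hJ] at h
    rw [hJ]
    have hpi' : (Real.pi : ℂ) ≠ 0 := by exact_mod_cast hpi.ne'
    push_cast at h
    have h10 : (2 * (Real.pi : ℂ)) * (2 * (Real.pi : ℂ))⁻¹ = 1 :=
      mul_inv_cancel₀ (mul_ne_zero two_ne_zero hpi')
    linear_combination (-4 * (Real.pi : ℂ)) * h - J * h10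
  have h4 : ∀ τ : ℝ, poissonKernel 0 (circleMap 0 s θ) (circleMap 0 1 τ) *
      ‖circleMap 0 1 τ - circleMap 0 1 θ‖ ^ 2 =
      2 * poissonKernel 0 (circleMap 0 s θ) (circleMap 0 1 τ) -
      2 * (((poissonKernel 0 (circleMap 0 s θ) (circleMap 0 1 τ) : ℝ) : ℂ) *
        (circleMap 0 1 τ * c)).re := by
    intro τ
    have h5 : ‖circleMap 0 1 τ - circleMap 0 1 θ‖ ^ 2 = 2 - 2 * (circleMap 0 1 τ * c).re := by
      rw [← Complex.normSq_eq_norm_sq, Complex.normSq_sub, hc, Complex.normSq_eq_norm_sq,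
        Complex.normSq_eq_norm_sq, norm_circ 1 _ one_pos, norm_circ 1 _ one_pos]
      norm_num
    rw [h5, Complex.re_ofReal_mul]
    ring
  have hc1 := continuous_Pr s hs hs1 θ
  have hc2 : Continuous (fun τ : ℝ => ((poissonKernel 0 (circleMap 0 s θ) (circleMap 0 1 τ) : ℝ) : ℂ) *
        (circleMap 0 1 τ * c)) :=
    (Complex.continuous_ofReal.comp hc1).mul ((continuous_circ 1).mul continuous_const)
  have h6 := congrArg Complex.re h1
  have h7 := Complex.reCLM.intervalIntegral_comp_comm (hc2.intervalIntegrable (μ := volume) 0 (2 * Real.pi))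
  have h8 : (∫ τ in (0:ℝ)..(2 * Real.pi), (((poissonKernel 0 (circleMap 0 s θ) (circleMap 0 1 τ) : ℝ) : ℂ) *
      (circleMap 0 1 τ * c)).re) = 2 * Real.pi * s := by
    have h9 : (2 * (Real.pi : ℂ) * (s : ℂ)).re = 2 * Real.pi * s := by
      have : (2 * (Real.pi : ℂ) * (s : ℂ)) = ((2 * Real.pi * s : ℝ) : ℂ) := by push_cast; rfl
      rw [this, Complex.ofReal_re]
    rw [← h9, ← h6]
    exact h7
  simp only [h4]
  rw [intervalIntegral.integral_sub, intervalIntegral.integral_const_mul,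
    intervalIntegral.integral_const_mul, h8, poisson_one s hs hs1 θ]
  · ring
  · exact (hc1.const_mul 2).intervalIntegrable _ _
  · exact ((Complex.continuous_re.comp hc2).const_mul 2).intervalIntegrable _ _

/-- for `x ≥ 0`, `0 < al ≤ 2`, `L > 0`: `x^al ≤ (al/2) L^(al-2) x^2 + (1 - al/2) L^al` (weighted AM-GM, `Real.geom_mean_le_arith_mean2_weighted`), with `L^2 = 2 (1 - s)` -/
theorem poisson_al (s : ℝ) (hs : 0 < s) (hs1 : s < 1) (al : ℝ) (hal : 0 < al) (hal2 : al ≤ 2) (θ : ℝ) :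
    ∫ τ in (0:ℝ)..(2 * Real.pi), poissonKernel 0 (circleMap 0 s θ) (circleMap 0 1 τ) * ‖circleMap 0 1 τ - circleMap 0 1 θ‖ ^ al ≤
      2 * Real.pi * (2 * (1 - s)) ^ (al / 2) := by
  have hpi := Real.pi_pos
  obtain ⟨D, hD⟩ : ∃ D : ℝ, 2 * (1 - s) = D := ⟨_, rfl⟩
  have hD0 : 0 < D := by rw [← hD]; linarith
  obtain ⟨t, ht⟩ : ∃ t : ℝ, al / 2 = t := ⟨_, rfl⟩
  have ht0 : 0 < t := by rw [← ht]; linarith
  have ht1 : t ≤ 1 := by rw [← ht]; linarith
  rw [hD, ht]
  have key : ∀ x : ℝ, 0 ≤ x → x ^ al ≤ D ^ (t - 1) * (t * x ^ 2 + (1 - t) * D) := by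
    intro x hx
    have h1 := Real.geom_mean_le_arith_mean2_weighted ht0.le (sub_nonneg.2 ht1) (sq_nonneg x)
      hD0.le (by ring)
    have h2 : (x ^ 2) ^ t = x ^ al := by
      rw [← Real.rpow_natCast x 2, ← Real.rpow_mul hx]
      congr 1
      rw [← ht]
      push_cast
      ring
    rw [h2] at h1
    have h3 : D ^ (t - 1) * D ^ (1 - t) = 1 := by
      rw [← Real.rpow_add hD0]
      rw [show t - 1 + (1 - t) = 0 by ring, Real.rpow_zero]
    calc x ^ al = D ^ (t - 1) * (x ^ al * D ^ (1 - t)) := by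
          rw [mul_comm (x ^ al), ← mul_assoc, h3, one_mul]
      _ ≤ _ := mul_le_mul_of_nonneg_left h1 (Real.rpow_nonneg hD0.le _)
  have hc1 := continuous_Pr s hs hs1 θ
  have hcn : Continuous (fun τ : ℝ => ‖circleMap 0 1 τ - circleMap 0 1 θ‖) :=
    ((continuous_circ 1).sub continuous_const).norm
  calc ∫ τ in (0:ℝ)..(2 * Real.pi), poissonKernel 0 (circleMap 0 s θ) (circleMap 0 1 τ) *
        ‖circleMap 0 1 τ - circleMap 0 1 θ‖ ^ al
      ≤ ∫ τ in (0:ℝ)..(2 * Real.pi), ((D ^ (t - 1) * t) *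
        (poissonKernel 0 (circleMap 0 s θ) (circleMap 0 1 τ) *
          ‖circleMap 0 1 τ - circleMap 0 1 θ‖ ^ 2) + (D ^ (t - 1) * ((1 - t) * D)) *
          poissonKernel 0 (circleMap 0 s θ) (circleMap 0 1 τ)) := by
        apply intervalIntegral.integral_mono_on (by positivity)
        · exact (hc1.mul (hcn.rpow_const fun _ => Or.inr hal.le)).intervalIntegrable _ _
        · exact (((hc1.mul (hcn.pow 2)).const_mul _).add (hc1.const_mul _)).intervalIntegrable _ _
        · intro τ _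
          have h1 := key _ (norm_nonneg (circleMap 0 1 τ - circleMap 0 1 θ))
          have h2 := mul_le_mul_of_nonneg_left h1 (poisson_nonneg s hs hs1 θ τ)
          refine h2.trans (le_of_eq ?_)
          ring
    _ = (D ^ (t - 1) * t) * (2 * Real.pi * D) + (D ^ (t - 1) * ((1 - t) * D)) * (2 * Real.pi) := by
        rw [intervalIntegral.integral_add, intervalIntegral.integral_const_mul,
          intervalIntegral.integral_const_mul, poisson_sq s hs hs1 θ, poisson_one s hs hs1 θ, hD]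
        · exact ((hc1.mul (hcn.pow 2)).const_mul _).intervalIntegrable _ _
        · exact (hc1.const_mul _).intervalIntegrable _ _
    _ = 2 * Real.pi * (D ^ (t - 1) * D) := by ring
    _ = 2 * Real.pi * D ^ t := by
        rw [← Real.rpow_add_one hD0.ne', sub_add_cancel]
    _ ≤ 2 * Real.pi * D ^ t := le_rfl

namespace PoisAux

lemma continuous_k (k : ℂ → ℂ) (hk : Hm k) (r : ℝ) (hr : 0 < r) (hr1 : r < 1) :
    Continuous (fun τ : ℝ => k (circleMap 0 r τ)) := by
  have h1 : ContinuousOn k (ball 0 1) := by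
    rcases hk with hk | hk
    · exact hk.continuousOn
    · have h2 : ContinuousOn (fun z => starRingEnd ℂ (starRingEnd ℂ (k z))) (ball 0 1) :=
        Complex.continuous_conj.comp_continuousOn hk.continuousOn
      simpa only [Complex.conj_conj] using h2
  exact h1.comp_continuous (continuous_circ r) fun τ => mem_ball_circ r τ hr hr1

lemma continuous_phi (φ : ℂ → ℝ) (al C : ℝ) (hal : 0 < al) (hφ : Hol φ al C) :
    Continuous (fun τ : ℝ => φ (circleMap 0 1 τ)) := by
  rw [continuous_iff_continuousAt]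
  intro τ0
  rw [ContinuousAt, tendsto_iff_dist_tendsto_zero]
  have hcn : Continuous (fun τ : ℝ => C * ‖circleMap 0 1 τ - circleMap 0 1 τ0‖ ^ al) :=
    (((continuous_circ 1).sub continuous_const).norm.rpow_const fun _ => Or.inr hal.le).const_mul C
  have h1 := hcn.tendsto τ0
  simp only [sub_self, norm_zero, Real.zero_rpow hal.ne', mul_zero] at h1
  refine squeeze_zero (fun _ => dist_nonneg) (fun τ => ?_) h1
  rw [Real.dist_eq]
  exact hφ _ _ (norm_circ 1 _ one_pos) (norm_circ 1 _ one_pos)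

end PoisAux

/-- `II φ (r s) k = (1/2π) ∫∫ P(θ, τ) k (r e^{iτ}) φ (e^{iθ}) dτ dθ` (`poisson_repr`), Fubini (continuous functions), `poisson_symm`, `poisson_one`:
`II φ r k - II φ (r s) k = (1/2π) ∫ k (r e^{iτ}) ∫ P(τ, θ) (φ (e^{iτ}) - φ (e^{iθ})) dθ dτ`, and `poisson_al` -/
theorem pois (φ : ℂ → ℝ) (al C : ℝ) (hal : 0 < al) (hal2 : al ≤ 2) (hC : 0 ≤ C) (hφ : Hol φ al C) (k : ℂ → ℂ) (hk : Hm k)
    (r s : ℝ) (hr : 0 < r) (hr1 : r < 1) (hs : 0 < s) (hs1 : s < 1) (M : ℝ) (hM : ∀ z : ℂ, ‖z‖ = r → ‖k z‖ ≤ M) :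
    ‖II φ r k - II φ (r * s) k‖ ≤ 2 * Real.pi * (M * (C * (2 * (1 - s)) ^ (al / 2))) := by
  have hpi := Real.pi_pos
  have h2pi : (0 : ℝ) ≤ 2 * Real.pi := by positivity
  have hM0 : 0 ≤ M := (norm_nonneg _).trans (hM (circleMap 0 r 0) (norm_circ r 0 hr))
  obtain ⟨D, hD⟩ : ∃ D : ℝ, (2 * (1 - s)) ^ (al / 2) = D := ⟨_, rfl⟩
  have hD0 : 0 ≤ D := by
    rw [← hD]
    exact Real.rpow_nonneg (by linarith) _
  have ck := continuous_k k hk r hr hr1
  have cp := continuous_phi φ al C hal hφ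
  have cP := continuous_P s hs hs1
  -- the kernel
  let P : ℝ → ℝ → ℝ := fun θ τ => poissonKernel 0 (circleMap 0 s θ) (circleMap 0 1 τ)
  have hPs : ∀ θ τ, P θ τ = P τ θ := fun θ τ => poisson_symm s θ τ
  have e1 : II φ (r * s) k = (2 * Real.pi)⁻¹ * ∫ τ in (0:ℝ)..(2 * Real.pi),
      ∫ θ in (0:ℝ)..(2 * Real.pi), k (circleMap 0 r τ) * ((P τ θ : ℝ) : ℂ) *
        ((φ (circleMap 0 1 θ) : ℝ) : ℂ) := by
    unfold II
    rw [← fub (fun θ τ => k (circleMap 0 r τ) * ((P τ θ : ℝ) : ℂ) *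
        ((φ (circleMap 0 1 θ) : ℝ) : ℂ)) _ 0 (2 * Real.pi) h2pi,
        ← intervalIntegral.integral_const_mul]
    · refine intervalIntegral.integral_congr fun θ _ => ?_
      change k (circleMap 0 (r * s) θ) * ((φ (circleMap 0 1 θ) : ℝ) : ℂ) = (2 * Real.pi)⁻¹ * _
      rw [poisson_repr k hk r s hr hr1 hs hs1 θ, mul_assoc, ← intervalIntegral.integral_mul_const]
      congr 1
      refine intervalIntegral.integral_congr fun τ _ => ?_
      change ((P θ τ : ℝ) : ℂ) * _ * _ = _ * ((P τ θ : ℝ) : ℂ) * _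
      rw [hPs θ τ]
      ring
    · refine ((ck.comp continuous_snd).mul (Complex.continuous_ofReal.comp
        (cP.comp continuous_swap))).mul (Complex.continuous_ofReal.comp (cp.comp continuous_fst))
  have e2 : II φ r k = (2 * Real.pi)⁻¹ * ∫ τ in (0:ℝ)..(2 * Real.pi),
      ∫ θ in (0:ℝ)..(2 * Real.pi), k (circleMap 0 r τ) * ((P τ θ : ℝ) : ℂ) *
        ((φ (circleMap 0 1 τ) : ℝ) : ℂ) := by
    unfold II
    rw [← intervalIntegral.integral_const_mul]
    refine intervalIntegral.integral_congr fun τ _ => ?_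
    change k (circleMap 0 r τ) * ((φ (circleMap 0 1 τ) : ℝ) : ℂ) = (2 * Real.pi)⁻¹ *
      ∫ θ in (0:ℝ)..(2 * Real.pi), k (circleMap 0 r τ) * ((P τ θ : ℝ) : ℂ) *
        ((φ (circleMap 0 1 τ) : ℝ) : ℂ)
    rw [intervalIntegral.integral_mul_const, intervalIntegral.integral_const_mul,
      intervalIntegral.integral_ofReal, poisson_one s hs hs1 τ]
    have hpi' : (Real.pi : ℂ) ≠ 0 := by exact_mod_cast hpi.ne'
    push_cast
    field_simp
  have cint : ∀ τ : ℝ, Continuous (fun θ : ℝ => k (circleMap 0 r τ) * ((P τ θ : ℝ) : ℂ) *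
        ((φ (circleMap 0 1 τ) : ℝ) : ℂ)) := fun τ =>
    (continuous_const.mul (Complex.continuous_ofReal.comp (continuous_Pr s hs hs1 τ))).mul
      continuous_const
  have cint2 : ∀ τ : ℝ, Continuous (fun θ : ℝ => k (circleMap 0 r τ) * ((P τ θ : ℝ) : ℂ) *
        ((φ (circleMap 0 1 θ) : ℝ) : ℂ)) := fun τ =>
    (continuous_const.mul (Complex.continuous_ofReal.comp (continuous_Pr s hs hs1 τ))).mul
      (Complex.continuous_ofReal.comp cp)
  have couter1 : Continuous (fun τ : ℝ => ∫ θ in (0:ℝ)..(2 * Real.pi), k (circleMap 0 r τ) *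
      ((P τ θ : ℝ) : ℂ) * ((φ (circleMap 0 1 τ) : ℝ) : ℂ)) := by
    apply intervalIntegral.continuous_parametric_intervalIntegral_of_continuous' (f := fun τ θ =>
      k (circleMap 0 r τ) * ((P τ θ : ℝ) : ℂ) * ((φ (circleMap 0 1 τ) : ℝ) : ℂ))
    exact ((ck.comp continuous_fst).mul (Complex.continuous_ofReal.comp cP)).mul
      (Complex.continuous_ofReal.comp (cp.comp continuous_fst))
  have couter2 : Continuous (fun τ : ℝ => ∫ θ in (0:ℝ)..(2 * Real.pi), k (circleMap 0 r τ) *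
      ((P τ θ : ℝ) : ℂ) * ((φ (circleMap 0 1 θ) : ℝ) : ℂ)) := by
    apply intervalIntegral.continuous_parametric_intervalIntegral_of_continuous' (f := fun τ θ =>
      k (circleMap 0 r τ) * ((P τ θ : ℝ) : ℂ) * ((φ (circleMap 0 1 θ) : ℝ) : ℂ))
    exact ((ck.comp continuous_fst).mul (Complex.continuous_ofReal.comp cP)).mul
      (Complex.continuous_ofReal.comp (cp.comp continuous_snd))
  rw [e1, e2, ← mul_sub, ← intervalIntegral.integral_sub
    (couter1.intervalIntegrable _ _) (couter2.intervalIntegrable _ _)]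
  have h5 : ∀ τ ∈ Set.uIoc (0 : ℝ) (2 * Real.pi), ‖(∫ θ in (0:ℝ)..(2 * Real.pi), k (circleMap 0 r τ) *
      ((P τ θ : ℝ) : ℂ) * ((φ (circleMap 0 1 τ) : ℝ) : ℂ)) - ∫ θ in (0:ℝ)..(2 * Real.pi),
        k (circleMap 0 r τ) * ((P τ θ : ℝ) : ℂ) * ((φ (circleMap 0 1 θ) : ℝ) : ℂ)‖ ≤
      M * (C * (2 * Real.pi * D)) := by
    intro τ _
    rw [← intervalIntegral.integral_sub ((cint τ).intervalIntegrable _ _)
      ((cint2 τ).intervalIntegrable _ _)]
    have hcn : Continuous (fun θ : ℝ => ‖circleMap 0 1 θ - circleMap 0 1 τ‖) :=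
      ((continuous_circ 1).sub continuous_const).norm
    calc ‖∫ θ in (0:ℝ)..(2 * Real.pi), (k (circleMap 0 r τ) *
          ((P τ θ : ℝ) : ℂ) * ((φ (circleMap 0 1 τ) : ℝ) : ℂ) -
          k (circleMap 0 r τ) * ((P τ θ : ℝ) : ℂ) * ((φ (circleMap 0 1 θ) : ℝ) : ℂ))‖
        ≤ ∫ θ in (0:ℝ)..(2 * Real.pi), ‖k (circleMap 0 r τ) *
          ((P τ θ : ℝ) : ℂ) * ((φ (circleMap 0 1 τ) : ℝ) : ℂ) -
          k (circleMap 0 r τ) * ((P τ θ : ℝ) : ℂ) * ((φ (circleMap 0 1 θ) : ℝ) : ℂ)‖ :=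
          intervalIntegral.norm_integral_le_integral_norm h2pi
      _ ≤ ∫ θ in (0:ℝ)..(2 * Real.pi), (M * C) *
          (P τ θ * ‖circleMap 0 1 θ - circleMap 0 1 τ‖ ^ al) := by
          apply intervalIntegral.integral_mono_on h2pi
          · exact ((cint τ).sub (cint2 τ)).norm.intervalIntegrable _ _
          · exact (((continuous_Pr s hs hs1 τ).mul (hcn.rpow_const fun _ =>
              Or.inr hal.le)).const_mul _).intervalIntegrable _ _
          · intro θ _
            have h6 : k (circleMap 0 r τ) * ((P τ θ : ℝ) : ℂ) * ((φ (circleMap 0 1 τ) : ℝ) : ℂ) -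
                k (circleMap 0 r τ) * ((P τ θ : ℝ) : ℂ) * ((φ (circleMap 0 1 θ) : ℝ) : ℂ) =
                k (circleMap 0 r τ) * ((P τ θ * (φ (circleMap 0 1 τ) - φ (circleMap 0 1 θ)) : ℝ) : ℂ) := by
              push_cast
              ring
            have hP0 : 0 ≤ P τ θ := poisson_nonneg s hs hs1 τ θ
            rw [h6, norm_mul, Complex.norm_real, Real.norm_eq_abs, abs_mul, abs_of_nonneg hP0]
            have h7 := hM (circleMap 0 r τ) (norm_circ r τ hr)
            have h8 := hφ (circleMap 0 1 τ) (circleMap 0 1 θ) (norm_circ 1 _ one_pos)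
              (norm_circ 1 _ one_pos)
            rw [norm_sub_rev (circleMap 0 1 τ)] at h8
            calc ‖k (circleMap 0 r τ)‖ * (P τ θ * |φ (circleMap 0 1 τ) - φ (circleMap 0 1 θ)|)
                ≤ M * (P τ θ * (C * ‖circleMap 0 1 θ - circleMap 0 1 τ‖ ^ al)) := by
                  apply mul_le_mul h7 (mul_le_mul_of_nonneg_left h8 hP0) (by positivity) hM0
              _ = _ := by ring
      _ = (M * C) * ∫ θ in (0:ℝ)..(2 * Real.pi),
          (P τ θ * ‖circleMap 0 1 θ - circleMap 0 1 τ‖ ^ al) := by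
          rw [intervalIntegral.integral_const_mul]
      _ ≤ (M * C) * (2 * Real.pi * D) := by
          rw [← hD]
          exact mul_le_mul_of_nonneg_left (poisson_al s hs hs1 al hal hal2 τ) (by positivity)
      _ = M * (C * (2 * Real.pi * D)) := by ring
  have h9 := intervalIntegral.norm_integral_le_of_norm_le_const h5
  rw [norm_mul]
  rw [Complex.norm_real, Real.norm_eq_abs, abs_of_pos (by positivity : (0 : ℝ) < (2 * Real.pi)⁻¹),
    hD]
  calc (2 * Real.pi)⁻¹ * _ ≤ (2 * Real.pi)⁻¹ * (M * (C * (2 * Real.pi * D)) * |2 * Real.pi - 0|) :=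
        mul_le_mul_of_nonneg_left h9 (by positivity)
    _ = 2 * Real.pi * (M * (C * D)) := by
        rw [sub_zero, abs_of_nonneg h2pi]
        field_simp

end Pool.Agent.DimDropF
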