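import Pool.Agent.Lib_MP_644907_f.ACT

/-!
# Piece SEP: orbits
-/

set_option autoImplicit false

open Complex MeasureTheory Metric
open scoped ContDiff

namespace Pool.Agent.DimDropF

namespace FG

variable {Γ : Type} [Group Γ] (G : FG Γ)

theorem orb_self {p : ℂ} (hp : ‖p‖ < 1) : p ∈ G.orb p :=
  ⟨1, (G.m_one hp).symm⟩

theorem orb_lt {p z : ℂ} (hp : ‖p‖ < 1) (hz : z ∈ G.orb p) : ‖z‖ < 1 := by
  obtain ⟨γ, rfl⟩ := hz
  exact G.m_lt γ hp

theorem orb_m {p z : ℂ} (hp : ‖p‖ < 1) (γ : Γ) (hz : ‖z‖ < 1) : G.m γ z ∈ G.orb p ↔ z ∈ G.orb p := by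
  constructor
  · rintro ⟨δ, hδ⟩
    refine ⟨γ⁻¹ * δ, ?_⟩
    rw [G.m_mul _ _ hp, ← hδ, G.m_inv γ hz]
  · rintro ⟨δ, hδ⟩
    refine ⟨γ * δ, ?_⟩
    rw [G.m_mul _ _ hp, ← hδ]

theorem orb_symm {p q : ℂ} (hp : ‖p‖ < 1) (hq : ‖q‖ < 1) (h : q ∈ G.orb p) : p ∈ G.orb q := by
  obtain ⟨γ, hγ⟩ := h
  exact ⟨γ⁻¹, by rw [hγ, G.m_inv γ hp]⟩

/-- finitely many orbit points in every smaller ball (`fin'` / `finite2`) -/
theorem orb_fin {p : ℂ} (hp : ‖p‖ < 1) (R : ℝ) (hR : R < 1) : (G.orb p ∩ closedBall 0 R).Finite := by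
  refine ((G.finite2 R ‖p‖ hR hp).image (fun γ => G.m γ p)).subset ?_
  rintro z ⟨⟨γ, hγ⟩, hz⟩
  rw [mem_closedBall_zero_iff] at hz
  exact ⟨γ, ⟨p, le_rfl, by rw [← hγ]; exact hz⟩, hγ.symm⟩

/-- every point of the disc has a punctured neighbourhood without orbit points -/
theorem orb_disc {p z : ℂ} (hp : ‖p‖ < 1) (hz : ‖z‖ < 1) : ∃ ε : ℝ, 0 < ε ∧ ball z ε ⊆ ball 0 1 ∧
    ∀ w ∈ ball z ε, w ∈ G.orb p → w = z := by
  set R : ℝ := (1 + ‖z‖) / 2 with hRdef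
  have hR : R < 1 := by rw [hRdef]; linarith
  have hfin : ((G.orb p ∩ closedBall 0 R) \ {z}).Finite := (G.orb_fin hp R hR).subset Set.diff_subset
  have hopen : IsOpen ((G.orb p ∩ closedBall 0 R) \ {z})ᶜ := hfin.isClosed.isOpen_compl
  have hmem : z ∈ ((G.orb p ∩ closedBall 0 R) \ {z})ᶜ := fun h => h.2 rfl
  obtain ⟨δ, hδ, hδs⟩ := Metric.isOpen_iff.1 hopen z hmem
  refine ⟨min δ ((1 - ‖z‖) / 2), lt_min hδ (by linarith), ?_, ?_⟩
  · intro w hw
    rw [mem_ball_zero_iff]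
    have h1 : dist w z < (1 - ‖z‖) / 2 := lt_of_lt_of_le (mem_ball.1 hw) (min_le_right _ _)
    have h2 : ‖w‖ ≤ ‖w - z‖ + ‖z‖ := by
      simpa using norm_add_le (w - z) z
    rw [dist_eq_norm] at h1
    linarith
  · intro w hw ho
    have h1 : dist w z < (1 - ‖z‖) / 2 := lt_of_lt_of_le (mem_ball.1 hw) (min_le_right _ _)
    have h2 : ‖w‖ ≤ ‖w - z‖ + ‖z‖ := by
      simpa using norm_add_le (w - z) z
    rw [dist_eq_norm] at h1
    have h3 : w ∈ closedBall (0:ℂ) R := by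
      rw [mem_closedBall_zero_iff, hRdef]
      linarith
    have h4 : w ∈ ((G.orb p ∩ closedBall 0 R) \ {z})ᶜ :=
      hδs (mem_ball.2 (lt_of_lt_of_le (mem_ball.1 hw) (min_le_left _ _)))
    by_contra hne
    exact h4 ⟨⟨ho, h3⟩, hne⟩

theorem orb_open {p : ℂ} (hp : ‖p‖ < 1) : IsOpen (ball (0:ℂ) 1 \ G.orb p) := by
  rw [Metric.isOpen_iff]
  rintro z ⟨hz, hzo⟩
  obtain ⟨ε, hε, hsub, h⟩ := G.orb_disc hp (mem_ball_zero_iff.1 hz)
  refine ⟨ε, hε, fun w hw => ⟨hsub hw, fun ho => ?_⟩⟩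
  have := h w hw ho
  rw [this] at ho
  exact hzo ho

theorem orb_null {p : ℂ} (hp : ‖p‖ < 1) : volume (G.orb p) = 0 := by
  have : Countable Γ := G.countable
  have h : G.orb p = Set.range (fun γ => G.m γ p) := by
    ext z
    constructor
    · rintro ⟨γ, hγ⟩
      exact ⟨γ, hγ.symm⟩
    · rintro ⟨γ, hγ⟩
      exact ⟨γ, hγ.symm⟩
  rw [h]
  exact (Set.countable_range _).measure_zero _

/-- a small ball around `p` is disjoint from its images: only finitely many `γ` satisfy `m γ (ball p ε₀) ∩ ball p ε₀ ≠ ∅` for a fixed small `ε₀` (`finite2`), for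
each `γ ≠ 1` among them `m γ p ≠ p` (`free'`), use the continuity of `m γ` at `p` -/
theorem sep {p : ℂ} (hp : ‖p‖ < 1) : ∃ ε : ℝ, 0 < ε ∧ closedBall p ε ⊆ ball 0 1 ∧
    ∀ γ, γ ≠ 1 → ∀ z ∈ closedBall p ε, G.m γ z ∉ closedBall p ε := by
  set R : ℝ := (1 + ‖p‖) / 2 with hRdef
  have hR : R < 1 := by rw [hRdef]; linarith
  have hfin := G.finite2 R R hR hR
  set s : Set Γ := {γ | ∃ z : ℂ, ‖z‖ ≤ R ∧ ‖G.m γ z‖ ≤ R} with hs
  -- each single element
  have hone : ∀ γ, γ ≠ 1 → ∃ δ : ℝ, 0 < δ ∧ ∀ z ∈ closedBall p δ, G.m γ z ∉ closedBall p δ := by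
    intro γ hγ
    have hne : G.m γ p ≠ p := fun h => hγ (G.free' γ p hp h)
    have hd : 0 < dist (G.m γ p) p := dist_pos.2 hne
    have hcont : ContinuousAt (G.m γ) p := (G.hasDerivAt_m γ hp).continuousAt
    obtain ⟨δ, hδ, h⟩ := Metric.continuousAt_iff.1 hcont (dist (G.m γ p) p / 2) (by linarith)
    refine ⟨min (δ / 2) (dist (G.m γ p) p / 4), lt_min (by linarith) (by linarith), ?_⟩
    intro z hz hmz
    have h1 : dist z p ≤ δ / 2 := (mem_closedBall.1 hz).trans (min_le_left _ _)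
    have h2 : dist (G.m γ z) p ≤ dist (G.m γ p) p / 4 := (mem_closedBall.1 hmz).trans (min_le_right _ _)
    have h3 : dist (G.m γ z) (G.m γ p) < dist (G.m γ p) p / 2 := h (by linarith)
    have h4 := dist_triangle (G.m γ p) (G.m γ z) p
    rw [dist_comm (G.m γ p) (G.m γ z)] at h4
    linarith
  have hall : ∃ δ : ℝ, 0 < δ ∧ ∀ γ ∈ s, γ ≠ 1 → ∀ z ∈ closedBall p δ, G.m γ z ∉ closedBall p δ := by
    refine Set.Finite.induction_on (motive := fun (t : Set Γ) _ => ∃ δ : ℝ, 0 < δ ∧ ∀ γ ∈ t, γ ≠ 1 →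
      ∀ z ∈ closedBall p δ, G.m γ z ∉ closedBall p δ) s hfin ⟨1, one_pos, fun γ hγ => absurd hγ (Set.notMem_empty γ)⟩ ?_
    rintro γ t _ _ ⟨δ, hδ, h⟩
    by_cases hγ : γ = 1
    · refine ⟨δ, hδ, ?_⟩
      intro γ' hγ' hne z hz
      rcases Set.mem_insert_iff.1 hγ' with h1 | h1
      · exact absurd (h1.trans hγ) hne
      · exact h γ' h1 hne z hz
    · obtain ⟨δ', hδ', h'⟩ := hone γ hγ
      refine ⟨min δ δ', lt_min hδ hδ', ?_⟩
      intro γ' hγ' hne z hz hmz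
      rcases Set.mem_insert_iff.1 hγ' with h1 | h1
      · rw [h1] at hmz
        exact h' z (closedBall_subset_closedBall (min_le_right _ _) hz)
          (closedBall_subset_closedBall (min_le_right _ _) hmz)
      · exact h γ' h1 hne z (closedBall_subset_closedBall (min_le_left _ _) hz)
          (closedBall_subset_closedBall (min_le_left _ _) hmz)
  obtain ⟨δ, hδ, h⟩ := hall
  refine ⟨min δ ((1 - ‖p‖) / 2), lt_min hδ (by linarith), ?_, ?_⟩
  · intro w hw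
    rw [mem_ball_zero_iff]
    have h1 : dist w p ≤ (1 - ‖p‖) / 2 := (mem_closedBall.1 hw).trans (min_le_right _ _)
    have h2 : ‖w‖ ≤ ‖w - p‖ + ‖p‖ := by
      simpa using norm_add_le (w - p) p
    rw [dist_eq_norm] at h1
    linarith
  · intro γ hγ z hz hmz
    have aux : ∀ w : ℂ, w ∈ closedBall p (min δ ((1 - ‖p‖) / 2)) → ‖w‖ ≤ R := by
      intro w hw
      have h1 : dist w p ≤ (1 - ‖p‖) / 2 := (mem_closedBall.1 hw).trans (min_le_right _ _)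
      have h2 : ‖w‖ ≤ ‖w - p‖ + ‖p‖ := by
        simpa using norm_add_le (w - p) p
      rw [dist_eq_norm] at h1
      rw [hRdef]
      linarith
    exact h γ ⟨z, aux z hz, aux _ hmz⟩ hγ z (closedBall_subset_closedBall (min_le_left _ _) hz)
      (closedBall_subset_closedBall (min_le_left _ _) hmz)

end FG

end Pool.Agent.DimDropF
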