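import Pool.Agent.Lib_MP_644907_f.PSUM
import Pool.Agent.Lib_MP_644907_f.SEP

/-!
# Piece POLEA: the singular part
-/

set_option autoImplicit false

open Complex MeasureTheory Metric Filter
open scoped ContDiff Topology

namespace Pool.Agent.DimDropF

/-- `f` is an invariant holomorphic function on the complement of the orbit of `p`, with a simple pole at `p` -/
structure IsPole {Γ : Type} [Group Γ] (G : FG Γ) (p : ℂ) (f : ℂ → ℂ) : Prop where
  diff : DifferentiableOn ℂ f (ball 0 1 \ G.orb p)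
  inv : ∀ γ, ∀ z : ℂ, ‖z‖ < 1 → z ∉ G.orb p → f (G.m γ z) = f z
  pole : ∃ V : ℂ → ℂ, ∃ ε : ℝ, 0 < ε ∧ ball p ε ⊆ ball 0 1 ∧ DifferentiableOn ℂ V (ball p ε) ∧
    ∀ z ∈ ball p ε, z ≠ p → z ∉ G.orb p ∧ f z = 1 / (z - p) + V z

namespace FG

variable {Γ : Type} [Group Γ] (G : FG Γ)

private theorem ev_le' {z : ℂ} (hz : ‖z‖ < 1) : ∀ᶠ x in nhds z, ‖x‖ ≤ (1 + ‖z‖) / 2 := by
  have h : ∀ᶠ x in nhds z, ‖x‖ < (1 + ‖z‖) / 2 :=
    continuous_norm.continuousAt.eventually_lt continuousAt_const (by linarith)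
  filter_upwards [h] with x hx using hx.le

private theorem m_smooth' (γ : Γ) {z : ℂ} (hz : ‖z‖ < 1) : ContDiffAt ℝ ∞ (G.m γ) z :=
  ((G.m_diffOn γ).analyticAt (isOpen_ball.mem_nhds (by simpa using hz))).contDiffAt.restrict_scalars ℝ

/-- Data of the construction: `ε` from `sep`, a bump function `χ` (smooth, real valued as a complex function) with `χ = 1` on `ball p (ε/2)`, supported in `ball p ε`;
`u₀ z = χ z / (z - p)`, `α₀ z = dbar χ z / (z - p)` is a test function (zero on `ball p (ε/2)` and outside of `ball p ε`). `u = PS u₀`. Then on `disc \ orb p`: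
`u` is smooth (near each point a finite sum of smooth functions, `locfin`), `dbar u = PA α₀` there; `u (m γ z) = u z`; on `ball p (ε/2) \ {p}`: `u z = 1 / (z - p)` and `PA α₀ = 0` on `ball p (ε/2)`
(only `γ = 1` contributes, by `sep`). -/
theorem exists_u {p : ℂ} (hp : ‖p‖ < 1) : ∃ (u α₀ : ℂ → ℂ) (ε : ℝ), 0 < ε ∧ ball p ε ⊆ ball 0 1 ∧ Test α₀ ∧
    ContDiffOn ℝ ∞ u (ball 0 1 \ G.orb p) ∧
    (∀ z : ℂ, ‖z‖ < 1 → z ∉ G.orb p → dbar u z = G.PA α₀ z) ∧
    (∀ γ, ∀ z : ℂ, ‖z‖ < 1 → u (G.m γ z) = u z) ∧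
    (∀ z ∈ ball p ε, G.PA α₀ z = 0) ∧
    (∀ z ∈ ball p ε, z ≠ p → z ∉ G.orb p ∧ u z = 1 / (z - p)) := by
  obtain ⟨ε, hε, hεb, hsep⟩ := G.sep hp
  let f : ContDiffBump p := ⟨ε / 2, ε, by linarith, by linarith⟩
  have hrIn : f.rIn = ε / 2 := rfl
  have hrOut : f.rOut = ε := rfl
  set χ : ℂ → ℂ := fun z => ((f z : ℝ) : ℂ) with hχ
  have hχs : ContDiff ℝ ∞ χ := ofRealCLM.contDiff.comp f.contDiff
  have hχ1 : ∀ z ∈ ball p (ε / 2), χ z = 1 := by
    intro z hz
    simp only [hχ]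
    rw [f.one_of_mem_closedBall (ball_subset_closedBall hz)]
    simp
  have hχ0 : ∀ z, z ∉ closedBall p ε → χ z = 0 := by
    intro z hz
    simp only [hχ]
    rw [f.zero_of_le_dist]
    · simp
    · rw [mem_closedBall, not_le] at hz
      exact hz.le
  have hdχ1 : ∀ z ∈ ball p (ε / 2), dbar χ z = 0 := by
    intro z hz
    have h1 : χ =ᶠ[𝓝 z] fun _ => (1 : ℂ) := by
      filter_upwards [isOpen_ball.mem_nhds hz] with x hx using hχ1 x hx
    unfold dbar
    rw [h1.fderiv_eq]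
    simp
  have hdχ0 : ∀ z, z ∉ closedBall p ε → dbar χ z = 0 := by
    intro z hz
    have h1 : χ =ᶠ[𝓝 z] fun _ => (0 : ℂ) := by
      filter_upwards [isClosed_closedBall.isOpen_compl.mem_nhds hz] with x hx using hχ0 x hx
    unfold dbar
    rw [h1.fderiv_eq]
    simp
  set u₀ : ℂ → ℂ := fun z => χ z * (z - p)⁻¹ with hu₀
  set α₀ : ℂ → ℂ := fun z => dbar χ z * (z - p)⁻¹ with hα₀
  have hinv : ∀ z, z ≠ p → DifferentiableAt ℂ (fun z : ℂ => (z - p)⁻¹) z := by
    intro z hz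
    exact (differentiableAt_id.sub_const p).inv (sub_ne_zero.2 hz)
  have hinvs : ∀ z, z ≠ p → ContDiffAt ℝ ∞ (fun z : ℂ => (z - p)⁻¹) z := by
    intro z hz
    have : ContDiffAt ℂ ∞ (fun z : ℂ => (z - p)⁻¹) z :=
      (contDiffAt_id.sub contDiffAt_const).inv (sub_ne_zero.2 hz)
    exact this.restrict_scalars ℝ
  have hα₀s : ContDiff ℝ ∞ α₀ := by
    rw [contDiff_iff_contDiffAt]
    intro z
    by_cases hz : z ∈ ball p (ε / 2)
    · have h1 : α₀ =ᶠ[𝓝 z] fun _ => (0 : ℂ) := by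
        filter_upwards [isOpen_ball.mem_nhds hz] with x hx
        simp only [hα₀]
        rw [hdχ1 x hx, zero_mul]
      exact contDiffAt_const.congr_of_eventuallyEq h1
    · have hzp : z ≠ p := by
        rintro rfl
        exact hz (mem_ball_self (by linarith))
      exact (contDiff_dbar hχs).contDiffAt.mul (hinvs z hzp)
  have hα₀sub : tsupport α₀ ⊆ closedBall p ε := by
    apply closure_minimal _ isClosed_closedBall
    intro z hz
    by_contra hcon
    apply hz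
    simp only [hα₀]
    rw [hdχ0 z hcon, zero_mul]
  have hα₀t : Test α₀ := by
    apply Test.of hα₀s
    · exact HasCompactSupport.intro (isCompact_closedBall p ε) fun z hz => by
        simp only [hα₀]
        rw [hdχ0 z hz, zero_mul]
    · exact hα₀sub.trans hεb
  -- a radius
  obtain ⟨w, hw, hmax⟩ := (isCompact_closedBall p ε).exists_isMaxOn ⟨p, mem_closedBall_self hε.le⟩
    continuous_norm.continuousOn
  have hw1 : ‖w‖ < 1 := by simpa using hεb hw
  have hout : ∀ z : ℂ, ‖w‖ < ‖z‖ → z ∉ closedBall p ε := by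
    intro z hz hcon
    have := hmax hcon
    simp only [Set.mem_setOf_eq] at this
    linarith
  have hu₀0 : ∀ z : ℂ, ‖w‖ < ‖z‖ → u₀ z = 0 := by
    intro z hz
    simp only [hu₀]
    rw [hχ0 z (hout z hz), zero_mul]
  have hα₀0 : ∀ z : ℂ, ‖w‖ < ‖z‖ → α₀ z = 0 := by
    intro z hz
    simp only [hα₀]
    rw [hdχ0 z (hout z hz), zero_mul]
  have horb : ∀ z : ℂ, ‖z‖ < 1 → z ∉ G.orb p → ∀ γ, G.m γ z ≠ p := by
    intro z hz hzo γ hγ
    apply hzo
    refine ⟨γ⁻¹, ?_⟩
    rw [← hγ, G.m_inv γ hz]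
  have hu₀s : ∀ z, z ≠ p → ContDiffAt ℝ ∞ u₀ z := fun z hz => hχs.contDiffAt.mul (hinvs z hz)
  have hu₀d : ∀ z, z ≠ p → dbar u₀ z = α₀ z := by
    intro z hz
    have h1 := dbar_mul (f := χ) (g := fun z : ℂ => (z - p)⁻¹) (z := z)
      (hχs.differentiable (by simp) z) ((hinv z hz).restrictScalars ℝ)
    rw [dbar_of_holo (hinv z hz), mul_zero, add_zero] at h1
    exact h1
  refine ⟨G.PS u₀, α₀, ε / 2, by linarith, ?_, hα₀t, ?_, ?_, ?_, ?_, ?_⟩
  · refine Set.Subset.trans ?_ hεb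
    refine (ball_subset_ball (by linarith)).trans ball_subset_closedBall
  · intro z hz
    have hz1 : ‖z‖ < 1 := by simpa using hz.1
    apply ContDiffAt.contDiffWithinAt
    obtain ⟨s, hs⟩ := G.locfin ‖w‖ ((1 + ‖z‖) / 2) hw1 (by linarith)
    have h1 : ContDiffAt ℝ ∞ (fun x => ∑ γ ∈ s, u₀ (G.m γ x)) z := by
      apply ContDiffAt.sum
      intro γ _
      exact (hu₀s _ (horb z hz1 hz.2 γ)).comp z (m_smooth' G γ hz1)
    apply h1.congr_of_eventuallyEq
    filter_upwards [ev_le' hz1] with x hx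
    exact (hs u₀ hu₀0 x hx).1
  · intro z hz1 hzo
    obtain ⟨s, hs⟩ := G.locfin ‖w‖ ((1 + ‖z‖) / 2) hw1 (by linarith)
    rw [(hs α₀ hα₀0 z (by linarith)).2.1]
    have h1 : G.PS u₀ =ᶠ[nhds z] fun x => ∑ γ ∈ s, u₀ (G.m γ x) := by
      filter_upwards [ev_le' hz1] with x hx
      exact (hs u₀ hu₀0 x hx).1
    rw [dbar_congr h1, dbar_sum s (fun γ x => u₀ (G.m γ x))]
    · refine Finset.sum_congr rfl fun γ _ => ?_
      rw [dbar_comp ((hu₀s _ (horb z hz1 hzo γ)).differentiableAt (by simp)) (G.hasDerivAt_m γ hz1),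
        hu₀d _ (horb z hz1 hzo γ)]
    · intro γ _
      exact ((hu₀s _ (horb z hz1 hzo γ)).comp z (m_smooth' G γ hz1)).differentiableAt (by simp)
  · intro γ z hz
    exact G.PS_inv u₀ γ hz
  · intro z hz
    have hzc : z ∈ closedBall p ε := ball_subset_closedBall (ball_subset_ball (by linarith) hz)
    have hz1 : ‖z‖ < 1 := by simpa using hεb hzc
    unfold PA
    have : ∀ γ, α₀ (G.m γ z) * starRingEnd ℂ (G.d γ z) = 0 := by
      intro γ
      by_cases hγ : γ = 1
      · rw [hγ, G.m_one hz1]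
        simp only [hα₀]
        rw [hdχ1 z hz, zero_mul, zero_mul]
      · simp only [hα₀]
        rw [hdχ0 _ (hsep γ hγ z hzc), zero_mul, zero_mul]
    simp_rw [this]
    exact tsum_zero
  · intro z hz hzp
    have hzc : z ∈ closedBall p ε := ball_subset_closedBall (ball_subset_ball (by linarith) hz)
    have hz1 : ‖z‖ < 1 := by simpa using hεb hzc
    refine ⟨?_, ?_⟩
    · rintro ⟨γ, hγ⟩
      by_cases hγ1 : γ = 1
      · rw [hγ1, G.m_one hp] at hγ
        exact hzp hγ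
      · have := hsep γ hγ1 p (mem_closedBall_self hε.le)
        rw [← hγ] at this
        exact this hzc
    · unfold PS
      rw [tsum_eq_single 1]
      · rw [G.m_one hz1]
        simp only [hu₀]
        rw [hχ1 z hz, one_mul, one_div]
      · intro γ hγ
        simp only [hu₀]
        rw [hχ0 _ (hsep γ hγ z hzc), zero_mul]

end FG

end Pool.Agent.DimDropF
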