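import Pool.Agent.Lib_MP_644907_f.EXV
import Pool.Agent.Lib_MP_644907_f.POLEA

/-!
# Piece POLE: invariant functions with one simple pole
-/

set_option autoImplicit false

open Complex MeasureTheory Metric Filter
open scoped ContDiff Topology

namespace Pool.Agent.DimDropF

namespace POLEAux

theorem tsupport_dbar_subset (ψ : ℂ → ℂ) : tsupport (dbar ψ) ⊆ tsupport ψ := by
  apply closure_minimal _ (isClosed_tsupport ψ)
  intro z hz
  by_contra hcon
  apply hz
  have h0 : ψ =ᶠ[𝓝 z] fun _ => 0 := notMem_tsupport_iff_eventuallyEq.mp hcon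
  have h1 : dbar ψ z = dbar (fun _ => 0) z := dbar_congr h0
  rw [h1]
  simp [dbar]

theorem dbar_zero_of {ψ : ℂ → ℂ} {z : ℂ} (hz : z ∉ tsupport ψ) : dbar ψ z = 0 := by
  by_contra hcon
  exact hz (tsupport_dbar_subset ψ (subset_tsupport _ hcon))

/-- `w ψ'` is integrable on `U` if `w` is continuous on the open set `U` and `ψ'` is continuous with compact support in `U` -/
theorem intOn_mul {U : Set ℂ} (hU : IsOpen U) {w χ : ℂ → ℂ} (hw : ContinuousOn w U) (hχ : Continuous χ)
    {K : Set ℂ} (hK : IsCompact K) (hs : K ⊆ U) (h0 : ∀ z, z ∉ K → χ z = 0) :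
    IntegrableOn (fun z => w z * χ z) U := by
  have h1 : IntegrableOn (fun z => w z * χ z) K :=
    ((hw.mono hs).mul hχ.continuousOn).integrableOn_compact hK
  refine h1.of_forall_sdiff_eq_zero hU.measurableSet ?_
  intro z hz
  rw [h0 z hz.2, mul_zero]

end POLEAux

open POLEAux

namespace FG

variable {Γ : Type} [Group Γ] (G : FG Γ)

/-- Let `u, α₀, ε` be as in `exists_u` and `v` as in `exists_v`. On `U = disc \ orb p` (open) `h = u - v` is locally integrable and for `ψ` smooth with compact support in `U`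
`∫_U u dbar ψ = - ∫_U dbar u ψ = - ∫_U PA α₀ ψ` (`ibp`) `= ∫_U v dbar ψ` (`exists_v`, `orb_null`): by `weyl` `u - v = f` a.e. on `U`, `f` holomorphic. `f` is invariant: a.e. by
`ae_comp`, hence everywhere by continuity. On `ball p ε` `∫ v dbar ψ = - ∫ PA α₀ ψ = 0` for `ψ` supported there: by `weyl` `v = - V` a.e. on this ball. So `f = 1 / (z - p) + V` a.e. on the
punctured ball, hence everywhere on it by continuity. -/
theorem exists_pole (h0 : G.NoForm) {p : ℂ} (hp : ‖p‖ < 1) : ∃ f : ℂ → ℂ, IsPole G p f := by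
  obtain ⟨u, α₀, ε, hε, hball, hα₀, husm, hdbar, huinv, hPA0, hupole⟩ := G.exists_u hp
  obtain ⟨v, hv2, hvinv, hvweak⟩ := G.exists_v h0 α₀ hα₀
  set U : Set ℂ := ball (0:ℂ) 1 \ G.orb p with hUdef
  have hU : IsOpen U := G.orb_open hp
  have hUsub : U ⊆ ball 0 1 := Set.sdiff_subset
  have hUae : (U : Set ℂ) =ᵐ[volume] ball (0:ℂ) 1 := sdiff_null_ae_eq_self (G.orb_null hp)
  have hvint : IntegrableOn v (ball 0 1) := by
    have : IsFiniteMeasure (volume.restrict (ball (0:ℂ) 1)) := ⟨by
      rw [Measure.restrict_apply_univ]; exact measure_ball_lt_top⟩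
    exact hv2.integrable (by norm_num)
  have hucont : ContinuousOn u U := husm.continuousOn
  have hloc : LocallyIntegrableOn (fun z => u z - v z) U := by
    have h1 : LocallyIntegrableOn u U := hucont.locallyIntegrableOn hU.measurableSet
    have h2 : LocallyIntegrableOn v U := (hvint.mono_set hUsub).locallyIntegrableOn
    exact h1.sub h2
  have hvmul : ∀ χ : ℂ → ℂ, Continuous χ → HasCompactSupport χ → IntegrableOn (fun z => v z * χ z) (ball 0 1) := by
    intro χ hχ hc
    obtain ⟨C, hC⟩ := hχ.bounded_above_of_compact_support hc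
    exact hvint.mul_bdd hχ.aestronglyMeasurable (ae_of_all _ hC)
  have hweak : ∀ ψ : ℂ → ℂ, ContDiff ℝ ∞ ψ → HasCompactSupport ψ → tsupport ψ ⊆ U →
      ∫ z in U, (u z - v z) * dbar ψ z = 0 := by
    intro ψ hψ hc hs
    have hT : Test ψ := Test.of hψ hc (hs.trans hUsub)
    have hdc : Continuous (dbar ψ) := hT.dbar.continuous
    have hi1 : IntegrableOn (fun z => u z * dbar ψ z) U :=
      intOn_mul hU hucont hdc hc.isCompact hs (fun z hz => dbar_zero_of hz)
    have hi2 : IntegrableOn (fun z => v z * dbar ψ z) U :=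
      (hvmul _ hdc hT.dbar.hasCompactSupport).mono_set hUsub
    have e1 : ∫ z in U, (u z - v z) * dbar ψ z = (∫ z in U, u z * dbar ψ z) - (∫ z in U, v z * dbar ψ z) := by
      rw [← integral_sub hi1 hi2]
      apply integral_congr_ae
      exact ae_of_all _ (fun z => by simp only [sub_mul])
    have e2 : ∫ z in U, u z * dbar ψ z = - ∫ z in U, G.PA α₀ z * ψ z := by
      rw [ibp U hU u ψ (husm.of_le (by exact_mod_cast le_top)) hψ hc hs]
      congr 1
      apply setIntegral_congr_fun hU.measurableSet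
      intro z hz
      have hz1 : ‖z‖ < 1 := by simpa using hUsub hz
      simp only [hdbar z hz1 hz.2]
    have e3 : ∫ z in U, v z * dbar ψ z = - ∫ z in U, G.PA α₀ z * ψ z := by
      rw [setIntegral_congr_set hUae, setIntegral_congr_set hUae]
      exact hvweak ψ hT
    rw [e1, e2, e3, sub_self]
  obtain ⟨f, hfd, hfae⟩ := weyl U hU _ hloc hweak
  have hfcont : ContinuousOn f U := hfd.continuousOn
  have hP : ∀ᵐ z ∂(volume.restrict (ball (0:ℂ) 1)), z ∈ U → u z - v z = f z := by
    have h1 : ∀ᵐ z ∂volume, z ∈ U → u z - v z = f z := (ae_restrict_iff' hU.measurableSet).mp hfae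
    exact ae_restrict_of_ae h1
  have hPU : ∀ᵐ z ∂(volume.restrict U), u z - v z = f z := hfae
  -- invariance
  have hinv : ∀ γ, ∀ z : ℂ, ‖z‖ < 1 → z ∉ G.orb p → f (G.m γ z) = f z := by
    intro γ
    have hmU : Set.MapsTo (G.m γ) U U := by
      intro z hz
      have hz1 : ‖z‖ < 1 := by simpa using hUsub hz
      refine ⟨by simpa using G.m_lt γ hz1, ?_⟩
      intro hcon
      exact hz.2 ((G.orb_m hp γ hz1).mp hcon)
    have hae : ∀ᵐ z ∂(volume.restrict U), f (G.m γ z) = f z := by
      have h1 := ae_restrict_of_ae_restrict_of_subset hUsub (G.ae_comp γ _ hP)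
      have h2 := ae_restrict_of_ae_restrict_of_subset hUsub (hvinv γ)
      filter_upwards [h1, h2, hPU, ae_restrict_mem hU.measurableSet] with z hz1 hz2 hz3 hzU
      have hzn : ‖z‖ < 1 := by simpa using hUsub hzU
      have h4 := hz1 (hmU hzU)
      rw [← h4, ← hz3, hz2, huinv γ z hzn]
    have hmc : ContinuousOn (G.m γ) U := (G.m_diffOn γ).continuousOn.mono hUsub
    have heq := Measure.eqOn_open_of_ae_eq (μ := volume) (f := fun z => f (G.m γ z)) (g := f) hae hU
      (hfcont.comp hmc hmU) hfcont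
    intro z hz hzo
    exact heq ⟨by simpa using hz, hzo⟩
  -- the pole
  have hvw : ∀ ψ : ℂ → ℂ, ContDiff ℝ ∞ ψ → HasCompactSupport ψ → tsupport ψ ⊆ ball p ε →
      ∫ z in ball p ε, v z * dbar ψ z = 0 := by
    intro ψ hψ hc hs
    have hT : Test ψ := Test.of hψ hc (hs.trans hball)
    have e1 : ∫ z in ball p ε, v z * dbar ψ z = ∫ z in ball (0:ℂ) 1, v z * dbar ψ z := by
      symm
      apply setIntegral_eq_of_subset_of_forall_sdiff_eq_zero measurableSet_ball hball
      intro z hz
      rw [dbar_zero_of (fun hcon => hz.2 (hs hcon)), mul_zero]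
    have e2 : ∫ z in ball (0:ℂ) 1, G.PA α₀ z * ψ z = 0 := by
      apply setIntegral_eq_zero_of_forall_eq_zero
      intro z _
      by_cases hz : z ∈ ball p ε
      · rw [hPA0 z hz, zero_mul]
      · rw [image_eq_zero_of_notMem_tsupport (fun hcon => hz (hs hcon)), mul_zero]
    rw [e1, hvweak ψ hT, e2, neg_zero]
  obtain ⟨V, hVd, hVae⟩ := weyl (ball p ε) isOpen_ball v ((hvint.mono_set hball).locallyIntegrableOn) hvw
  refine ⟨f, hfd, hinv, fun z => - V z, ε, hε, hball, hVd.neg, ?_⟩
  set W : Set ℂ := ball p ε \ {p} with hWdef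
  have hW : IsOpen W := isOpen_ball.sdiff isClosed_singleton
  have hWU : W ⊆ U := by
    intro z hz
    have hzp : z ≠ p := fun h => hz.2 (by simp [h])
    exact ⟨hball hz.1, (hupole z hz.1 hzp).1⟩
  have hae : ∀ᵐ z ∂(volume.restrict W), f z = 1 / (z - p) + - V z := by
    have h1 := ae_restrict_of_ae_restrict_of_subset hWU hPU
    have h2 : ∀ᵐ z ∂(volume.restrict W), v z = V z :=
      ae_restrict_of_ae_restrict_of_subset Set.sdiff_subset hVae
    filter_upwards [h1, h2, ae_restrict_mem hW.measurableSet] with z hz1 hz2 hzW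
    have hzp : z ≠ p := fun h => hzW.2 (by simp [h])
    rw [← hz1, hz2, (hupole z hzW.1 hzp).2, sub_eq_add_neg]
  have hcont : ContinuousOn (fun z => 1 / (z - p) + - V z) W := by
    apply ContinuousOn.add
    · apply ContinuousOn.div continuousOn_const (by fun_prop)
      intro z hz hcon
      exact hz.2 (by simpa [sub_eq_zero] using hcon)
    · exact (hVd.continuousOn.mono Set.sdiff_subset).neg
  have heq := Measure.eqOn_open_of_ae_eq (μ := volume) hae hW (hfcont.mono hWU) hcont
  intro z hz hzp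
  exact ⟨(hupole z hz hzp).1, heq ⟨hz, by simpa using hzp⟩⟩

end FG

end Pool.Agent.DimDropF
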