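import Pool.Agent.Lib_MP_644907_f.FORM

/-!
# Piece PRIM: the abelian integral
-/

set_option autoImplicit false

open Complex MeasureTheory Metric Filter
open scoped ContDiff Topology

namespace Pool.Agent.DimDropF

namespace FG

variable {Γ : Type} [Group Γ] (G : FG Γ)

/-- `(1 - |z|^2) |b z|` is invariant (`one_sub`), continuous, hence bounded by its maximum `M` over `closedBall 0 r` -/
theorem form_bdd (b : ℂ → ℂ) (hb : DifferentiableOn ℂ b (ball 0 1))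
    (hb' : ∀ γ, ∀ z : ℂ, ‖z‖ < 1 → b (G.m γ z) * G.d γ z = b z) :
    ∃ M : ℝ, 0 < M ∧ ∀ z : ℂ, ‖z‖ < 1 → ‖b z‖ ≤ M / (1 - ‖z‖) := by
  have hc : ContinuousOn b (closedBall (0:ℂ) G.r) :=
    hb.continuousOn.mono (closedBall_subset_ball G.r1)
  obtain ⟨M0, hM0⟩ := (isCompact_closedBall (0:ℂ) G.r).exists_bound_of_continuousOn hc
  refine ⟨|M0| + 1, by positivity, fun z hz => ?_⟩
  obtain ⟨γ, hγ⟩ := G.coc' z hz
  have hγ' : ‖G.m γ z‖ ≤ G.r := hγ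
  have h1 : ‖b (G.m γ z)‖ ≤ M0 := hM0 _ (by rwa [mem_closedBall_zero_iff])
  have h2 := G.one_sub γ hz
  have h3 := hb' γ z hz
  have h4 : (1 - ‖z‖ ^ 2) * ‖b z‖ = (1 - ‖G.m γ z‖ ^ 2) * ‖b (G.m γ z)‖ := by
    rw [h2, ← h3, norm_mul]; ring
  have h5 : 0 < 1 - ‖z‖ := by linarith
  have h6 : 1 - ‖z‖ ≤ 1 - ‖z‖ ^ 2 := by nlinarith [norm_nonneg z]
  have h7 : (1 - ‖G.m γ z‖ ^ 2) * ‖b (G.m γ z)‖ ≤ |M0| + 1 := by
    have h8 : 1 - ‖G.m γ z‖ ^ 2 ≤ 1 := by nlinarith [sq_nonneg ‖G.m γ z‖]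
    have h9 : ‖b (G.m γ z)‖ ≤ |M0| + 1 := by linarith [le_abs_self M0]
    calc (1 - ‖G.m γ z‖ ^ 2) * ‖b (G.m γ z)‖ ≤ 1 * ‖b (G.m γ z)‖ :=
          mul_le_mul_of_nonneg_right h8 (norm_nonneg _)
      _ ≤ _ := by rw [one_mul]; exact h9
  rw [le_div_iff₀ h5]
  calc ‖b z‖ * (1 - ‖z‖) ≤ ‖b z‖ * (1 - ‖z‖ ^ 2) := mul_le_mul_of_nonneg_left h6 (norm_nonneg _)
    _ = (1 - ‖z‖ ^ 2) * ‖b z‖ := mul_comm _ _
    _ ≤ _ := by rw [h4]; exact h7

/-- `|F' z| ≤ M / (1 - |z|)` and `F 0 = 0` give `|F z| ≤ - M log (1 - |z|)` (mean value inequality along the segment `t ↦ t z`,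
e.g. `image_norm_le_of_norm_deriv_right_le_deriv_boundary`) -/
theorem log_growth (F b : ℂ → ℂ) (M : ℝ) (hM : 0 < M) (hF : ∀ z : ℂ, ‖z‖ < 1 → HasDerivAt F (b z) z) (hF0 : F 0 = 0)
    (hb : ∀ z : ℂ, ‖z‖ < 1 → ‖b z‖ ≤ M / (1 - ‖z‖)) (z : ℂ) (hz : ‖z‖ < 1) :
    ‖F z‖ ≤ - M * Real.log (1 - ‖z‖) := by
  have hnt : ∀ t ∈ Set.Icc (0:ℝ) 1, ‖(t : ℂ) * z‖ = t * ‖z‖ := by
    intro t ht
    rw [norm_mul, Complex.norm_real, Real.norm_of_nonneg ht.1]
  have hlt : ∀ t ∈ Set.Icc (0:ℝ) 1, t * ‖z‖ < 1 := by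
    intro t ht
    nlinarith [ht.1, ht.2, norm_nonneg z]
  have hd : ∀ t ∈ Set.Icc (0:ℝ) 1, HasDerivAt (fun t : ℝ => F ((t : ℂ) * z)) (b ((t : ℂ) * z) * z) t := by
    intro t ht
    have h1 : HasDerivAt F (b ((t : ℂ) * z)) ((t : ℂ) * z) := hF _ (by rw [hnt t ht]; exact hlt t ht)
    have h2 : HasDerivAt (fun t : ℝ => (t : ℂ) * z) z t := by
      simpa using (Complex.ofRealCLM.hasDerivAt (x := t)).mul_const z
    exact h1.comp t h2
  have hB : ∀ t ∈ Set.Icc (0:ℝ) 1, HasDerivAt (fun t : ℝ => - M * Real.log (1 - t * ‖z‖))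
      (M * ‖z‖ / (1 - t * ‖z‖)) t := by
    intro t ht
    have h1 : HasDerivAt (fun t : ℝ => 1 - t * ‖z‖) (-‖z‖) t := by
      simpa using ((hasDerivAt_id t).mul_const ‖z‖).const_sub 1
    have h2 : 1 - t * ‖z‖ ≠ 0 := by
      have := hlt t ht
      intro h; linarith
    have h3 := (h1.log h2).const_mul (-M)
    convert! h3 using 1
    ring
  have hmain := image_norm_le_of_norm_deriv_right_le_deriv_boundary' (a := 0) (b := 1)
    (f := fun t : ℝ => F ((t : ℂ) * z)) (f' := fun t : ℝ => b ((t : ℂ) * z) * z)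
    (B := fun t : ℝ => - M * Real.log (1 - t * ‖z‖)) (B' := fun t : ℝ => M * ‖z‖ / (1 - t * ‖z‖))
    (fun t ht => (hd t ht).continuousAt.continuousWithinAt)
    (fun t ht => (hd t ⟨ht.1, ht.2.le⟩).hasDerivWithinAt)
    (by simp [hF0])
    (fun t ht => (hB t ht).continuousAt.continuousWithinAt)
    (fun t ht => (hB t ⟨ht.1, ht.2.le⟩).hasDerivWithinAt)
    (by
      intro t ht
      have ht' : t ∈ Set.Icc (0:ℝ) 1 := ⟨ht.1, ht.2.le⟩
      have h1 := hb ((t : ℂ) * z) (by rw [hnt t ht']; exact hlt t ht')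
      rw [hnt t ht'] at h1
      rw [norm_mul]
      calc ‖b ((t : ℂ) * z)‖ * ‖z‖ ≤ M / (1 - t * ‖z‖) * ‖z‖ :=
            mul_le_mul_of_nonneg_right h1 (norm_nonneg _)
        _ = M * ‖z‖ / (1 - t * ‖z‖) := by ring)
  have h1 := hmain (Set.right_mem_Icc.mpr zero_le_one)
  simpa using h1

/-- `b` from `exists_form`, `F` primitive of `b` on the disc (`DifferentiableOn.isExactOn_ball`, `IsExactOn.with_val_at`) with `F 0 = 0`; `F (m γ z) - F z` has derivative 0 on the disc (convex), so is a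
constant `c γ`. If all `c γ = 0`, `F` is invariant and holomorphic, hence constant (`const0` in CONST), so `b = 0`: contradiction. -/
theorem exists_F : ∃ (F : ℂ → ℂ) (c : Γ → ℂ) (C : ℝ), 0 < C ∧ DifferentiableOn ℂ F (ball 0 1) ∧
    (∀ γ, ∀ z : ℂ, ‖z‖ < 1 → F (G.m γ z) = F z + c γ) ∧ (∃ γ, c γ ≠ 0) ∧
    ∀ z : ℂ, ‖z‖ < 1 → ‖F z‖ ≤ C * (1 - Real.log (1 - ‖z‖)) := by
  obtain ⟨b, hb, hb', z0, hz0, hbz0⟩ := G.exists_form
  obtain ⟨M, hM, hbM⟩ := G.form_bdd b hb hb'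
  obtain ⟨F, hF0, hF⟩ := hb.isExactOn_ball.with_val_at 0 0
  have hF' : ∀ z : ℂ, ‖z‖ < 1 → HasDerivAt F (b z) z := fun z hz => hF z (by rwa [mem_ball_zero_iff])
  have hFd : DifferentiableOn ℂ F (ball 0 1) := fun z hz =>
    (hF z hz).differentiableAt.differentiableWithinAt
  have hconst : ∀ γ, ∀ z : ℂ, ‖z‖ < 1 → F (G.m γ z) - F z = F (G.m γ 0) - F 0 := by
    intro γ z hz
    have hder : ∀ x : ℂ, ‖x‖ < 1 → HasDerivAt (fun x => F (G.m γ x) - F x) 0 x := by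
      intro x hx
      have h1 : HasDerivAt (fun x => F (G.m γ x)) (b (G.m γ x) * G.d γ x) x :=
        (hF' _ (G.m_lt γ hx)).comp x (G.hasDerivAt_m γ hx)
      have h2 := h1.sub (hF' x hx)
      rw [hb' γ x hx, sub_self] at h2
      exact h2
    refine (convex_ball (0:ℂ) 1).is_const_of_fderivWithin_eq_zero (𝕜 := ℂ)
      (f := fun x => F (G.m γ x) - F x) ?_ ?_ (by rwa [mem_ball_zero_iff]) (by simp)
    · intro x hx
      exact (hder x (by rwa [mem_ball_zero_iff] at hx)).differentiableAt.differentiableWithinAt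
    · intro x hx
      rw [fderivWithin_of_isOpen isOpen_ball hx]
      have h3 := (hder x (by rwa [mem_ball_zero_iff] at hx)).hasFDerivAt.fderiv
      rw [h3]
      ext
      simp
  refine ⟨F, fun γ => F (G.m γ 0) - F 0, M, hM, hFd, fun γ z hz => ?_, ?_, fun z hz => ?_⟩
  · have h1 := hconst γ z hz
    show F (G.m γ z) = F z + (F (G.m γ 0) - F 0)
    rw [← h1]; ring
  · by_contra hcon
    push Not at hcon
    have hinv : ∀ γ, ∀ z : ℂ, ‖z‖ < 1 → F (G.m γ z) = F z := by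
      intro γ z hz
      have h1 := hconst γ z hz
      rw [hcon γ] at h1
      exact sub_eq_zero.mp h1
    obtain ⟨κ, hκ⟩ := G.const0 F hFd hinv
    have h2 : F =ᶠ[𝓝 z0] fun _ => κ := by
      filter_upwards [isOpen_ball.mem_nhds (mem_ball_zero_iff.mpr hz0)] with x hx
      exact hκ x (by rwa [mem_ball_zero_iff] at hx)
    have h3 := (hF' z0 hz0).deriv
    rw [h2.deriv_eq, deriv_const] at h3
    exact hbz0 h3.symm
  · have h1 := log_growth F b M hM hF' hF0 hbM z hz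
    nlinarith

end FG

end Pool.Agent.DimDropF
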