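import Pool.Agent.Lib_MP_644907_f.ACT
import Pool.Agent.Lib_MP_644907_f.TEST

/-!
# Piece PSUM: Poincare sums
-/

set_option autoImplicit false

open Complex MeasureTheory Metric
open scoped ContDiff

namespace Pool.Agent.DimDropF

namespace FG

variable {Γ : Type} [Group Γ] (G : FG Γ)

/-- `finite2`: only the `γ` in a finite set contribute for `‖z‖ ≤ R` -/
theorem locfin (r R : ℝ) (hr : r < 1) (hR : R < 1) : ∃ s : Finset Γ, ∀ ψ : ℂ → ℂ, (∀ z : ℂ, r < ‖z‖ → ψ z = 0) →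
    ∀ z : ℂ, ‖z‖ ≤ R → G.PS ψ z = ∑ γ ∈ s, ψ (G.m γ z) ∧
      G.PA ψ z = ∑ γ ∈ s, ψ (G.m γ z) * starRingEnd ℂ (G.d γ z) ∧
      G.PB ψ z = ∑ γ ∈ s, ψ (G.m γ z) * G.d γ z := by
  have hfin := G.finite2 r R hr hR
  refine ⟨hfin.toFinset, fun ψ hψ z hz => ?_⟩
  have h0 : ∀ γ ∉ hfin.toFinset, ψ (G.m γ z) = 0 := by
    intro γ hγ
    apply hψ
    rw [Set.Finite.mem_toFinset] at hγ
    by_contra hcon
    exact hγ ⟨z, hz, not_lt.1 hcon⟩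
  refine ⟨?_, ?_, ?_⟩
  · exact tsum_eq_sum h0
  · exact tsum_eq_sum fun γ hγ => by rw [h0 γ hγ, zero_mul]
  · exact tsum_eq_sum fun γ hγ => by rw [h0 γ hγ, zero_mul]

/-- reindex the sum by `δ ↦ δ * γ` (`Equiv.mulRight`), `m_mul`; no hypothesis on `ψ` -/
theorem PS_inv (ψ : ℂ → ℂ) (γ : Γ) {z : ℂ} (hz : ‖z‖ < 1) : G.PS ψ (G.m γ z) = G.PS ψ z := by
  unfold PS
  rw [← (Equiv.mulRight γ).tsum_eq (fun δ => ψ (G.m δ z))]
  apply tsum_congr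
  intro δ
  rw [Equiv.coe_mulRight, G.m_mul δ γ hz]

/-- the same with `d_mul` and `tsum_mul_right` -/
theorem PA_inv (ψ : ℂ → ℂ) (γ : Γ) {z : ℂ} (hz : ‖z‖ < 1) :
    G.PA ψ (G.m γ z) * starRingEnd ℂ (G.d γ z) = G.PA ψ z := by
  unfold PA
  rw [← tsum_mul_right, ← (Equiv.mulRight γ).tsum_eq (fun δ => ψ (G.m δ z) * starRingEnd ℂ (G.d δ z))]
  apply tsum_congr
  intro δ
  rw [Equiv.coe_mulRight, G.m_mul δ γ hz, G.d_mul δ γ hz, map_mul, mul_assoc]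

theorem PB_inv (ψ : ℂ → ℂ) (γ : Γ) {z : ℂ} (hz : ‖z‖ < 1) : G.PB ψ (G.m γ z) * G.d γ z = G.PB ψ z := by
  unfold PB
  rw [← tsum_mul_right, ← (Equiv.mulRight γ).tsum_eq (fun δ => ψ (G.m δ z) * G.d δ z)]
  apply tsum_congr
  intro δ
  rw [Equiv.coe_mulRight, G.m_mul δ γ hz, G.d_mul δ γ hz, mul_assoc]

private theorem m_analytic (γ : Γ) {z : ℂ} (hz : ‖z‖ < 1) : AnalyticAt ℂ (G.m γ) z :=
  (G.m_diffOn γ).analyticAt (isOpen_ball.mem_nhds (by simpa using hz))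

private theorem m_smooth (γ : Γ) {z : ℂ} (hz : ‖z‖ < 1) : ContDiffAt ℝ ∞ (G.m γ) z :=
  (m_analytic G γ hz).contDiffAt.restrict_scalars ℝ

private theorem d_smooth (γ : Γ) {z : ℂ} (hz : ‖z‖ < 1) : ContDiffAt ℝ ∞ (G.d γ) z := by
  have h1 : ContDiffAt ℝ ∞ (deriv (G.m γ)) z :=
    (m_analytic G γ hz).deriv.contDiffAt.restrict_scalars ℝ
  apply h1.congr_of_eventuallyEq
  have h2 : ∀ᶠ x in nhds z, x ∈ ball (0 : ℂ) 1 := isOpen_ball.mem_nhds (by simpa using hz)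
  filter_upwards [h2] with x hx
  exact (G.hasDerivAt_m γ (by simpa using hx)).deriv.symm

private theorem ev_le {z : ℂ} (hz : ‖z‖ < 1) : ∀ᶠ x in nhds z, ‖x‖ ≤ (1 + ‖z‖) / 2 := by
  have h : ∀ᶠ x in nhds z, ‖x‖ < (1 + ‖z‖) / 2 :=
    continuous_norm.continuousAt.eventually_lt continuousAt_const (by linarith)
  filter_upwards [h] with x hx using hx.le

/-- `locfin` on the balls of radius `R < 1`; `m γ` is holomorphic on the disc, hence `ContDiffOn ℝ ∞` -/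
theorem PS_smooth {ψ : ℂ → ℂ} (hψ : Test ψ) : ContDiffOn ℝ ∞ (G.PS ψ) (ball 0 1) := by
  obtain ⟨r, hr0, hr1, hr⟩ := hψ.supp
  intro z hz
  have hz1 : ‖z‖ < 1 := by simpa using hz
  apply ContDiffAt.contDiffWithinAt
  obtain ⟨s, hs⟩ := G.locfin r ((1 + ‖z‖) / 2) hr1 (by linarith)
  have h1 : ContDiffAt ℝ ∞ (fun x => ∑ γ ∈ s, ψ (G.m γ x)) z := by
    apply ContDiffAt.sum
    intro γ _
    exact hψ.smooth.contDiffAt.comp z (m_smooth G γ hz1)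
  apply h1.congr_of_eventuallyEq
  filter_upwards [ev_le hz1] with x hx
  exact (hs ψ hr x hx).1

theorem PA_smooth {ψ : ℂ → ℂ} (hψ : Test ψ) : ContDiffOn ℝ ∞ (G.PA ψ) (ball 0 1) := by
  obtain ⟨r, hr0, hr1, hr⟩ := hψ.supp
  intro z hz
  have hz1 : ‖z‖ < 1 := by simpa using hz
  apply ContDiffAt.contDiffWithinAt
  obtain ⟨s, hs⟩ := G.locfin r ((1 + ‖z‖) / 2) hr1 (by linarith)
  have h1 : ContDiffAt ℝ ∞ (fun x => ∑ γ ∈ s, ψ (G.m γ x) * starRingEnd ℂ (G.d γ x)) z := by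
    apply ContDiffAt.sum
    intro γ _
    apply ContDiffAt.mul
    · exact hψ.smooth.contDiffAt.comp z (m_smooth G γ hz1)
    · exact (conjCLE.contDiff.contDiffAt (x := G.d γ z)).comp z (d_smooth G γ hz1)
  apply h1.congr_of_eventuallyEq
  filter_upwards [ev_le hz1] with x hx
  exact (hs ψ hr x hx).2.1

private theorem fderiv_zero_of {ψ : ℂ → ℂ} {r : ℝ} (hr : ∀ z : ℂ, r < ‖z‖ → ψ z = 0) {z : ℂ} (hz : r < ‖z‖) :
    fderiv ℝ ψ z = 0 := by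
  have h1 : ψ =ᶠ[nhds z] fun _ => (0 : ℂ) := by
    have h : ∀ᶠ x in nhds z, r < ‖x‖ :=
      continuousAt_const.eventually_lt continuous_norm.continuousAt hz
    filter_upwards [h] with x hx using hr x hx
  rw [h1.fderiv_eq]
  simp

/-- `dbar_comp`, `dbar_sum` -/
theorem dbar_PS {ψ : ℂ → ℂ} (hψ : Test ψ) {z : ℂ} (hz : ‖z‖ < 1) : dbar (G.PS ψ) z = G.PA (dbar ψ) z := by
  obtain ⟨r, hr0, hr1, hr⟩ := hψ.supp
  obtain ⟨s, hs⟩ := G.locfin r ((1 + ‖z‖) / 2) hr1 (by linarith)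
  have hd : ∀ x, DifferentiableAt ℝ ψ x := fun x => hψ.smooth.differentiable (by simp) x
  have hdb : ∀ x : ℂ, r < ‖x‖ → dbar ψ x = 0 := by
    intro x hx
    unfold dbar
    rw [fderiv_zero_of hr hx]
    simp
  rw [(hs (dbar ψ) hdb z (by linarith)).2.1]
  have h1 : G.PS ψ =ᶠ[nhds z] fun x => ∑ γ ∈ s, ψ (G.m γ x) := by
    filter_upwards [ev_le hz] with x hx
    exact (hs ψ hr x hx).1
  rw [dbar_congr h1, dbar_sum s (fun γ x => ψ (G.m γ x))]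
  · refine Finset.sum_congr rfl fun γ _ => ?_
    exact dbar_comp (hd _) (G.hasDerivAt_m γ hz)
  · intro γ _
    exact (hψ.smooth.contDiffAt.comp z (m_smooth G γ hz)).differentiableAt (by simp)

theorem dd_PS {ψ : ℂ → ℂ} (hψ : Test ψ) {z : ℂ} (hz : ‖z‖ < 1) : dd (G.PS ψ) z = G.PB (dd ψ) z := by
  obtain ⟨r, hr0, hr1, hr⟩ := hψ.supp
  obtain ⟨s, hs⟩ := G.locfin r ((1 + ‖z‖) / 2) hr1 (by linarith)
  have hd : ∀ x, DifferentiableAt ℝ ψ x := fun x => hψ.smooth.differentiable (by simp) x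
  have hdb : ∀ x : ℂ, r < ‖x‖ → dd ψ x = 0 := by
    intro x hx
    unfold dd
    rw [fderiv_zero_of hr hx]
    simp
  rw [(hs (dd ψ) hdb z (by linarith)).2.2]
  have h1 : G.PS ψ =ᶠ[nhds z] fun x => ∑ γ ∈ s, ψ (G.m γ x) := by
    filter_upwards [ev_le hz] with x hx
    exact (hs ψ hr x hx).1
  rw [dd_congr h1, dd_sum s (fun γ x => ψ (G.m γ x))]
  · refine Finset.sum_congr rfl fun γ _ => ?_
    exact dd_comp (hd _) (G.hasDerivAt_m γ hz)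
  · intro γ _
    exact (hψ.smooth.contDiffAt.comp z (m_smooth G γ hz)).differentiableAt (by simp)

theorem PS_sub {ψ χ : ℂ → ℂ} (hψ : Test ψ) (hχ : Test χ) {z : ℂ} (hz : ‖z‖ < 1) :
    G.PS (fun x => ψ x - χ x) z = G.PS ψ z - G.PS χ z := by
  obtain ⟨r, hr0, hr1, hr⟩ := hψ.supp
  obtain ⟨r', hr0', hr1', hr'⟩ := hχ.supp
  obtain ⟨s, hs⟩ := G.locfin (max r r') ‖z‖ (max_lt hr1 hr1') hz
  rw [(hs ψ (fun x hx => hr x (lt_of_le_of_lt (le_max_left _ _) hx)) z le_rfl).1,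
    (hs χ (fun x hx => hr' x (lt_of_le_of_lt (le_max_right _ _) hx)) z le_rfl).1,
    (hs (fun x => ψ x - χ x) (fun x hx => by
      rw [hr x (lt_of_le_of_lt (le_max_left _ _) hx), hr' x (lt_of_le_of_lt (le_max_right _ _) hx), sub_zero]) z le_rfl).1,
    Finset.sum_sub_distrib]

theorem PS_add {ψ χ : ℂ → ℂ} (hψ : Test ψ) (hχ : Test χ) {z : ℂ} (hz : ‖z‖ < 1) :
    G.PS (fun x => ψ x + χ x) z = G.PS ψ z + G.PS χ z := by
  obtain ⟨r, hr0, hr1, hr⟩ := hψ.supp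
  obtain ⟨r', hr0', hr1', hr'⟩ := hχ.supp
  obtain ⟨s, hs⟩ := G.locfin (max r r') ‖z‖ (max_lt hr1 hr1') hz
  rw [(hs ψ (fun x hx => hr x (lt_of_le_of_lt (le_max_left _ _) hx)) z le_rfl).1,
    (hs χ (fun x hx => hr' x (lt_of_le_of_lt (le_max_right _ _) hx)) z le_rfl).1,
    (hs (fun x => ψ x + χ x) (fun x hx => by
      rw [hr x (lt_of_le_of_lt (le_max_left _ _) hx), hr' x (lt_of_le_of_lt (le_max_right _ _) hx), add_zero]) z le_rfl).1,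
    Finset.sum_add_distrib]

theorem PS_smul {ψ : ℂ → ℂ} (hψ : Test ψ) (c : ℂ) {z : ℂ} (hz : ‖z‖ < 1) :
    G.PS (fun x => c * ψ x) z = c * G.PS ψ z := by
  unfold PS
  rw [tsum_mul_left]

end FG

end Pool.Agent.DimDropF
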