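import Pool.Agent.Lib_MP_644907_f.DIL

/-!
# Piece STAT: the pairing is stationary
-/

set_option autoImplicit false

open Complex MeasureTheory Metric Filter
open scoped ContDiff Topology

namespace Pool.Agent.DimDropF

open Pool.Agent.DimDrop (IsoD)

private theorem stat_phi_cont (φ : ℂ → ℝ) (al C : ℝ) (hal : 0 < al) (hφ : Hol φ al C) :
    Continuous (fun θ : ℝ => φ (circleMap 0 1 θ)) := by
  rw [continuous_iff_continuousAt]
  intro θ
  rw [ContinuousAt, tendsto_iff_norm_sub_tendsto_zero]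
  have hn : ∀ θ : ℝ, ‖circleMap 0 1 θ‖ = 1 := fun θ => by simp
  have h1 : Tendsto (fun θ' => C * ‖circleMap 0 1 θ' - circleMap 0 1 θ‖ ^ al) (𝓝 θ) (𝓝 0) := by
    have h2 : Continuous (fun θ' => C * ‖circleMap 0 1 θ' - circleMap 0 1 θ‖ ^ al) := by
      apply Continuous.mul continuous_const
      apply Continuous.rpow_const
      · exact ((continuous_circleMap 0 1).sub continuous_const).norm
      · intro x
        right
        exact hal.le
    have h3 := h2.tendsto θ
    simp only [sub_self, norm_zero] at h3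
    rw [Real.zero_rpow hal.ne', mul_zero] at h3
    exact h3
  refine squeeze_zero (fun _ => norm_nonneg _) (fun θ' => ?_) h1
  rw [Real.norm_eq_abs]
  exact hφ _ _ (hn _) (hn _)

private theorem stat_II_sub (φ : ℂ → ℝ) (al C : ℝ) (hal : 0 < al) (hφ : Hol φ al C) (f g : ℂ → ℂ)
    (hf : ContinuousOn f (ball 0 1)) (hg : ContinuousOn g (ball 0 1)) (r : ℝ) (hr0 : 0 < r) (hr : r < 1) :
    II φ r (fun z => f z - g z) = II φ r f - II φ r g := by
  have hcm : ∀ θ : ℝ, circleMap 0 r θ ∈ ball (0:ℂ) 1 := by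
    intro θ
    rw [mem_ball_zero_iff, norm_circleMap_zero, abs_of_pos hr0]
    exact hr
  have hi : ∀ f : ℂ → ℂ, ContinuousOn f (ball 0 1) →
      IntervalIntegrable (fun θ : ℝ => f (circleMap 0 r θ) * (φ (circleMap 0 1 θ) : ℂ)) volume 0 (2 * Real.pi) := by
    intro f hf
    apply Continuous.intervalIntegrable
    apply Continuous.mul
    · exact hf.comp_continuous (continuous_circleMap 0 r) hcm
    · exact Complex.continuous_ofReal.comp (stat_phi_cont φ al C hal hφ)
  unfold II
  rw [← intervalIntegral.integral_sub (hi f hf) (hi g hg)]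
  congr 1
  ext θ
  ring

private theorem stat_isoD_maps {h : ℂ → ℂ} (hh : IsoD h) : Set.MapsTo h (ball 0 1) (ball 0 1) := by
  intro z hz
  rw [mem_ball_zero_iff] at hz ⊢
  exact isoD_lt hh hz

private theorem stat_Gr_mono {k : ℂ → ℂ} {B a a' : ℝ} (hB : 0 ≤ B) (haa : a ≤ a') (h : Gr k B a) : Gr k B a' := by
  intro z hz
  refine (h z hz).trans ?_
  apply mul_le_mul_of_nonneg_left _ hB
  apply Real.rpow_le_rpow_of_exponent_ge (by linarith) (by linarith [norm_nonneg z]) (by linarith)

/-- Let `a < a' < al / 2` and `k_m z = k (rho m * z)`, which is continuous on the closed disc. `II φ (rho m) k = II φ 1 k_m = ∑ p i * II φ 1 (k_m ∘ g i)` (`hstat`; `g i` maps the circle to itself)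
`= ∑ p i * LL φ (k_m ∘ g i)` (`LL_cont`; `g i` is continuous on the closed disc and preserves it), and
`|LL φ (k_m ∘ g i) - LL φ (k ∘ g i)| = |LL φ ((k_m - k) ∘ g i)| ≤ K D ε` by `dil_approx`, `Gr.comp`, `LL_bound` for the exponent `a'` (`II` is linear, `LL_tendsto`). Let `m → ∞`. -/
theorem stat {n : ℕ} (p : Fin n → ℝ) (g : Fin n → ℂ → ℂ) (hg : ∀ i, IsoD (g i))
    (φ : ℂ → ℝ) (al C : ℝ) (hal : 0 < al) (hal2 : al ≤ 2) (hC : 0 ≤ C) (hφ : Hol φ al C)
    (hstat : ∀ h : ℂ → ℂ, ContinuousOn h (sphere 0 1) →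
      ∫ θ in (0:ℝ)..(2 * Real.pi), h (circleMap 0 1 θ) * (φ (circleMap 0 1 θ) : ℂ) =
        ∑ i, (p i : ℂ) * ∫ θ in (0:ℝ)..(2 * Real.pi), h (g i (circleMap 0 1 θ)) * (φ (circleMap 0 1 θ) : ℂ))
    (a : ℝ) (ha : 0 < a) (ha2 : a < al / 2) (k : ℂ → ℂ) (B : ℝ) (hk : Hm k) (hB : 0 ≤ B) (hgr : Gr k B a) :
    LL φ k = ∑ i, (p i : ℂ) * LL φ (fun z => k (g i z)) := by
  set a' : ℝ := (a + al / 2) / 2 with ha'
  have haa' : a < a' := by rw [ha']; linarith
  have ha'2 : a' < al / 2 := by rw [ha']; linarith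
  have ha'0 : 0 < a' := ha.trans haa'
  obtain ⟨K, hK0, hK⟩ := LL_bound φ al C hal hal2 hC hφ a' ha'0 ha'2
  have hkc : ContinuousOn k (ball 0 1) := hk.continuousOn
  -- the dilated functions
  set km : ℕ → ℂ → ℂ := fun m z => k (rho m * z) with hkm
  have hmul : ∀ m, ∀ z : ℂ, ‖z‖ ≤ 1 → (rho m : ℂ) * z ∈ ball (0:ℂ) 1 := by
    intro m z hz
    rw [mem_ball_zero_iff, norm_mul, Complex.norm_real, Real.norm_of_nonneg (rho_pos m).le]
    have h1 := rho_pos m
    have h2 := rho_lt m
    nlinarith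
  have hkmc : ∀ m, ContinuousOn (km m) (closedBall 0 1) := by
    intro m
    apply hkc.comp (continuous_const.mul continuous_id).continuousOn
    intro z hz
    exact hmul m z (by simpa using hz)
  have hgle : ∀ i, Set.MapsTo (g i) (closedBall 0 1) (closedBall 0 1) := by
    intro i z hz
    rw [mem_closedBall_zero_iff] at hz ⊢
    exact (hg i).norm_le z hz
  have hkmg : ∀ m i, ContinuousOn (fun z => km m (g i z)) (closedBall 0 1) := by
    intro m i
    exact (hkmc m).comp (isoD_continuousOn (hg i)) (hgle i)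
  -- step 1
  have h1 : ∀ m, II φ (rho m) k = ∑ i, (p i : ℂ) * LL φ (fun z => km m (g i z)) := by
    intro m
    have e1 : II φ (rho m) k = II φ 1 (km m) := by
      unfold II
      congr 1
      ext θ
      simp only [hkm]
      congr 2
      simp [circleMap]
    rw [e1]
    have e2 := hstat (km m) ((hkmc m).mono sphere_subset_closedBall)
    unfold II at *
    rw [e2]
    refine Finset.sum_congr rfl fun i _ => ?_
    congr 1
    have e3 := LL_cont φ al C hal hφ _ (hkmg m i)
    exact (e3.limUnder_eq).symm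
  -- step 2
  have hHm : ∀ m, Hm (fun z => km m z - k z) := by
    intro m
    have hd : DifferentiableOn ℂ (fun z : ℂ => (rho m : ℂ) * z) (ball 0 1) :=
      (differentiable_id.const_mul _).differentiableOn
    have hmt : Set.MapsTo (fun z : ℂ => (rho m : ℂ) * z) (ball 0 1) (ball 0 1) := by
      intro z hz
      exact hmul m z (by simpa using (mem_ball_zero_iff.1 hz).le)
    rcases hk with h | h
    · left
      exact (h.comp hd hmt).sub h
    · right
      have h2 := (h.comp hd hmt).sub h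
      refine h2.congr fun z hz => ?_
      simp [hkm]
  have h2 : ∀ i, Tendsto (fun m => LL φ (fun z => km m (g i z))) atTop (𝓝 (LL φ (fun z => k (g i z)))) := by
    intro i
    obtain ⟨D, hD0, hD⟩ := Gr.comp (hg i) a' ha'0
    rw [Metric.tendsto_atTop]
    intro ε hε
    have hpos : 0 < K * D + 1 := by positivity
    obtain ⟨N, hN⟩ := dil_approx k B a a' hk hB ha haa' hgr (ε / (2 * (K * D + 1))) (by positivity)
    refine ⟨N, fun m hm => ?_⟩
    have hgr2 := hD _ _ (by positivity) (hN m hm)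
    have hb := hK _ _ ((hHm m).comp (hg i)) (by positivity) hgr2
    have hgr3 : Gr (fun z => k (g i z)) (D * B) a' := hD _ _ hB (stat_Gr_mono hB haa'.le hgr)
    have t1 : Tendsto (fun j => II φ (rho j) (fun z => k (g i z))) atTop (𝓝 (LL φ (fun z => k (g i z)))) :=
      LL_tendsto φ al C hal hal2 hC hφ a' ha'0 ha'2 _ (D * B) (hk.comp (hg i)) (by positivity) hgr3
    have t2 := LL_cont φ al C hal hφ _ (hkmg m i)
    have e2 : LL φ (fun z => km m (g i z)) = II φ 1 (fun z => km m (g i z)) := t2.limUnder_eq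
    have t3 := t2.sub t1
    have e3 : LL φ (fun z => km m (g i z) - k (g i z)) = II φ 1 (fun z => km m (g i z)) - LL φ (fun z => k (g i z)) := by
      apply Tendsto.limUnder_eq
      refine t3.congr fun j => ?_
      symm
      apply stat_II_sub φ al C hal hφ _ _ _ _ _ (rho_pos j) (rho_lt j)
      · exact (hkmg m i).mono ball_subset_closedBall
      · exact hkc.comp ((isoD_continuousOn (hg i)).mono ball_subset_closedBall) (stat_isoD_maps (hg i))
    rw [dist_eq_norm, e2, ← e3]
    refine lt_of_le_of_lt hb ?_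
    have h5 : K * (D * (ε / (2 * (K * D + 1)))) = (K * D) / (K * D + 1) * (ε / 2) := by
      field_simp
    rw [h5]
    have h6 : (K * D) / (K * D + 1) ≤ 1 := by
      rw [div_le_one hpos]
      linarith
    nlinarith
  have h3 : Tendsto (fun m => II φ (rho m) k) atTop (𝓝 (LL φ k)) :=
    LL_tendsto φ al C hal hal2 hC hφ a ha ha2 k B hk hB hgr
  have h4 : Tendsto (fun m => ∑ i, (p i : ℂ) * LL φ (fun z => km m (g i z))) atTop
      (𝓝 (∑ i, (p i : ℂ) * LL φ (fun z => k (g i z)))) :=
    tendsto_finsetSum _ fun i _ => (h2 i).const_mul _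
  have h5 : (fun m => II φ (rho m) k) = fun m => ∑ i, (p i : ℂ) * LL φ (fun z => km m (g i z)) := funext h1
  rw [h5] at h3
  exact tendsto_nhds_unique h3 h4

end Pool.Agent.DimDropF
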