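import Pool.Agent.Lib_MP_644907_f.FD

/-!
# Piece UNF: unfolding
-/

set_option autoImplicit false

open Complex MeasureTheory Metric
open scoped ContDiff

namespace Pool.Agent.DimDropF

namespace FG

variable {Γ : Type} [Group Γ] (G : FG Γ)

private theorem det_aux (L : ℂ →L[ℝ] ℂ) (c : ℂ) (h : ∀ z, L z = c * z) : |L.det| = ‖c‖ ^ 2 := by
  have e : ((L : ℂ →L[ℝ] ℂ) : ℂ →ₗ[ℝ] ℂ) = Algebra.lmul ℝ ℂ c := by
    apply LinearMap.ext
    intro z
    show L z = _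
    rw [h z]
    rfl
  have e2 : L.det = ‖c‖ ^ 2 := by
    show LinearMap.det ((L : ℂ →L[ℝ] ℂ) : ℂ →ₗ[ℝ] ℂ) = _
    rw [e, ← Algebra.norm_apply, Algebra.norm_complex_apply, Complex.normSq_eq_norm_sq]
  rw [e2, abs_of_nonneg (sq_nonneg _)]

private theorem fd_aux (γ : Γ) : ∃ f' : ℂ → ℂ →L[ℝ] ℂ,
    (∀ z, ‖z‖ < 1 → HasFDerivAt (G.m γ) (f' z) z) ∧ (∀ z, ‖z‖ < 1 → |(f' z).det| = ‖G.d γ z‖ ^ 2) := by
  refine ⟨fun z => fderiv ℝ (G.m γ) z, fun z hz => ?_, fun z hz => ?_⟩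
  · exact ((G.hasDerivAt_m γ hz).hasFDerivAt.restrictScalars ℝ).differentiableAt.hasFDerivAt
  · apply det_aux
    intro w
    show fderiv ℝ (G.m γ) z w = _
    rw [((G.hasDerivAt_m γ hz).hasFDerivAt.restrictScalars ℝ).fderiv]
    simp [mul_comm]

/-- change of variables (`lintegral_image_eq_lintegral_abs_det_fderiv_mul`); the real determinant of the multiplication by `c` is `|c|^2` -/
theorem lintegral_image (γ : Γ) (s : Set ℂ) (hs : MeasurableSet s) (hs1 : s ⊆ ball 0 1) (Φ : ℂ → ENNReal) :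
    ∫⁻ z in G.m γ '' s, Φ z = ∫⁻ z in s, ENNReal.ofReal (‖G.d γ z‖ ^ 2) * Φ (G.m γ z) := by
  obtain ⟨f', h1, h2⟩ := fd_aux G γ
  have hlt : ∀ z ∈ s, ‖z‖ < 1 := fun z hz => mem_ball_zero_iff.1 (hs1 hz)
  rw [lintegral_image_eq_lintegral_abs_det_fderiv_mul volume hs
    (fun z hz => (h1 z (hlt z hz)).hasFDerivWithinAt) ((G.injOn γ).mono hs1) Φ]
  apply setLIntegral_congr_fun hs
  intro z hz
  simp only [h2 z (hlt z hz)]

/-- the same for the Bochner integral (`integral_image_eq_integral_abs_det_fderiv_smul`) -/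
theorem integral_image (γ : Γ) (s : Set ℂ) (hs : MeasurableSet s) (hs1 : s ⊆ ball 0 1) (Φ : ℂ → ℂ) :
    ∫ z in G.m γ '' s, Φ z = ∫ z in s, ((‖G.d γ z‖ ^ 2 : ℝ) : ℂ) * Φ (G.m γ z) := by
  obtain ⟨f', h1, h2⟩ := fd_aux G γ
  have hlt : ∀ z ∈ s, ‖z‖ < 1 := fun z hz => mem_ball_zero_iff.1 (hs1 hz)
  rw [integral_image_eq_integral_abs_det_fderiv_smul volume hs
    (fun z hz => (h1 z (hlt z hz)).hasFDerivWithinAt) ((G.injOn γ).mono hs1) Φ]
  apply setIntegral_congr_fun hs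
  intro z hz
  simp only [h2 z (hlt z hz), Complex.real_smul]

private theorem integrableOn_image (γ : Γ) (s : Set ℂ) (hs : MeasurableSet s) (hs1 : s ⊆ ball 0 1) (Φ : ℂ → ℂ)
    (h : IntegrableOn Φ (G.m γ '' s)) :
    IntegrableOn (fun z => ((‖G.d γ z‖ ^ 2 : ℝ) : ℂ) * Φ (G.m γ z)) s := by
  obtain ⟨f', h1, h2⟩ := fd_aux G γ
  have hlt : ∀ z ∈ s, ‖z‖ < 1 := fun z hz => mem_ball_zero_iff.1 (hs1 hz)
  rw [integrableOn_image_iff_integrableOn_abs_det_fderiv_smul volume hs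
    (fun z hz => (h1 z (hlt z hz)).hasFDerivWithinAt) ((G.injOn γ).mono hs1) Φ] at h
  refine h.congr_fun ?_ hs
  intro z hz
  simp only [h2 z (hlt z hz), Complex.real_smul]

/-- `lintegral_iUnion` with `iUnion_FD`, `disj_FD`, `image_meas` (no measurability of `Φ` is needed) -/
theorem unfold (Φ : ℂ → ENNReal) :
    ∫⁻ z in ball (0:ℂ) 1, Φ z = ∑' γ, ∫⁻ z in G.FD, ENNReal.ofReal (‖G.d γ z‖ ^ 2) * Φ (G.m γ z) := by
  have := G.countableG
  rw [← G.iUnion_FD, lintegral_iUnion (fun γ => G.image_meas γ) G.disj_FD]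
  apply tsum_congr
  intro γ
  exact G.lintegral_image γ G.FD G.FD_meas (fun z hz => mem_ball_zero_iff.2 (G.FD_lt hz)) Φ

/-- For `z ∈ FD` the sum is a finite sum over a fixed `Finset` (`finite2 r' G.r`), outside of it also the integrals over `m γ '' FD` of `α B` vanish.
`∫_disc α B = ∑ γ ∫_{m γ '' FD} α B = ∑ γ ∫_FD |d γ z|^2 α (m γ z) B (m γ z) = ∑ γ ∫_FD α (m γ z) κ γ z B z`. -/
theorem unfB (r' : ℝ) (hr' : r' < 1) (κ : Γ → ℂ → ℂ) (α B : ℂ → ℂ) (hα : ∀ z : ℂ, r' < ‖z‖ → α z = 0)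
    (hint : IntegrableOn (fun z => α z * B z) (ball 0 1))
    (hB : ∀ γ, ∀ z : ℂ, ‖z‖ < 1 → B (G.m γ z) * ((‖G.d γ z‖ ^ 2 : ℝ) : ℂ) = κ γ z * B z) :
    ∫ z in G.FD, (∑' γ, α (G.m γ z) * κ γ z) * B z = ∫ z in ball (0:ℂ) 1, α z * B z := by
  classical
  have := G.countableG
  have hsub : G.FD ⊆ ball 0 1 := fun z hz => mem_ball_zero_iff.2 (G.FD_lt hz)
  have hfin := G.finite2 r' G.r hr' G.r1
  set F : Finset Γ := hfin.toFinset with hF
  have hzero : ∀ γ, γ ∉ F → ∀ z ∈ G.FD, α (G.m γ z) = 0 := by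
    intro γ hγ z hz
    apply hα
    by_contra hlt
    apply hγ
    rw [hF, Set.Finite.mem_toFinset]
    exact ⟨z, hz.1, not_lt.1 hlt⟩
  have hpt : ∀ γ, ∀ z ∈ G.FD, ((‖G.d γ z‖ ^ 2 : ℝ) : ℂ) * (α (G.m γ z) * B (G.m γ z))
      = α (G.m γ z) * κ γ z * B z := by
    intro γ z hz
    have := hB γ z (G.FD_lt hz)
    linear_combination α (G.m γ z) * this
  have hterm : ∀ γ, ∫ z in G.m γ '' G.FD, α z * B z = ∫ z in G.FD, α (G.m γ z) * κ γ z * B z := by
    intro γ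
    rw [G.integral_image γ G.FD G.FD_meas hsub (fun z => α z * B z)]
    exact setIntegral_congr_fun G.FD_meas (fun z hz => hpt γ z hz)
  have hint' : ∀ γ, IntegrableOn (fun z => α (G.m γ z) * κ γ z * B z) G.FD := by
    intro γ
    have h1 : IntegrableOn (fun z => α z * B z) (G.m γ '' G.FD) := by
      apply hint.mono_set
      rw [← G.iUnion_FD]
      exact Set.subset_iUnion (fun γ => G.m γ '' G.FD) γ
    exact (integrableOn_image G γ G.FD G.FD_meas hsub _ h1).congr_fun (fun z hz => hpt γ z hz) G.FD_meas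
  calc ∫ z in G.FD, (∑' γ, α (G.m γ z) * κ γ z) * B z
      = ∫ z in G.FD, ∑ γ ∈ F, α (G.m γ z) * κ γ z * B z := by
        apply setIntegral_congr_fun G.FD_meas
        intro z hz
        show (∑' γ, α (G.m γ z) * κ γ z) * B z = ∑ γ ∈ F, α (G.m γ z) * κ γ z * B z
        rw [tsum_eq_sum (s := F) (fun γ hγ => by rw [hzero γ hγ z hz, zero_mul]), Finset.sum_mul]
    _ = ∑ γ ∈ F, ∫ z in G.FD, α (G.m γ z) * κ γ z * B z := integral_finset_sum F (fun γ _ => hint' γ)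
    _ = ∑' γ, ∫ z in G.m γ '' G.FD, α z * B z := by
        rw [tsum_eq_sum (s := F)]
        · exact Finset.sum_congr rfl (fun γ _ => (hterm γ).symm)
        · intro γ hγ
          rw [hterm γ]
          have : ∀ z ∈ G.FD, α (G.m γ z) * κ γ z * B z = 0 := by
            intro z hz
            rw [hzero γ hγ z hz, zero_mul, zero_mul]
          rw [setIntegral_congr_fun (g := fun _ => (0:ℂ)) G.FD_meas this]
          simp
    _ = ∫ z in ball (0:ℂ) 1, α z * B z := by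
        rw [← G.iUnion_FD, integral_iUnion (fun γ => G.image_meas γ) G.disj_FD (by rw [G.iUnion_FD]; exact hint)]

end FG

end Pool.Agent.DimDropF
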